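import Mathlib

open Set Filter Topology

noncomputable section

namespace Pool.Agent.Helper10.UC


/-! ### projective space and projective varieties -/

open scoped LinearAlgebra.Projectivization

/-- the projective space `P(ℂ^ι)` -/
abbrev PP (ι : Type) := ℙ ℂ (ι → ℂ)

/-- the quotient topology on projective space -/
instance instTopPP (ι : Type) : TopologicalSpace (PP ι) :=
  TopologicalSpace.coinduced
    (fun v : {v : ι → ℂ // v ≠ 0} => Projectivization.mk ℂ v.1 v.2) inferInstance

/-- the common zero set in `P(ℂ^ι)` of a set of (homogeneous) polynomials -/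
def zeroLocus {ι : Type} (F : Set (MvPolynomial ι ℂ)) : Set (PP ι) :=
  {x | ∀ f ∈ F, MvPolynomial.eval x.rep f = 0}

/-- the affine cone (without the origin) over a subset of projective space -/
def affCone {ι : Type} (V : Set (PP ι)) : Set (ι → ℂ) :=
  {v | ∃ hv : v ≠ 0, Projectivization.mk ℂ v hv ∈ V}

/-- `V ⊂ P(ℂ^ι)` is a complex submanifold of dimension `d`: near each of its points, the affine cone
of `V` is the zero set of a holomorphic submersion onto a complex vector space of dimension
`|ι| - (d + 1)`. -/
def IsComplexSubmanifold {ι : Type} [Fintype ι] (V : Set (PP ι)) (d : ℕ) : Prop :=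
  ∀ v ∈ affCone V, ∃ (G : Type) (_ : NormedAddCommGroup G) (_ : NormedSpace ℂ G)
    (_ : FiniteDimensional ℂ G) (g : (ι → ℂ) → G),
    Module.finrank ℂ G + (d + 1) = Fintype.card ι ∧ AnalyticAt ℂ g v ∧
    Function.Surjective (fderiv ℂ g v) ∧ ∀ᶠ z in 𝓝 v, (z ∈ affCone V ↔ g z = 0)

/-- compact algebraic manifold of dimension `d`: a connected smooth projective variety, i.e.
a connected complex submanifold of a projective space which is the zero set of homogeneous
polynomials. -/
structure IsCompactAlgebraicManifold {ι : Type} [Fintype ι] (V : Set (PP ι)) (d : ℕ) : Prop where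
  algebraic : ∃ F : Set (MvPolynomial ι ℂ), (∀ f ∈ F, ∃ n, f.IsHomogeneous n) ∧ V = zeroLocus F
  connected : IsConnected V
  smooth : IsComplexSubmanifold V d

/-- holomorphic maps between projective spaces: locally given by `[F_0 : ... : F_m]` with
holomorphic `F_i` without common zero. -/
def IsHol {ι κ : Type} [Fintype ι] [Fintype κ] (f : PP ι → PP κ) : Prop :=
  ∀ v : ι → ℂ, v ≠ 0 → ∃ F : (ι → ℂ) → (κ → ℂ), AnalyticAt ℂ F v ∧
    ∀ᶠ z in 𝓝 v, ∃ (hz : z ≠ 0) (hF : F z ≠ 0),
      f (Projectivization.mk ℂ z hz) = Projectivization.mk ℂ (F z) hF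

/-- `V` contains no rational curve: every holomorphic map from the projective line to `V` is
constant -/
def NoRationalCurve {ι : Type} [Fintype ι] (V : Set (PP ι)) : Prop :=
  ∀ f : PP (Fin 2) → PP ι, IsHol f → (∀ x, f x ∈ V) → ∃ c, ∀ x, f x = c


end Pool.Agent.Helper10.UC
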