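import Mathlib
import Pool.Agent.Helper10.UC.Defs

open Set Filter Topology
open scoped LinearAlgebra.Projectivization

noncomputable section

namespace Pool.Agent.Helper10.UC

/-! ### chains on finite lists of points -/

/-- real chains of finite lists of points -/
abbrev Ch (X : Type*) := List X →₀ ℝ

/-- the cone operator: put `x` in front of every list. -/
def cone {X : Type*} (x : X) : Ch X →ₗ[ℝ] Ch X := Finsupp.lmapDomain ℝ ℝ (List.cons x)

/-- boundary of a list (alternating sum of the lists with one entry removed) -/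
def bdl {X : Type*} : List X → Ch X
  | [] => 0
  | x :: l => Finsupp.single l 1 - cone x (bdl l)

/-- (augmented) boundary operator: `bd c = ∑ c(l) • bdl l` -/
def bd {X : Type*} : Ch X →ₗ[ℝ] Ch X := Finsupp.linearCombination ℝ (bdl (X := X))

/-- push forward of chains -/
def push {X Y : Type*} (f : X → Y) : Ch X →ₗ[ℝ] Ch Y := Finsupp.lmapDomain ℝ ℝ (List.map f)

/-- lists of length `n`, all of whose entries lie in `U`, with pairwise distances `< μ` -/
def Sml {X : Type*} [PseudoMetricSpace X] (n : ℕ) (U : Set X) (μ : ℝ) : Set (List X) :=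
  {l | l.length = n ∧ (∀ x ∈ l, x ∈ U) ∧ ∀ x ∈ l, ∀ y ∈ l, dist x y < μ}

/-- chains supported on such lists -/
def FC {X : Type*} [PseudoMetricSpace X] (n : ℕ) (U : Set X) (μ : ℝ) : Submodule ℝ (Ch X) :=
  Finsupp.supported ℝ ℝ (Sml n U μ)

/-- pairing of a cochain (function on lists) with a chain -/
def pair {X : Type*} (z : List X → ℝ) : Ch X →ₗ[ℝ] ℝ := Finsupp.linearCombination ℝ z

/-- a function of three variables as a cochain on lists -/
def coch {X : Type*} (f : X → X → X → ℝ) : List X → ℝ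
  | [x, y, z] => f x y z
  | _ => 0

/-- local acyclicity for fine chains: small fine cycles bound fine chains nearby -/
def LFA (X : Type*) [MetricSpace X] : Prop :=
  ∀ (n : ℕ) (r : ℝ), 0 < r → ∃ r' > 0, ∀ μ > 0, ∃ μ' > 0, ∀ x : X,
    ∀ z ∈ FC n (Metric.ball x r') μ', bd z = 0 → ∃ c ∈ FC (n + 1) (Metric.ball x r) μ, bd c = z

theorem bd_single {X : Type*} (l : List X) (a : ℝ) : bd (Finsupp.single l a) = a • bdl l := by
  simp [bd, Finsupp.linearCombination_single]

theorem bd_cone {X : Type*} (x : X) (c : Ch X) : bd (cone x c) = c - cone x (bd c) := by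
  induction c using Finsupp.induction_linear with
  | zero => simp
  | add f g hf hg => simp only [map_add, hf, hg]; abel
  | single l a =>
    have h : cone x (Finsupp.single l a) = Finsupp.single (x :: l) a := by
      simp [cone, Finsupp.lmapDomain_apply, Finsupp.mapDomain_single]
    rw [h, bd_single, bd_single, bdl, smul_sub, map_smul]
    congr 1
    simp

theorem bd_bd {X : Type*} (c : Ch X) : bd (bd c) = 0 := by
  induction c using Finsupp.induction_linear with
  | zero => simp
  | add f g hf hg => simp only [map_add, hf, hg, add_zero]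
  | single l a =>
    rw [bd_single, map_smul]
    have : bd (bdl l) = 0 := by
      induction l with
      | nil => simp [bdl]
      | cons x l ih => rw [bdl, map_sub, bd_single, bd_cone, ih]; simp
    rw [this, smul_zero]

theorem push_cone {X Y : Type*} (f : X → Y) (x : X) (c : Ch X) :
    push f (cone x c) = cone (f x) (push f c) := by
  induction c using Finsupp.induction_linear with
  | zero => simp
  | add g h hg hh => simp only [map_add, hg, hh]
  | single l a => simp [push, cone, Finsupp.lmapDomain_apply, Finsupp.mapDomain_single]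

theorem push_bd {X Y : Type*} (f : X → Y) (c : Ch X) : push f (bd c) = bd (push f c) := by
  induction c using Finsupp.induction_linear with
  | zero => simp
  | add g h hg hh => simp only [map_add, hg, hh]
  | single l a =>
    have h : push f (Finsupp.single l a) = Finsupp.single (l.map f) a := by
      simp [push, Finsupp.lmapDomain_apply, Finsupp.mapDomain_single]
    rw [h, bd_single, bd_single, map_smul]
    congr 1
    induction l with
    | nil => simp [bdl]
    | cons x l ih =>
      rw [List.map_cons, bdl, bdl, map_sub, push_cone, ih]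
      · congr 1
        simp [push, Finsupp.lmapDomain_apply, Finsupp.mapDomain_single]
      · simp [push, Finsupp.lmapDomain_apply, Finsupp.mapDomain_single]

/-! ### the unit sphere in `ℝ³` -/

abbrev V3 := ℝ × ℝ × ℝ

def dot (p q : V3) : ℝ := p.1 * q.1 + p.2.1 * q.2.1 + p.2.2 * q.2.2

def crs (p q : V3) : V3 :=
  (p.2.1 * q.2.2 - p.2.2 * q.2.1, p.2.2 * q.1 - p.1 * q.2.2, p.1 * q.2.1 - p.2.1 * q.1)

/-- `1 + p·q + q·r + r·p + i det(p,q,r)`; its argument is half the signed area of the geodesic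
triangle `pqr` -/
def TT (p q r : V3) : ℂ := ⟨1 + dot p q + dot q r + dot r p, dot p (crs q r)⟩

def sa (p q r : V3) : ℝ := Complex.arg (TT p q r)

/-- the unit sphere -/
abbrev S2 := {p : V3 // dot p p = 1}

/-- pairs of points of the sphere near the antidiagonal -/
abbrev DD (c : ℝ) := {q : S2 × S2 // dot q.1.1 q.2.1 < c}

theorem continuous_dot : Continuous (fun p : V3 × V3 => dot p.1 p.2) := by
  unfold dot; fun_prop

theorem continuous_crs : Continuous (fun p : V3 × V3 => crs p.1 p.2) := by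
  unfold crs; fun_prop

/-! ### the surface -/

/-- index set of the homogeneous coordinates `T i j` (`some (i, j)`) and `w` (`none`) of `P^16` -/
abbrev Ix := Option (Fin 4 × Fin 4)

open MvPolynomial in
/-- the equations of the surface `M ⊂ P^16` -/
def eqsM : Set (MvPolynomial Ix ℂ) :=
  {f | ∃ i j k l : Fin 4, f = X (some (i, j)) * X (some (k, l)) - X (some (i, l)) * X (some (k, j))} ∪
  {f | ∃ j l : Fin 4, f = X (some (2, j)) * X (some (2, l)) -
    (C 2 * (X (some (0, j)) * X (some (0, l))) + X (some (1, j)) * X (some (1, l)))} ∪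
  {f | ∃ j l : Fin 4, f = X (some (3, j)) * X (some (3, l)) -
    (C 3 * (X (some (0, j)) * X (some (0, l))) + X (some (1, j)) * X (some (1, l)))} ∪
  {f | ∃ i k : Fin 4, f = X (some (i, 2)) * X (some (k, 2)) -
    (C 2 * (X (some (i, 0)) * X (some (k, 0))) + X (some (i, 1)) * X (some (k, 1)))} ∪
  {f | ∃ i k : Fin 4, f = X (some (i, 3)) * X (some (k, 3)) -
    (C 3 * (X (some (i, 0)) * X (some (k, 0))) + X (some (i, 1)) * X (some (k, 1)))} ∪
  {X none ^ 2 - (X (some (1, 1)) ^ 2 - C 3 * X (some (0, 1)) ^ 2 - C 3 * X (some (1, 0)) ^ 2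
    - C 7 * X (some (0, 0)) ^ 2)}

/-- the surface `M` -/
def MM : Set (PP Ix) := zeroLocus eqsM

/-- the cone over the elliptic curve `c² = 2a² + b²`, `d² = 3a² + b²` in `P³` -/
def EC (a : Fin 4 → ℂ) : Prop :=
  a 2 ^ 2 = 2 * a 0 ^ 2 + a 1 ^ 2 ∧ a 3 ^ 2 = 3 * a 0 ^ 2 + a 1 ^ 2

/-- the function of which `w` is the square root -/
def GG (a b : Fin 4 → ℂ) : ℂ :=
  (a 1 * b 1) ^ 2 - 3 * (a 0 * b 1) ^ 2 - 3 * (a 1 * b 0) ^ 2 - 7 * (a 0 * b 0) ^ 2

/-- the vector with `T = a ⊗ b` and last coordinate `w` -/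
def seg (a b : Fin 4 → ℂ) (w : ℂ) : Ix → ℂ
  | none => w
  | some (i, j) => a i * b j

/-- the argument of `TT p q r` lies in `(-π/4, π/4)` -/
def Gd (p q r : V3) : Prop := |(TT p q r).im| < (TT p q r).re

/-- primitive of `sa a₀ a₁ a₂ - sa b₀ b₁ b₂` away from the antidiagonal -/
def be (a a' b b' : V3) : ℝ := sa a a' b' - sa a b b'

/-- fourteen local equations of the cone over `M` near a vector with `T i j ≠ 0` -/
def gM (i j : Fin 4) (v : Ix → ℂ) : (Fin 3 × Fin 3 → ℂ) × (ℂ × ℂ) × (ℂ × ℂ) × ℂ :=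
  (fun q => v (some (i, j)) * v (some (i.succAbove q.1, j.succAbove q.2)) -
      v (some (i, j.succAbove q.2)) * v (some (i.succAbove q.1, j)),
    (v (some (2, j)) ^ 2 - 2 * v (some (0, j)) ^ 2 - v (some (1, j)) ^ 2,
      v (some (3, j)) ^ 2 - 3 * v (some (0, j)) ^ 2 - v (some (1, j)) ^ 2),
    (v (some (i, 2)) ^ 2 - 2 * v (some (i, 0)) ^ 2 - v (some (i, 1)) ^ 2,
      v (some (i, 3)) ^ 2 - 3 * v (some (i, 0)) ^ 2 - v (some (i, 1)) ^ 2),
    v none ^ 2 - (v (some (1, 1)) ^ 2 - 3 * v (some (0, 1)) ^ 2 - 3 * v (some (1, 0)) ^ 2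
      - 7 * v (some (0, 0)) ^ 2))

/-- the differential of `gM` -/
def dgM (i j : Fin 4) (v δ : Ix → ℂ) : (Fin 3 × Fin 3 → ℂ) × (ℂ × ℂ) × (ℂ × ℂ) × ℂ :=
  (fun q => v (some (i, j)) * δ (some (i.succAbove q.1, j.succAbove q.2)) +
      δ (some (i, j)) * v (some (i.succAbove q.1, j.succAbove q.2)) -
      (v (some (i, j.succAbove q.2)) * δ (some (i.succAbove q.1, j)) +
        δ (some (i, j.succAbove q.2)) * v (some (i.succAbove q.1, j))),
    (2 * v (some (2, j)) * δ (some (2, j)) - 4 * v (some (0, j)) * δ (some (0, j)) -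
        2 * v (some (1, j)) * δ (some (1, j)),
      2 * v (some (3, j)) * δ (some (3, j)) - 6 * v (some (0, j)) * δ (some (0, j)) -
        2 * v (some (1, j)) * δ (some (1, j))),
    (2 * v (some (i, 2)) * δ (some (i, 2)) - 4 * v (some (i, 0)) * δ (some (i, 0)) -
        2 * v (some (i, 1)) * δ (some (i, 1)),
      2 * v (some (i, 3)) * δ (some (i, 3)) - 6 * v (some (i, 0)) * δ (some (i, 0)) -
        2 * v (some (i, 1)) * δ (some (i, 1))),
    2 * v none * δ none - (2 * v (some (1, 1)) * δ (some (1, 1)) -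
      6 * v (some (0, 1)) * δ (some (0, 1)) - 6 * v (some (1, 0)) * δ (some (1, 0)) -
      14 * v (some (0, 0)) * δ (some (0, 0))))

/-- parameters `(a, b, w)` of the cone over `M` -/
def CM : Set ((Fin 4 → ℂ) × (Fin 4 → ℂ) × ℂ) :=
  {q | q.1 ≠ 0 ∧ q.2.1 ≠ 0 ∧ EC q.1 ∧ EC q.2.1 ∧ q.2.2 ^ 2 = GG q.1 q.2.1}

/-- holomorphic maps from `ℂ` to a projective space -/
def HolC {κ : Type} [Fintype κ] (α : ℂ → PP κ) : Prop :=
  ∀ t : ℂ, ∃ v : ℂ → (κ → ℂ), AnalyticAt ℂ v t ∧
    ∀ᶠ s in 𝓝 t, ∃ h : v s ≠ 0, α s = Projectivization.mk ℂ (v s) h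

end Pool.Agent.Helper10.UC
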