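import Mathlib
import Pool.Agent.Helper10.UC.Base

open Set Filter Topology
open scoped LinearAlgebra.Projectivization

noncomputable section

namespace Pool.Agent.Helper10.UC

namespace J_contr_piece


-- TARGET: prove this

private theorem dot_comb (s t : ℝ) (a b : V3) :
    dot (s • b + t • a) (s • b + t • a) = s ^ 2 * dot b b + t ^ 2 * dot a a
      + 2 * s * t * dot a b := by
  simp only [dot, Prod.fst_add, Prod.snd_add, Prod.smul_fst, Prod.smul_snd, smul_eq_mul]; ring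

private theorem dot_comb_r (s t : ℝ) (a b p : V3) :
    dot p (s • b + t • a) = s * dot p b + t * dot p a := by
  simp only [dot, Prod.fst_add, Prod.snd_add, Prod.smul_fst, Prod.smul_snd, smul_eq_mul]; ring

private theorem dot_smul_r (s : ℝ) (p q : V3) : dot p (s • q) = s * dot p q := by
  simp only [dot, Prod.smul_fst, Prod.smul_snd, smul_eq_mul]; ring

private theorem dot_smul_l (s : ℝ) (p q : V3) : dot (s • p) q = s * dot p q := by
  simp only [dot, Prod.smul_fst, Prod.smul_snd, smul_eq_mul]; ring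

private theorem dot_neg_r (p q : V3) : dot p (-q) = -dot p q := by
  simp only [dot, Prod.fst_neg, Prod.snd_neg]; ring

private theorem dot_neg_l (p q : V3) : dot (-p) q = -dot p q := by
  simp only [dot, Prod.fst_neg, Prod.snd_neg]; ring

private theorem dot_comm' (p q : V3) : dot p q = dot q p := by
  simp only [dot]; ring

private theorem dot_self_nonneg (p : V3) : 0 ≤ dot p p := by
  simp only [dot]; nlinarith [sq_nonneg p.1, sq_nonneg p.2.1, sq_nonneg p.2.2]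

private theorem dot_self_eq {p : V3} (h : dot p p = 0) : p = 0 := by
  simp only [dot] at h
  have h1 : p.1 = 0 := by nlinarith [sq_nonneg p.1, sq_nonneg p.2.1, sq_nonneg p.2.2]
  have h2 : p.2.1 = 0 := by nlinarith [sq_nonneg p.1, sq_nonneg p.2.1, sq_nonneg p.2.2]
  have h3 : p.2.2 = 0 := by nlinarith [sq_nonneg p.1, sq_nonneg p.2.1, sq_nonneg p.2.2]
  exact Prod.ext h1 (Prod.ext h2 h3)

/-- normalisation of a vector -/
private def nrm (v : V3) : V3 := (√(dot v v))⁻¹ • v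

private theorem dot_nrm_r (p v : V3) : dot p (nrm v) = (√(dot v v))⁻¹ * dot p v := by
  unfold nrm; rw [dot_smul_r]

private theorem nrm_dot {v : V3} (h : 0 < dot v v) : dot (nrm v) (nrm v) = 1 := by
  unfold nrm
  rw [dot_smul_l, dot_smul_r, ← mul_assoc, ← mul_inv, Real.mul_self_sqrt h.le,
    inv_mul_cancel₀ h.ne']

private theorem nrm_unit {v : V3} (h : dot v v = 1) : nrm v = v := by
  unfold nrm; rw [h]; simp

private theorem nrm_cont {X : Type*} [TopologicalSpace X] {v : X → V3} (hv : Continuous v)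
    (h : ∀ x, 0 < dot (v x) (v x)) : Continuous (fun x => nrm (v x)) := by
  unfold nrm
  refine Continuous.smul (Continuous.inv₀ (Real.continuous_sqrt.comp
    (continuous_dot.comp (hv.prodMk hv))) (fun x => ?_)) hv
  exact (Real.sqrt_pos.2 (h x)).ne'

private theorem dot_ge (a b : V3) (ha : dot a a = 1) (hb : dot b b = 1) : -1 ≤ dot a b := by
  have h := dot_self_nonneg ((1:ℝ) • b + (1:ℝ) • a)
  rw [dot_comb] at h
  linarith

private theorem comb_pos {d t : ℝ} (hd : d < 1) (ht0 : 0 ≤ t) (ht1 : t ≤ 1) :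
    0 < (1 - t) ^ 2 * 1 + (-t) ^ 2 * 1 + 2 * (1 - t) * (-t) * d := by
  have e : (1 - t) ^ 2 * 1 + (-t) ^ 2 * 1 + 2 * (1 - t) * (-t) * d
      = (1 - 2 * t) ^ 2 + 2 * (t * (1 - t)) * (1 - d) := by ring
  rw [e]
  rcases eq_or_lt_of_le ht0 with h | h
  · subst h; norm_num
  rcases eq_or_lt_of_le ht1 with h' | h'
  · subst h'; norm_num
  have h1 : 0 < t * (1 - t) := mul_pos h (by linarith)
  have h2 : 0 < 2 * (t * (1 - t)) * (1 - d) := mul_pos (by linarith) (by linarith)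
  nlinarith [sq_nonneg (1 - 2 * t)]

private theorem arc_le {d t n : ℝ} (hd0 : -1 ≤ d) (hd : d < 1) (ht0 : 0 ≤ t) (ht1 : t ≤ 1)
    (hn : 0 ≤ n) (hn2 : n ^ 2 = (1 - t) ^ 2 * 1 + (-t) ^ 2 * 1 + 2 * (1 - t) * (-t) * d) :
    (1 - t) * d + (-t) * 1 ≤ d * n := by
  rcases le_total 0 d with h | h
  · have h1 : (1 - t) - t * d ≤ n := by
      apply abs_le_of_sq_le_sq' _ hn |>.2
      rw [hn2]
      nlinarith [mul_nonneg (sq_nonneg t) (show 0 ≤ (1 - d) * (1 + d) by nlinarith)]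
    nlinarith [mul_le_mul_of_nonneg_left h1 h, mul_nonneg ht0 (show 0 ≤ (1 - d) * (1 + d) by nlinarith)]
  · have h1 : n ≤ 1 := by
      have : n ^ 2 ≤ 1 := by
        rw [hn2]
        nlinarith [mul_nonneg (mul_nonneg ht0 (by linarith : 0 ≤ 1 - t)) (by linarith : 0 ≤ 1 + d)]
      nlinarith
    nlinarith [mul_nonneg ht0 (by linarith : 0 ≤ 1 + d), mul_nonneg (neg_nonneg.2 h) (by linarith : 0 ≤ 1 - n)]

private theorem comb_pos' {d t : ℝ} (hd : -1 < d) (ht0 : 0 ≤ t) (ht1 : t ≤ 1) :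
    0 < (1 - t) ^ 2 * 1 + t ^ 2 * 1 + 2 * (1 - t) * t * d := by
  have h := comb_pos (d := -d) (t := t) (by linarith) ht0 ht1
  nlinarith

/-- the space of the statement -/
private abbrev YY (c : ℝ) (P : S2) := {q : DD c // q.1.1.1 ≠ -P.1}

private def mkY {c : ℝ} {P : S2} (a b : V3) (ha : dot a a = 1) (hb : dot b b = 1)
    (hab : dot a b < c) (hP : a ≠ -P.1) : YY c P := ⟨⟨(⟨a, ha⟩, ⟨b, hb⟩), hab⟩, hP⟩

private theorem mkY_cont {c : ℝ} {P : S2} {X : Type*} [TopologicalSpace X] {a b : X → V3}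
    (ha : ∀ x, dot (a x) (a x) = 1) (hb : ∀ x, dot (b x) (b x) = 1)
    (hab : ∀ x, dot (a x) (b x) < c) (hP : ∀ x, a x ≠ -P.1) (hac : Continuous a)
    (hbc : Continuous b) :
    Continuous (fun x => (mkY (a x) (b x) (ha x) (hb x) (hab x) (hP x) : YY c P)) := by
  unfold mkY
  exact Continuous.subtype_mk (Continuous.subtype_mk
    ((Continuous.subtype_mk hac _).prodMk (Continuous.subtype_mk hbc _)) _) _

private theorem mkY_ext {c : ℝ} {P : S2} {x y : YY c P} (h1 : x.1.1.1.1 = y.1.1.1.1)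
    (h2 : x.1.1.2.1 = y.1.1.2.1) : x = y :=
  Subtype.ext (Subtype.ext (Prod.ext (Subtype.ext h1) (Subtype.ext h2)))

private theorem Y_dot_lt {c : ℝ} {P : S2} (hc1 : c ≤ 1) (y : YY c P) :
    dot y.1.1.1.1 y.1.1.2.1 < 1 := lt_of_lt_of_le y.1.2 hc1

private theorem Y_dot_P {c : ℝ} {P : S2} (y : YY c P) : -1 < dot y.1.1.1.1 P.1 := by
  have h0 := dot_ge y.1.1.1.1 P.1 y.1.1.1.2 P.2
  refine lt_of_le_of_ne h0 (fun h => y.2 ?_)
  have h1 : dot ((1:ℝ) • P.1 + (1:ℝ) • y.1.1.1.1) ((1:ℝ) • P.1 + (1:ℝ) • y.1.1.1.1) = 0 := by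
    rw [dot_comb, P.2, y.1.1.1.2, ← h]; norm_num
  have h2 := dot_self_eq h1
  rw [one_smul, one_smul, add_comm] at h2
  exact eq_neg_of_add_eq_zero_left h2

private theorem arc_cond {c : ℝ} {P : S2} (hc1 : c ≤ 1) (y : YY c P) {t : ℝ} (h0 : 0 ≤ t)
    (h1 : t ≤ 1) : 0 < dot ((1 - t) • y.1.1.2.1 + (-t) • y.1.1.1.1)
      ((1 - t) • y.1.1.2.1 + (-t) • y.1.1.1.1) ∧
    dot y.1.1.1.1 (nrm ((1 - t) • y.1.1.2.1 + (-t) • y.1.1.1.1)) < c := by
  have hpos : 0 < dot ((1 - t) • y.1.1.2.1 + (-t) • y.1.1.1.1)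
      ((1 - t) • y.1.1.2.1 + (-t) • y.1.1.1.1) := by
    rw [dot_comb, y.1.1.1.2, y.1.1.2.2]
    exact comb_pos (Y_dot_lt hc1 y) h0 h1
  refine ⟨hpos, ?_⟩
  rw [dot_nrm_r, dot_comb_r (1 - t) (-t) y.1.1.1.1 y.1.1.2.1 y.1.1.1.1, y.1.1.1.2]
  have hs : 0 < √(dot ((1 - t) • y.1.1.2.1 + (-t) • y.1.1.1.1)
      ((1 - t) • y.1.1.2.1 + (-t) • y.1.1.1.1)) := Real.sqrt_pos.2 hpos
  have hle := arc_le (dot_ge _ _ y.1.1.1.2 y.1.1.2.2) (Y_dot_lt hc1 y) h0 h1 hs.le (by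
    rw [Real.sq_sqrt hpos.le, dot_comb, y.1.1.1.2, y.1.1.2.2])
  refine lt_of_le_of_lt ?_ y.1.2
  rw [inv_mul_le_iff₀ hs]
  linarith [mul_comm (dot y.1.1.1.1 y.1.1.2.1) (√(dot ((1 - t) • y.1.1.2.1 + (-t) • y.1.1.1.1)
      ((1 - t) • y.1.1.2.1 + (-t) • y.1.1.1.1)))]

private theorem seg_cond {c : ℝ} {P : S2} (y : YY c P) {t : ℝ} (h0 : 0 ≤ t)
    (h1 : t ≤ 1) : 0 < dot ((1 - t) • y.1.1.1.1 + t • P.1) ((1 - t) • y.1.1.1.1 + t • P.1) ∧
    nrm ((1 - t) • y.1.1.1.1 + t • P.1) ≠ -P.1 := by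
  have hd := Y_dot_P y
  have e : dot P.1 y.1.1.1.1 = dot y.1.1.1.1 P.1 := dot_comm' _ _
  have hpos : 0 < dot ((1 - t) • y.1.1.1.1 + t • P.1) ((1 - t) • y.1.1.1.1 + t • P.1) := by
    rw [dot_comb, y.1.1.1.2, P.2, e]
    exact comb_pos' hd h0 h1
  refine ⟨hpos, fun h => ?_⟩
  have hs : 0 < √(dot ((1 - t) • y.1.1.1.1 + t • P.1) ((1 - t) • y.1.1.1.1 + t • P.1)) :=
    Real.sqrt_pos.2 hpos
  have h2 : dot P.1 (nrm ((1 - t) • y.1.1.1.1 + t • P.1)) = dot P.1 (-P.1) := by rw [h]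
  rw [dot_nrm_r, dot_comb_r (1 - t) t P.1 y.1.1.1.1 P.1, dot_neg_r, P.2, e] at h2
  have hsq : √(dot ((1 - t) • y.1.1.1.1 + t • P.1) ((1 - t) • y.1.1.1.1 + t • P.1)) ^ 2
      = (1 - t) ^ 2 * 1 + t ^ 2 * 1 + 2 * (1 - t) * t * dot y.1.1.1.1 P.1 := by
    rw [Real.sq_sqrt hpos.le, dot_comb, y.1.1.1.2, P.2, e]
  rw [inv_mul_eq_iff_eq_mul₀ hs.ne'] at h2
  set n := √(dot ((1 - t) • y.1.1.1.1 + t • P.1) ((1 - t) • y.1.1.1.1 + t • P.1)) with hn
  set d := dot y.1.1.1.1 P.1 with hdd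
  have h3 : ((1 - t) * d + t * 1) ^ 2 = n ^ 2 := by rw [h2]; ring
  rw [hsq] at h3
  have h4 : (1 - t) ^ 2 * (1 - d) * (1 + d) = 0 := by nlinarith
  have h5 : 1 + d ≠ 0 := by linarith
  rcases mul_eq_zero.1 ((mul_eq_zero.1 h4).resolve_right h5) with h6 | h6
  · have h7 : 1 - t = 0 := by simpa using h6
    have h8 : t = 1 := by linarith
    rw [h8] at h2
    linarith
  · have h7 : d = 1 := by linarith
    rw [h7] at h2
    linarith

theorem contr_piece {c : ℝ} (hc : -1 < c) (hc1 : c ≤ 1) (P : S2) :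
    ContractibleSpace {q : DD c // q.1.1.1 ≠ -P.1} := by
  rw [contractible_iff_id_nullhomotopic]
  have hPne : P.1 ≠ -P.1 := by
    intro h
    have := congrArg (fun v => dot P.1 v) h
    simp only [dot_neg_r, P.2] at this
    norm_num at this
  have hnn : ∀ a : V3, dot a a = 1 → dot (-a) (-a) = 1 := by
    intro a ha; rw [dot_neg_l, dot_neg_r, ha]; norm_num
  have hnd : ∀ a : V3, dot a a = 1 → dot a (-a) < c := by
    intro a ha; rw [dot_neg_r, ha]; exact hc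
  let p0 : YY c P := mkY P.1 (-P.1) P.2 (hnn _ P.2) (hnd _ P.2) hPne
  let m : C(YY c P, YY c P) :=
    ⟨fun y => mkY y.1.1.1.1 (-y.1.1.1.1) y.1.1.1.2 (hnn _ y.1.1.1.2) (hnd _ y.1.1.1.2) y.2, by
      refine mkY_cont _ _ _ _ (by fun_prop) (by fun_prop)⟩
  refine ⟨p0, ?_⟩
  have H1 : (ContinuousMap.id (YY c P)).Homotopic m := by
    refine ⟨⟨⟨fun x => mkY x.2.1.1.1.1
      (nrm ((1 - (x.1 : ℝ)) • x.2.1.1.2.1 + (-(x.1 : ℝ)) • x.2.1.1.1.1)) x.2.1.1.1.2
      (nrm_dot (arc_cond hc1 x.2 x.1.2.1 x.1.2.2).1) (arc_cond hc1 x.2 x.1.2.1 x.1.2.2).2 x.2.2,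
      ?_⟩, ?_, ?_⟩⟩
    · refine mkY_cont _ _ _ _ (by fun_prop) (nrm_cont (by fun_prop) (fun x =>
        (arc_cond hc1 x.2 x.1.2.1 x.1.2.2).1))
    · intro y
      apply mkY_ext
      · rfl
      · show nrm ((1 - ((0 : unitInterval) : ℝ)) • y.1.1.2.1
          + (-((0 : unitInterval) : ℝ)) • y.1.1.1.1) = y.1.1.2.1
        simp only [Set.Icc.coe_zero, sub_zero, one_smul, neg_zero, zero_smul, add_zero]
        exact nrm_unit y.1.1.2.2
    · intro y
      apply mkY_ext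
      · rfl
      · show nrm ((1 - ((1 : unitInterval) : ℝ)) • y.1.1.2.1
          + (-((1 : unitInterval) : ℝ)) • y.1.1.1.1) = -y.1.1.1.1
        simp only [Set.Icc.coe_one, sub_self, zero_smul, zero_add, neg_smul, one_smul]
        exact nrm_unit (hnn _ y.1.1.1.2)
  have H2 : m.Homotopic (ContinuousMap.const (YY c P) p0) := by
    refine ⟨⟨⟨fun x => mkY (nrm ((1 - (x.1 : ℝ)) • x.2.1.1.1.1 + (x.1 : ℝ) • P.1))
      (-nrm ((1 - (x.1 : ℝ)) • x.2.1.1.1.1 + (x.1 : ℝ) • P.1))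
      (nrm_dot (seg_cond x.2 x.1.2.1 x.1.2.2).1) (hnn _ (nrm_dot (seg_cond x.2 x.1.2.1 x.1.2.2).1))
      (hnd _ (nrm_dot (seg_cond x.2 x.1.2.1 x.1.2.2).1)) (seg_cond x.2 x.1.2.1 x.1.2.2).2,
      ?_⟩, ?_, ?_⟩⟩
    · have hcn : Continuous (fun x : unitInterval × YY c P =>
          nrm ((1 - (x.1 : ℝ)) • x.2.1.1.1.1 + (x.1 : ℝ) • P.1)) :=
        nrm_cont (by fun_prop) (fun x => (seg_cond x.2 x.1.2.1 x.1.2.2).1)
      exact mkY_cont _ _ _ _ hcn hcn.neg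
    · intro y
      have h : nrm ((1 - ((0 : unitInterval) : ℝ)) • y.1.1.1.1 + ((0 : unitInterval) : ℝ) • P.1)
          = y.1.1.1.1 := by
        simp only [Set.Icc.coe_zero, sub_zero, one_smul, zero_smul, add_zero]
        exact nrm_unit y.1.1.1.2
      apply mkY_ext
      · exact h
      · exact congrArg Neg.neg h
    · intro y
      have h : nrm ((1 - ((1 : unitInterval) : ℝ)) • y.1.1.1.1 + ((1 : unitInterval) : ℝ) • P.1)
          = P.1 := by
        simp only [Set.Icc.coe_one, sub_self, one_smul, zero_smul, zero_add]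
        exact nrm_unit P.2
      apply mkY_ext
      · exact h
      · exact congrArg Neg.neg h
  exact H1.trans H2


end J_contr_piece

alias contr_piece := J_contr_piece.contr_piece

end Pool.Agent.Helper10.UC
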