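import Mathlib
import Pool.Agent.Helper10.UC.Base

open Set Filter Topology
open scoped LinearAlgebra.Projectivization

noncomputable section

namespace Pool.Agent.Helper10.UC

namespace J_eqsM_homog


-- TARGET: prove this

theorem eqsM_homog : ∀ f ∈ eqsM, ∃ n, f.IsHomogeneous n := by
  have hX : ∀ i : Ix, (MvPolynomial.X i : MvPolynomial Ix ℂ).IsHomogeneous 1 := fun i =>
    MvPolynomial.isHomogeneous_X ℂ i
  have hXX : ∀ i j : Ix,
      (MvPolynomial.X i * MvPolynomial.X j : MvPolynomial Ix ℂ).IsHomogeneous 2 :=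
    fun i j => (hX i).mul (hX j)
  have hC : ∀ (c : ℂ) (f : MvPolynomial Ix ℂ), f.IsHomogeneous 2 →
      (MvPolynomial.C c * f).IsHomogeneous 2 := fun c f hf => by
    simpa using (MvPolynomial.isHomogeneous_C Ix c).mul hf
  have hS : ∀ i : Ix, (MvPolynomial.X i ^ 2 : MvPolynomial Ix ℂ).IsHomogeneous 2 := fun i => by
    simpa using (hX i).pow 2
  intro f hf
  refine ⟨2, ?_⟩
  unfold eqsM at hf
  rcases hf with ((((⟨i, j, k, l, rfl⟩ | ⟨j, l, rfl⟩) | ⟨j, l, rfl⟩) | ⟨i, k, rfl⟩) | ⟨i, k, rfl⟩) | hf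
  · exact (hXX _ _).sub (hXX _ _)
  · exact (hXX _ _).sub ((hC _ _ (hXX _ _)).add (hXX _ _))
  · exact (hXX _ _).sub ((hC _ _ (hXX _ _)).add (hXX _ _))
  · exact (hXX _ _).sub ((hC _ _ (hXX _ _)).add (hXX _ _))
  · exact (hXX _ _).sub ((hC _ _ (hXX _ _)).add (hXX _ _))
  · rw [Set.mem_singleton_iff] at hf
    rw [hf]
    exact (hS _).sub ((((hS _).sub (hC _ _ (hS _))).sub (hC _ _ (hS _))).sub (hC _ _ (hS _)))


end J_eqsM_homog

alias eqsM_homog := J_eqsM_homog.eqsM_homog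

end Pool.Agent.Helper10.UC
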