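import Mathlib
import Pool.Agent.Helper10.UC.Base

open Set Filter Topology
open scoped LinearAlgebra.Projectivization

noncomputable section

namespace Pool.Agent.Helper10.UC

namespace J_homeoQ



/-- real part vector -/
def xiV (Z : ℂ × ℂ × ℂ) : V3 := (Z.1.re, Z.2.1.re, Z.2.2.re)

/-- imaginary part vector -/
def etaV (Z : ℂ × ℂ × ℂ) : V3 := (Z.1.im, Z.2.1.im, Z.2.2.im)

theorem quadric_iff (Z : ℂ × ℂ × ℂ) :
    (Z.1 ^ 2 + Z.2.1 ^ 2 + Z.2.2 ^ 2 = 1) ↔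
      (dot (xiV Z) (xiV Z) - dot (etaV Z) (etaV Z) = 1 ∧ dot (xiV Z) (etaV Z) = 0) := by
  rw [Complex.ext_iff]
  simp only [dot, xiV, etaV, pow_two, Complex.add_re, Complex.add_im, Complex.mul_re,
    Complex.mul_im, Complex.one_re, Complex.one_im]
  constructor
  · rintro ⟨h1, h2⟩
    constructor <;> linarith
  · rintro ⟨h1, h2⟩
    constructor <;> linarith

theorem norm_iff (Z : ℂ × ℂ × ℂ) :
    ‖Z.1‖ ^ 2 + ‖Z.2.1‖ ^ 2 + ‖Z.2.2‖ ^ 2 =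
      dot (xiV Z) (xiV Z) + dot (etaV Z) (etaV Z) := by
  rw [← Complex.normSq_eq_norm_sq, ← Complex.normSq_eq_norm_sq, ← Complex.normSq_eq_norm_sq]
  simp only [dot, xiV, etaV, Complex.normSq_apply]
  ring

/-- forward map -/
def fwd (q : V3 × V3) : ℂ × ℂ × ℂ :=
  ( (((q.1.1 - q.2.1) / (1 - dot q.1 q.2) : ℝ) : ℂ)
      + (((crs q.1 q.2).1 / (1 - dot q.1 q.2) : ℝ) : ℂ) * Complex.I,
    (((q.1.2.1 - q.2.2.1) / (1 - dot q.1 q.2) : ℝ) : ℂ)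
      + (((crs q.1 q.2).2.1 / (1 - dot q.1 q.2) : ℝ) : ℂ) * Complex.I,
    (((q.1.2.2 - q.2.2.2) / (1 - dot q.1 q.2) : ℝ) : ℂ)
      + (((crs q.1 q.2).2.2 / (1 - dot q.1 q.2) : ℝ) : ℂ) * Complex.I )

/-- backward maps -/
def bwdA (Z : ℂ × ℂ × ℂ) : V3 :=
  (((xiV Z).1 - (crs (xiV Z) (etaV Z)).1) / dot (xiV Z) (xiV Z),
   ((xiV Z).2.1 - (crs (xiV Z) (etaV Z)).2.1) / dot (xiV Z) (xiV Z),
   ((xiV Z).2.2 - (crs (xiV Z) (etaV Z)).2.2) / dot (xiV Z) (xiV Z))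

def bwdB (Z : ℂ × ℂ × ℂ) : V3 :=
  (-((xiV Z).1 + (crs (xiV Z) (etaV Z)).1) / dot (xiV Z) (xiV Z),
   -((xiV Z).2.1 + (crs (xiV Z) (etaV Z)).2.1) / dot (xiV Z) (xiV Z),
   -((xiV Z).2.2 + (crs (xiV Z) (etaV Z)).2.2) / dot (xiV Z) (xiV Z))

theorem xi_fwd (q : V3 × V3) : xiV (fwd q) =
    ((q.1.1 - q.2.1) / (1 - dot q.1 q.2), (q.1.2.1 - q.2.2.1) / (1 - dot q.1 q.2),
      (q.1.2.2 - q.2.2.2) / (1 - dot q.1 q.2)) := by
  simp only [xiV, fwd, Complex.add_re, Complex.ofReal_re, Complex.mul_re, Complex.ofReal_im,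
    Complex.I_re, Complex.I_im, mul_zero, zero_mul, sub_zero, add_zero]

theorem eta_fwd (q : V3 × V3) : etaV (fwd q) =
    ((crs q.1 q.2).1 / (1 - dot q.1 q.2), (crs q.1 q.2).2.1 / (1 - dot q.1 q.2),
      (crs q.1 q.2).2.2 / (1 - dot q.1 q.2)) := by
  simp only [etaV, fwd, Complex.add_im, Complex.ofReal_re, Complex.mul_im, Complex.ofReal_im,
    Complex.I_re, Complex.I_im, mul_zero, mul_one, zero_add, add_zero]

theorem xi_fwd_sq (q : V3 × V3) (ha : dot q.1 q.1 = 1) (hb : dot q.2 q.2 = 1)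
    (hc : dot q.1 q.2 < 1) :
    dot (xiV (fwd q)) (xiV (fwd q)) = 2 / (1 - dot q.1 q.2) := by
  have h : (1 - dot q.1 q.2) ≠ 0 := by linarith
  rw [xi_fwd]
  obtain ⟨⟨a1, a2, a3⟩, ⟨b1, b2, b3⟩⟩ := q
  have e : dot ((a1 - b1) / (1 - dot (a1, a2, a3) (b1, b2, b3)),
      (a2 - b2) / (1 - dot (a1, a2, a3) (b1, b2, b3)),
      (a3 - b3) / (1 - dot (a1, a2, a3) (b1, b2, b3)))
      ((a1 - b1) / (1 - dot (a1, a2, a3) (b1, b2, b3)),
      (a2 - b2) / (1 - dot (a1, a2, a3) (b1, b2, b3)),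
      (a3 - b3) / (1 - dot (a1, a2, a3) (b1, b2, b3))) =
      ((a1 - b1) * (a1 - b1) + (a2 - b2) * (a2 - b2) + (a3 - b3) * (a3 - b3)) /
        ((1 - dot (a1, a2, a3) (b1, b2, b3)) * (1 - dot (a1, a2, a3) (b1, b2, b3))) := by
    show (a1 - b1) / _ * ((a1 - b1) / _) + (a2 - b2) / _ * ((a2 - b2) / _) +
      (a3 - b3) / _ * ((a3 - b3) / _) = _
    rw [div_mul_div_comm, div_mul_div_comm, div_mul_div_comm, ← add_div, ← add_div]
  show dot ((a1 - b1) / (1 - dot (a1, a2, a3) (b1, b2, b3)),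
      (a2 - b2) / (1 - dot (a1, a2, a3) (b1, b2, b3)),
      (a3 - b3) / (1 - dot (a1, a2, a3) (b1, b2, b3)))
      ((a1 - b1) / (1 - dot (a1, a2, a3) (b1, b2, b3)),
      (a2 - b2) / (1 - dot (a1, a2, a3) (b1, b2, b3)),
      (a3 - b3) / (1 - dot (a1, a2, a3) (b1, b2, b3))) = 2 / (1 - dot (a1, a2, a3) (b1, b2, b3))
  rw [e, div_eq_div_iff (mul_ne_zero h h) h]
  have e2 : (a1 - b1) * (a1 - b1) + (a2 - b2) * (a2 - b2) + (a3 - b3) * (a3 - b3) =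
      2 * (1 - dot (a1, a2, a3) (b1, b2, b3)) := by
    simp only [dot] at ha hb ⊢
    linear_combination ha + hb
  rw [e2]
  ring

theorem eta_fwd_sq (q : V3 × V3) (ha : dot q.1 q.1 = 1) (hb : dot q.2 q.2 = 1)
    (hc : dot q.1 q.2 < 1) :
    dot (etaV (fwd q)) (etaV (fwd q)) = (1 + dot q.1 q.2) / (1 - dot q.1 q.2) := by
  have h : (1 - dot q.1 q.2) ≠ 0 := by linarith
  rw [eta_fwd]
  obtain ⟨⟨a1, a2, a3⟩, ⟨b1, b2, b3⟩⟩ := q
  set d := 1 - dot (a1, a2, a3) (b1, b2, b3) with hd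
  show (a2 * b3 - a3 * b2) / d * ((a2 * b3 - a3 * b2) / d) +
    (a3 * b1 - a1 * b3) / d * ((a3 * b1 - a1 * b3) / d) +
    (a1 * b2 - a2 * b1) / d * ((a1 * b2 - a2 * b1) / d) =
      (1 + dot (a1, a2, a3) (b1, b2, b3)) / d
  have h' : d ≠ 0 := h
  rw [div_mul_div_comm, div_mul_div_comm, div_mul_div_comm, ← add_div, ← add_div,
    div_eq_div_iff (mul_ne_zero h' h') h']
  have e2 : (a2 * b3 - a3 * b2) * (a2 * b3 - a3 * b2) + (a3 * b1 - a1 * b3) * (a3 * b1 - a1 * b3) +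
      (a1 * b2 - a2 * b1) * (a1 * b2 - a2 * b1) =
      (1 + dot (a1, a2, a3) (b1, b2, b3)) * d := by
    rw [hd]
    simp only [dot] at ha hb ⊢
    linear_combination (b1 * b1 + b2 * b2 + b3 * b3) * ha + hb
  rw [e2]
  ring

theorem xi_eta_fwd (q : V3 × V3) :
    dot (xiV (fwd q)) (etaV (fwd q)) = 0 := by
  rw [xi_fwd, eta_fwd]
  obtain ⟨⟨a1, a2, a3⟩, ⟨b1, b2, b3⟩⟩ := q
  set d := 1 - dot (a1, a2, a3) (b1, b2, b3) with hd
  show (a1 - b1) / d * ((a2 * b3 - a3 * b2) / d) +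
    (a2 - b2) / d * ((a3 * b1 - a1 * b3) / d) +
    (a3 - b3) / d * ((a1 * b2 - a2 * b1) / d) = 0
  rw [div_mul_div_comm, div_mul_div_comm, div_mul_div_comm, ← add_div, ← add_div]
  have e2 : (a1 - b1) * (a2 * b3 - a3 * b2) + (a2 - b2) * (a3 * b1 - a1 * b3) +
      (a3 - b3) * (a1 * b2 - a2 * b1) = 0 := by ring
  rw [e2, zero_div]

theorem crs_fwd (q : V3 × V3) (ha : dot q.1 q.1 = 1) (hb : dot q.2 q.2 = 1)
    (hc : dot q.1 q.2 < 1) :
    crs (xiV (fwd q)) (etaV (fwd q)) =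
      (-(q.1.1 + q.2.1) / (1 - dot q.1 q.2), -(q.1.2.1 + q.2.2.1) / (1 - dot q.1 q.2),
        -(q.1.2.2 + q.2.2.2) / (1 - dot q.1 q.2)) := by
  have h : (1 - dot q.1 q.2) ≠ 0 := by linarith
  rw [xi_fwd, eta_fwd]
  obtain ⟨⟨a1, a2, a3⟩, ⟨b1, b2, b3⟩⟩ := q
  set d := 1 - dot (a1, a2, a3) (b1, b2, b3) with hd
  have h' : d ≠ 0 := h
  show ((a2 - b2) / d * ((a1 * b2 - a2 * b1) / d) - (a3 - b3) / d * ((a3 * b1 - a1 * b3) / d),
    (a3 - b3) / d * ((a2 * b3 - a3 * b2) / d) - (a1 - b1) / d * ((a1 * b2 - a2 * b1) / d),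
    (a1 - b1) / d * ((a3 * b1 - a1 * b3) / d) - (a2 - b2) / d * ((a2 * b3 - a3 * b2) / d)) =
    (-(a1 + b1) / d, -(a2 + b2) / d, -(a3 + b3) / d)
  have key : ∀ x y z w v : ℝ, x * y - z * w = v * d → x / d * (y / d) - z / d * (w / d) = v / d := by
    intro x y z w v hh
    rw [div_mul_div_comm, div_mul_div_comm, ← sub_div, hh, div_eq_div_iff (mul_ne_zero h' h') h']
    ring
  simp only [dot] at ha hb
  rw [Prod.mk.injEq, Prod.mk.injEq]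
  refine ⟨key _ _ _ _ _ ?_, key _ _ _ _ _ ?_, key _ _ _ _ _ ?_⟩
  · rw [hd]; simp only [dot]
    linear_combination (-b1) * ha + (-a1) * hb
  · rw [hd]; simp only [dot]
    linear_combination (-b2) * ha + (-a2) * hb
  · rw [hd]; simp only [dot]
    linear_combination (-b3) * ha + (-a3) * hb

theorem bwdA_fwd (q : V3 × V3) (ha : dot q.1 q.1 = 1) (hb : dot q.2 q.2 = 1)
    (hc : dot q.1 q.2 < 1) : bwdA (fwd q) = q.1 := by
  have h : (1 - dot q.1 q.2) ≠ 0 := by linarith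
  unfold bwdA
  rw [xi_fwd_sq q ha hb hc, crs_fwd q ha hb hc, xi_fwd]
  obtain ⟨⟨a1, a2, a3⟩, ⟨b1, b2, b3⟩⟩ := q
  set d := 1 - dot (a1, a2, a3) (b1, b2, b3) with hd
  have h' : d ≠ 0 := h
  show (((a1 - b1) / d - -(a1 + b1) / d) / (2 / d), ((a2 - b2) / d - -(a2 + b2) / d) / (2 / d),
    ((a3 - b3) / d - -(a3 + b3) / d) / (2 / d)) = (a1, a2, a3)
  rw [Prod.mk.injEq, Prod.mk.injEq]
  refine ⟨?_, ?_, ?_⟩ <;> (field_simp; ring)

theorem bwdB_fwd (q : V3 × V3) (ha : dot q.1 q.1 = 1) (hb : dot q.2 q.2 = 1)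
    (hc : dot q.1 q.2 < 1) : bwdB (fwd q) = q.2 := by
  have h : (1 - dot q.1 q.2) ≠ 0 := by linarith
  unfold bwdB
  rw [xi_fwd_sq q ha hb hc, crs_fwd q ha hb hc, xi_fwd]
  obtain ⟨⟨a1, a2, a3⟩, ⟨b1, b2, b3⟩⟩ := q
  set d := 1 - dot (a1, a2, a3) (b1, b2, b3) with hd
  have h' : d ≠ 0 := h
  show (-((a1 - b1) / d + -(a1 + b1) / d) / (2 / d), -((a2 - b2) / d + -(a2 + b2) / d) / (2 / d),
    -((a3 - b3) / d + -(a3 + b3) / d) / (2 / d)) = (b1, b2, b3)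
  rw [Prod.mk.injEq, Prod.mk.injEq]
  refine ⟨?_, ?_, ?_⟩ <;> (field_simp; ring)

theorem crs_sq (x y : V3) (h : dot x y = 0) :
    dot (crs x y) (crs x y) = dot x x * dot y y := by
  obtain ⟨a1, a2, a3⟩ := x
  obtain ⟨b1, b2, b3⟩ := y
  simp only [dot, crs] at h ⊢
  linear_combination (-(a1 * b1 + a2 * b2 + a3 * b3)) * h

theorem bwd_facts (Z : ℂ × ℂ × ℂ) (h1 : dot (xiV Z) (xiV Z) - dot (etaV Z) (etaV Z) = 1)
    (h2 : dot (xiV Z) (etaV Z) = 0) :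
    dot (bwdA Z) (bwdA Z) = 1 ∧ dot (bwdB Z) (bwdB Z) = 1 ∧
      1 - dot (bwdA Z) (bwdB Z) = 2 / dot (xiV Z) (xiV Z) := by
  have hcs := crs_sq _ _ h2
  unfold bwdA bwdB
  set x := xiV Z with hx
  set y := etaV Z with hy
  set n := dot x x with hn
  set m := dot y y with hm
  have hmn : m = n - 1 := by linarith
  have hm0 : 0 ≤ m := by
    rw [hm]; simp only [dot]; nlinarith [mul_self_nonneg y.1, mul_self_nonneg y.2.1,
      mul_self_nonneg y.2.2]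
  have hn0 : n ≠ 0 := by intro h; rw [h] at hmn; linarith
  have hxc : dot x (crs x y) = 0 := by
    simp only [dot, crs]; ring
  set w := crs x y with hw
  have hww : dot w w = n * (n - 1) := by rw [hcs, hmn]
  clear_value w x y
  obtain ⟨x1, x2, x3⟩ := x
  obtain ⟨w1, w2, w3⟩ := w
  simp only [dot] at hn hxc hww ⊢
  refine ⟨?_, ?_, ?_⟩
  · field_simp
    linear_combination (-1) * hn + hww - 2 * hxc
  · field_simp
    linear_combination (-1) * hn + hww + 2 * hxc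
  · field_simp
    linear_combination (-1) * hn - hww


theorem fwd_bwd (Z : ℂ × ℂ × ℂ) (h1 : dot (xiV Z) (xiV Z) - dot (etaV Z) (etaV Z) = 1)
    (h2 : dot (xiV Z) (etaV Z) = 0) : fwd (bwdA Z, bwdB Z) = Z := by
  obtain ⟨-, -, h3⟩ := bwd_facts Z h1 h2
  have hm0 : 0 ≤ dot (etaV Z) (etaV Z) := by
    simp only [dot]
    nlinarith [mul_self_nonneg (etaV Z).1, mul_self_nonneg (etaV Z).2.1,
      mul_self_nonneg (etaV Z).2.2]
  have hn0 : dot (xiV Z) (xiV Z) ≠ 0 := by intro h; rw [h] at h1; linarith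
  have hxi : xiV (fwd (bwdA Z, bwdB Z)) = xiV Z := by
    rw [xi_fwd]
    show (((bwdA Z).1 - (bwdB Z).1) / (1 - dot (bwdA Z) (bwdB Z)),
      ((bwdA Z).2.1 - (bwdB Z).2.1) / (1 - dot (bwdA Z) (bwdB Z)),
      ((bwdA Z).2.2 - (bwdB Z).2.2) / (1 - dot (bwdA Z) (bwdB Z))) = xiV Z
    rw [h3]
    unfold bwdA bwdB
    generalize dot (xiV Z) (xiV Z) = n at hn0
    generalize crs (xiV Z) (etaV Z) = w
    generalize xiV Z = x
    obtain ⟨x1, x2, x3⟩ := x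
    rw [Prod.mk.injEq, Prod.mk.injEq]
    refine ⟨?_, ?_, ?_⟩ <;> (simp only []; field_simp; ring)
  have hcr : crs (bwdA Z) (bwdB Z) = (2 / dot (xiV Z) (xiV Z) * (etaV Z).1,
      2 / dot (xiV Z) (xiV Z) * (etaV Z).2.1, 2 / dot (xiV Z) (xiV Z) * (etaV Z).2.2) := by
    unfold bwdA bwdB
    set x := xiV Z with hx
    set y := etaV Z with hy
    set n := dot x x with hn
    -- x × (x × y) = -n y
    have e1 : crs x (crs x y) = (-n * y.1, -n * y.2.1, -n * y.2.2) := by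
      rw [hn]
      clear_value x y
      obtain ⟨x1, x2, x3⟩ := x
      obtain ⟨y1, y2, y3⟩ := y
      simp only [dot, crs] at h2 ⊢
      rw [Prod.mk.injEq, Prod.mk.injEq]
      refine ⟨?_, ?_, ?_⟩
      · linear_combination x1 * h2
      · linear_combination x2 * h2
      · linear_combination x3 * h2
    set w := crs x y with hw
    clear_value w x y n
    obtain ⟨x1, x2, x3⟩ := x
    obtain ⟨y1, y2, y3⟩ := y
    obtain ⟨w1, w2, w3⟩ := w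
    simp only [crs, Prod.mk.injEq] at e1 ⊢
    obtain ⟨e11, e12, e13⟩ := e1
    refine ⟨?_, ?_, ?_⟩
    · field_simp
      linear_combination (-2) * e11
    · field_simp
      linear_combination (-2) * e12
    · field_simp
      linear_combination (-2) * e13
  have heta : etaV (fwd (bwdA Z, bwdB Z)) = etaV Z := by
    rw [eta_fwd]
    show ((crs (bwdA Z) (bwdB Z)).1 / (1 - dot (bwdA Z) (bwdB Z)),
      (crs (bwdA Z) (bwdB Z)).2.1 / (1 - dot (bwdA Z) (bwdB Z)),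
      (crs (bwdA Z) (bwdB Z)).2.2 / (1 - dot (bwdA Z) (bwdB Z))) = etaV Z
    rw [h3, hcr]
    generalize dot (xiV Z) (xiV Z) = n at hn0
    generalize etaV Z = y
    obtain ⟨y1, y2, y3⟩ := y
    rw [Prod.mk.injEq, Prod.mk.injEq]
    refine ⟨?_, ?_, ?_⟩ <;> (simp only []; field_simp)
  generalize fwd (bwdA Z, bwdB Z) = Y at hxi heta
  obtain ⟨Y1, Y2, Y3⟩ := Y
  obtain ⟨Z1, Z2, Z3⟩ := Z
  simp only [xiV, etaV, Prod.mk.injEq] at hxi heta
  rw [Prod.mk.injEq, Prod.mk.injEq]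
  exact ⟨Complex.ext hxi.1 heta.1, Complex.ext hxi.2.1 heta.2.1, Complex.ext hxi.2.2 heta.2.2⟩

theorem continuous_xiV : Continuous xiV := by
  unfold xiV; fun_prop

theorem continuous_etaV : Continuous etaV := by
  unfold etaV; fun_prop

abbrev QQ := {Z : ℂ × ℂ × ℂ // Z.1 ^ 2 + Z.2.1 ^ 2 + Z.2.2 ^ 2 = 1 ∧
    ‖Z.1‖ ^ 2 + ‖Z.2.1‖ ^ 2 + ‖Z.2.2‖ ^ 2 < 2}

theorem QQ_facts (Z : QQ) : dot (xiV Z.1) (xiV Z.1) - dot (etaV Z.1) (etaV Z.1) = 1 ∧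
    dot (xiV Z.1) (etaV Z.1) = 0 ∧ 0 < dot (xiV Z.1) (xiV Z.1) ∧
      dot (xiV Z.1) (xiV Z.1) < 3 / 2 := by
  obtain ⟨h1, h2⟩ := (quadric_iff Z.1).1 Z.2.1
  have h3 := Z.2.2
  rw [norm_iff] at h3
  have hm0 : 0 ≤ dot (etaV Z.1) (etaV Z.1) := by
    simp only [dot]
    nlinarith [mul_self_nonneg (etaV Z.1).1, mul_self_nonneg (etaV Z.1).2.1,
      mul_self_nonneg (etaV Z.1).2.2]
  exact ⟨h1, h2, by linarith, by linarith⟩

theorem fwd_mem (q : DD (-1 / 3)) : (fwd (q.1.1.1, q.1.2.1)).1 ^ 2 +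
    (fwd (q.1.1.1, q.1.2.1)).2.1 ^ 2 + (fwd (q.1.1.1, q.1.2.1)).2.2 ^ 2 = 1 ∧
    ‖(fwd (q.1.1.1, q.1.2.1)).1‖ ^ 2 + ‖(fwd (q.1.1.1, q.1.2.1)).2.1‖ ^ 2 +
      ‖(fwd (q.1.1.1, q.1.2.1)).2.2‖ ^ 2 < 2 := by
  have ha := q.1.1.2
  have hb := q.1.2.2
  have hc := q.2
  have hc1 : dot q.1.1.1 q.1.2.1 < 1 := by linarith
  have e1 := xi_fwd_sq (q.1.1.1, q.1.2.1) ha hb hc1
  have e2 := eta_fwd_sq (q.1.1.1, q.1.2.1) ha hb hc1
  have e3 := xi_eta_fwd (q.1.1.1, q.1.2.1)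
  refine ⟨(quadric_iff _).2 ⟨?_, e3⟩, ?_⟩
  · rw [e1, e2, div_sub_div_same, div_eq_one_iff_eq (by simp only []; linarith)]
    ring
  · rw [norm_iff, e1, e2, ← add_div, div_lt_iff₀ (by simp only []; linarith)]
    simp only []
    linarith

theorem bwd_mem (Z : QQ) : dot (bwdA Z.1) (bwdA Z.1) = 1 ∧ dot (bwdB Z.1) (bwdB Z.1) = 1 ∧
    dot (bwdA Z.1) (bwdB Z.1) < -1 / 3 := by
  obtain ⟨h1, h2, h3, h4⟩ := QQ_facts Z
  obtain ⟨f1, f2, f3⟩ := bwd_facts Z.1 h1 h2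
  refine ⟨f1, f2, ?_⟩
  have : 4 / 3 < 2 / dot (xiV Z.1) (xiV Z.1) := by
    rw [lt_div_iff₀ h3]
    linarith
  linarith

theorem continuous_fwd_DD : Continuous (fun q : DD (-1 / 3) => fwd (q.1.1.1, q.1.2.1)) := by
  have hd : Continuous (fun q : DD (-1 / 3) => 1 - dot q.1.1.1 q.1.2.1) := by
    unfold dot; fun_prop
  have hd0 : ∀ q : DD (-1 / 3), 1 - dot q.1.1.1 q.1.2.1 ≠ 0 := by
    intro q; have := q.2; linarith
  have hc : Continuous (fun q : DD (-1 / 3) => crs q.1.1.1 q.1.2.1) := by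
    unfold crs; fun_prop
  unfold fwd
  simp only []
  have k : ∀ f g : DD (-1 / 3) → ℝ, Continuous f → Continuous g → Continuous (fun q : DD (-1 / 3) =>
      ((f q / (1 - dot q.1.1.1 q.1.2.1) : ℝ) : ℂ) +
        ((g q / (1 - dot q.1.1.1 q.1.2.1) : ℝ) : ℂ) * Complex.I) := by
    intro f g hf hg
    refine (Complex.continuous_ofReal.comp (hf.div hd hd0)).add
      ((Complex.continuous_ofReal.comp (hg.div hd hd0)).mul continuous_const)
  refine Continuous.prodMk (k _ _ (by fun_prop) (by fun_prop)) (Continuous.prodMk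
    (k _ _ (by fun_prop) (by fun_prop)) (k _ _ (by fun_prop) (by fun_prop)))

theorem continuous_bwd_QQ : Continuous (fun Z : QQ => bwdA Z.1) ∧
    Continuous (fun Z : QQ => bwdB Z.1) := by
  have hx : Continuous (fun Z : QQ => xiV Z.1) := continuous_xiV.comp continuous_subtype_val
  have hy : Continuous (fun Z : QQ => etaV Z.1) := continuous_etaV.comp continuous_subtype_val
  have hd : Continuous (fun Z : QQ => dot (xiV Z.1) (xiV Z.1)) :=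
    continuous_dot.comp (hx.prodMk hx)
  have hc : Continuous (fun Z : QQ => crs (xiV Z.1) (etaV Z.1)) :=
    continuous_crs.comp (hx.prodMk hy)
  have hd0 : ∀ Z : QQ, dot (xiV Z.1) (xiV Z.1) ≠ 0 := fun Z => (QQ_facts Z).2.2.1.ne'
  unfold bwdA bwdB
  constructor
  · refine Continuous.prodMk (Continuous.div (by fun_prop) hd hd0) (Continuous.prodMk
      (Continuous.div (by fun_prop) hd hd0) (Continuous.div (by fun_prop) hd hd0))
  · refine Continuous.prodMk (Continuous.div (by fun_prop) hd hd0) (Continuous.prodMk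
      (Continuous.div (by fun_prop) hd hd0) (Continuous.div (by fun_prop) hd hd0))

-- TARGET: prove this

theorem homeoQ : Nonempty (DD (-1 / 3) ≃ₜ {Z : ℂ × ℂ × ℂ // Z.1 ^ 2 + Z.2.1 ^ 2 + Z.2.2 ^ 2 = 1 ∧
    ‖Z.1‖ ^ 2 + ‖Z.2.1‖ ^ 2 + ‖Z.2.2‖ ^ 2 < 2}) := by
  refine ⟨{ toFun := fun q => ⟨fwd (q.1.1.1, q.1.2.1), fwd_mem q⟩
            invFun := fun Z => ⟨(⟨bwdA Z.1, (bwd_mem Z).1⟩, ⟨bwdB Z.1, (bwd_mem Z).2.1⟩),
              (bwd_mem Z).2.2⟩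
            left_inv := ?_
            right_inv := ?_
            continuous_toFun := ?_
            continuous_invFun := ?_ }⟩
  · intro q
    have ha := q.1.1.2
    have hb := q.1.2.2
    have hc := q.2
    have hc1 : dot q.1.1.1 q.1.2.1 < 1 := by linarith
    refine Subtype.ext (Prod.ext (Subtype.ext ?_) (Subtype.ext ?_))
    · exact bwdA_fwd (q.1.1.1, q.1.2.1) ha hb hc1
    · exact bwdB_fwd (q.1.1.1, q.1.2.1) ha hb hc1
  · intro Z
    obtain ⟨h1, h2, -, -⟩ := QQ_facts Z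
    exact Subtype.ext (fwd_bwd Z.1 h1 h2)
  · exact continuous_fwd_DD.subtype_mk _
  · exact ((continuous_bwd_QQ.1.subtype_mk _).prodMk (continuous_bwd_QQ.2.subtype_mk _)).subtype_mk _


end J_homeoQ

alias homeoQ := J_homeoQ.homeoQ

end Pool.Agent.Helper10.UC
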