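import Mathlib
import Pool.Agent.Helper10.UC.Base

open Set Filter Topology
open scoped LinearAlgebra.Projectivization

noncomputable section

namespace Pool.Agent.Helper10.UC

namespace J_infinite_fibre


-- TARGET: prove this

theorem infinite_fibre {E X : Type*} [TopologicalSpace E] [TopologicalSpace X]
    [SimplyConnectedSpace E] [PathConnectedSpace X] {p : E → X} (hp : IsCoveringMap p) (x : X)
    (h : Infinite (FundamentalGroup X x)) : Infinite (p ⁻¹' {x}) := by
  have hne : Nonempty (p ⁻¹' {x}) := by
    obtain ⟨e⟩ : Nonempty E := inferInstance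
    exact ⟨hp.monodromy (.mk (PathConnectedSpace.somePath (p e) x)) ⟨e, rfl⟩⟩
  obtain ⟨e0⟩ := hne
  have hinj : Function.Injective
      (fun g : Path.Homotopic.Quotient x x => hp.monodromy g e0) := by
    intro g g' hg
    have hg1 : hp.monodromy g e0 = hp.monodromy g' e0 := hg
    have hh : (hp.monodromy g e0 : E) = (hp.monodromy g' e0 : E) := congrArg Subtype.val hg1
    have h1 : hp.liftPathQuotient g e0 = (hp.liftPathQuotient g' e0).cast rfl hh :=
      Subsingleton.elim _ _
    have h2 := hp.map_liftPathQuotient g e0
    have h3 := hp.map_liftPathQuotient g' e0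
    rw [h1, Path.Homotopic.Quotient.map_cast, h3, Path.Homotopic.Quotient.cast_cast] at h2
    have h4 := congrArg (fun q => Path.Homotopic.Quotient.cast q e0.2.symm
      (hp.monodromy g e0).2.symm) h2
    simp only [Path.Homotopic.Quotient.cast_cast, Path.Homotopic.Quotient.cast_rfl_rfl] at h4
    exact h4.symm
  exact @Infinite.of_injective _ _ h _ hinj


end J_infinite_fibre

alias infinite_fibre := J_infinite_fibre.infinite_fibre

end Pool.Agent.Helper10.UC
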