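import Mathlib
import Pool.Agent.Helper10.UC.Base

open Set Filter Topology
open scoped LinearAlgebra.Projectivization

noncomputable section

namespace Pool.Agent.Helper10.UC

namespace J_infinite_pi1


-- TARGET: prove this

theorem infinite_pi1 {X : Type*} [TopologicalSpace X] [PathConnectedSpace X] (Φ : X → ℂ)
    (hΦ : Continuous Φ) (h0 : ∀ x, Φ x ≠ 0) (γ : ℝ → X) (hγ : Continuous γ)
    (hp : ∀ θ, γ (θ + 2 * Real.pi) = γ θ) (u : ℝ → ℂ) (hu : ∀ θ, 0 < (u θ).re)
    (h : ∀ θ : ℝ, Φ (γ θ) = Complex.exp (θ * Complex.I) * u θ) (x : X) :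
    Infinite (FundamentalGroup X x) := by
  have hpn : ∀ n : ℕ, γ (2 * Real.pi * n) = γ 0 := by
    intro n
    induction n with
    | zero => simp
    | succ n ih =>
      have e : 2 * Real.pi * ((n + 1 : ℕ) : ℝ) = 2 * Real.pi * n + 2 * Real.pi := by push_cast; ring
      rw [e, hp, ih]
  have hucont : Continuous u := by
    have e : u = fun θ : ℝ => Complex.exp (-(θ * Complex.I)) * Φ (γ θ) := by
      funext θ
      rw [h θ, ← mul_assoc, ← Complex.exp_add]
      simp
    rw [e]
    exact (Complex.continuous_exp.comp (by fun_prop)).mul (hΦ.comp hγ)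
  have hup : ∀ n : ℕ, u (2 * Real.pi * n) = u 0 := by
    intro n
    have h1 := h (2 * Real.pi * n)
    have h2 := h 0
    rw [hpn n] at h1
    rw [h2] at h1
    have e1 : Complex.exp (((2 * Real.pi * n : ℝ) : ℂ) * Complex.I) = 1 := by
      have : ((2 * Real.pi * n : ℝ) : ℂ) * Complex.I = (n : ℂ) * (2 * Real.pi * Complex.I) := by
        push_cast; ring
      rw [this]
      exact Complex.exp_nat_mul_two_pi_mul_I n
    rw [e1] at h1
    simpa using h1.symm
  let P : ∀ n : ℕ, Path (γ 0) (γ 0) := fun n =>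
    { toFun := fun t => γ (2 * Real.pi * n * (t : ℝ))
      continuous_toFun := hγ.comp (by fun_prop)
      source' := by simp
      target' := by simpa using hpn n }
  let F : C(X, {z : ℂ // z ≠ 0}) := ⟨fun x => ⟨Φ x, h0 x⟩, hΦ.subtype_mk _⟩
  let L : ∀ n : ℕ, C(unitInterval, ℂ) := fun n =>
    ⟨fun t => Complex.I * ((2 * Real.pi * n * (t : ℝ) : ℝ) : ℂ) + Complex.log (u (2 * Real.pi * n * (t : ℝ))), by
      refine Continuous.add (by fun_prop) (Continuous.clog (hucont.comp (by fun_prop)) (fun t => ?_))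
      exact Complex.mem_slitPlane_iff.mpr (Or.inl (hu _))⟩
  have hu0 : ∀ θ, u θ ≠ 0 := by
    intro θ h1
    have := hu θ
    rw [h1] at this
    simp at this
  have hL0 : ∀ n, L n 0 = Complex.log (u 0) := by
    intro n
    show Complex.I * ((2 * Real.pi * n * ((0 : unitInterval) : ℝ) : ℝ) : ℂ) + Complex.log (u (2 * Real.pi * n * ((0 : unitInterval) : ℝ))) = _
    simp
  have hL1 : ∀ n, L n 1 = Complex.I * ((2 * Real.pi * n : ℝ) : ℂ) + Complex.log (u 0) := by
    intro n
    show Complex.I * ((2 * Real.pi * n * ((1 : unitInterval) : ℝ) : ℝ) : ℂ) + Complex.log (u (2 * Real.pi * n * ((1 : unitInterval) : ℝ))) = _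
    have e1 : 2 * Real.pi * (n : ℝ) * ((1 : unitInterval) : ℝ) = 2 * Real.pi * n := by simp
    rw [e1, hup n]
  have hlift : ∀ n, (fun z : ℂ ↦ (⟨_, z.exp_ne_zero⟩ : {z : ℂ // z ≠ 0})) ∘ (L n) =
      (F.comp (P n).toContinuousMap : C(unitInterval, {z : ℂ // z ≠ 0})) := by
    intro n
    funext t
    apply Subtype.ext
    show Complex.exp (Complex.I * ((2 * Real.pi * n * (t : ℝ) : ℝ) : ℂ) + Complex.log (u (2 * Real.pi * n * (t : ℝ))))
      = Φ (γ (2 * Real.pi * n * (t : ℝ)))
    rw [h, Complex.exp_add, Complex.exp_log (hu0 _), mul_comm Complex.I]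
  have hstart : ∀ n, (F.comp (P n).toContinuousMap : C(unitInterval, {z : ℂ // z ≠ 0})) 0 =
      (⟨Complex.exp (Complex.log (u 0)), Complex.exp_ne_zero _⟩ : {z : ℂ // z ≠ 0}) := by
    intro n
    have := congrFun (hlift n) 0
    rw [← this]
    apply Subtype.ext
    show Complex.exp (L n 0) = Complex.exp (Complex.log (u 0))
    rw [hL0]
  have hLl : ∀ n, L n = Complex.isCoveringMap_exp.liftPath (F.comp (P n).toContinuousMap) (Complex.log (u 0)) (hstart n) :=
    fun n => (Complex.isCoveringMap_exp.eq_liftPath_iff' (hstart n)).mpr ⟨hlift n, hL0 n⟩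
  have hinj : Function.Injective (fun n : ℕ =>
      (FundamentalGroup.fromPath (Path.Homotopic.Quotient.mk (P n)) : FundamentalGroup X (γ 0))) := by
    intro n m hnm
    have h1 : (P n).Homotopic (P m) := Path.Homotopic.Quotient.exact hnm
    have h2 : (F.comp (P n).toContinuousMap).HomotopicRel (F.comp (P m).toContinuousMap) {0, 1} := by
      obtain ⟨H⟩ := h1
      exact ⟨H.compContinuousMap F⟩
    have h3 := Complex.isCoveringMap_exp.liftPath_apply_one_eq_of_homotopicRel h2 (Complex.log (u 0)) (hstart n) (hstart m)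
    rw [← hLl n, ← hLl m, hL1, hL1] at h3
    have h4 : Complex.I * ((2 * Real.pi * n : ℝ) : ℂ) = Complex.I * ((2 * Real.pi * m : ℝ) : ℂ) := by
      exact add_right_cancel h3
    have h5 := mul_left_cancel₀ Complex.I_ne_zero h4
    have h6 : 2 * Real.pi * (n : ℝ) = 2 * Real.pi * m := by exact_mod_cast h5
    have h7 := mul_left_cancel₀ (by positivity : (2 * Real.pi : ℝ) ≠ 0) h6
    exact_mod_cast h7
  have hinf : Infinite (FundamentalGroup X (γ 0)) := Infinite.of_injective _ hinj
  exact Infinite.of_injective _ (FundamentalGroup.fundamentalGroupMulEquivOfPathConnected (γ 0) x).injective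



end J_infinite_pi1

alias infinite_pi1 := J_infinite_pi1.infinite_pi1

end Pool.Agent.Helper10.UC
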