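import Mathlib
import Pool.Agent.Helper10.UC.Base

open Set Filter Topology
open scoped LinearAlgebra.Projectivization

noncomputable section

namespace Pool.Agent.Helper10.UC

namespace J_contract


-- TARGET: prove this

/-- the prism operator on lists -/
def prl12341 {X Y : Type*} (f g : X → Y) : List X → Ch Y
  | [] => 0
  | x :: l => Finsupp.single (f x :: g x :: l.map g) 1 - cone (f x) (prl12341 f g l)

/-- the prism operator -/
def pr12341 {X Y : Type*} (f g : X → Y) : Ch X →ₗ[ℝ] Ch Y :=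
  Finsupp.linearCombination ℝ (prl12341 f g)

theorem pr12341_single {X Y : Type*} (f g : X → Y) (l : List X) (a : ℝ) :
    pr12341 f g (Finsupp.single l a) = a • prl12341 f g l := by
  simp [pr12341, Finsupp.linearCombination_single]

theorem cone_single12341 {X : Type*} (x : X) (l : List X) (a : ℝ) :
    cone x (Finsupp.single l a) = Finsupp.single (x :: l) a := by
  simp [cone, Finsupp.lmapDomain_apply, Finsupp.mapDomain_single]

theorem push_single12341 {X Y : Type*} (f : X → Y) (l : List X) (a : ℝ) :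
    push f (Finsupp.single l a) = Finsupp.single (l.map f) a := by
  simp [push, Finsupp.lmapDomain_apply, Finsupp.mapDomain_single]

theorem pr12341_cone {X Y : Type*} (f g : X → Y) (x : X) (c : Ch X) :
    pr12341 f g (cone x c) =
      cone (f x) (cone (g x) (push g c)) - cone (f x) (pr12341 f g c) := by
  induction c using Finsupp.induction_linear with
  | zero => simp
  | add u v hu hv => simp only [map_add, hu, hv]; abel
  | single l a =>
    rw [cone_single12341, pr12341_single, push_single12341, cone_single12341, cone_single12341,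
      pr12341_single, prl12341, smul_sub, map_smul, Finsupp.smul_single, smul_eq_mul, mul_one]

theorem pr12341_htpy_single {X Y : Type*} (f g : X → Y) (l : List X) :
    bd (prl12341 f g l) + pr12341 f g (bdl l) =
      Finsupp.single (l.map g) 1 - Finsupp.single (l.map f) 1 := by
  induction l with
  | nil => simp [prl12341, bdl]
  | cons x l ih =>
    have h1 : bd (prl12341 f g l) = Finsupp.single (l.map g) 1 - Finsupp.single (l.map f) 1 -
        pr12341 f g (bdl l) := eq_sub_of_add_eq ih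
    have h2 : bd (Finsupp.single (l.map g) (1 : ℝ)) = push g (bdl l) := by
      rw [← push_single12341, ← push_bd, bd_single, one_smul]
    have h3 : (Finsupp.single (f x :: g x :: l.map g) (1 : ℝ)) =
        cone (f x) (cone (g x) (Finsupp.single (l.map g) 1)) := by
      rw [cone_single12341, cone_single12341]
    rw [prl12341, bdl, h3]
    simp only [map_sub]
    rw [bd_cone, bd_cone, bd_cone, pr12341_cone, h1, h2, pr12341_single, one_smul]
    simp only [map_sub, cone_single12341, List.map_cons]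
    abel

theorem pr12341_htpy {X Y : Type*} (f g : X → Y) (z : Ch X) :
    bd (pr12341 f g z) + pr12341 f g (bd z) = push g z - push f z := by
  induction z using Finsupp.induction_linear with
  | zero => simp
  | add u v hu hv =>
    simp only [map_add]
    have : bd (pr12341 f g u) + bd (pr12341 f g v) + (pr12341 f g (bd u) + pr12341 f g (bd v)) =
      (bd (pr12341 f g u) + pr12341 f g (bd u)) + (bd (pr12341 f g v) + pr12341 f g (bd v)) := by
      abel
    rw [this, hu, hv]; abel
  | single l a =>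
    rw [pr12341_single, bd_single, map_smul, map_smul, ← smul_add, pr12341_htpy_single,
      push_single12341, push_single12341, smul_sub, Finsupp.smul_single, Finsupp.smul_single,
      smul_eq_mul, mul_one]

theorem cone_supp12341 {X : Type*} (x : X) (S S' : Set (List X)) (h : ∀ m ∈ S, x :: m ∈ S')
    (c : Ch X) (hc : c ∈ Finsupp.supported ℝ ℝ S) : cone x c ∈ Finsupp.supported ℝ ℝ S' := by
  classical
  rw [Finsupp.mem_supported] at hc ⊢
  intro m hm
  have h1 : m ∈ c.support.image (List.cons x) := Finsupp.mapDomain_support (by exact hm)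
  rw [Finset.mem_image] at h1
  obtain ⟨m', hm', rfl⟩ := h1
  exact h m' (hc hm')

theorem push_supp12341 {X Y : Type*} (f : X → Y) (S : Set (List X)) (S' : Set (List Y))
    (h : ∀ m ∈ S, m.map f ∈ S')
    (c : Ch X) (hc : c ∈ Finsupp.supported ℝ ℝ S) : push f c ∈ Finsupp.supported ℝ ℝ S' := by
  classical
  rw [Finsupp.mem_supported] at hc ⊢
  intro m hm
  have h1 : m ∈ c.support.image (List.map f) := Finsupp.mapDomain_support (by exact hm)
  rw [Finset.mem_image] at h1
  obtain ⟨m', hm', rfl⟩ := h1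
  exact h m' (hc hm')

theorem prl12341_supp {X Y : Type*} (f g : X → Y) (l : List X) :
    prl12341 f g l ∈ Finsupp.supported ℝ ℝ
      {m : List Y | m.length = l.length + 1 ∧ ∀ y ∈ m, ∃ x ∈ l, y = f x ∨ y = g x} := by
  induction l with
  | nil => rw [prl12341]; exact Submodule.zero_mem _
  | cons x l ih =>
    rw [prl12341]
    refine Submodule.sub_mem _ ?_ ?_
    · refine Finsupp.single_mem_supported ℝ _ ?_
      refine ⟨by simp, ?_⟩
      intro y hy
      rw [List.mem_cons, List.mem_cons, List.mem_map] at hy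
      rcases hy with rfl | rfl | ⟨x', hx', rfl⟩
      · exact ⟨x, by simp, Or.inl rfl⟩
      · exact ⟨x, by simp, Or.inr rfl⟩
      · exact ⟨x', by simp [hx'], Or.inr rfl⟩
    · refine cone_supp12341 _ _ _ ?_ _ ih
      rintro m ⟨h1, h2⟩
      refine ⟨by simp [h1], ?_⟩
      intro y hy
      rw [List.mem_cons] at hy
      rcases hy with rfl | hy
      · exact ⟨x, by simp, Or.inl rfl⟩
      · obtain ⟨x', hx', h3⟩ := h2 y hy
        exact ⟨x', by simp [hx'], h3⟩

theorem pr12341_mem {X Y : Type*} [PseudoMetricSpace X] [PseudoMetricSpace Y] (f g : X → Y)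
    (n : ℕ) (A : Set X) (B : Set Y)
    (μ' μ : ℝ) (hfB : ∀ x ∈ A, f x ∈ B) (hgB : ∀ x ∈ A, g x ∈ B)
    (hff : ∀ x ∈ A, ∀ y ∈ A, dist x y < μ' → dist (f x) (f y) < μ)
    (hfg : ∀ x ∈ A, ∀ y ∈ A, dist x y < μ' → dist (f x) (g y) < μ)
    (hgg : ∀ x ∈ A, ∀ y ∈ A, dist x y < μ' → dist (g x) (g y) < μ) (z : Ch X)
    (hz : z ∈ FC n A μ') : pr12341 f g z ∈ FC (n + 1) B μ := by
  have hl : ∀ l ∈ Sml n A μ', prl12341 f g l ∈ FC (n + 1) B μ := by
    rintro l ⟨h1, h2, h3⟩
    refine Finsupp.supported_mono ?_ (prl12341_supp f g l)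
    rintro m ⟨m1, m2⟩
    refine ⟨by rw [m1, h1], ?_, ?_⟩
    · intro y hy
      obtain ⟨x, hx, h4 | h4⟩ := m2 y hy
      · rw [h4]; exact hfB x (h2 x hx)
      · rw [h4]; exact hgB x (h2 x hx)
    · intro y hy y' hy'
      obtain ⟨x, hx, h4⟩ := m2 y hy
      obtain ⟨x', hx', h5⟩ := m2 y' hy'
      rcases h4 with h4 | h4 <;> rcases h5 with h5 | h5
      · rw [h4, h5]; exact hff x (h2 x hx) x' (h2 x' hx') (h3 x hx x' hx')
      · rw [h4, h5]; exact hfg x (h2 x hx) x' (h2 x' hx') (h3 x hx x' hx')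
      · rw [h4, h5, dist_comm]; exact hfg x' (h2 x' hx') x (h2 x hx) (h3 x' hx' x hx)
      · rw [h4, h5]; exact hgg x (h2 x hx) x' (h2 x' hx') (h3 x hx x' hx')
  unfold pr12341
  rw [Finsupp.linearCombination_apply, Finsupp.sum]
  refine Submodule.sum_mem _ fun l hl' => Submodule.smul_mem _ _ (hl l ?_)
  exact (Finsupp.mem_supported ℝ z).1 hz hl'

theorem push_id12341 {X : Type*} [PseudoMetricSpace X] (f : X → X) (n : ℕ) (A : Set X) (μ : ℝ)
    (hf : ∀ x ∈ A, f x = x)
    (z : Ch X) (hz : z ∈ FC n A μ) : push f z = z := by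
  have h1 := (Finsupp.mem_supported ℝ z).1 hz
  conv_rhs => rw [← Finsupp.sum_single z]
  conv_lhs => rw [← Finsupp.sum_single z]
  rw [Finsupp.sum, map_sum]
  refine Finset.sum_congr rfl fun l hl => ?_
  rw [push_single12341]
  congr 1
  have h2 : l ∈ Sml n A μ := h1 hl
  calc l.map f = l.map id := List.map_congr_left fun x hx => hf x (h2.2.1 x hx)
    _ = l := List.map_id l

theorem contract {X : Type*} [MetricSpace X] {A B : Set X} (hA : IsCompact A) (h : ℝ × X → X)
    (hc : ContinuousOn h (Icc (0 : ℝ) 1 ×ˢ A)) (h0 : ∀ x ∈ A, h (0, x) = x) (p : X) (hp : p ∈ B)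
    (h1 : ∀ x ∈ A, h (1, x) = p) (hB : ∀ t ∈ Icc (0 : ℝ) 1, ∀ x ∈ A, h (t, x) ∈ B) (n : ℕ)
    {μ : ℝ} (hμ : 0 < μ) :
    ∃ μ' > 0, ∀ z ∈ FC n A μ', bd z = 0 → ∃ c ∈ FC (n + 1) B μ, bd c = z := by
  have huc : UniformContinuousOn h (Icc (0 : ℝ) 1 ×ˢ A) :=
    (isCompact_Icc.prod hA).uniformContinuousOn_of_continuous hc
  rw [Metric.uniformContinuousOn_iff] at huc
  obtain ⟨δ, hδ, huc⟩ := huc μ hμ
  obtain ⟨K, hK⟩ := exists_nat_gt (1 / δ)
  have hK0 : (0 : ℝ) < K := lt_trans (by positivity) hK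
  have hKδ : 1 / (K : ℝ) < δ := by
    rw [div_lt_iff₀ hδ] at hK
    rw [div_lt_iff₀ hK0]
    linarith
  refine ⟨δ, hδ, fun z hz hbz => ?_⟩
  let H : ℕ → X → X := fun k x => h ((k : ℝ) / K, x)
  have hI : ∀ k : ℕ, k ≤ K → (k : ℝ) / K ∈ Icc (0 : ℝ) 1 := by
    intro k hk
    refine ⟨by positivity, ?_⟩
    rw [div_le_one hK0]
    exact_mod_cast hk
  have hHB : ∀ k : ℕ, k ≤ K → ∀ x ∈ A, H k x ∈ B := fun k hk x hx => hB _ (hI k hk) x hx
  have hdist : ∀ k k' : ℕ, k ≤ K → k' ≤ K → |(k : ℝ) - k'| ≤ 1 → ∀ x ∈ A, ∀ y ∈ A,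
      dist x y < δ → dist (H k x) (H k' y) < μ := by
    intro k k' hk hk' hkk x hx y hy hxy
    refine huc _ ⟨hI k hk, hx⟩ _ ⟨hI k' hk', hy⟩ ?_
    rw [Prod.dist_eq]
    refine max_lt ?_ hxy
    show dist ((k : ℝ) / K) ((k' : ℝ) / K) < δ
    rw [Real.dist_eq, ← sub_div, abs_div, abs_of_pos hK0]
    refine lt_of_le_of_lt ?_ hKδ
    exact div_le_div_of_nonneg_right hkk hK0.le
  have hP : ∀ k ∈ Finset.range K, pr12341 (H k) (H (k + 1)) z ∈ FC (n + 1) B μ := by
    intro k hk
    have hk' := Finset.mem_range.1 hk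
    refine pr12341_mem (H k) (H (k + 1)) n A B δ μ (hHB k hk'.le) (hHB (k + 1) hk') ?_ ?_ ?_ z hz
    · exact hdist k k hk'.le hk'.le (by simp)
    · exact hdist k (k + 1) hk'.le hk' (by push_cast; simp)
    · exact hdist (k + 1) (k + 1) hk' hk' (by simp)
  have hbP : bd (∑ k ∈ Finset.range K, pr12341 (H k) (H (k + 1)) z) =
      push (H K) z - push (H 0) z := by
    rw [map_sum, ← Finset.sum_range_sub (fun k => push (H k) z)]
    refine Finset.sum_congr rfl fun k _ => ?_
    have h5 := pr12341_htpy (H k) (H (k + 1)) z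
    rw [hbz, map_zero, add_zero] at h5
    exact h5
  have hH0 : push (H 0) z = z := by
    refine push_id12341 (H 0) n A δ ?_ z hz
    intro x hx
    show h (((0 : ℕ) : ℝ) / K, x) = x
    rw [Nat.cast_zero, zero_div]
    exact h0 x hx
  have hbw : bd (push (H K) z) = 0 := by
    rw [← push_bd, hbz, map_zero]
  have hHK : ∀ x ∈ A, H K x = p := by
    intro x hx
    show h ((K : ℝ) / K, x) = p
    rw [div_self hK0.ne']
    exact h1 x hx
  refine ⟨cone p (push (H K) z) - ∑ k ∈ Finset.range K, pr12341 (H k) (H (k + 1)) z, ?_, ?_⟩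
  · refine Submodule.sub_mem _ ?_ (Submodule.sum_mem _ hP)
    refine cone_supp12341 p {m : List X | m.length = n ∧ ∀ y ∈ m, y = p} _ ?_ _ ?_
    · rintro m ⟨m1, m2⟩
      have m3 : ∀ y ∈ p :: m, y = p := by
        intro y hy
        rcases List.mem_cons.1 hy with hy | hy
        · exact hy
        · exact m2 y hy
      refine ⟨by simp [m1], ?_, ?_⟩
      · intro y hy; rw [m3 y hy]; exact hp
      · intro y hy y' hy'; rw [m3 y hy, m3 y' hy', dist_self]; exact hμ
    · refine push_supp12341 _ _ _ ?_ z hz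
      rintro m ⟨m1, m2, m3⟩
      refine ⟨by simp [m1], ?_⟩
      intro y hy
      rw [List.mem_map] at hy
      obtain ⟨x, hx, rfl⟩ := hy
      exact hHK x (m2 x hx)
  · rw [map_sub, hbP, bd_cone, hbw, map_zero, hH0]
    abel


end J_contract

alias contract := J_contract.contract

end Pool.Agent.Helper10.UC
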