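import Mathlib
import Pool.Agent.Helper10.UC.Base
import Pool.Agent.Helper10.UC.J_contract

open Set Filter Topology
open scoped LinearAlgebra.Projectivization

noncomputable section

namespace Pool.Agent.Helper10.UC

namespace J_lfa


-- TARGET: prove this

theorem j12342_lb {ι : Type*} (t : Finset ι) (f : ι → ℝ) (hf : ∀ i ∈ t, 0 < f i) :
    ∃ c > 0, ∀ i ∈ t, c ≤ f i := by
  classical
  induction t using Finset.induction_on with
  | empty => exact ⟨1, one_pos, by simp⟩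
  | insert a t ha ih =>
    obtain ⟨c, hc, h⟩ := ih fun i hi => hf i (Finset.mem_insert_of_mem hi)
    refine ⟨min c (f a), lt_min hc (hf a (Finset.mem_insert_self a t)), fun i hi => ?_⟩
    rcases Finset.mem_insert.1 hi with rfl | hi
    · exact min_le_right _ _
    · exact (min_le_left _ _).trans (h i hi)

theorem j12342_mono {X : Type*} [PseudoMetricSpace X] (n : ℕ) {U V : Set X} (h : U ⊆ V) {μ ν : ℝ}
    (hμ : μ ≤ ν) : (FC n U μ : Submodule ℝ (Ch X)) ≤ FC n V ν := by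
  apply Finsupp.supported_mono
  rintro l ⟨h1, h2, h3⟩
  exact ⟨h1, fun x hx => h (h2 x hx), fun x hx y hy => (h3 x hx y hy).trans_le hμ⟩

theorem j12342_local {k : ℕ} {N : Type*} [MetricSpace N]
    [ChartedSpace (EuclideanSpace ℝ (Fin k)) N] (n : ℕ) (r : ℝ) (hr : 0 < r) (u : N) :
    ∃ ρ : ℝ, 0 < ρ ∧ ρ ≤ r / 2 ∧ ∀ μ > 0, ∃ μ' > 0, ∀ z ∈ FC n (Metric.ball u (2 * ρ)) μ',
      bd z = 0 → ∃ c ∈ FC (n + 1) (Metric.ball u (r / 2)) μ, bd c = z := by
  set φ := chartAt (EuclideanSpace ℝ (Fin k)) u with hφ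
  have hus : u ∈ φ.source := mem_chart_source _ u
  set y := φ u with hy
  have hyt : y ∈ φ.target := φ.map_source hus
  have hsy : φ.symm y = u := φ.left_inv hus
  have hW : IsOpen (φ.target ∩ φ.symm ⁻¹' Metric.ball u (r / 2)) :=
    φ.isOpen_inter_preimage_symm Metric.isOpen_ball
  have hyW : y ∈ φ.target ∩ φ.symm ⁻¹' Metric.ball u (r / 2) := by
    refine ⟨hyt, ?_⟩
    show φ.symm y ∈ Metric.ball u (r / 2)
    rw [hsy]
    exact Metric.mem_ball_self (by positivity)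
  obtain ⟨s, hs, hsW⟩ := Metric.nhds_basis_closedBall.mem_iff.1 (hW.mem_nhds hyW)
  set A : Set N := φ.symm '' Metric.closedBall y s with hAdef
  have hA : IsCompact A :=
    (isCompact_closedBall y s).image_of_continuousOn
      (φ.continuousOn_symm.mono fun z hz => (hsW hz).1)
  have hAs : A ⊆ φ.source := by
    rintro _ ⟨z, hz, rfl⟩
    exact φ.map_target (hsW hz).1
  have hAφ : ∀ x ∈ A, φ x ∈ Metric.closedBall y s := by
    rintro _ ⟨z, hz, rfl⟩
    rw [φ.right_inv (hsW hz).1]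
    exact hz
  have hO : IsOpen (φ.source ∩ φ ⁻¹' Metric.ball y s) := φ.isOpen_inter_preimage Metric.isOpen_ball
  have huO : u ∈ φ.source ∩ φ ⁻¹' Metric.ball y s := ⟨hus, Metric.mem_ball_self hs⟩
  have hOA : φ.source ∩ φ ⁻¹' Metric.ball y s ⊆ A := by
    rintro x ⟨hx, hx'⟩
    exact ⟨φ x, Metric.ball_subset_closedBall hx', φ.left_inv hx⟩
  obtain ⟨δ, hδ, hδA⟩ := Metric.mem_nhds_iff.1 (hO.mem_nhds huO)
  have hconv : ∀ t ∈ Icc (0 : ℝ) 1, ∀ x ∈ A, (1 - t) • φ x + t • y ∈ Metric.closedBall y s := by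
    intro t ht x hx
    exact (convex_closedBall y s) (hAφ x hx) (Metric.mem_closedBall_self hs.le)
      (by linarith [ht.2]) ht.1 (by ring)
  refine ⟨min (δ / 2) (r / 2), lt_min (by positivity) (by positivity), min_le_right _ _, ?_⟩
  intro μ hμ
  have hc : ContinuousOn (fun p : ℝ × N => φ.symm ((1 - p.1) • φ p.2 + p.1 • y))
      (Icc (0 : ℝ) 1 ×ˢ A) := by
    have h1 : ContinuousOn (fun p : ℝ × N => φ p.2) (Icc (0 : ℝ) 1 ×ˢ A) :=
      φ.continuousOn.comp continuousOn_snd fun p hp => hAs hp.2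
    have h2 : ContinuousOn (fun p : ℝ × N => (1 - p.1)) (Icc (0 : ℝ) 1 ×ˢ A) :=
      (continuous_const.sub continuous_fst).continuousOn
    have h3 : ContinuousOn (fun p : ℝ × N => p.1 • y) (Icc (0 : ℝ) 1 ×ˢ A) :=
      (continuous_fst.smul continuous_const).continuousOn
    refine φ.continuousOn_symm.comp ((h2.smul h1).add h3) ?_
    rintro ⟨t, x⟩ ⟨ht, hx⟩
    exact (hsW (hconv t ht x hx)).1
  have h0 : ∀ x ∈ A, (fun p : ℝ × N => φ.symm ((1 - p.1) • φ p.2 + p.1 • y)) (0, x) = x := by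
    intro x hx
    show φ.symm ((1 - (0 : ℝ)) • φ x + (0 : ℝ) • y) = x
    rw [sub_zero, one_smul, zero_smul, add_zero, φ.left_inv (hAs hx)]
  have h1 : ∀ x ∈ A, (fun p : ℝ × N => φ.symm ((1 - p.1) • φ p.2 + p.1 • y)) (1, x) = u := by
    intro x hx
    show φ.symm ((1 - (1 : ℝ)) • φ x + (1 : ℝ) • y) = u
    rw [sub_self, one_smul, zero_smul, zero_add, hsy]
  have hB : ∀ t ∈ Icc (0 : ℝ) 1, ∀ x ∈ A,
      (fun p : ℝ × N => φ.symm ((1 - p.1) • φ p.2 + p.1 • y)) (t, x) ∈ Metric.ball u (r / 2) :=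
    fun t ht x hx => (hsW (hconv t ht x hx)).2
  obtain ⟨μ', hμ', hz⟩ := contract (B := Metric.ball u (r / 2)) hA _ hc h0 u
    (Metric.mem_ball_self (by positivity)) h1 hB n hμ
  refine ⟨μ', hμ', fun z hz1 hz2 => hz z ?_ hz2⟩
  refine j12342_mono n ?_ le_rfl hz1
  intro x hx
  apply hOA
  apply hδA
  refine Metric.ball_subset_ball ?_ hx
  have := min_le_left (δ / 2) (r / 2)
  linarith

theorem lfa_of_charted {k : ℕ} {N : Type*} [MetricSpace N] [CompactSpace N]
    [ChartedSpace (EuclideanSpace ℝ (Fin k)) N] : LFA N := by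
  intro n r hr
  choose ρ hρ0 hρr hρ using fun u : N => j12342_local (k := k) n r hr u
  obtain ⟨t, -, ht⟩ := isCompact_univ.elim_nhds_subcover (fun u : N => Metric.ball u (ρ u))
    (fun u _ => Metric.ball_mem_nhds u (hρ0 u))
  obtain ⟨r', hr', hr't⟩ := j12342_lb t ρ fun u _ => hρ0 u
  refine ⟨r', hr', fun μ hμ => ?_⟩
  choose μ' hμ'0 hμ' using fun u : N => hρ u μ hμ
  obtain ⟨ν, hν, hνt⟩ := j12342_lb t μ' fun u _ => hμ'0 u
  refine ⟨ν, hν, fun x z hz hbd => ?_⟩
  obtain ⟨u, hut, hxu⟩ : ∃ u ∈ t, x ∈ Metric.ball u (ρ u) := by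
    have := ht (Set.mem_univ x)
    simpa only [Set.mem_iUnion, exists_prop] using this
  have hdist : dist x u < ρ u := hxu
  obtain ⟨c, hc, hcz⟩ := hμ' u z (j12342_mono n (by
    intro w hw
    have hw' : dist w x < r' := hw
    show dist w u < 2 * ρ u
    have h1 := dist_triangle w x u
    have h2 := hr't u hut
    linarith) (hνt u hut) hz) hbd
  refine ⟨c, j12342_mono (n + 1) ?_ le_rfl hc, hcz⟩
  intro w hw
  have hw' : dist w u < r / 2 := hw
  show dist w x < r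
  have h1 := dist_triangle w u x
  rw [dist_comm u x] at h1
  have h2 := hρr u
  linarith


end J_lfa

alias lfa_of_charted := J_lfa.lfa_of_charted

end Pool.Agent.Helper10.UC
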