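import Mathlib
import Pool.Agent.Helper10.UC.Base

open Set Filter Topology
open scoped LinearAlgebra.Projectivization

noncomputable section

namespace Pool.Agent.Helper10.UC

namespace J_lift_emb


-- TARGET: prove this

theorem lift_emb {A E B : Type*} [TopologicalSpace A] [TopologicalSpace E] [TopologicalSpace B]
    [PreconnectedSpace A] {p : E → B} (hp : IsCoveringMap p) {K : A → B} (hK : IsOpenEmbedding K) :
    (∀ F : A → E, Continuous F → (∀ x, p (F x) = K x) → IsOpenEmbedding F) ∧
    ∀ F G : A → E, Continuous F → Continuous G → (∀ x, p (F x) = K x) → (∀ x, p (G x) = K x) →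
      (∃ x, F x ≠ G x) → Disjoint (range F) (range G) := by
  constructor
  · intro F hF hpF
    have e : p ∘ F = K := funext hpF
    have hKl : IsLocalHomeomorph (p ∘ F) := by
      rw [e]
      exact hK.isLocalHomeomorph
    have hFl : IsLocalHomeomorph F := IsLocalHomeomorph.of_comp hKl hp.isLocalHomeomorph hF
    refine hFl.isOpenEmbedding_of_injective ?_
    intro x y hxy
    apply hK.injective
    rw [← hpF x, ← hpF y, hxy]
  · rintro F G hF hG hpF hpG ⟨x0, hx0⟩
    rw [Set.disjoint_left]
    rintro _ ⟨x, rfl⟩ ⟨y, hy⟩
    have hxy : y = x := by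
      apply hK.injective
      rw [← hpG y, ← hpF x, hy]
    rw [hxy] at hy
    have e : p ∘ F = p ∘ G := by
      funext z
      show p (F z) = p (G z)
      rw [hpF, hpG]
    have := hp.eq_of_comp_eq hF hG e x hy.symm
    exact hx0 (congrFun this x0)


end J_lift_emb

alias lift_emb := J_lift_emb.lift_emb

end Pool.Agent.Helper10.UC
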