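import Mathlib
import Pool.Agent.Helper10.UC.Base

open Set Filter Topology
open scoped LinearAlgebra.Projectivization

noncomputable section

namespace Pool.Agent.Helper10.UC

namespace J_conn_piece


-- TARGET: prove this

/-- the segment vector -/
def wv13021 (a b : V3) (t : ℝ) : V3 :=
  ((1 - t) * b.1 - t * a.1, (1 - t) * b.2.1 - t * a.2.1, (1 - t) * b.2.2 - t * a.2.2)

/-- the normalised segment vector -/
def bt13021 (a b : V3) (t : ℝ) : V3 :=
  ((wv13021 a b t).1 / √(dot (wv13021 a b t) (wv13021 a b t)),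
   (wv13021 a b t).2.1 / √(dot (wv13021 a b t) (wv13021 a b t)),
   (wv13021 a b t).2.2 / √(dot (wv13021 a b t) (wv13021 a b t)))

theorem dot_wv13021 (a b : V3) (ha : dot a a = 1) (hb : dot b b = 1) (t : ℝ) :
    dot (wv13021 a b t) (wv13021 a b t) = (1 - t) ^ 2 + t ^ 2 - 2 * t * (1 - t) * dot a b := by
  unfold dot wv13021 at *
  simp only
  linear_combination (1 - t) ^ 2 * hb + t ^ 2 * ha

theorem dot_a_wv13021 (a b : V3) (ha : dot a a = 1) (t : ℝ) :
    dot a (wv13021 a b t) = (1 - t) * dot a b - t := by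
  unfold dot wv13021 at *
  simp only
  linear_combination (-t) * ha

theorem dot_ge13021 (a b : V3) (ha : dot a a = 1) (hb : dot b b = 1) : -1 ≤ dot a b := by
  unfold dot at *
  nlinarith [sq_nonneg (a.1 + b.1), sq_nonneg (a.2.1 + b.2.1), sq_nonneg (a.2.2 + b.2.2)]

theorem dot_le13021 (a b : V3) (ha : dot a a = 1) (hb : dot b b = 1) : dot a b ≤ 1 := by
  unfold dot at *
  nlinarith [sq_nonneg (a.1 - b.1), sq_nonneg (a.2.1 - b.2.1), sq_nonneg (a.2.2 - b.2.2)]

theorem pos13021 (a b : V3) (ha : dot a a = 1) (hb : dot b b = 1) (hab : dot a b < 1) (t : ℝ)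
    (h0 : 0 ≤ t) (h1 : t ≤ 1) : 0 < dot (wv13021 a b t) (wv13021 a b t) := by
  rw [dot_wv13021 a b ha hb]
  rcases h0.eq_or_lt with rfl | h0
  · norm_num
  rcases h1.eq_or_lt with rfl | h1
  · norm_num
  have h2 : 0 < t * (1 - t) := mul_pos h0 (by linarith)
  nlinarith [sq_nonneg (1 - 2 * t), mul_pos h2 (sub_pos.mpr hab)]

theorem dot_bt13021 (a b : V3) (t : ℝ) (h : 0 < dot (wv13021 a b t) (wv13021 a b t)) :
    dot (bt13021 a b t) (bt13021 a b t) = 1 := by
  have hs : √(dot (wv13021 a b t) (wv13021 a b t)) ≠ 0 := (Real.sqrt_pos.mpr h).ne'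
  have hsq := Real.sq_sqrt h.le
  unfold bt13021
  set s := √(dot (wv13021 a b t) (wv13021 a b t)) with hsdef
  unfold dot at hsq ⊢
  simp only
  field_simp
  linarith

theorem dot_a_bt13021 (a b : V3) (t : ℝ) :
    dot a (bt13021 a b t) = dot a (wv13021 a b t) / √(dot (wv13021 a b t) (wv13021 a b t)) := by
  unfold bt13021
  set s := √(dot (wv13021 a b t) (wv13021 a b t)) with hsdef
  unfold dot
  simp only
  ring

theorem dot_le_bt13021 (a b : V3) (ha : dot a a = 1) (hb : dot b b = 1) (hab : dot a b < 1) (t : ℝ)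
    (h0 : 0 ≤ t) (h1 : t ≤ 1) : dot a (bt13021 a b t) ≤ dot a b := by
  have hp := pos13021 a b ha hb hab t h0 h1
  have hs : 0 < √(dot (wv13021 a b t) (wv13021 a b t)) := Real.sqrt_pos.mpr hp
  rw [dot_a_bt13021, div_le_iff₀ hs, dot_a_wv13021 a b ha]
  have hsq := Real.sq_sqrt hp.le
  rw [dot_wv13021 a b ha hb] at hsq hs ⊢
  set n := √((1 - t) ^ 2 + t ^ 2 - 2 * t * (1 - t) * dot a b) with hn
  have hge := dot_ge13021 a b ha hb
  have hle := dot_le13021 a b ha hb
  set d := dot a b with hd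
  by_cases hd0 : 0 ≤ d
  · have hn1 : (1 - t) - t * d ≤ n := by
      apply abs_le_of_sq_le_sq' _ hs.le |>.2
      rw [hsq]
      nlinarith [mul_nonneg (sq_nonneg t) (mul_nonneg (by linarith : 0 ≤ 1 - d) (by linarith : 0 ≤ 1 + d))]
    have h2 := mul_le_mul_of_nonneg_left hn1 hd0
    have h3 : d * d ≤ 1 := by nlinarith
    nlinarith [mul_le_mul_of_nonneg_left h3 h0]
  · push Not at hd0
    have hn1 : n ≤ 1 := by
      apply abs_le_of_sq_le_sq' _ (by norm_num) |>.2
      rw [hsq]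
      nlinarith [mul_nonneg (mul_nonneg h0 (by linarith : 0 ≤ 1 - t)) (by linarith : 0 ≤ 1 + d)]
    nlinarith [mul_nonneg h0 (by linarith : 0 ≤ 1 + d)]

theorem bt_zero13021 (a b : V3) (ha : dot a a = 1) (hb : dot b b = 1) : bt13021 a b 0 = b := by
  unfold bt13021
  rw [dot_wv13021 a b ha hb]
  unfold wv13021
  simp

theorem bt_one13021 (a b : V3) (ha : dot a a = 1) (hb : dot b b = 1) :
    bt13021 a b 1 = (-a.1, -a.2.1, -a.2.2) := by
  unfold bt13021
  rw [dot_wv13021 a b ha hb]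
  unfold wv13021
  simp

theorem neg13021 (a : V3) (ha : dot a a = 1) : dot (-a.1, -a.2.1, -a.2.2) (-a.1, -a.2.1, -a.2.2) = 1 := by
  unfold dot at *
  simp only
  linarith

theorem negdot13021 (a : V3) (ha : dot a a = 1) : dot a (-a.1, -a.2.1, -a.2.2) = -1 := by
  unfold dot at *
  simp only
  linarith

/-- polar coordinates -/
def ap13021 (φ z : ℝ) : V3 := (√(1 - z ^ 2) * Real.cos φ, √(1 - z ^ 2) * Real.sin φ, z)

theorem dot_ap13021 (φ z : ℝ) (hz : z ∈ Set.Ioo (-1 : ℝ) 1) : dot (ap13021 φ z) (ap13021 φ z) = 1 := by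
  have h : 0 ≤ 1 - z ^ 2 := by nlinarith [hz.1, hz.2]
  have hsq := Real.mul_self_sqrt h
  have hcs := Real.sin_sq_add_cos_sq φ
  unfold dot ap13021
  simp only
  linear_combination (Real.cos φ ^ 2 + Real.sin φ ^ 2) * hsq + (1 - z ^ 2) * hcs

theorem ap_surj13021 (a : V3) (ha : dot a a = 1) (h1 : a ≠ (0, 0, 1)) (h2 : a ≠ (0, 0, -1)) :
    ∃ (φ : ℝ) (z : ℝ), z ∈ Set.Ioo (-1 : ℝ) 1 ∧ ap13021 φ z = a := by
  obtain ⟨x, y, z⟩ := a
  unfold dot at ha
  simp only at ha
  have hne : x ^ 2 + y ^ 2 ≠ 0 := by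
    intro h
    have hx : x = 0 := by nlinarith [sq_nonneg x, sq_nonneg y]
    have hy : y = 0 := by nlinarith [sq_nonneg x, sq_nonneg y]
    subst hx
    subst hy
    have : (z - 1) * (z + 1) = 0 := by nlinarith
    rcases mul_eq_zero.mp this with h | h
    · apply h1
      rw [sub_eq_zero.mp h]
    · apply h2
      rw [eq_neg_of_add_eq_zero_left h]
  have hpos : 0 < x ^ 2 + y ^ 2 := lt_of_le_of_ne (by positivity) (Ne.symm hne)
  refine ⟨Complex.arg ⟨x, y⟩, z, ⟨by nlinarith, by nlinarith⟩, ?_⟩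
  have hn : √(1 - z ^ 2) = ‖(⟨x, y⟩ : ℂ)‖ := by
    rw [Complex.norm_def, Complex.normSq_apply]
    congr 1
    simp only
    linarith
  unfold ap13021
  rw [hn, Complex.norm_mul_cos_arg, Complex.norm_mul_sin_arg]

theorem conn_piece {c : ℝ} (hc : -1 < c) (hc1 : c ≤ 1) :
    IsPreconnected {q : DD c | q.1.1.1 ≠ (0, 0, 1) ∧ q.1.1.1 ≠ (0, 0, -1)} := by
  -- the antidiagonal part
  let ψ : ℝ × Set.Ioo (-1 : ℝ) 1 → DD c := fun p =>
    ⟨(⟨ap13021 p.1 p.2.1, dot_ap13021 _ _ p.2.2⟩,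
      ⟨(-(ap13021 p.1 p.2.1).1, -(ap13021 p.1 p.2.1).2.1, -(ap13021 p.1 p.2.1).2.2),
        neg13021 _ (dot_ap13021 _ _ p.2.2)⟩), by
        show dot (ap13021 p.1 p.2.1) _ < c
        rw [negdot13021 _ (dot_ap13021 _ _ p.2.2)]
        exact hc⟩
  have hψ : Continuous ψ := by
    have h1 : Continuous (fun p : ℝ × Set.Ioo (-1 : ℝ) 1 => ap13021 p.1 p.2.1) := by
      unfold ap13021
      fun_prop
    apply Continuous.subtype_mk
    apply Continuous.prodMk
    · exact h1.subtype_mk _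
    · apply Continuous.subtype_mk
      fun_prop
  haveI : PreconnectedSpace (Set.Ioo (-1 : ℝ) 1) := Subtype.preconnectedSpace isPreconnected_Ioo
  have hA : IsPreconnected (Set.range ψ) := isPreconnected_range hψ
  have hAsub : Set.range ψ ⊆ {q : DD c | q.1.1.1 ≠ (0, 0, 1) ∧ q.1.1.1 ≠ (0, 0, -1)} := by
    rintro _ ⟨p, rfl⟩
    constructor
    · intro h
      have h3 : p.2.1 = 1 := congrArg (fun v : V3 => v.2.2) h
      have := p.2.2.2
      linarith
    · intro h
      have h3 : p.2.1 = -1 := congrArg (fun v : V3 => v.2.2) h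
      have := p.2.2.1
      linarith
  apply isPreconnected_of_forall (ψ (0, ⟨0, by norm_num, by norm_num⟩))
  rintro ⟨⟨⟨a, ha⟩, ⟨b, hb⟩⟩, hab⟩ ⟨h1, h2⟩
  change a ≠ (0, 0, 1) at h1
  change a ≠ (0, 0, -1) at h2
  change dot a b < c at hab
  have hab1 : dot a b < 1 := lt_of_lt_of_le hab hc1
  let γ : Set.Icc (0 : ℝ) 1 → DD c := fun t =>
    ⟨(⟨a, ha⟩, ⟨bt13021 a b t.1, dot_bt13021 a b t.1 (pos13021 a b ha hb hab1 t.1 t.2.1 t.2.2)⟩), by
      show dot a (bt13021 a b t.1) < c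
      exact lt_of_le_of_lt (dot_le_bt13021 a b ha hb hab1 t.1 t.2.1 t.2.2) hab⟩
  have hγ : Continuous γ := by
    have hw : Continuous (fun t : Set.Icc (0 : ℝ) 1 => wv13021 a b t.1) := by
      unfold wv13021
      fun_prop
    have hn : Continuous (fun t : Set.Icc (0 : ℝ) 1 => √(dot (wv13021 a b t.1) (wv13021 a b t.1))) := by
      apply Continuous.sqrt
      unfold dot
      fun_prop
    have hne : ∀ t : Set.Icc (0 : ℝ) 1, √(dot (wv13021 a b t.1) (wv13021 a b t.1)) ≠ 0 := fun t =>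
      (Real.sqrt_pos.mpr (pos13021 a b ha hb hab1 t.1 t.2.1 t.2.2)).ne'
    apply Continuous.subtype_mk
    apply Continuous.prodMk continuous_const
    apply Continuous.subtype_mk
    unfold bt13021
    apply Continuous.prodMk
    · exact (continuous_fst.comp hw).div hn hne
    · apply Continuous.prodMk
      · exact (continuous_fst.comp (continuous_snd.comp hw)).div hn hne
      · exact (continuous_snd.comp (continuous_snd.comp hw)).div hn hne
  haveI : PreconnectedSpace (Set.Icc (0 : ℝ) 1) := Subtype.preconnectedSpace isPreconnected_Icc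
  have hB : IsPreconnected (Set.range γ) := isPreconnected_range hγ
  obtain ⟨φ, z, hz, haz⟩ := ap_surj13021 a ha h1 h2
  refine ⟨Set.range ψ ∪ Set.range γ, Set.union_subset hAsub ?_, Or.inl ⟨_, rfl⟩, Or.inr ?_, ?_⟩
  · rintro _ ⟨t, rfl⟩
    exact ⟨h1, h2⟩
  · refine ⟨⟨0, by norm_num, by norm_num⟩, ?_⟩
    apply Subtype.ext
    apply Prod.ext
    · rfl
    · apply Subtype.ext
      exact bt_zero13021 a b ha hb
  · refine IsPreconnected.union (γ ⟨1, by norm_num, by norm_num⟩) ?_ ⟨_, rfl⟩ hA hB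
    refine ⟨(φ, ⟨z, hz⟩), ?_⟩
    apply Subtype.ext
    apply Prod.ext
    · apply Subtype.ext
      exact haz
    · apply Subtype.ext
      show (-(ap13021 φ z).1, -(ap13021 φ z).2.1, -(ap13021 φ z).2.2) = bt13021 a b 1
      rw [haz, bt_one13021 a b ha hb]


end J_conn_piece

alias conn_piece := J_conn_piece.conn_piece

end Pool.Agent.Helper10.UC
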