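import Mathlib
import Pool.Agent.Helper10.UC.Base

open Set Filter Topology
open scoped LinearAlgebra.Projectivization

noncomputable section

namespace Pool.Agent.Helper10.UC

namespace J_lift_contr


-- TARGET: prove this

theorem lift_contr {A E B : Type*} [TopologicalSpace A] [TopologicalSpace E] [TopologicalSpace B]
    [ContractibleSpace A] {p : E → B} (hp : IsCoveringMap p) (f : A → B) (hf : Continuous f)
    (x0 : A) (e : E) (he : p e = f x0) :
    ∃ F : A → E, Continuous F ∧ (∀ x, p (F x) = f x) ∧ F x0 = e := by
  obtain ⟨y, ⟨G⟩⟩ := id_nullhomotopic A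
  have hG0 : ∀ x, G (0, x) = x := fun x => by simpa using G.apply_zero x
  have hG1 : ∀ x, G (1, x) = y := fun x => by simpa using G.apply_one x
  -- path `t ↦ f (G (t, x0))` from `f x0` to `f y`
  let c : C(unitInterval, B) := ⟨fun t => f (G (t, x0)), by fun_prop⟩
  have hc0 : c 0 = p e := by
    change f (G (0, x0)) = p e
    rw [hG0, he]
  let Γ := hp.liftPath c e hc0
  have hΓ : ∀ t, p (Γ t) = f (G (t, x0)) := fun t => congr_fun (hp.liftPath_lifts c e hc0) t
  have hΓ0 : Γ 0 = e := hp.liftPath_zero c e hc0
  have hcG : Continuous (fun q : unitInterval × A => f (G (unitInterval.symm q.1, q.2))) :=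
    hf.comp (G.continuous.comp
      ((unitInterval.continuous_symm.comp continuous_fst).prodMk continuous_snd))
  let H : C(unitInterval × A, B) := ⟨fun q => f (G (unitInterval.symm q.1, q.2)), hcG⟩
  let K : C(A, E) := ContinuousMap.const A (Γ 1)
  have H0 : ∀ a, H (0, a) = p (K a) := by
    intro a
    change f (G (unitInterval.symm 0, a)) = p (Γ 1)
    rw [hΓ, unitInterval.symm_zero, hG1, hG1]
  let L := hp.liftHomotopy H K H0
  have hL : ∀ q, p (L q) = f (G (unitInterval.symm q.1, q.2)) :=
    fun q => congr_fun (hp.liftHomotopy_lifts H K H0) q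
  have hL0 : ∀ a, L (0, a) = Γ 1 := fun a => hp.liftHomotopy_zero H K H0 a
  refine ⟨fun x => L (1, x), by fun_prop, ?_, ?_⟩
  · intro x
    rw [hL]
    simp [hG0]
  · have key : (fun t : unitInterval => L (t, x0)) = fun t => Γ (unitInterval.symm t) := by
      refine hp.eq_of_comp_eq (by fun_prop)
        (Γ.continuous.comp unitInterval.continuous_symm) ?_ 0 ?_
      · funext t
        simp only [Function.comp]
        rw [hL, hΓ]
      · simp only [unitInterval.symm_zero]
        exact hL0 x0
    have := congr_fun key 1
    simp only [unitInterval.symm_one] at this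
    exact this.trans hΓ0


end J_lift_contr

alias lift_contr := J_lift_contr.lift_contr

end Pool.Agent.Helper10.UC
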