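import Mathlib
import Pool.Agent.Helper10.UC.Base
import Pool.Agent.Helper10.UC.J_lift_contr
import Pool.Agent.Helper10.UC.J_contr_piece
import Pool.Agent.Helper10.UC.J_conn_piece

open Set Filter Topology
open scoped LinearAlgebra.Projectivization

noncomputable section

namespace Pool.Agent.Helper10.UC

namespace J_lifts


-- TARGET: prove this

theorem lifts_glue {A E B : Type*} [TopologicalSpace A] [TopologicalSpace E] [TopologicalSpace B]
    {p : E → B} (hp : IsCoveringMap p) (U V : Set A) (hU : IsOpen U) (hV : IsOpen V)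
    (hUV : ∀ x, x ∈ U ∨ x ∈ V) (hc : IsPreconnected (U ∩ V)) (hne : (U ∩ V).Nonempty)
    (K : A → B) (hK : Continuous K) (cU : ContractibleSpace U) (cV : ContractibleSpace V)
    (q0 : A) (hq0 : q0 ∈ U) (e : E) (he : p e = K q0) :
    ∃ F : A → E, Continuous F ∧ (∀ q, p (F q) = K q) ∧ F q0 = e := by
  classical
  obtain ⟨FU, hFU, hFU1, hFU2⟩ := lift_contr hp (fun x : U => K x)
    (hK.comp continuous_subtype_val) ⟨q0, hq0⟩ e he
  obtain ⟨q1, hq1⟩ := hne
  obtain ⟨FV, hFV, hFV1, hFV2⟩ := lift_contr hp (fun x : V => K x)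
    (hK.comp continuous_subtype_val) ⟨q1, hq1.2⟩ (FU ⟨q1, hq1.1⟩) (hFU1 _)
  have hpre : PreconnectedSpace (U ∩ V : Set A) := isPreconnected_iff_preconnectedSpace.1 hc
  have hagree : (fun x : (U ∩ V : Set A) => FU ⟨x.1, x.2.1⟩) =
      (fun x : (U ∩ V : Set A) => FV ⟨x.1, x.2.2⟩) := by
    have c1 : Continuous (fun x : (U ∩ V : Set A) => FU ⟨x.1, x.2.1⟩) :=
      hFU.comp (continuous_subtype_val.subtype_mk _)
    have c2 : Continuous (fun x : (U ∩ V : Set A) => FV ⟨x.1, x.2.2⟩) :=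
      hFV.comp (continuous_subtype_val.subtype_mk _)
    refine hp.eq_of_comp_eq c1 c2 ?_ ⟨q1, hq1⟩ hFV2.symm
    funext x
    show p (FU ⟨x.1, x.2.1⟩) = p (FV ⟨x.1, x.2.2⟩)
    rw [hFU1, hFV1]
  set F : A → E := fun q => if h : q ∈ U then FU ⟨q, h⟩ else FV ⟨q, (hUV q).resolve_left h⟩ with hF
  have hFUeq : ∀ x : U, F x = FU x := by
    intro x
    show (if h : (x : A) ∈ U then FU ⟨x, h⟩ else FV ⟨x, (hUV x).resolve_left h⟩) = FU x
    rw [dif_pos x.2]
  have hFVeq : ∀ x : V, F x = FV x := by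
    intro x
    show (if h : (x : A) ∈ U then FU ⟨x, h⟩ else FV ⟨x, (hUV x).resolve_left h⟩) = FV x
    by_cases h : (x : A) ∈ U
    · rw [dif_pos h]
      exact congrFun hagree ⟨x.1, h, x.2⟩
    · rw [dif_neg h]
  refine ⟨F, ?_, ?_, ?_⟩
  · rw [continuous_iff_continuousAt]
    intro q
    rcases hUV q with h | h
    · have h1 : ContinuousAt (F ∘ ((↑) : U → A)) ⟨q, h⟩ := by
        have : F ∘ ((↑) : U → A) = FU := funext hFUeq
        rw [this]; exact hFU.continuousAt
      exact (hU.isOpenEmbedding_subtypeVal.continuousAt_iff).1 h1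
    · have h1 : ContinuousAt (F ∘ ((↑) : V → A)) ⟨q, h⟩ := by
        have : F ∘ ((↑) : V → A) = FV := funext hFVeq
        rw [this]; exact hFV.continuousAt
      exact (hV.isOpenEmbedding_subtypeVal.continuousAt_iff).1 h1
  · intro q
    rcases hUV q with h | h
    · rw [hFUeq ⟨q, h⟩]; exact hFU1 _
    · rw [hFVeq ⟨q, h⟩]; exact hFV1 _
  · rw [hFUeq ⟨q0, hq0⟩]; exact hFU2

theorem lifts {E B : Type*} [TopologicalSpace E] [TopologicalSpace B] {p : E → B}
    (hp : IsCoveringMap p) {c : ℝ} (hc : -1 < c) (hc1 : c ≤ 1) (K : DD c → B) (hK : Continuous K)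
    (q0 : DD c) (e : E) (he : p e = K q0) :
    ∃ F : DD c → E, Continuous F ∧ (∀ q, p (F q) = K q) ∧ F q0 = e := by
  have hcn := conn_piece hc hc1
  have hg : Continuous (fun q : DD c => q.1.1.1) :=
    continuous_subtype_val.comp (continuous_fst.comp continuous_subtype_val)
  have hne : {q : DD c | q.1.1.1 ≠ (0, 0, 1) ∧ q.1.1.1 ≠ (0, 0, -1)}.Nonempty := by
    refine ⟨⟨(⟨(1, 0, 0), by simp [dot]⟩, ⟨(-1, 0, 0), by simp [dot]⟩), ?_⟩, ?_, ?_⟩
    · show dot (1, 0, 0) (-1, 0, 0) < c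
      simp [dot]; exact hc
    · intro h
      have := congrArg Prod.fst h
      norm_num at this
    · intro h
      have := congrArg Prod.fst h
      norm_num at this
  set UU : Set (DD c) := {q | q.1.1.1 ≠ (0, 0, -1)} with hUU
  set VV : Set (DD c) := {q | q.1.1.1 ≠ (0, 0, 1)} with hVV
  have oU : IsOpen UU := isOpen_ne.preimage hg
  have oV : IsOpen VV := isOpen_ne.preimage hg
  have hcov : ∀ q, q ∈ UU ∨ q ∈ VV := by
    intro q
    by_cases h : q.1.1.1 = (0, 0, -1)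
    · right
      show q.1.1.1 ≠ (0, 0, 1)
      rw [h]
      intro h2
      have := congrArg (fun z : V3 => z.2.2) h2
      norm_num at this
    · left; exact h
  have cU : ContractibleSpace UU := by
    have h := contr_piece hc hc1 ⟨(0, 0, 1), by simp [dot]⟩
    have he : UU = {q : DD c | q.1.1.1 ≠ -(⟨(0, 0, 1), by simp [dot]⟩ : S2).1} := by
      ext q
      have : (-((0, 0, 1) : V3)) = (0, 0, -1) := by simp
      show q.1.1.1 ≠ (0, 0, -1) ↔ q.1.1.1 ≠ -((0, 0, 1) : V3)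
      rw [this]
    rw [he]
    exact h
  have cV : ContractibleSpace VV := by
    have h := contr_piece hc hc1 ⟨(0, 0, -1), by simp [dot]⟩
    have he : VV = {q : DD c | q.1.1.1 ≠ -(⟨(0, 0, -1), by simp [dot]⟩ : S2).1} := by
      ext q
      have : (-((0, 0, -1) : V3)) = (0, 0, 1) := by simp
      show q.1.1.1 ≠ (0, 0, 1) ↔ q.1.1.1 ≠ -((0, 0, -1) : V3)
      rw [this]
    rw [he]
    exact h
  rcases hcov q0 with h0 | h0
  · refine lifts_glue hp UU VV oU oV hcov ?_ ?_ K hK cU cV q0 h0 e he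
    · have : UU ∩ VV = {q : DD c | q.1.1.1 ≠ (0, 0, 1) ∧ q.1.1.1 ≠ (0, 0, -1)} := by
        ext q; exact and_comm
      rw [this]; exact hcn
    · obtain ⟨q, hq⟩ := hne
      exact ⟨q, hq.2, hq.1⟩
  · refine lifts_glue hp VV UU oV oU (fun q => (hcov q).symm) ?_ ?_ K hK cV cU q0 h0 e he
    · have : VV ∩ UU = {q : DD c | q.1.1.1 ≠ (0, 0, 1) ∧ q.1.1.1 ≠ (0, 0, -1)} := by
        ext q; exact Iff.rfl
      rw [this]; exact hcn
    · obtain ⟨q, hq⟩ := hne
      exact ⟨q, hq.1, hq.2⟩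


end J_lifts

alias lifts := J_lifts.lifts

end Pool.Agent.Helper10.UC
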