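import Mathlib
import Pool.Agent.Helper10.UC.Base

open Set Filter Topology
open scoped LinearAlgebra.Projectivization

noncomputable section

namespace Pool.Agent.Helper10.UC

namespace J_isOpenMap_mk


-- TARGET: prove this

theorem isOpenMap_mk {ι : Type} :
    IsOpenMap (fun v : {v : ι → ℂ // v ≠ 0} => Projectivization.mk ℂ v.1 v.2) := by
  intro U hU
  apply isOpen_coinduced.mpr
  have hne : ∀ (c : ℂˣ) (v : {v : ι → ℂ // v ≠ 0}), (c : ℂ) • v.1 ≠ 0 := fun c v =>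
    smul_ne_zero c.ne_zero v.2
  have h1 : ((fun v : {v : ι → ℂ // v ≠ 0} => Projectivization.mk ℂ v.1 v.2) ⁻¹'
      ((fun v : {v : ι → ℂ // v ≠ 0} => Projectivization.mk ℂ v.1 v.2) '' U))
      = ⋃ c : ℂˣ, (fun v : {v : ι → ℂ // v ≠ 0} =>
          (⟨(c : ℂ) • v.1, hne c v⟩ : {v : ι → ℂ // v ≠ 0})) ⁻¹' U := by
    ext v
    rw [Set.mem_iUnion]
    constructor
    · rintro ⟨u, hu, huv⟩
      obtain ⟨a, ha⟩ := (Projectivization.mk_eq_mk_iff ℂ _ _ _ _).mp huv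
      refine ⟨a, ?_⟩
      have e : (⟨(a : ℂ) • v.1, hne a v⟩ : {v : ι → ℂ // v ≠ 0}) = u := Subtype.ext ha
      rw [Set.mem_preimage, e]
      exact hu
    · rintro ⟨c, hc⟩
      refine ⟨⟨(c : ℂ) • v.1, hne c v⟩, hc, ?_⟩
      exact (Projectivization.mk_eq_mk_iff ℂ _ _ _ _).mpr ⟨c, rfl⟩
  rw [h1]
  apply isOpen_iUnion
  intro c
  apply hU.preimage
  exact (continuous_subtype_val.const_smul (c : ℂ)).subtype_mk _


end J_isOpenMap_mk

alias isOpenMap_mk := J_isOpenMap_mk.isOpenMap_mk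

end Pool.Agent.Helper10.UC
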