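import Mathlib
import Pool.Agent.Helper10.UC.Base
import Pool.Agent.Helper10.UC.J_isOpenMap_mk

open Set Filter Topology
open scoped LinearAlgebra.Projectivization

noncomputable section

namespace Pool.Agent.Helper10.UC

namespace J_contAt_rep


-- TARGET: prove this

theorem contAt_rep {ι : Type} {Y : Type*} [TopologicalSpace Y] (f : (ι → ℂ) → Y)
    (hf : ∀ c : ℂ, c ≠ 0 → ∀ v : ι → ℂ, v ≠ 0 → f (c • v) = f v) (v : ι → ℂ) (hv : v ≠ 0)
    (hc : ContinuousAt f v) :
    ContinuousAt (fun x : PP ι => f x.rep) (Projectivization.mk ℂ v hv) := by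
  have key : ∀ w : {w : ι → ℂ // w ≠ 0}, f (Projectivization.mk ℂ w.1 w.2).rep = f w.1 := by
    intro w
    obtain ⟨a, ha⟩ := Projectivization.exists_smul_eq_mk_rep ℂ w.1 w.2
    rw [← ha]
    exact hf a a.ne_zero w.1 w.2
  have h1 := (isOpenMap_mk (ι := ι)).nhds_le ⟨v, hv⟩
  have h2 : Tendsto ((fun x : PP ι => f x.rep) ∘
      (fun v : {v : ι → ℂ // v ≠ 0} => Projectivization.mk ℂ v.1 v.2)) (𝓝 ⟨v, hv⟩) (𝓝 (f v)) := by
    have h3 : ((fun x : PP ι => f x.rep) ∘
      (fun v : {v : ι → ℂ // v ≠ 0} => Projectivization.mk ℂ v.1 v.2)) = f ∘ Subtype.val := by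
      funext w
      exact key w
    rw [h3]
    exact hc.tendsto.comp (continuous_subtype_val.tendsto _)
  have k0 : f (Projectivization.mk ℂ v hv).rep = f v := key ⟨v, hv⟩
  change Tendsto (fun x : PP ι => f x.rep) (𝓝 (Projectivization.mk ℂ v hv))
    (𝓝 (f (Projectivization.mk ℂ v hv).rep))
  rw [k0]
  exact (tendsto_map'_iff.2 h2).mono_left h1


end J_contAt_rep

alias contAt_rep := J_contAt_rep.contAt_rep

end Pool.Agent.Helper10.UC
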