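import Mathlib
import Pool.Agent.Helper10.UC.Base

open Set Filter Topology
open scoped LinearAlgebra.Projectivization

noncomputable section

namespace Pool.Agent.Helper10.UC

namespace J_mem_zeroLocus_mk


-- TARGET: prove this

theorem zlm_eval_smul {ι : Type} {f : MvPolynomial ι ℂ} {n : ℕ} (hf : f.IsHomogeneous n)
    (a : ℂ) (v : ι → ℂ) :
    MvPolynomial.eval (a • v) f = a ^ n * MvPolynomial.eval v f := by
  rw [MvPolynomial.eval_eq, MvPolynomial.eval_eq, Finset.mul_sum]
  refine Finset.sum_congr rfl (fun d hd => ?_)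
  have hd' : MvPolynomial.coeff d f ≠ 0 := MvPolynomial.mem_support_iff.1 hd
  have h1 : d.degree = n := by
    have h2 := hf hd'
    have h5 : Finsupp.degree d = Finsupp.weight (fun _ : ι => (1 : ℕ)) d :=
      DFunLike.congr_fun Finsupp.degree_eq_weight_one d
    rw [h5]
    exact h2
  have h3 : ∑ i ∈ d.support, d i = n := h1
  have h4 : ∏ i ∈ d.support, (a • v) i ^ d i = a ^ n * ∏ i ∈ d.support, v i ^ d i := by
    simp only [Pi.smul_apply, smul_eq_mul, mul_pow]
    rw [Finset.prod_mul_distrib, Finset.prod_pow_eq_pow_sum, h3]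
  rw [h4]
  ring

theorem mem_zeroLocus_mk {ι : Type} {F : Set (MvPolynomial ι ℂ)}
    (hF : ∀ f ∈ F, ∃ n, f.IsHomogeneous n) (v : ι → ℂ) (hv : v ≠ 0) :
    Projectivization.mk ℂ v hv ∈ zeroLocus F ↔ ∀ f ∈ F, MvPolynomial.eval v f = 0 := by
  obtain ⟨a, ha⟩ := Projectivization.exists_smul_eq_mk_rep ℂ v hv
  have ha' : ((a : ℂ) • v) = (Projectivization.mk ℂ v hv).rep := ha
  show (∀ f ∈ F, MvPolynomial.eval (Projectivization.mk ℂ v hv).rep f = 0) ↔ _
  refine forall₂_congr (fun f hf => ?_)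
  obtain ⟨n, hn⟩ := hF f hf
  rw [← ha', zlm_eval_smul hn]
  constructor
  · intro h
    rcases mul_eq_zero.1 h with h | h
    · exact absurd h (pow_ne_zero n a.ne_zero)
    · exact h
  · intro h
    rw [h, mul_zero]


end J_mem_zeroLocus_mk

alias mem_zeroLocus_mk := J_mem_zeroLocus_mk.mem_zeroLocus_mk

end Pool.Agent.Helper10.UC
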