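import Mathlib
import Pool.Agent.Helper10.UC.Base
import Pool.Agent.Helper10.UC.J_mem_zeroLocus_mk
import Pool.Agent.Helper10.UC.J_eqsM_homog

open Set Filter Topology
open scoped LinearAlgebra.Projectivization

noncomputable section

namespace Pool.Agent.Helper10.UC

namespace J_mem_MM_iff


-- TARGET: prove this

theorem mem_MM_iff_aux (v : Ix → ℂ) : (∀ f ∈ eqsM, MvPolynomial.eval v f = 0) ↔
    (∀ i j k l : Fin 4, v (some (i, j)) * v (some (k, l)) - v (some (i, l)) * v (some (k, j)) = 0) ∧
    (∀ j l : Fin 4, v (some (2, j)) * v (some (2, l)) -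
      (2 * (v (some (0, j)) * v (some (0, l))) + v (some (1, j)) * v (some (1, l))) = 0) ∧
    (∀ j l : Fin 4, v (some (3, j)) * v (some (3, l)) -
      (3 * (v (some (0, j)) * v (some (0, l))) + v (some (1, j)) * v (some (1, l))) = 0) ∧
    (∀ i k : Fin 4, v (some (i, 2)) * v (some (k, 2)) -
      (2 * (v (some (i, 0)) * v (some (k, 0))) + v (some (i, 1)) * v (some (k, 1))) = 0) ∧
    (∀ i k : Fin 4, v (some (i, 3)) * v (some (k, 3)) -
      (3 * (v (some (i, 0)) * v (some (k, 0))) + v (some (i, 1)) * v (some (k, 1))) = 0) ∧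
    (v none ^ 2 - (v (some (1, 1)) ^ 2 - 3 * v (some (0, 1)) ^ 2 - 3 * v (some (1, 0)) ^ 2
      - 7 * v (some (0, 0)) ^ 2) = 0) := by
  constructor
  · intro h
    refine ⟨fun i j k l => ?_, fun j l => ?_, fun j l => ?_, fun i k => ?_, fun i k => ?_, ?_⟩
    · have := h _ (Or.inl (Or.inl (Or.inl (Or.inl (Or.inl ⟨i, j, k, l, rfl⟩)))))
      simpa only [map_sub, map_add, map_mul, map_pow, MvPolynomial.eval_X, MvPolynomial.eval_C]
        using this
    · have := h _ (Or.inl (Or.inl (Or.inl (Or.inl (Or.inr ⟨j, l, rfl⟩)))))
      simpa only [map_sub, map_add, map_mul, map_pow, MvPolynomial.eval_X, MvPolynomial.eval_C]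
        using this
    · have := h _ (Or.inl (Or.inl (Or.inl (Or.inr ⟨j, l, rfl⟩))))
      simpa only [map_sub, map_add, map_mul, map_pow, MvPolynomial.eval_X, MvPolynomial.eval_C]
        using this
    · have := h _ (Or.inl (Or.inl (Or.inr ⟨i, k, rfl⟩)))
      simpa only [map_sub, map_add, map_mul, map_pow, MvPolynomial.eval_X, MvPolynomial.eval_C]
        using this
    · have := h _ (Or.inl (Or.inr ⟨i, k, rfl⟩))
      simpa only [map_sub, map_add, map_mul, map_pow, MvPolynomial.eval_X, MvPolynomial.eval_C]
        using this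
    · have := h _ (Or.inr rfl)
      simpa only [map_sub, map_add, map_mul, map_pow, MvPolynomial.eval_X, MvPolynomial.eval_C]
        using this
  · rintro ⟨h1, h2, h3, h4, h5, h6⟩ f hf
    rcases hf with ((((⟨i, j, k, l, rfl⟩ | ⟨j, l, rfl⟩) | ⟨j, l, rfl⟩) | ⟨i, k, rfl⟩) | ⟨i, k, rfl⟩) |
      hf
    · simpa only [map_sub, map_add, map_mul, map_pow, MvPolynomial.eval_X, MvPolynomial.eval_C]
        using h1 i j k l
    · simpa only [map_sub, map_add, map_mul, map_pow, MvPolynomial.eval_X, MvPolynomial.eval_C]
        using h2 j l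
    · simpa only [map_sub, map_add, map_mul, map_pow, MvPolynomial.eval_X, MvPolynomial.eval_C]
        using h3 j l
    · simpa only [map_sub, map_add, map_mul, map_pow, MvPolynomial.eval_X, MvPolynomial.eval_C]
        using h4 i k
    · simpa only [map_sub, map_add, map_mul, map_pow, MvPolynomial.eval_X, MvPolynomial.eval_C]
        using h5 i k
    · rw [Set.mem_singleton_iff] at hf
      rw [hf]
      simpa only [map_sub, map_add, map_mul, map_pow, MvPolynomial.eval_X, MvPolynomial.eval_C]
        using h6

theorem mem_MM_iff {v : Ix → ℂ} (hv : v ≠ 0) : Projectivization.mk ℂ v hv ∈ MM ↔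
    ∃ (a b : Fin 4 → ℂ) (w : ℂ), a ≠ 0 ∧ b ≠ 0 ∧ EC a ∧ EC b ∧ w ^ 2 = GG a b ∧ v = seg a b w := by
  unfold MM
  rw [mem_zeroLocus_mk eqsM_homog v hv, mem_MM_iff_aux]
  constructor
  · rintro ⟨h1, h2, h3, h4, h5, h6⟩
    have hex : ∃ i j, v (some (i, j)) ≠ 0 := by
      by_contra hcon
      push Not at hcon
      apply hv
      have hw : v none = 0 := by
        have := h6
        simp only [hcon] at this
        have h7 : v none ^ 2 = 0 := by linear_combination this
        exact pow_eq_zero_iff (two_ne_zero) |>.mp h7
      funext x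
      rcases x with _ | ⟨i, j⟩
      · exact hw
      · exact hcon i j
    obtain ⟨i0, j0, hT⟩ := hex
    have hab : ∀ i j, v (some (i, j)) = v (some (i, j0)) * (v (some (i0, j)) / v (some (i0, j0))) := by
      intro i j
      have := h1 i j i0 j0
      field_simp
      linear_combination this
    refine ⟨fun i => v (some (i, j0)), fun j => v (some (i0, j)) / v (some (i0, j0)), v none,
      ?_, ?_, ?_, ?_, ?_, ?_⟩
    · intro h
      exact hT (congrFun h i0)
    · intro h
      have := congrFun h j0
      simp only [Pi.zero_apply] at this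
      rw [div_self hT] at this
      exact one_ne_zero this
    · refine ⟨?_, ?_⟩
      · have := h2 j0 j0
        simp only
        linear_combination this
      · have := h3 j0 j0
        simp only
        linear_combination this
    · refine ⟨?_, ?_⟩
      · have := h4 i0 i0
        simp only
        field_simp
        linear_combination this
      · have := h5 i0 i0
        simp only
        field_simp
        linear_combination this
    · unfold GG
      simp only [← hab]
      linear_combination h6
    · funext x
      rcases x with _ | ⟨i, j⟩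
      · rfl
      · exact hab i j
  · rintro ⟨a, b, w, ha, hb, ⟨e1, e2⟩, ⟨e3, e4⟩, hw, rfl⟩
    refine ⟨fun i j k l => ?_, fun j l => ?_, fun j l => ?_, fun i k => ?_, fun i k => ?_, ?_⟩
    · simp only [seg]; ring
    · simp only [seg]
      linear_combination (b j * b l) * e1
    · simp only [seg]
      linear_combination (b j * b l) * e2
    · simp only [seg]
      linear_combination (a i * a k) * e3
    · simp only [seg]
      linear_combination (a i * a k) * e4
    · simp only [seg]
      unfold GG at hw
      linear_combination hw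


end J_mem_MM_iff

alias mem_MM_iff := J_mem_MM_iff.mem_MM_iff

end Pool.Agent.Helper10.UC
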