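import Mathlib
import Pool.Agent.Helper10.UC.Base
import Pool.Agent.Helper10.UC.J_isOpenMap_mk
import Pool.Agent.Helper10.UC.J_contAt_rep
import Pool.Agent.Helper10.UC.J_mem_MM_iff

open Set Filter Topology
open scoped LinearAlgebra.Projectivization

noncomputable section

namespace Pool.Agent.Helper10.UC

namespace J_loop_data


-- TARGET: prove this

/-- the hermitian form -/
def phi1 (v : Ix → ℂ) : ℂ :=
  ∑ j : Fin 4, v (some (1, j)) * (starRingEnd ℂ) (v (some (2, j))) +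
    Complex.I * ∑ j : Fin 4, v (some (0, j)) * (starRingEnd ℂ) (v (some (3, j)))

/-- the squared norm -/
def nn1 (v : Ix → ℂ) : ℝ := ∑ i : Ix, Complex.normSq (v i)

def ff1 (v : Ix → ℂ) : ℂ := phi1 v / (nn1 v : ℂ)

theorem nn1_pos {v : Ix → ℂ} (hv : v ≠ 0) : 0 < nn1 v := by
  obtain ⟨i, hi⟩ : ∃ i, v i ≠ 0 := by
    by_contra h
    push Not at h
    exact hv (funext h)
  unfold nn1
  exact Finset.sum_pos' (fun i _ => Complex.normSq_nonneg _) ⟨i, Finset.mem_univ _, Complex.normSq_pos.2 hi⟩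

theorem ff1_smul (c : ℂ) (hc : c ≠ 0) (v : Ix → ℂ) : ff1 (c • v) = ff1 v := by
  have h1 : phi1 (c • v) = (Complex.normSq c : ℂ) * phi1 v := by
    unfold phi1
    simp only [Pi.smul_apply, smul_eq_mul, map_mul, Finset.mul_sum, mul_add,
      Complex.normSq_eq_conj_mul_self]
    congr 1
    · refine Finset.sum_congr rfl (fun j _ => ?_)
      ring
    · refine Finset.sum_congr rfl (fun j _ => ?_)
      ring
  have h2 : nn1 (c • v) = Complex.normSq c * nn1 v := by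
    unfold nn1
    simp only [Pi.smul_apply, smul_eq_mul, Complex.normSq_mul, Finset.mul_sum]
  unfold ff1
  rw [h1, h2]
  push_cast
  have h3 : (Complex.normSq c : ℂ) ≠ 0 := by
    exact_mod_cast (Complex.normSq_pos.2 hc).ne'
  rw [mul_div_mul_left _ _ h3]

theorem ff1_cont {v : Ix → ℂ} (hv : v ≠ 0) : ContinuousAt ff1 v := by
  have h1 : Continuous phi1 := by
    unfold phi1
    have := Complex.continuous_conj
    fun_prop
  have h2 : Continuous (fun v : Ix → ℂ => (nn1 v : ℂ)) := by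
    unfold nn1
    have := Complex.continuous_normSq
    fun_prop
  exact h1.continuousAt.div h2.continuousAt (by exact_mod_cast (nn1_pos hv).ne')

theorem phi1_seg (a b : Fin 4 → ℂ) (w : ℂ) : phi1 (seg a b w) =
    ((∑ j : Fin 4, Complex.normSq (b j) : ℝ) : ℂ) *
      (a 1 * (starRingEnd ℂ) (a 2) + Complex.I * (a 0 * (starRingEnd ℂ) (a 3))) := by
  unfold phi1 seg
  push_cast
  simp only [map_mul, Complex.normSq_eq_conj_mul_self, mul_add, Finset.mul_sum, Finset.sum_mul]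
  congr 1
  · refine Finset.sum_congr rfl (fun j _ => ?_)
    ring
  · refine Finset.sum_congr rfl (fun j _ => ?_)
    ring

theorem form_ne (a : Fin 4 → ℂ) (ha : a ≠ 0) (h : EC a) :
    a 1 * (starRingEnd ℂ) (a 2) + Complex.I * (a 0 * (starRingEnd ℂ) (a 3)) ≠ 0 := by
  intro h0
  apply ha
  obtain ⟨h2, h3⟩ := h
  have e1 : (a 1) ^ 2 * (starRingEnd ℂ) (a 2 ^ 2) = - ((a 0) ^ 2 * (starRingEnd ℂ) (a 3 ^ 2)) := by
    have : a 1 * (starRingEnd ℂ) (a 2) = -(Complex.I * (a 0 * (starRingEnd ℂ) (a 3))) :=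
      eq_neg_of_add_eq_zero_left h0
    rw [map_pow, map_pow, ← mul_pow, this, neg_pow, mul_pow, mul_pow, Complex.I_sq]
    ring
  rw [h2, h3] at e1
  set R := a 1 ^ 2 with hR
  set S := a 0 ^ 2 with hS
  have e2 := congrArg Complex.re e1
  simp only [map_add, map_mul, Complex.mul_re, Complex.add_re, Complex.add_im, Complex.conj_re,
    Complex.conj_im, Complex.neg_re, Complex.mul_im, map_ofNat, Complex.re_ofNat, Complex.im_ofNat] at e2
  have e3 : (R.re + 3/2 * S.re)^2 + (R.im + 3/2 * S.im)^2 + 3/4 * (S.re^2 + S.im^2) = 0 := by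
    nlinarith [e2]
  have s1 : S.re = 0 := by nlinarith [sq_nonneg (R.re + 3/2 * S.re), sq_nonneg (R.im + 3/2 * S.im), sq_nonneg S.re, sq_nonneg S.im]
  have s2 : S.im = 0 := by nlinarith [sq_nonneg (R.re + 3/2 * S.re), sq_nonneg (R.im + 3/2 * S.im), sq_nonneg S.re, sq_nonneg S.im]
  rw [s1, s2] at e3
  have r1 : R.re = 0 := by nlinarith [sq_nonneg R.re, sq_nonneg R.im]
  have r2 : R.im = 0 := by nlinarith [sq_nonneg R.re, sq_nonneg R.im]
  have S0 : S = 0 := Complex.ext s1 s2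
  have R0 : R = 0 := Complex.ext r1 r2
  have a0 : a 0 = 0 := by rwa [hS, sq_eq_zero_iff] at S0
  have a1 : a 1 = 0 := by rwa [hR, sq_eq_zero_iff] at R0
  rw [S0, R0, mul_zero, add_zero, sq_eq_zero_iff] at h2 h3
  funext i
  fin_cases i
  · exact a0
  · exact a1
  · exact h2
  · exact h3

/-- the loop upstairs -/
def aL (θ : ℝ) : Fin 4 → ℂ :=
  ![(Real.sin θ : ℂ), (Real.cos θ : ℂ), (Real.sqrt (1 + Real.sin θ ^ 2) : ℂ),
    (Real.sqrt (1 + 2 * Real.sin θ ^ 2) : ℂ)]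

def bL : Fin 4 → ℂ := ![0, 1, 1, 1]

def gL1 (θ : ℝ) : ℝ := Real.cos θ ^ 2 - 3 * Real.sin θ ^ 2

def wL (θ : ℝ) : ℂ := (Real.sqrt (max (gL1 θ) 0) : ℂ) + Complex.I * (Real.sqrt (max (-gL1 θ) 0) : ℂ)

theorem wL_sq (θ : ℝ) : wL θ ^ 2 = (gL1 θ : ℂ) := by
  unfold wL
  rcases le_total 0 (gL1 θ) with h | h
  · rw [max_eq_left h, max_eq_right (by linarith), Real.sqrt_zero]
    push_cast
    rw [mul_zero, add_zero, ← Complex.ofReal_pow, Real.sq_sqrt h]
  · rw [max_eq_right h, max_eq_left (by linarith), Real.sqrt_zero]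
    push_cast
    rw [zero_add, mul_pow, Complex.I_sq, ← Complex.ofReal_pow, Real.sq_sqrt (by linarith)]
    push_cast
    ring

theorem EC_aL (θ : ℝ) : EC (aL θ) := by
  have hs := Real.sin_sq_add_cos_sq θ
  constructor
  · show ((Real.sqrt (1 + Real.sin θ ^ 2) : ℝ) : ℂ) ^ 2 = 2 * ((Real.sin θ : ℝ) : ℂ) ^ 2 + ((Real.cos θ : ℝ) : ℂ) ^ 2
    rw [← Complex.ofReal_pow, Real.sq_sqrt (by positivity)]
    norm_cast
    linarith
  · show ((Real.sqrt (1 + 2 * Real.sin θ ^ 2) : ℝ) : ℂ) ^ 2 = 3 * ((Real.sin θ : ℝ) : ℂ) ^ 2 + ((Real.cos θ : ℝ) : ℂ) ^ 2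
    rw [← Complex.ofReal_pow, Real.sq_sqrt (by positivity)]
    norm_cast
    linarith

theorem EC_bL : EC bL := by
  constructor
  · show (1 : ℂ) ^ 2 = 2 * 0 ^ 2 + 1 ^ 2
    norm_num
  · show (1 : ℂ) ^ 2 = 3 * 0 ^ 2 + 1 ^ 2
    norm_num

theorem GG_L (θ : ℝ) : GG (aL θ) bL = (gL1 θ : ℂ) := by
  show (((Real.cos θ : ℝ) : ℂ) * 1) ^ 2 - 3 * (((Real.sin θ : ℝ) : ℂ) * 1) ^ 2
    - 3 * (((Real.cos θ : ℝ) : ℂ) * 0) ^ 2 - 7 * (((Real.sin θ : ℝ) : ℂ) * 0) ^ 2 = _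
  unfold gL1
  push_cast
  ring

theorem aL_ne (θ : ℝ) : aL θ ≠ 0 := by
  intro h
  have h2 := congrFun h 2
  have h3 : (Real.sqrt (1 + Real.sin θ ^ 2) : ℂ) = 0 := h2
  have h4 : Real.sqrt (1 + Real.sin θ ^ 2) = 0 := by exact_mod_cast h3
  rw [Real.sqrt_eq_zero (by positivity)] at h4
  nlinarith [sq_nonneg (Real.sin θ)]

theorem bL_ne : bL ≠ 0 := by
  intro h
  have h2 : (1 : ℂ) = 0 := congrFun h 2
  exact one_ne_zero h2

def vL (θ : ℝ) : Ix → ℂ := seg (aL θ) bL (wL θ)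

theorem vL_ne (θ : ℝ) : vL θ ≠ 0 := by
  intro h
  apply aL_ne θ
  funext i
  have h2 : aL θ i * bL 1 = 0 := congrFun h (some (i, 1))
  have h3 : bL 1 = 1 := rfl
  rw [h3, mul_one] at h2
  exact h2

theorem aL_cont : Continuous aL := by
  refine continuous_pi (fun i => ?_)
  fin_cases i
  · show Continuous (fun θ : ℝ => ((Real.sin θ : ℝ) : ℂ))
    exact Complex.continuous_ofReal.comp Real.continuous_sin
  · show Continuous (fun θ : ℝ => ((Real.cos θ : ℝ) : ℂ))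
    exact Complex.continuous_ofReal.comp Real.continuous_cos
  · show Continuous (fun θ : ℝ => ((Real.sqrt (1 + Real.sin θ ^ 2) : ℝ) : ℂ))
    refine Complex.continuous_ofReal.comp ?_
    fun_prop
  · show Continuous (fun θ : ℝ => ((Real.sqrt (1 + 2 * Real.sin θ ^ 2) : ℝ) : ℂ))
    refine Complex.continuous_ofReal.comp ?_
    fun_prop

theorem wL_cont : Continuous wL := by
  unfold wL gL1
  fun_prop

theorem vL_cont : Continuous vL := by
  refine continuous_pi (fun i => ?_)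
  rcases i with _ | ⟨i, j⟩
  · exact wL_cont
  · show Continuous (fun θ : ℝ => aL θ i * bL j)
    exact ((continuous_apply i).comp aL_cont).mul continuous_const

theorem loop_data : ∃ Φ : PP Ix → ℂ, Continuous Φ ∧ (∀ x ∈ MM, Φ x ≠ 0) ∧
    ∃ γ : ℝ → PP Ix, Continuous γ ∧ (∀ θ, γ θ ∈ MM) ∧ (∀ θ, γ (θ + 2 * Real.pi) = γ θ) ∧
    ∃ u : ℝ → ℂ, (∀ θ, 0 < (u θ).re) ∧
      ∀ θ : ℝ, Φ (γ θ) = Complex.exp (θ * Complex.I) * u θ := by
  have hmk : ∀ (v : Ix → ℂ) (hv : v ≠ 0), ff1 (Projectivization.mk ℂ v hv).rep = ff1 v := by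
    intro v hv
    obtain ⟨c, hc⟩ := Projectivization.exists_smul_eq_mk_rep ℂ v hv
    rw [← hc]
    exact ff1_smul (c : ℂ) c.ne_zero v
  refine ⟨fun x => ff1 x.rep, ?_, ?_, fun θ => Projectivization.mk ℂ (vL θ) (vL_ne θ), ?_, ?_, ?_,
    fun θ => ff1 (vL θ) * Complex.exp (-(θ * Complex.I)), ?_, ?_⟩
  · rw [continuous_iff_continuousAt]
    intro x
    have h1 := contAt_rep ff1 (fun c hc v _ => ff1_smul c hc v) x.rep x.rep_nonzero
      (ff1_cont x.rep_nonzero)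
    rwa [Projectivization.mk_rep] at h1
  · intro x hx
    have h1 : Projectivization.mk ℂ x.rep x.rep_nonzero ∈ MM := by rwa [Projectivization.mk_rep]
    obtain ⟨a, b, w, ha, hb, hEa, hEb, hw, hv⟩ := (mem_MM_iff x.rep_nonzero).1 h1
    show phi1 x.rep / (nn1 x.rep : ℂ) ≠ 0
    refine div_ne_zero ?_ (by exact_mod_cast (nn1_pos x.rep_nonzero).ne')
    rw [hv, phi1_seg]
    refine mul_ne_zero ?_ (form_ne a ha hEa)
    obtain ⟨i, hi⟩ : ∃ i, b i ≠ 0 := by
      by_contra h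
      push Not at h
      exact hb (funext h)
    have : 0 < ∑ j : Fin 4, Complex.normSq (b j) :=
      Finset.sum_pos' (fun i _ => Complex.normSq_nonneg _) ⟨i, Finset.mem_univ _, Complex.normSq_pos.2 hi⟩
    exact_mod_cast this.ne'
  · have h1 : Continuous (fun v : {v : Ix → ℂ // v ≠ 0} => Projectivization.mk ℂ v.1 v.2) :=
      continuous_coinduced_rng
    exact h1.comp (vL_cont.subtype_mk vL_ne)
  · intro θ
    rw [mem_MM_iff (vL_ne θ)]
    exact ⟨aL θ, bL, wL θ, aL_ne θ, bL_ne, EC_aL θ, EC_bL, by rw [wL_sq, GG_L], rfl⟩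
  · intro θ
    have h1 : vL (θ + 2 * Real.pi) = vL θ := by
      unfold vL aL wL gL1
      rw [Real.sin_add_two_pi, Real.cos_add_two_pi]
    simp only [h1]
  · intro θ
    have hN := nn1_pos (vL_ne θ)
    have h1 : phi1 (vL θ) = 3 * (((Real.cos θ * Real.sqrt (1 + Real.sin θ ^ 2) : ℝ) : ℂ) +
        Complex.I * ((Real.sin θ * Real.sqrt (1 + 2 * Real.sin θ ^ 2) : ℝ) : ℂ)) := by
      unfold vL
      rw [phi1_seg]
      have e1 : (∑ j : Fin 4, Complex.normSq (bL j) : ℝ) = 3 := by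
        rw [Fin.sum_univ_four]
        show Complex.normSq (0:ℂ) + Complex.normSq (1:ℂ) + Complex.normSq (1:ℂ) + Complex.normSq (1:ℂ) = 3
        rw [map_zero, map_one]; norm_num
      rw [e1]
      show ((3:ℝ):ℂ) * (((Real.cos θ : ℝ) : ℂ) * (starRingEnd ℂ) ((Real.sqrt (1 + Real.sin θ ^ 2) : ℝ) : ℂ) +
        Complex.I * (((Real.sin θ : ℝ) : ℂ) * (starRingEnd ℂ) ((Real.sqrt (1 + 2 * Real.sin θ ^ 2) : ℝ) : ℂ))) = _
      rw [Complex.conj_ofReal, Complex.conj_ofReal]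
      push_cast
      ring
    have h2 : Complex.exp (-(θ * Complex.I)) = ((Real.cos θ : ℝ) : ℂ) - Complex.I * ((Real.sin θ : ℝ) : ℂ) := by
      rw [← neg_mul, Complex.exp_mul_I, Complex.cos_neg, Complex.sin_neg]
      push_cast
      ring
    show 0 < (phi1 (vL θ) / (nn1 (vL θ) : ℂ) * Complex.exp (-(θ * Complex.I))).re
    have h3 : phi1 (vL θ) / (nn1 (vL θ) : ℂ) * Complex.exp (-(θ * Complex.I)) =
        ((3 / nn1 (vL θ) : ℝ) : ℂ) * (((Real.cos θ ^ 2 * Real.sqrt (1 + Real.sin θ ^ 2) +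
          Real.sin θ ^ 2 * Real.sqrt (1 + 2 * Real.sin θ ^ 2) : ℝ) : ℂ) + Complex.I *
          ((Real.cos θ * Real.sin θ * Real.sqrt (1 + 2 * Real.sin θ ^ 2) -
            Real.cos θ * Real.sin θ * Real.sqrt (1 + Real.sin θ ^ 2) : ℝ) : ℂ)) := by
      rw [h1, h2]
      generalize Real.sqrt (1 + 2 * Real.sin θ ^ 2) = B
      generalize Real.sqrt (1 + Real.sin θ ^ 2) = A
      push_cast
      have : Complex.I ^ 2 = -1 := Complex.I_sq
      simp only [div_eq_mul_inv]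
      linear_combination (-(3 * ((nn1 (vL θ) : ℂ))⁻¹ * (Complex.sin θ ^ 2 * (B : ℂ)))) * this
    rw [h3, Complex.re_ofReal_mul]
    have h4 : (((Real.cos θ ^ 2 * Real.sqrt (1 + Real.sin θ ^ 2) +
          Real.sin θ ^ 2 * Real.sqrt (1 + 2 * Real.sin θ ^ 2) : ℝ) : ℂ) + Complex.I *
          ((Real.cos θ * Real.sin θ * Real.sqrt (1 + 2 * Real.sin θ ^ 2) -
            Real.cos θ * Real.sin θ * Real.sqrt (1 + Real.sin θ ^ 2) : ℝ) : ℂ)).re
        = Real.cos θ ^ 2 * Real.sqrt (1 + Real.sin θ ^ 2) +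
          Real.sin θ ^ 2 * Real.sqrt (1 + 2 * Real.sin θ ^ 2) := by
      rw [Complex.add_re, Complex.ofReal_re, Complex.mul_re, Complex.I_re, Complex.I_im,
        Complex.ofReal_re, Complex.ofReal_im]
      ring
    rw [h4]
    have h5 : 1 ≤ Real.sqrt (1 + Real.sin θ ^ 2) := by
      rw [Real.one_le_sqrt]; nlinarith [sq_nonneg (Real.sin θ)]
    have h6 : 1 ≤ Real.sqrt (1 + 2 * Real.sin θ ^ 2) := by
      rw [Real.one_le_sqrt]; nlinarith [sq_nonneg (Real.sin θ)]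
    have h7 := Real.sin_sq_add_cos_sq θ
    have h8 : 0 < Real.cos θ ^ 2 * Real.sqrt (1 + Real.sin θ ^ 2) +
          Real.sin θ ^ 2 * Real.sqrt (1 + 2 * Real.sin θ ^ 2) := by
      nlinarith [mul_le_mul_of_nonneg_left h5 (sq_nonneg (Real.cos θ)),
        mul_le_mul_of_nonneg_left h6 (sq_nonneg (Real.sin θ))]
    positivity
  · intro θ
    show ff1 _ = _
    rw [hmk, mul_comm, mul_assoc, ← Complex.exp_add, neg_add_cancel, Complex.exp_zero, mul_one]


end J_loop_data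

alias loop_data := J_loop_data.loop_data

end Pool.Agent.Helper10.UC
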