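import Mathlib
import Pool.Agent.Helper10.UC.Base

open Set Filter Topology
open scoped LinearAlgebra.Projectivization

noncomputable section

namespace Pool.Agent.Helper10.UC

namespace J_EC_minors


-- TARGET: prove this

theorem EC_minors {v x : Fin 4 → ℂ} (hv : v ≠ 0) (hE : EC v)
    (h2 : v 2 * x 2 = 2 * (v 0 * x 0) + v 1 * x 1) (h3 : v 3 * x 3 = 3 * (v 0 * x 0) + v 1 * x 1) :
    ∃ h : ℂ, v 1 * x 0 - v 0 * x 1 = h * (v 2 * v 3) ∧ v 2 * x 0 - v 0 * x 2 = h * (v 1 * v 3) ∧
      v 3 * x 0 - v 0 * x 3 = h * (v 1 * v 2) ∧ v 2 * x 1 - v 1 * x 2 = h * (-2 * (v 0 * v 3)) ∧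
      v 3 * x 1 - v 1 * x 3 = h * (-3 * (v 0 * v 2)) ∧ v 3 * x 2 - v 2 * x 3 = h * (-(v 0 * v 1)) := by
  obtain ⟨hE1, hE2⟩ := hE
  have hv' : ¬ (v 0 = 0 ∧ v 1 = 0 ∧ v 2 = 0 ∧ v 3 = 0) := by
    rintro ⟨h0, h1, h2', h3'⟩
    apply hv
    funext i
    fin_cases i <;> simp [h0, h1, h2', h3']
  clear hv
  generalize v 0 = a at *
  generalize v 1 = b at *
  generalize v 2 = c at *
  generalize v 3 = d at *
  generalize x 0 = p at *
  generalize x 1 = q at *
  generalize x 2 = r at *
  generalize x 3 = s at *
  by_cases hc : c = 0
  · subst hc
    have ha : a ≠ 0 := by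
      rintro rfl
      have hb : b = 0 := by
        have : b ^ 2 = 0 := by linear_combination -hE1
        exact pow_eq_zero_iff (two_ne_zero) |>.1 this
      subst hb
      have hd : d = 0 := by
        have : d ^ 2 = 0 := by linear_combination hE2
        exact pow_eq_zero_iff (two_ne_zero) |>.1 this
      exact hv' ⟨rfl, rfl, rfl, hd⟩
    have hb : b ≠ 0 := by
      rintro rfl
      apply ha
      have : a ^ 2 = 0 := by linear_combination -(1/2) * hE1
      exact pow_eq_zero_iff (two_ne_zero) |>.1 this
    have hb2 : b ^ 2 = -2 * a ^ 2 := by linear_combination -hE1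
    have hd2 : d ^ 2 = a ^ 2 := by linear_combination hE2 - hE1
    have hd : d ≠ 0 := by
      rintro rfl
      apply ha
      have : a ^ 2 = 0 := by linear_combination -hd2
      exact pow_eq_zero_iff (two_ne_zero) |>.1 this
    have hbq : b * q = -2 * (a * p) := by linear_combination -h2
    have hW : b * p - a * q = 0 := by
      apply mul_left_cancel₀ hb
      linear_combination p * hb2 - a * hbq
    refine ⟨-a * r / (b * d), ?_, ?_, ?_, ?_, ?_, ?_⟩
    · rw [hW]; ring
    · field_simp; ring
    · have : d * (d * p - a * s) = 0 := by
        linear_combination p * hd2 - a * h3 - a * hbq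
      rcases mul_eq_zero.1 this with h | h
      · exact absurd h hd
      · rw [h]; ring
    · field_simp
      linear_combination -r * hb2
    · have : d * (d * q - b * s) = 0 := by
        linear_combination q * hd2 - b * h3 - 3 * a * hW - q * hb2
      rcases mul_eq_zero.1 this with h | h
      · exact absurd h hd
      · rw [h]; ring
    · field_simp
      linear_combination r * hd2
  · by_cases hd : d = 0
    · subst hd
      have ha : a ≠ 0 := by
        rintro rfl
        have hb : b = 0 := by
          have : b ^ 2 = 0 := by linear_combination -hE2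
          exact pow_eq_zero_iff (two_ne_zero) |>.1 this
        subst hb
        apply hc
        have : c ^ 2 = 0 := by linear_combination hE1
        exact pow_eq_zero_iff (two_ne_zero) |>.1 this
      have hb : b ≠ 0 := by
        rintro rfl
        apply ha
        have : a ^ 2 = 0 := by linear_combination -(1/3) * hE2
        exact pow_eq_zero_iff (two_ne_zero) |>.1 this
      have hb2 : b ^ 2 = -3 * a ^ 2 := by linear_combination -hE2
      have hc2 : c ^ 2 = -a ^ 2 := by linear_combination hE1 - hE2
      have hbq : b * q = -3 * (a * p) := by linear_combination -h3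
      have hW : b * p - a * q = 0 := by
        apply mul_left_cancel₀ hb
        linear_combination p * hb2 - a * hbq
      refine ⟨-a * s / (b * c), ?_, ?_, ?_, ?_, ?_, ?_⟩
      · rw [hW]; ring
      · have : c * (c * p - a * r) = 0 := by
          linear_combination p * hc2 - a * h2 - a * hbq
        rcases mul_eq_zero.1 this with h | h
        · exact absurd h hc
        · rw [h]; ring
      · field_simp; ring
      · have : c * (c * q - b * r) = 0 := by
          linear_combination q * hc2 - b * h2 - 2 * a * hW - q * hb2
        rcases mul_eq_zero.1 this with h | h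
        · exact absurd h hc
        · rw [h]; ring
      · field_simp
        linear_combination -s * hb2
      · field_simp
        linear_combination -s * hc2
    · refine ⟨(b * p - a * q) / (c * d), ?_, ?_, ?_, ?_, ?_, ?_⟩
      · field_simp
      · field_simp
        linear_combination p * hE1 - a * h2
      · field_simp
        linear_combination p * hE2 - a * h3
      · field_simp
        linear_combination q * hE1 - b * h2
      · field_simp
        linear_combination q * hE2 - b * h3
      · field_simp
        linear_combination (c * r) * hE2 + (3 * a ^ 2 + b ^ 2) * h2 - (d * s) * hE1 - (2 * a ^ 2 + b ^ 2) * h3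


end J_EC_minors

alias EC_minors := J_EC_minors.EC_minors

end Pool.Agent.Helper10.UC
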