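import Mathlib
import Pool.Agent.Helper10.UC.Base
import Pool.Agent.Helper10.UC.J_EC_minors

open Set Filter Topology
open scoped LinearAlgebra.Projectivization

noncomputable section

namespace Pool.Agent.Helper10.UC

namespace J_EC_plane


-- TARGET: prove this

/-- `v` is a local lift of `α` at `t` -/
def EC_plane_Lift (α : ℂ → PP (Fin 4)) (t : ℂ) (v : ℂ → (Fin 4 → ℂ)) : Prop :=
  AnalyticAt ℂ v t ∧ ∀ᶠ s in 𝓝 t, ∃ h : v s ≠ 0, α s = Projectivization.mk ℂ (v s) h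

/-- the relation defining the value of the invariant differential -/
def EC_plane_Rel (v x : Fin 4 → ℂ) (h : ℂ) : Prop :=
  v 1 * x 0 - v 0 * x 1 = h * (v 2 * v 3) ∧ v 2 * x 0 - v 0 * x 2 = h * (v 1 * v 3) ∧
      v 3 * x 0 - v 0 * x 3 = h * (v 1 * v 2) ∧ v 2 * x 1 - v 1 * x 2 = h * (-2 * (v 0 * v 3)) ∧
      v 3 * x 1 - v 1 * x 3 = h * (-3 * (v 0 * v 2)) ∧ v 3 * x 2 - v 2 * x 3 = h * (-(v 0 * v 1))

theorem EC_plane_pair {v : Fin 4 → ℂ} (hv : v ≠ 0) (hE : EC v) : v 2 * v 3 ≠ 0 ∨ v 0 * v 1 ≠ 0 := by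
  by_contra hc
  push Not at hc
  obtain ⟨h1, h2⟩ := hc
  obtain ⟨e1, e2⟩ := hE
  apply hv
  have key : v 0 = 0 ∧ v 1 = 0 := by
    rcases mul_eq_zero.1 h1 with h | h <;> rcases mul_eq_zero.1 h2 with h' | h'
    · rw [h, h'] at e1
      exact ⟨h', by simpa using e1.symm⟩
    · rw [h, h'] at e1
      exact ⟨by simpa using e1, h'⟩
    · rw [h, h'] at e2
      exact ⟨h', by simpa using e2.symm⟩
    · rw [h, h'] at e2
      exact ⟨by simpa using e2, h'⟩
  rw [key.1, key.2] at e1 e2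
  have k2 : v 2 = 0 := by simpa using e1
  have k3 : v 3 = 0 := by simpa using e2
  funext i
  fin_cases i
  · exact key.1
  · exact key.2
  · exact k2
  · exact k3

theorem EC_plane_Rel_unique {v x : Fin 4 → ℂ} (hv : v ≠ 0) (hE : EC v) {h h' : ℂ}
    (H1 : EC_plane_Rel v x h) (H2 : EC_plane_Rel v x h') : h = h' := by
  rcases EC_plane_pair hv hE with hp | hp
  · apply mul_right_cancel₀ hp
    rw [← H1.1, ← H2.1]
  · have h1 := H1.2.2.2.2.2
    have h2 := H2.2.2.2.2.2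
    apply mul_right_cancel₀ hp
    linear_combination h1 - h2

theorem EC_plane_Rel_scale {v x : Fin 4 → ℂ} {h : ℂ} (H : EC_plane_Rel v x h) (l m : ℂ) :
    EC_plane_Rel (l • v) (l • x + m • v) h := by
  obtain ⟨h1, h2, h3, h4, h5, h6⟩ := H
  refine ⟨?_, ?_, ?_, ?_, ?_, ?_⟩ <;> simp only [Pi.smul_apply, Pi.add_apply, smul_eq_mul]
  · linear_combination l ^ 2 * h1
  · linear_combination l ^ 2 * h2
  · linear_combination l ^ 2 * h3
  · linear_combination l ^ 2 * h4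
  · linear_combination l ^ 2 * h5
  · linear_combination l ^ 2 * h6

theorem EC_plane_Rel_smul {v x : Fin 4 → ℂ} {h : ℂ} (H : EC_plane_Rel v x h) (c : ℂ) :
    EC_plane_Rel v (c • x) (c * h) := by
  obtain ⟨h1, h2, h3, h4, h5, h6⟩ := H
  refine ⟨?_, ?_, ?_, ?_, ?_, ?_⟩ <;> simp only [Pi.smul_apply, Pi.add_apply, smul_eq_mul]
  · linear_combination c * h1
  · linear_combination c * h2
  · linear_combination c * h3
  · linear_combination c * h4
  · linear_combination c * h5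
  · linear_combination c * h6

theorem EC_plane_EC_of_mk {v a : Fin 4 → ℂ} (hv : v ≠ 0) (ha : a ≠ 0)
    (h : Projectivization.mk ℂ v hv = Projectivization.mk ℂ a ha) (hE : EC a) : EC v := by
  rw [Projectivization.mk_eq_mk_iff'] at h
  obtain ⟨c, rfl⟩ := h
  obtain ⟨e1, e2⟩ := hE
  refine ⟨?_, ?_⟩ <;> simp only [Pi.smul_apply, smul_eq_mul]
  · linear_combination c ^ 2 * e1
  · linear_combination c ^ 2 * e2

theorem EC_plane_lift_near {α : ℂ → PP (Fin 4)} {t : ℂ} {v : ℂ → (Fin 4 → ℂ)} (hv : EC_plane_Lift α t v) :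
    ∀ᶠ s in 𝓝 t, EC_plane_Lift α s v :=
  hv.1.eventually_analyticAt.and (eventually_eventually_nhds.2 hv.2)

theorem EC_plane_lift_ne {α : ℂ → PP (Fin 4)} {t : ℂ} {v : ℂ → (Fin 4 → ℂ)} (hv : EC_plane_Lift α t v) :
    v t ≠ 0 := hv.2.self_of_nhds.1

theorem EC_plane_lift_EC {α : ℂ → PP (Fin 4)}
    (hαE : ∀ t, ∃ (a : Fin 4 → ℂ) (ha : a ≠ 0), EC a ∧ α t = Projectivization.mk ℂ a ha)
    {t : ℂ} {v : ℂ → (Fin 4 → ℂ)} (hv : EC_plane_Lift α t v) : EC (v t) := by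
  obtain ⟨h0, h1⟩ := hv.2.self_of_nhds
  obtain ⟨a, ha, hE, h2⟩ := hαE t
  exact EC_plane_EC_of_mk h0 ha (h1.symm.trans h2) hE

theorem EC_plane_lift_comp {α : ℂ → PP (Fin 4)} {t : ℂ} {v : ℂ → (Fin 4 → ℂ)}
    (hv : EC_plane_Lift α t v) (i : Fin 4) : HasDerivAt (fun s => v s i) (deriv v t i) t := by
  have h := hv.1.differentiableAt.hasDerivAt
  rw [hasDerivAt_pi] at h
  exact h i

theorem EC_plane_lift_rel {α : ℂ → PP (Fin 4)}
    (hαE : ∀ t, ∃ (a : Fin 4 → ℂ) (ha : a ≠ 0), EC a ∧ α t = Projectivization.mk ℂ a ha)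
    {t : ℂ} {v : ℂ → (Fin 4 → ℂ)} (hv : EC_plane_Lift α t v) :
    ∃ h, EC_plane_Rel (v t) (deriv v t) h := by
  have hev : ∀ᶠ s in 𝓝 t, EC (v s) := (EC_plane_lift_near hv).mono fun s hs => EC_plane_lift_EC hαE hs
  have hd := EC_plane_lift_comp hv
  apply EC_minors (EC_plane_lift_ne hv) (EC_plane_lift_EC hαE hv)
  · have h1 := (hd 2).pow 2
    have h2 := (((hd 0).pow 2).const_mul 2).add ((hd 1).pow 2)
    have h3 := h2.congr_of_eventuallyEq (f₁ := fun s => v s 2 ^ 2) (hev.mono fun s hs => hs.1)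
    have h4 := h1.unique h3
    simp only [Nat.cast_ofNat, Nat.add_one_sub_one, pow_one] at h4
    linear_combination (1/2 : ℂ) * h4
  · have h1 := (hd 3).pow 2
    have h2 := (((hd 0).pow 2).const_mul 3).add ((hd 1).pow 2)
    have h3 := h2.congr_of_eventuallyEq (f₁ := fun s => v s 3 ^ 2) (hev.mono fun s hs => hs.2)
    have h4 := h1.unique h3
    simp only [Nat.cast_ofNat, Nat.add_one_sub_one, pow_one] at h4
    linear_combination (1/2 : ℂ) * h4

theorem EC_plane_lift_two {α : ℂ → PP (Fin 4)} {t : ℂ} {v w : ℂ → (Fin 4 → ℂ)}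
    (hv : EC_plane_Lift α t v) (hw : EC_plane_Lift α t w) :
    ∃ l m : ℂ, w t = l • v t ∧ deriv w t = l • deriv v t + m • v t := by
  obtain ⟨i, hi⟩ := Function.ne_iff.1 (EC_plane_lift_ne hv)
  have hi' : v t i ≠ 0 := hi
  have hdv := EC_plane_lift_comp hv i
  have hdw := EC_plane_lift_comp hw i
  have hlam := hdw.fun_div hdv hi'
  have hcont : ∀ᶠ s in 𝓝 t, v s i ≠ 0 := hdv.continuousAt.eventually_ne hi'
  have hev : ∀ᶠ s in 𝓝 t, w s = (w s i / v s i) • v s := by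
    filter_upwards [hcont, hv.2, hw.2] with s hs h1 h2
    obtain ⟨a1, a2⟩ := h1
    obtain ⟨b1, b2⟩ := h2
    have := b2.symm.trans a2
    rw [Projectivization.mk_eq_mk_iff'] at this
    obtain ⟨c, hc⟩ := this
    have h3 : c * v s i = w s i := congrFun hc i
    rw [← h3, mul_div_assoc, div_self hs, mul_one, hc]
  have h5 := hlam.smul hv.1.differentiableAt.hasDerivAt
  have h6 := h5.congr_of_eventuallyEq (f₁ := w) hev
  exact ⟨_, _, hev.self_of_nhds, h6.deriv⟩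

theorem EC_plane_H (α : ℂ → PP (Fin 4)) (hα : HolC α)
    (hαE : ∀ t, ∃ (a : Fin 4 → ℂ) (ha : a ≠ 0), EC a ∧ α t = Projectivization.mk ℂ a ha) :
    ∃ H : ℂ → ℂ, ∀ t v, EC_plane_Lift α t v → EC_plane_Rel (v t) (deriv v t) (H t) := by
  have h : ∀ t, ∃ h, ∀ v, EC_plane_Lift α t v → EC_plane_Rel (v t) (deriv v t) h := by
    intro t
    obtain ⟨v, hv⟩ := hα t
    have hv' : EC_plane_Lift α t v := hv
    obtain ⟨h, hh⟩ := EC_plane_lift_rel hαE hv'
    refine ⟨h, fun w hw => ?_⟩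
    obtain ⟨l, m, h1, h2⟩ := EC_plane_lift_two hv' hw
    rw [h1, h2]
    exact EC_plane_Rel_scale hh l m
  choose H hH using h
  exact ⟨H, hH⟩

theorem EC_plane_H_diff (α : ℂ → PP (Fin 4)) (hα : HolC α)
    (hαE : ∀ t, ∃ (a : Fin 4 → ℂ) (ha : a ≠ 0), EC a ∧ α t = Projectivization.mk ℂ a ha) (H : ℂ → ℂ)
    (hH : ∀ t v, EC_plane_Lift α t v → EC_plane_Rel (v t) (deriv v t) (H t)) : Differentiable ℂ H := by
  intro t
  obtain ⟨v, hv⟩ := hα t
  have hv' : EC_plane_Lift α t v := hv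
  have hd : ∀ i, DifferentiableAt ℂ (fun s => v s i) t := fun i => (EC_plane_lift_comp hv' i).differentiableAt
  have hdd : ∀ i, DifferentiableAt ℂ (fun s => deriv v s i) t := by
    have := hv'.1.deriv.differentiableAt
    rw [differentiableAt_pi] at this
    exact this
  have hrel : ∀ᶠ s in 𝓝 t, EC_plane_Rel (v s) (deriv v s) (H s) :=
    (EC_plane_lift_near hv').mono fun s hs => hH s v hs
  rcases EC_plane_pair (EC_plane_lift_ne hv') (EC_plane_lift_EC hαE hv') with hp | hp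
  · have hne : ∀ᶠ s in 𝓝 t, v s 2 * v s 3 ≠ 0 := ((hd 2).mul (hd 3)).continuousAt.eventually_ne hp
    have h1 : DifferentiableAt ℂ (fun s => (v s 1 * deriv v s 0 - v s 0 * deriv v s 1) / (v s 2 * v s 3)) t :=
      (((hd 1).mul (hdd 0)).sub ((hd 0).mul (hdd 1))).div ((hd 2).mul (hd 3)) hp
    refine h1.congr_of_eventuallyEq ?_
    filter_upwards [hne, hrel] with s hs1 hs2
    rw [eq_div_iff hs1]
    exact hs2.1.symm
  · have hne : ∀ᶠ s in 𝓝 t, v s 0 * v s 1 ≠ 0 := ((hd 0).mul (hd 1)).continuousAt.eventually_ne hp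
    have h1 : DifferentiableAt ℂ (fun s => -(v s 3 * deriv v s 2 - v s 2 * deriv v s 3) / (v s 0 * v s 1)) t :=
      (((hd 3).mul (hdd 2)).sub ((hd 2).mul (hdd 3))).neg.div ((hd 0).mul (hd 1)) hp
    refine h1.congr_of_eventuallyEq ?_
    filter_upwards [hne, hrel] with s hs1 hs2
    rw [eq_div_iff hs1]
    linear_combination hs2.2.2.2.2.2

theorem EC_plane_const (α : ℂ → PP (Fin 4)) (hα : HolC α) (H : ℂ → ℂ)
    (hH : ∀ t v, EC_plane_Lift α t v → EC_plane_Rel (v t) (deriv v t) (H t)) (hH0 : ∀ t, H t = 0) (s t : ℂ) :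
    α s = α t := by
  apply IsLocallyConstant.apply_eq_of_preconnectedSpace
  rw [IsLocallyConstant.iff_eventually_eq]
  intro t
  obtain ⟨v, hv⟩ := hα t
  have hv' : EC_plane_Lift α t v := hv
  obtain ⟨j, hj⟩ := Function.ne_iff.1 (EC_plane_lift_ne hv')
  have hj' : v t j ≠ 0 := hj
  have hne : ∀ᶠ s in 𝓝 t, v s j ≠ 0 := (EC_plane_lift_comp hv' j).continuousAt.eventually_ne hj'
  obtain ⟨r, hr, hball⟩ := Metric.eventually_nhds_iff_ball.1 ((EC_plane_lift_near hv').and hne)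
  have hmin : ∀ s ∈ Metric.ball t r, ∀ i, v s i * deriv v s j = v s j * deriv v s i := by
    intro s hs i
    have h0 := hH s v (hball s hs).1
    rw [hH0] at h0
    obtain ⟨h1, h2, h3, h4, h5, h6⟩ := h0
    rw [zero_mul] at h1 h2 h3 h4 h5 h6
    clear hball hne hj hj' hv' hv
    fin_cases i <;> fin_cases j <;>
      first
        | exact rfl
        | exact sub_eq_zero.1 h1
        | exact (sub_eq_zero.1 h1).symm
        | exact sub_eq_zero.1 h2
        | exact (sub_eq_zero.1 h2).symm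
        | exact sub_eq_zero.1 h3
        | exact (sub_eq_zero.1 h3).symm
        | exact sub_eq_zero.1 h4
        | exact (sub_eq_zero.1 h4).symm
        | exact sub_eq_zero.1 h5
        | exact (sub_eq_zero.1 h5).symm
        | exact sub_eq_zero.1 h6
        | exact (sub_eq_zero.1 h6).symm
  have hconst : ∀ s ∈ Metric.ball t r, ∀ i, v s i / v s j = v t i / v t j := by
    intro s hs i
    have hder : ∀ z ∈ Metric.ball t r, HasDerivAt (fun z => v z i / v z j) 0 z := by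
      intro z hz
      have h1 := (EC_plane_lift_comp (hball z hz).1 i).fun_div (EC_plane_lift_comp (hball z hz).1 j) (hball z hz).2
      have h2 : (deriv v z i * v z j - v z i * deriv v z j) / v z j ^ 2 = 0 := by
        rw [hmin z hz i, mul_comm, sub_self, zero_div]
      rwa [h2] at h1
    exact Metric.isOpen_ball.is_const_of_deriv_eq_zero (Metric.isPreconnected_ball)
      (fun z hz => (hder z hz).differentiableAt.differentiableWithinAt) (fun z hz => (hder z hz).deriv) hs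
      (Metric.mem_ball_self hr)
  filter_upwards [Metric.ball_mem_nhds t hr] with s hs
  obtain ⟨a1, a2⟩ := (hball s hs).1.2.self_of_nhds
  obtain ⟨b1, b2⟩ := hv'.2.self_of_nhds
  rw [a2, b2, Projectivization.mk_eq_mk_iff']
  refine ⟨v s j / v t j, ?_⟩
  funext i
  have h7 := hconst s hs i
  have h8 := (hball s hs).2
  rw [div_eq_div_iff h8 hj'] at h7
  show v s j / v t j * v t i = v s i
  field_simp
  linear_combination -h7

theorem EC_plane_HH (α β : ℂ → PP (Fin 4)) (hβ : HolC β)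
    (hβE : ∀ t, ∃ (a : Fin 4 → ℂ) (ha : a ≠ 0), EC a ∧ β t = Projectivization.mk ℂ a ha)
    (h : ∀ t : ℂ, t ≠ 0 → α t = β t⁻¹) (Ha Hb : ℂ → ℂ)
    (hHa : ∀ t v, EC_plane_Lift α t v → EC_plane_Rel (v t) (deriv v t) (Ha t))
    (hHb : ∀ t v, EC_plane_Lift β t v → EC_plane_Rel (v t) (deriv v t) (Hb t)) (t : ℂ) (ht : t ≠ 0) :
    Ha t = -(t ^ 2)⁻¹ * Hb t⁻¹ := by
  obtain ⟨v, hv⟩ := hβ t⁻¹
  have hv' : EC_plane_Lift β t⁻¹ v := hv
  have hw : EC_plane_Lift α t (fun s => v s⁻¹) := by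
    refine ⟨?_, ?_⟩
    · exact hv'.1.comp (analyticAt_inv ht)
    · have h1 := (tendsto_inv₀ ht).eventually hv'.2
      filter_upwards [h1, eventually_ne_nhds ht] with s hs1 hs2
      obtain ⟨c1, c2⟩ := hs1
      exact ⟨c1, (h s hs2).trans c2⟩
  have hder : deriv (fun s => v s⁻¹) t = (-(t ^ 2)⁻¹) • deriv v t⁻¹ :=
    (hv'.1.differentiableAt.hasDerivAt.scomp t (hasDerivAt_inv ht)).deriv
  have h1 := hHa t _ hw
  rw [hder] at h1
  have h2 := EC_plane_Rel_smul (hHb t⁻¹ v hv') (-(t ^ 2)⁻¹)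
  exact EC_plane_Rel_unique (EC_plane_lift_ne hv') (EC_plane_lift_EC hβE hv') h1 h2

theorem EC_plane (α β : ℂ → PP (Fin 4)) (hα : HolC α) (hβ : HolC β)
    (hαE : ∀ t, ∃ (a : Fin 4 → ℂ) (ha : a ≠ 0), EC a ∧ α t = Projectivization.mk ℂ a ha)
    (hβE : ∀ t, ∃ (a : Fin 4 → ℂ) (ha : a ≠ 0), EC a ∧ β t = Projectivization.mk ℂ a ha)
    (h : ∀ t : ℂ, t ≠ 0 → α t = β t⁻¹) : ∃ c, (∀ t, α t = c) ∧ ∀ t, β t = c := by
  obtain ⟨Ha, hHa⟩ := EC_plane_H α hα hαE
  obtain ⟨Hb, hHb⟩ := EC_plane_H β hβ hβE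
  have hda := EC_plane_H_diff α hα hαE Ha hHa
  have hdb := EC_plane_H_diff β hβ hβE Hb hHb
  have hrel := EC_plane_HH α β hβ hβE h Ha Hb hHa hHb
  have htend : Tendsto Ha (cocompact ℂ) (𝓝 0) := by
    rw [← Metric.cobounded_eq_cocompact]
    have h1 : Tendsto (fun t : ℂ => t⁻¹) (Bornology.cobounded ℂ) (𝓝 0) := tendsto_inv₀_cobounded
    have h2 : Tendsto (fun x : ℂ => -x ^ 2 * Hb x) (𝓝 0) (𝓝 (-(0:ℂ) ^ 2 * Hb 0)) := by
      apply Continuous.tendsto
      exact ((continuous_pow 2).neg).mul hdb.continuous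
    have h3 := h2.comp h1
    have h4 : -(0:ℂ) ^ 2 * Hb 0 = 0 := by simp
    rw [h4] at h3
    refine h3.congr' ?_
    have h5 : ∀ᶠ t : ℂ in Bornology.cobounded ℂ, t ≠ 0 := Bornology.eventually_ne_cobounded 0
    filter_upwards [h5] with t ht
    rw [hrel t ht]
    simp only [Function.comp, inv_pow]
  have hA0 : ∀ t, Ha t = 0 := fun t => hda.apply_eq_of_tendsto_cocompact t htend
  have hB1 : ∀ t, t ≠ 0 → Hb t = 0 := by
    intro t ht
    have h1 := hrel t⁻¹ (inv_ne_zero ht)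
    rw [hA0, inv_inv] at h1
    rcases mul_eq_zero.1 h1.symm with h2 | h2
    · exfalso
      rw [neg_eq_zero, inv_eq_zero] at h2
      exact inv_ne_zero ht (pow_eq_zero_iff (two_ne_zero) |>.1 h2)
    · exact h2
  have hB0 : ∀ t, Hb t = 0 := by
    have h1 : Hb = fun _ => 0 := by
      apply Continuous.ext_on (s := {0}ᶜ) (dense_compl_singleton 0) hdb.continuous continuous_const
      intro t ht
      exact hB1 t ht
    intro t
    rw [h1]
  refine ⟨α 1, fun t => EC_plane_const α hα Ha hHa hA0 t 1, fun t => ?_⟩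
  have h1 := h 1 one_ne_zero
  rw [h1]
  exact EC_plane_const β hβ Hb hHb hB0 _ _


end J_EC_plane

alias EC_plane := J_EC_plane.EC_plane

end Pool.Agent.Helper10.UC
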