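import Mathlib
import Pool.Agent.Helper10.UC.Base
import Pool.Agent.Helper10.UC.J_EC_plane

open Set Filter Topology
open scoped LinearAlgebra.Projectivization

noncomputable section

namespace Pool.Agent.Helper10.UC

namespace J_EC_const


-- TARGET: prove this

theorem EC_const_hol (g : PP (Fin 2) → PP (Fin 4)) (hg : IsHol g) (u : ℂ → (Fin 2 → ℂ))
    (hu : ∀ t, AnalyticAt ℂ u t) (hu0 : ∀ t, u t ≠ 0) :
    HolC (fun t => g (Projectivization.mk ℂ (u t) (hu0 t))) := by
  intro t
  obtain ⟨F, hF, hev⟩ := hg (u t) (hu0 t)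
  refine ⟨fun s => F (u s), AnalyticAt.comp (g := F) (f := u) hF (hu t), ?_⟩
  have h1 := (hu t).continuousAt.tendsto.eventually hev
  filter_upwards [h1] with s hs
  obtain ⟨hz, hFz, h⟩ := hs
  exact ⟨hFz, h⟩

theorem EC_const (g : PP (Fin 2) → PP (Fin 4)) (hg : IsHol g)
    (hE : ∀ x, ∃ (a : Fin 4 → ℂ) (ha : a ≠ 0), EC a ∧ g x = Projectivization.mk ℂ a ha) :
    ∃ c, ∀ x, g x = c := by
  have hu10 : ∀ t : ℂ, (![t, 1] : Fin 2 → ℂ) ≠ 0 := by
    intro t h
    have := congrFun h 1
    simp at this
  have hu20 : ∀ t : ℂ, (![1, t] : Fin 2 → ℂ) ≠ 0 := by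
    intro t h
    have := congrFun h 0
    simp at this
  have hu1 : ∀ t : ℂ, AnalyticAt ℂ (fun t : ℂ => (![t, 1] : Fin 2 → ℂ)) t := by
    intro t
    rw [analyticAt_pi_iff]
    intro i
    fin_cases i
    · exact analyticAt_id
    · exact analyticAt_const
  have hu2 : ∀ t : ℂ, AnalyticAt ℂ (fun t : ℂ => (![1, t] : Fin 2 → ℂ)) t := by
    intro t
    rw [analyticAt_pi_iff]
    intro i
    fin_cases i
    · exact analyticAt_const
    · exact analyticAt_id
  obtain ⟨c, hc1, hc2⟩ := EC_plane
    (fun t => g (Projectivization.mk ℂ (![t, 1] : Fin 2 → ℂ) (hu10 t)))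
    (fun t => g (Projectivization.mk ℂ (![1, t] : Fin 2 → ℂ) (hu20 t)))
    (EC_const_hol g hg _ hu1 hu10) (EC_const_hol g hg _ hu2 hu20)
    (fun t => hE _) (fun t => hE _) (by
      intro t ht
      change g _ = g _
      congr 1
      rw [Projectivization.mk_eq_mk_iff']
      refine ⟨t, ?_⟩
      funext i
      fin_cases i
      · simp
      · simp [mul_inv_cancel₀ ht])
  refine ⟨c, fun x => ?_⟩
  induction x using Projectivization.ind with
  | h v hv =>
    by_cases h1 : v 1 = 0
    · have h0 : v 0 ≠ 0 := by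
        intro h0
        apply hv
        funext i
        fin_cases i
        · exact h0
        · exact h1
      have : Projectivization.mk ℂ v hv = Projectivization.mk ℂ (![1, 0] : Fin 2 → ℂ) (hu20 0) := by
        rw [Projectivization.mk_eq_mk_iff']
        refine ⟨v 0, ?_⟩
        funext i
        fin_cases i
        · simp
        · simp [h1]
      rw [this]
      exact hc2 0
    · have : Projectivization.mk ℂ v hv =
          Projectivization.mk ℂ (![v 0 / v 1, 1] : Fin 2 → ℂ) (hu10 (v 0 / v 1)) := by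
        rw [Projectivization.mk_eq_mk_iff']
        refine ⟨v 1, ?_⟩
        funext i
        fin_cases i
        · simp [mul_div_cancel₀ _ h1]
        · simp
      rw [this]
      exact hc1 _


end J_EC_const

alias EC_const := J_EC_const.EC_const

end Pool.Agent.Helper10.UC
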