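import Mathlib
import Pool.Agent.Helper10.UC.Base
import Pool.Agent.Helper10.UC.J_mem_MM_iff

open Set Filter Topology
open scoped LinearAlgebra.Projectivization

noncomputable section

namespace Pool.Agent.Helper10.UC

namespace J_proj_factors


-- TARGET: prove this

theorem proj_factors (f : PP (Fin 2) → PP Ix) (hf : IsHol f) (hM : ∀ x, f x ∈ MM) :
    ∃ f₁ f₂ : PP (Fin 2) → PP (Fin 4), IsHol f₁ ∧ IsHol f₂ ∧ ∀ x, ∃ (a b : Fin 4 → ℂ) (w : ℂ)
      (ha : a ≠ 0) (hb : b ≠ 0) (hs : seg a b w ≠ 0), EC a ∧ EC b ∧ w ^ 2 = GG a b ∧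
      f x = Projectivization.mk ℂ (seg a b w) hs ∧ f₁ x = Projectivization.mk ℂ a ha ∧
      f₂ x = Projectivization.mk ℂ b hb := by
  classical
  have key : ∀ x, ∃ (a b : Fin 4 → ℂ) (w : ℂ) (ha : a ≠ 0) (hb : b ≠ 0) (hs : seg a b w ≠ 0),
      EC a ∧ EC b ∧ w ^ 2 = GG a b ∧ f x = Projectivization.mk ℂ (seg a b w) hs := by
    intro x
    have h1 := hM x
    rw [← (f x).mk_rep] at h1
    obtain ⟨a, b, w, ha, hb, hEa, hEb, hw, hv⟩ := (mem_MM_iff (f x).rep_nonzero).1 h1
    have hs : seg a b w ≠ 0 := by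
      rw [← hv]; exact (f x).rep_nonzero
    refine ⟨a, b, w, ha, hb, hs, hEa, hEb, hw, ?_⟩
    rw [← (f x).mk_rep, Projectivization.mk_eq_mk_iff']
    exact ⟨1, by rw [one_smul, hv]⟩
  choose A B W hA hB hS hEA hEB hW hfx using key
  refine ⟨fun x => Projectivization.mk ℂ (A x) (hA x), fun x => Projectivization.mk ℂ (B x) (hB x),
    ?_, ?_, fun x => ⟨A x, B x, W x, hA x, hB x, hS x, hEA x, hEB x, hW x, hfx x, rfl, rfl⟩⟩
  · intro v hv
    obtain ⟨F, hFan, hev⟩ := hf v hv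
    obtain ⟨hz0, hF0, hf0⟩ := hev.self_of_nhds
    have hm : Projectivization.mk ℂ (F v) hF0 ∈ MM := by rw [← hf0]; exact hM _
    obtain ⟨a, b, w, ha, hb, -, -, -, hFv⟩ := (mem_MM_iff hF0).1 hm
    obtain ⟨i, hi⟩ := Function.ne_iff.1 ha
    obtain ⟨j, hj⟩ := Function.ne_iff.1 hb
    have hij : F v (some (i, j)) ≠ 0 := by
      rw [hFv]; exact mul_ne_zero hi hj
    let L : (Ix → ℂ) →L[ℂ] (Fin 4 → ℂ) :=
      ContinuousLinearMap.pi fun k => ContinuousLinearMap.proj (R := ℂ) (φ := fun _ : Ix => ℂ) (some (k, j))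
    refine ⟨fun z => L (F z), (L.analyticAt _).comp hFan, ?_⟩
    have hc : ∀ᶠ z in 𝓝 v, F z (some (i, j)) ≠ 0 := by
      have h2 : ContinuousAt (fun z => F z (some (i, j))) v :=
        (continuous_apply (some (i, j))).continuousAt.comp hFan.continuousAt
      exact h2.eventually_ne hij
    filter_upwards [hev, hc] with z hz hcz
    obtain ⟨hz1, hF1, hf1⟩ := hz
    have hL : L (F z) ≠ 0 := by
      intro h0
      exact hcz (congrFun h0 i)
    refine ⟨hz1, hL, ?_⟩
    have h3 := hfx (Projectivization.mk ℂ z hz1)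
    rw [hf1, Projectivization.mk_eq_mk_iff'] at h3
    obtain ⟨c, hc'⟩ := h3
    symm
    rw [Projectivization.mk_eq_mk_iff']
    refine ⟨c * B (Projectivization.mk ℂ z hz1) j, ?_⟩
    funext k
    have h4 := congrFun hc' (some (k, j))
    simp only [Pi.smul_apply, smul_eq_mul] at h4 ⊢
    change _ = F z (some (k, j))
    rw [← h4]
    simp only [seg]
    ring
  · intro v hv
    obtain ⟨F, hFan, hev⟩ := hf v hv
    obtain ⟨hz0, hF0, hf0⟩ := hev.self_of_nhds
    have hm : Projectivization.mk ℂ (F v) hF0 ∈ MM := by rw [← hf0]; exact hM _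
    obtain ⟨a, b, w, ha, hb, -, -, -, hFv⟩ := (mem_MM_iff hF0).1 hm
    obtain ⟨i, hi⟩ := Function.ne_iff.1 ha
    obtain ⟨j, hj⟩ := Function.ne_iff.1 hb
    have hij : F v (some (i, j)) ≠ 0 := by
      rw [hFv]; exact mul_ne_zero hi hj
    let L : (Ix → ℂ) →L[ℂ] (Fin 4 → ℂ) :=
      ContinuousLinearMap.pi fun k => ContinuousLinearMap.proj (R := ℂ) (φ := fun _ : Ix => ℂ) (some (i, k))
    refine ⟨fun z => L (F z), (L.analyticAt _).comp hFan, ?_⟩
    have hc : ∀ᶠ z in 𝓝 v, F z (some (i, j)) ≠ 0 := by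
      have h2 : ContinuousAt (fun z => F z (some (i, j))) v :=
        (continuous_apply (some (i, j))).continuousAt.comp hFan.continuousAt
      exact h2.eventually_ne hij
    filter_upwards [hev, hc] with z hz hcz
    obtain ⟨hz1, hF1, hf1⟩ := hz
    have hL : L (F z) ≠ 0 := by
      intro h0
      exact hcz (congrFun h0 j)
    refine ⟨hz1, hL, ?_⟩
    have h3 := hfx (Projectivization.mk ℂ z hz1)
    rw [hf1, Projectivization.mk_eq_mk_iff'] at h3
    obtain ⟨c, hc'⟩ := h3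
    symm
    rw [Projectivization.mk_eq_mk_iff']
    refine ⟨c * A (Projectivization.mk ℂ z hz1) i, ?_⟩
    funext k
    have h4 := congrFun hc' (some (i, k))
    simp only [Pi.smul_apply, smul_eq_mul] at h4 ⊢
    change _ = F z (some (i, k))
    rw [← h4]
    simp only [seg]
    ring


end J_proj_factors

alias proj_factors := J_proj_factors.proj_factors

end Pool.Agent.Helper10.UC
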