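import Mathlib
import Pool.Agent.Helper10.UC.Base
import Pool.Agent.Helper10.UC.J_mem_MM_iff
import Pool.Agent.Helper10.UC.J_EC_const
import Pool.Agent.Helper10.UC.J_proj_factors

open Set Filter Topology
open scoped LinearAlgebra.Projectivization

noncomputable section

namespace Pool.Agent.Helper10.UC

namespace J_noRat


-- TARGET: prove this

theorem noRat : NoRationalCurve MM := by
  intro f hf hM
  obtain ⟨f₁, f₂, h1, h2, h⟩ := proj_factors f hf hM
  obtain ⟨c₁, hc₁⟩ := EC_const f₁ h1 (fun x => by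
    obtain ⟨a, b, w, ha, hb, hs, hEa, hEb, hw, hfx, h1x, h2x⟩ := h x
    exact ⟨a, ha, hEa, h1x⟩)
  obtain ⟨c₂, hc₂⟩ := EC_const f₂ h2 (fun x => by
    obtain ⟨a, b, w, ha, hb, hs, hEa, hEb, hw, hfx, h1x, h2x⟩ := h x
    exact ⟨b, hb, hEb, h2x⟩)
  obtain ⟨i, hi⟩ : ∃ i, c₁.rep i ≠ 0 := Function.ne_iff.mp c₁.rep_nonzero
  obtain ⟨j, hj⟩ : ∃ j, c₂.rep j ≠ 0 := Function.ne_iff.mp c₂.rep_nonzero
  have hkey : ∀ x, ∃ w : ℂ, w ^ 2 = GG c₁.rep c₂.rep ∧ ∃ hs : seg c₁.rep c₂.rep w ≠ 0,
      f x = Projectivization.mk ℂ (seg c₁.rep c₂.rep w) hs := by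
    intro x
    obtain ⟨a, b, w, ha, hb, hs, hEa, hEb, hw, hfx, h1x, h2x⟩ := h x
    have e1 : Projectivization.mk ℂ a ha = Projectivization.mk ℂ c₁.rep c₁.rep_nonzero := by
      rw [← h1x, hc₁ x, Projectivization.mk_rep]
    have e2 : Projectivization.mk ℂ b hb = Projectivization.mk ℂ c₂.rep c₂.rep_nonzero := by
      rw [← h2x, hc₂ x, Projectivization.mk_rep]
    obtain ⟨l, hl⟩ := (Projectivization.mk_eq_mk_iff' ℂ _ _ ha c₁.rep_nonzero).mp e1
    obtain ⟨m, hm⟩ := (Projectivization.mk_eq_mk_iff' ℂ _ _ hb c₂.rep_nonzero).mp e2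
    have hl0 : l ≠ 0 := by
      rintro rfl
      exact ha (by rw [← hl, zero_smul])
    have hm0 : m ≠ 0 := by
      rintro rfl
      exact hb (by rw [← hm, zero_smul])
    have hlm : l * m ≠ 0 := mul_ne_zero hl0 hm0
    have hseg : (l * m) • seg c₁.rep c₂.rep (w / (l * m)) = seg a b w := by
      funext k
      cases k with
      | none =>
        simp only [seg, Pi.smul_apply, smul_eq_mul]
        field_simp
      | some p =>
        obtain ⟨p, q⟩ := p
        simp only [seg, Pi.smul_apply, smul_eq_mul, ← hl, ← hm]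
        ring
    have hs' : seg c₁.rep c₂.rep (w / (l * m)) ≠ 0 := by
      intro h0
      exact hs (by rw [← hseg, h0, smul_zero])
    refine ⟨w / (l * m), ?_, hs', ?_⟩
    · rw [div_pow, hw, div_eq_iff (pow_ne_zero 2 hlm), ← hl, ← hm]
      simp only [GG, Pi.smul_apply, smul_eq_mul]
      ring
    · rw [hfx]
      exact (Projectivization.mk_eq_mk_iff' ℂ _ _ hs hs').mpr ⟨l * m, hseg⟩
  choose wx hwx hsx hfx using hkey
  classical
  set R : (Fin 2 → ℂ) → ℂ := fun v => if hv : v ≠ 0 then wx (Projectivization.mk ℂ v hv) else 0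
    with hR
  have hRv : ∀ (v : Fin 2 → ℂ) (hv : v ≠ 0), R v = wx (Projectivization.mk ℂ v hv) := by
    intro v hv
    simp only [hR, dif_pos hv]
  have hcont : ContinuousOn R ({0}ᶜ : Set (Fin 2 → ℂ)) := by
    intro v hv
    have hv0 : v ≠ 0 := hv
    apply ContinuousAt.continuousWithinAt
    obtain ⟨F, hFa, hFe⟩ := hf v hv0
    have hrel : ∀ z, (∃ (hz : z ≠ 0) (hF : F z ≠ 0),
        f (Projectivization.mk ℂ z hz) = Projectivization.mk ℂ (F z) hF) →
        F z (some (i, j)) ≠ 0 ∧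
        R z = F z none / F z (some (i, j)) * (c₁.rep i * c₂.rep j) := by
      rintro z ⟨hz, hF, hfz⟩
      rw [hfx (Projectivization.mk ℂ z hz)] at hfz
      obtain ⟨l, hl⟩ := (Projectivization.mk_eq_mk_iff' ℂ _ _ hF (hsx _)).mp hfz.symm
      have hl0 : l ≠ 0 := by
        rintro rfl
        exact hF (by rw [← hl, zero_smul])
      have q1 : F z (some (i, j)) = l * (c₁.rep i * c₂.rep j) := by
        rw [← hl]
        simp only [seg, Pi.smul_apply, smul_eq_mul]
      have q2 : F z none = l * R z := by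
        rw [← hl, hRv z hz]
        simp only [seg, Pi.smul_apply, smul_eq_mul]
      have hne : c₁.rep i * c₂.rep j ≠ 0 := mul_ne_zero hi hj
      refine ⟨by rw [q1]; exact mul_ne_zero hl0 hne, ?_⟩
      rw [q1, q2]
      field_simp
    have hFc : ContinuousAt F v := hFa.continuousAt
    have hv1 := (hrel v hFe.self_of_nhds).1
    have hc : ContinuousAt (fun z => F z none / F z (some (i, j)) * (c₁.rep i * c₂.rep j)) v := by
      have k1 : ContinuousAt (fun z => F z none) v := (continuous_apply none).continuousAt.comp hFc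
      have k2 : ContinuousAt (fun z => F z (some (i, j))) v :=
        (continuous_apply (some (i, j))).continuousAt.comp hFc
      exact (k1.div k2 hv1).mul continuousAt_const
    refine hc.congr ?_
    filter_upwards [hFe] with z hz
    exact (hrel z hz).2.symm
  have hpre : IsPreconnected ({0}ᶜ : Set (Fin 2 → ℂ)) := by
    refine (isConnected_compl_singleton_of_one_lt_rank ?_ _).isPreconnected
    apply Module.one_lt_rank_of_one_lt_finrank
    rw [Module.finrank_pi_fintype]
    simp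
  -- base point
  set v₀ : Fin 2 → ℂ := fun _ => 1 with hv₀
  have hv₀0 : v₀ ≠ 0 := by
    intro h0
    have := congrFun h0 0
    simp [hv₀] at this
  have hmaps : MapsTo R ({0}ᶜ : Set (Fin 2 → ℂ)) ({R v₀, -R v₀} : Set ℂ) := by
    intro v hv
    have hv0 : v ≠ 0 := hv
    have e : R v ^ 2 = R v₀ ^ 2 := by
      rw [hRv v hv0, hRv v₀ hv₀0, hwx, hwx]
    rcases sq_eq_sq_iff_eq_or_eq_neg.mp e with e | e
    · left; exact e
    · right; exact e
  have hdisc : IsDiscrete ({R v₀, -R v₀} : Set ℂ) := Set.Finite.isDiscrete (by simp)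
  refine ⟨Projectivization.mk ℂ (seg c₁.rep c₂.rep (wx (Projectivization.mk ℂ v₀ hv₀0))) (hsx _),
    fun x => ?_⟩
  have hx : Projectivization.mk ℂ x.rep x.rep_nonzero = x := Projectivization.mk_rep x
  have e : R x.rep = R v₀ := hpre.constant_of_mapsTo hdisc hcont hmaps
    (show x.rep ∈ ({0}ᶜ : Set (Fin 2 → ℂ)) from x.rep_nonzero)
    (show v₀ ∈ ({0}ᶜ : Set (Fin 2 → ℂ)) from hv₀0)
  rw [hRv _ x.rep_nonzero, hx, hRv _ hv₀0] at e
  rw [hfx x]
  congr 1
  rw [e]


end J_noRat

alias noRat := J_noRat.noRat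

end Pool.Agent.Helper10.UC
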