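import Mathlib
import Pool.Agent.Helper10.UC.Base

open Set Filter Topology
open scoped LinearAlgebra.Projectivization

noncomputable section

namespace Pool.Agent.Helper10.UC

namespace J_approx



section apx

theorem ap_eq_of_supp {X V : Type*} [AddCommGroup V] [Module ℝ V] (S : Set (List X))
    (f g : Ch X →ₗ[ℝ] V) (h : ∀ l ∈ S, f (Finsupp.single l 1) = g (Finsupp.single l 1))
    {c : Ch X} (hc : c ∈ Finsupp.supported ℝ ℝ S) : f c = g c := by
  rw [Finsupp.supported_eq_span_single] at hc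
  refine LinearMap.eqOn_span (s := (fun i => Finsupp.single i (1:ℝ)) '' S) ?_ hc
  rintro _ ⟨l, hl, rfl⟩
  exact h l hl

theorem ap_mem_of_supp {X V : Type*} [AddCommGroup V] [Module ℝ V] (S : Set (List X))
    (f : Ch X →ₗ[ℝ] V) (W : Submodule ℝ V) (h : ∀ l ∈ S, f (Finsupp.single l 1) ∈ W)
    {c : Ch X} (hc : c ∈ Finsupp.supported ℝ ℝ S) : f c ∈ W := by
  rw [Finsupp.supported_eq_span_single] at hc
  have := (Submodule.map_span_le f ((fun i => Finsupp.single i (1:ℝ)) '' S) W).2 (by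
    rintro _ ⟨l, hl, rfl⟩
    exact h l hl)
  exact this ⟨c, hc, rfl⟩

theorem ap_cone_single {X : Type*} (x : X) (l : List X) (a : ℝ) :
    cone x (Finsupp.single l a) = Finsupp.single (x :: l) a := by
  simp [cone, Finsupp.lmapDomain_apply, Finsupp.mapDomain_single]

theorem ap_push_single {X Y : Type*} (f : X → Y) (l : List X) (a : ℝ) :
    push f (Finsupp.single l a) = Finsupp.single (l.map f) a := by
  simp [push, Finsupp.lmapDomain_apply, Finsupp.mapDomain_single]

theorem ap_bdl_supp {X : Type*} (l : List X) :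
    bdl l ∈ Finsupp.supported ℝ ℝ {l' : List X | l'.length + 1 = l.length ∧ ∀ x ∈ l', x ∈ l} := by
  induction l with
  | nil => exact zero_mem _
  | cons x l ih =>
    rw [bdl]
    refine sub_mem (Finsupp.single_mem_supported ℝ 1
      ⟨rfl, fun y hy => List.mem_cons_of_mem _ hy⟩) ?_
    refine ap_mem_of_supp _ (cone x) _ ?_ ih
    rintro l' ⟨h1, h2⟩
    rw [ap_cone_single]
    refine Finsupp.single_mem_supported ℝ 1 ⟨?_, ?_⟩
    · rw [List.length_cons, List.length_cons, h1]
    · intro y hy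
      rcases List.mem_cons.1 hy with rfl | hy
      · exact List.mem_cons_self
      · exact List.mem_cons_of_mem _ (h2 y hy)

theorem ap_bd_bdl {X : Type*} (l : List X) : bd (bdl l) = 0 := by
  have := bd_bd (Finsupp.single l (1:ℝ))
  rwa [bd_single, one_smul] at this

theorem ap_push_bdl {X Y : Type*} (f : X → Y) (l : List X) : push f (bdl l) = bdl (l.map f) := by
  have := push_bd f (Finsupp.single l (1:ℝ))
  rwa [bd_single, one_smul, ap_push_single, bd_single, one_smul] at this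

theorem ap_FC_mono {X : Type*} [PseudoMetricSpace X] {n : ℕ} {U U' : Set X} {μ μ' : ℝ}
    (hU : 0 < n → U ⊆ U') (hμ : μ ≤ μ') : FC n U μ ≤ FC n U' μ' := by
  apply Finsupp.supported_mono
  rintro l ⟨h1, h2, h3⟩
  refine ⟨h1, fun x hx => hU ?_ (h2 x hx), fun x hx y hy => (h3 x hx y hy).trans_le hμ⟩
  rw [← h1]
  exact List.length_pos_of_mem hx

theorem approx_aux {X : Type*} [MetricSpace X] (hX : LFA X) (m : ℕ) :
    ∀ r > 0, ∃ ρ > 0, ∀ π : X → X, (∀ x, dist x (π x) < ρ) → ∀ μ > 0, ∃ μ' > 0,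
    ∃ (G H : Ch X →ₗ[ℝ] Ch X), H (Finsupp.single [] 1) = 0 ∧
      (∀ l : List X, l.length ≤ m → (∀ x ∈ l, ∀ y ∈ l, dist x y < 3 * ρ) →
        G (Finsupp.single l 1) ∈ FC l.length {y | ∀ x ∈ l, dist y x < r} μ ∧
        bd (G (Finsupp.single l 1)) = G (bdl l)) ∧
      (∀ l : List X, l.length ≤ m → (∀ x ∈ l, ∀ y ∈ l, dist x y < μ') →
        H (Finsupp.single l 1) ∈ FC (l.length + 1) {y | ∀ x ∈ l, dist y x < r} μ ∧
        bd (H (Finsupp.single l 1)) + H (bdl l) =
          Finsupp.single l 1 - G (push π (Finsupp.single l 1))) := by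
  classical
  induction m with
  | zero =>
    intro r hr
    refine ⟨1, one_pos, fun π _ μ hμ => ⟨1, one_pos, LinearMap.id, 0, rfl, ?_, ?_⟩⟩
    · intro l hl _
      have : l = [] := List.length_eq_zero_iff.1 (by omega)
      subst this
      refine ⟨Finsupp.single_mem_supported ℝ 1 ⟨rfl, by simp, by simp⟩, ?_⟩
      simp [bd_single, bdl]
    · intro l hl _
      have : l = [] := List.length_eq_zero_iff.1 (by omega)
      subst this
      refine ⟨zero_mem _, ?_⟩
      simp [ap_push_single]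
  | succ m ih =>
    intro r hr
    obtain ⟨rb, hrb, hb⟩ := hX (m + 1) (r / 2) (by positivity)
    obtain ⟨rc, hrc0, hrc1, hrc2⟩ : ∃ rc > 0, rc ≤ r / 2 ∧ rc ≤ rb / 2 :=
      ⟨min (r / 2) (rb / 2), lt_min (by positivity) (by positivity), min_le_left _ _,
        min_le_right _ _⟩
    obtain ⟨ra, hra, ha⟩ := hX m rc hrc0
    obtain ⟨rs, hrs, hrs1, hrs2, hrs3⟩ : ∃ rs > 0, rs ≤ ra / 4 ∧ rs ≤ rb / 4 ∧ rs ≤ r / 4 :=
      ⟨min (min (ra / 4) (rb / 4)) (r / 4),
        lt_min (lt_min (by positivity) (by positivity)) (by positivity),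
        (min_le_left _ _).trans (min_le_left _ _), (min_le_left _ _).trans (min_le_right _ _),
        min_le_right _ _⟩
    obtain ⟨ρ0, hρ0, hI⟩ := ih rs hrs
    obtain ⟨ρ, hρ, hρ1, hρ2⟩ : ∃ ρ > 0, ρ ≤ ρ0 ∧ ρ ≤ rs / 100 :=
      ⟨min ρ0 (rs / 100), lt_min hρ0 (by positivity), min_le_left _ _, min_le_right _ _⟩
    refine ⟨ρ, hρ, fun π hπ μ hμ => ?_⟩
    obtain ⟨μb, hμb, hb'⟩ := hb μ hμ
    obtain ⟨μa, hμa, ha'⟩ := ha (min μ μb) (lt_min hμ hμb)
    obtain ⟨μs, hμs, hs1, hs2, hs3⟩ : ∃ μs > 0, μs ≤ μ ∧ μs ≤ μa ∧ μs ≤ μb :=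
      ⟨min (min μ μa) μb, lt_min (lt_min hμ hμa) hμb, (min_le_left _ _).trans (min_le_left _ _),
        (min_le_left _ _).trans (min_le_right _ _), min_le_right _ _⟩
    obtain ⟨μ0, hμ0, G0, H0, hH0, hA, hB⟩ := hI π (fun x => (hπ x).trans_le hρ1) μs hμs
    obtain ⟨μ', hμ', hm1, hm2, hm3⟩ : ∃ μ' > 0, μ' ≤ μ0 ∧ μ' ≤ ρ ∧ μ' ≤ μb :=
      ⟨min (min μ0 ρ) μb, lt_min (lt_min hμ0 hρ) hμb, (min_le_left _ _).trans (min_le_left _ _),
        (min_le_left _ _).trans (min_le_right _ _), min_le_right _ _⟩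
    -- the cycles for `G`
    have hAbd : ∀ l : List X, l.length = m + 1 → (∀ x ∈ l, ∀ y ∈ l, dist x y < 3 * ρ) →
        bd (G0 (bdl l)) = 0 := by
      intro l hl hd
      have h1 : (bd ∘ₗ G0) (bdl l) = (G0 ∘ₗ bd) (bdl l) := by
        refine ap_eq_of_supp _ _ _ ?_ (ap_bdl_supp l)
        rintro l' ⟨e1, e2⟩
        show bd (G0 (Finsupp.single l' 1)) = G0 (bd (Finsupp.single l' 1))
        rw [(hA l' (by omega) fun x hx y hy => by
          have := hd x (e2 x hx) y (e2 y hy); linarith).2, bd_single, one_smul]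
      have h2 : bd (G0 (bdl l)) = G0 (bd (bdl l)) := h1
      rw [h2, ap_bd_bdl, map_zero]
    have hAmem : ∀ l : List X, l.length = m + 1 → (∀ x ∈ l, ∀ y ∈ l, dist x y < 3 * ρ) →
        ∀ x0 ∈ l, G0 (bdl l) ∈ FC m (Metric.ball x0 ra) μa := by
      intro l hl hd x0 hx0
      refine ap_mem_of_supp _ _ _ ?_ (ap_bdl_supp l)
      rintro l' ⟨e1, e2⟩
      have e3 : l'.length = m := by omega
      have h1 := (hA l' (by omega) fun x hx y hy => by
          have := hd x (e2 x hx) y (e2 y hy); linarith).1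
      rw [e3] at h1
      refine ap_FC_mono (fun hm => ?_) hs2 h1
      obtain ⟨x1, hx1⟩ := List.exists_mem_of_length_pos (by rw [e3]; exact hm)
      intro y hy
      have h2 : dist y x1 < rs := hy x1 hx1
      have h3 := hd x1 (e2 x1 hx1) x0 hx0
      have h4 := dist_triangle y x1 x0
      rw [Metric.mem_ball]
      linarith
    have hexG : ∀ l : List X, l.length = m + 1 → (∀ x ∈ l, ∀ y ∈ l, dist x y < 3 * ρ) →
        ∃ c : Ch X, (∃ x0 ∈ l, c ∈ FC (m + 1) (Metric.ball x0 rc) (min μ μb)) ∧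
          bd c = G0 (bdl l) := by
      intro l hl hd
      obtain ⟨x0, hx0⟩ := List.exists_mem_of_length_pos (l := l) (by omega)
      obtain ⟨c, hc1, hc2⟩ := ha' x0 _ (hAmem l hl hd x0 hx0) (hAbd l hl hd)
      exact ⟨c, ⟨x0, hx0, hc1⟩, hc2⟩
    obtain ⟨gf, hgf1, hgf2⟩ : ∃ gf : List X → Ch X,
        (∀ l, l.length ≤ m → gf l = G0 (Finsupp.single l 1)) ∧
        (∀ l : List X, l.length = m + 1 → (∀ x ∈ l, ∀ y ∈ l, dist x y < 3 * ρ) →
          (∃ x0 ∈ l, gf l ∈ FC (m + 1) (Metric.ball x0 rc) (min μ μb)) ∧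
          bd (gf l) = G0 (bdl l)) := by
      refine ⟨fun l => if l.length ≤ m then G0 (Finsupp.single l 1) else
        if h : l.length = m + 1 ∧ (∀ x ∈ l, ∀ y ∈ l, dist x y < 3 * ρ) then
          Classical.choose (hexG l h.1 h.2) else 0, fun l hl => if_pos hl, fun l hl hd => ?_⟩
      have h1 : ¬ l.length ≤ m := by omega
      simp only [if_neg h1, dif_pos (show l.length = m + 1 ∧
        (∀ x ∈ l, ∀ y ∈ l, dist x y < 3 * ρ) from ⟨hl, hd⟩)]
      exact Classical.choose_spec (hexG l hl hd)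
    obtain ⟨G, hG⟩ : ∃ G : Ch X →ₗ[ℝ] Ch X, ∀ l, G (Finsupp.single l 1) = gf l :=
      ⟨Finsupp.linearCombination ℝ gf, fun l => by
        rw [Finsupp.linearCombination_single, one_smul]⟩
    have hGs : ∀ l : List X, l.length ≤ m → G (Finsupp.single l 1) = G0 (Finsupp.single l 1) :=
      fun l hl => (hG l).trans (hgf1 l hl)
    have hGb : ∀ l : List X, l.length ≤ m + 1 → G (bdl l) = G0 (bdl l) := by
      intro l hl
      refine ap_eq_of_supp _ _ _ ?_ (ap_bdl_supp l)
      rintro l' ⟨e1, e2⟩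
      exact hGs l' (by omega)
    have hAnew : ∀ l : List X, l.length ≤ m + 1 → (∀ x ∈ l, ∀ y ∈ l, dist x y < 3 * ρ) →
        G (Finsupp.single l 1) ∈ FC l.length {y | ∀ x ∈ l, dist y x < r} μ ∧
        bd (G (Finsupp.single l 1)) = G (bdl l) := by
      intro l hl hd
      rw [hGb l hl]
      rcases Nat.lt_or_ge m l.length with h | h
      · have hl' : l.length = m + 1 := by omega
        obtain ⟨⟨x0, hx0, h1⟩, h2⟩ := hgf2 l hl' hd
        rw [hG l]
        refine ⟨?_, h2⟩
        rw [hl']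
        refine ap_FC_mono (fun _ => ?_) (min_le_left _ _) h1
        intro y hy x hx
        rw [Metric.mem_ball] at hy
        have h3 := hd x0 hx0 x hx
        have h4 := dist_triangle y x0 x
        linarith
      · rw [hGs l h]
        obtain ⟨h1, h2⟩ := hA l h fun x hx y hy => by
          have := hd x hx y hy; linarith
        refine ⟨ap_FC_mono (fun _ => ?_) hs1 h1, h2⟩
        intro y hy x hx
        have := hy x hx
        linarith
    -- the cycles for `H`
    have hmapd : ∀ l : List X, (∀ x ∈ l, ∀ y ∈ l, dist x y < μ') →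
        ∀ x ∈ l.map π, ∀ y ∈ l.map π, dist x y < 3 * ρ := by
      intro l hd x hx y hy
      obtain ⟨x1, hx1, rfl⟩ := List.mem_map.1 hx
      obtain ⟨y1, hy1, rfl⟩ := List.mem_map.1 hy
      have h1 := hd x1 hx1 y1 hy1
      have h2 := hπ x1
      have h3 := hπ y1
      have h4 := dist_triangle4 (π x1) x1 y1 (π y1)
      rw [dist_comm (π x1) x1] at h4
      linarith
    have hBmem : ∀ l : List X, l.length = m + 1 → (∀ x ∈ l, ∀ y ∈ l, dist x y < μ') →
        ∀ x0 ∈ l, H0 (bdl l) ∈ FC (m + 1) (Metric.ball x0 rb) μb := by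
      intro l hl hd x0 hx0
      refine ap_mem_of_supp _ _ _ ?_ (ap_bdl_supp l)
      rintro l' ⟨e1, e2⟩
      have e3 : l'.length = m := by omega
      rcases List.eq_nil_or_concat l' with h | ⟨_, _, _⟩
      · rw [h, hH0]
        exact zero_mem _
      · have hpos : 0 < l'.length := by
          rename_i hh
          rw [hh]; simp
        obtain ⟨x1, hx1⟩ := List.exists_mem_of_length_pos hpos
        have h1 := (hB l' (by omega) fun x hx y hy => by
          have := hd x (e2 x hx) y (e2 y hy); linarith).1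
        rw [e3] at h1
        refine ap_FC_mono (fun hm => ?_) hs3 h1
        intro y hy
        have h2 : dist y x1 < rs := hy x1 hx1
        have h3 := hd x1 (e2 x1 hx1) x0 hx0
        have h4 := dist_triangle y x1 x0
        rw [Metric.mem_ball]
        linarith
    have hBbd : ∀ l : List X, l.length = m + 1 → (∀ x ∈ l, ∀ y ∈ l, dist x y < μ') →
        bd (H0 (bdl l)) = bdl l - G0 (push π (bdl l)) := by
      intro l hl hd
      have h1 : ((bd ∘ₗ H0 + H0 ∘ₗ bd : Ch X →ₗ[ℝ] Ch X)) (bdl l) =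
          ((LinearMap.id - G0 ∘ₗ push π : Ch X →ₗ[ℝ] Ch X)) (bdl l) := by
        refine ap_eq_of_supp _ _ _ ?_ (ap_bdl_supp l)
        rintro l' ⟨e1, e2⟩
        show bd (H0 (Finsupp.single l' 1)) + H0 (bd (Finsupp.single l' 1)) =
          Finsupp.single l' 1 - G0 (push π (Finsupp.single l' 1))
        rw [bd_single, one_smul]
        exact (hB l' (by omega) fun x hx y hy => by
          have := hd x (e2 x hx) y (e2 y hy); linarith).2
      have h2 : bd (H0 (bdl l)) + H0 (bd (bdl l)) = bdl l - G0 (push π (bdl l)) := h1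
      rw [ap_bd_bdl, map_zero, add_zero] at h2
      exact h2
    have hexH : ∀ l : List X, l.length = m + 1 → (∀ x ∈ l, ∀ y ∈ l, dist x y < μ') →
        ∃ c : Ch X, (∃ x0 ∈ l, c ∈ FC (m + 2) (Metric.ball x0 (r / 2)) μ) ∧
          bd c = Finsupp.single l 1 - G (push π (Finsupp.single l 1)) - H0 (bdl l) := by
      intro l hl hd
      obtain ⟨x0, hx0⟩ := List.exists_mem_of_length_pos (l := l) (by omega)
      have hlm : (l.map π).length = m + 1 := by rw [List.length_map]; exact hl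
      obtain ⟨⟨x1, hx1, h1⟩, h2⟩ := hgf2 (l.map π) hlm (hmapd l hd)
      obtain ⟨c, hc1, hc2⟩ := hb' x0
        (Finsupp.single l 1 - G (push π (Finsupp.single l 1)) - H0 (bdl l)) (by
          refine sub_mem (sub_mem ?_ ?_) (hBmem l hl hd x0 hx0)
          · refine Finsupp.single_mem_supported ℝ 1 ⟨hl, fun x hx => ?_, fun x hx y hy => ?_⟩
            · rw [Metric.mem_ball]
              have := hd x hx x0 hx0
              linarith
            · exact (hd x hx y hy).trans_le hm3
          · rw [ap_push_single, hG]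
            refine ap_FC_mono (fun _ => ?_) (min_le_right _ _) h1
            obtain ⟨x2, hx2, rfl⟩ := List.mem_map.1 hx1
            intro y hy
            rw [Metric.mem_ball] at hy ⊢
            have h3 := hd x2 hx2 x0 hx0
            have h4 := hπ x2
            have h5 := dist_triangle4 y (π x2) x2 x0
            rw [dist_comm (π x2) x2] at h5
            linarith) (by
          rw [map_sub, map_sub, bd_single, one_smul, hBbd l hl hd, ap_push_single, hG, h2,
            ap_push_bdl]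
          abel)
      exact ⟨c, ⟨x0, hx0, hc1⟩, hc2⟩
    obtain ⟨hf, hhf1, hhf2⟩ : ∃ hf : List X → Ch X,
        (∀ l, l.length ≤ m → hf l = H0 (Finsupp.single l 1)) ∧
        (∀ l : List X, l.length = m + 1 → (∀ x ∈ l, ∀ y ∈ l, dist x y < μ') →
          (∃ x0 ∈ l, hf l ∈ FC (m + 2) (Metric.ball x0 (r / 2)) μ) ∧
          bd (hf l) = Finsupp.single l 1 - G (push π (Finsupp.single l 1)) - H0 (bdl l)) := by
      refine ⟨fun l => if l.length ≤ m then H0 (Finsupp.single l 1) else
        if h : l.length = m + 1 ∧ (∀ x ∈ l, ∀ y ∈ l, dist x y < μ') then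
          Classical.choose (hexH l h.1 h.2) else 0, fun l hl => if_pos hl, fun l hl hd => ?_⟩
      have h1 : ¬ l.length ≤ m := by omega
      simp only [if_neg h1, dif_pos (show l.length = m + 1 ∧
        (∀ x ∈ l, ∀ y ∈ l, dist x y < μ') from ⟨hl, hd⟩)]
      exact Classical.choose_spec (hexH l hl hd)
    obtain ⟨H, hH⟩ : ∃ H : Ch X →ₗ[ℝ] Ch X, ∀ l, H (Finsupp.single l 1) = hf l :=
      ⟨Finsupp.linearCombination ℝ hf, fun l => by
        rw [Finsupp.linearCombination_single, one_smul]⟩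
    have hHs : ∀ l : List X, l.length ≤ m → H (Finsupp.single l 1) = H0 (Finsupp.single l 1) :=
      fun l hl => (hH l).trans (hhf1 l hl)
    have hHb : ∀ l : List X, l.length ≤ m + 1 → H (bdl l) = H0 (bdl l) := by
      intro l hl
      refine ap_eq_of_supp _ _ _ ?_ (ap_bdl_supp l)
      rintro l' ⟨e1, e2⟩
      exact hHs l' (by omega)
    refine ⟨μ', hμ', G, H, ?_, hAnew, ?_⟩
    · rw [hHs [] (by simp), hH0]
    · intro l hl hd
      rw [hHb l hl]
      rcases Nat.lt_or_ge m l.length with h | h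
      · have hl' : l.length = m + 1 := by omega
        obtain ⟨⟨x0, hx0, h1⟩, h2⟩ := hhf2 l hl' hd
        rw [hH l, h2]
        refine ⟨?_, by abel⟩
        rw [hl']
        refine ap_FC_mono (fun _ => ?_) le_rfl h1
        intro y hy x hx
        rw [Metric.mem_ball] at hy
        have h3 := hd x0 hx0 x hx
        have h4 := dist_triangle y x0 x
        linarith
      · rw [hHs l h]
        obtain ⟨h1, h2⟩ := hB l h fun x hx y hy => by
          have := hd x hx y hy; linarith
        refine ⟨ap_FC_mono (fun _ => ?_) hs1 h1, ?_⟩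
        · intro y hy x hx
          have := hy x hx
          linarith
        · rw [h2, ap_push_single, hGs (l.map π) (by rw [List.length_map]; exact h)]

end apx

-- TARGET: prove this

theorem approx {X : Type*} [MetricSpace X] (hX : LFA X) (m : ℕ) :
    ∀ r > 0, ∃ ρ > 0, ∀ π : X → X, (∀ x, dist x (π x) < ρ) → ∀ μ > 0, ∃ μ' > 0,
    ∃ (G H : Ch X →ₗ[ℝ] Ch X),
      (∀ l : List X, l.length ≤ m → (∀ x ∈ l, ∀ y ∈ l, dist x y < 3 * ρ) →
        G (Finsupp.single l 1) ∈ FC l.length {y | ∀ x ∈ l, dist y x < r} μ ∧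
        bd (G (Finsupp.single l 1)) = G (bdl l)) ∧
      (∀ l : List X, l.length ≤ m → (∀ x ∈ l, ∀ y ∈ l, dist x y < μ') →
        H (Finsupp.single l 1) ∈ FC (l.length + 1) {y | ∀ x ∈ l, dist y x < r} μ ∧
        bd (H (Finsupp.single l 1)) + H (bdl l) =
          Finsupp.single l 1 - G (push π (Finsupp.single l 1))) := by
  intro r hr
  obtain ⟨ρ, hρ, h⟩ := approx_aux hX m r hr
  refine ⟨ρ, hρ, fun π hπ μ hμ => ?_⟩
  obtain ⟨μ', hμ', G, H, -, h1, h2⟩ := h π hπ μ hμ
  exact ⟨μ', hμ', G, H, h1, h2⟩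


end J_approx

alias approx := J_approx.approx

end Pool.Agent.Helper10.UC
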