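import Mathlib
import Pool.Agent.Helper10.UC.Base
import Pool.Agent.Helper10.UC.J_approx

open Set Filter Topology
open scoped LinearAlgebra.Projectivization

noncomputable section

namespace Pool.Agent.Helper10.UC

namespace J_finite_rank


-- TARGET: prove this

theorem finite_rank_lin {X : Type*} [MetricSpace X] (n : ℕ) (μ μ' : ℝ) (π : X → X)
    (G H : Ch X →ₗ[ℝ] Ch X) (W : List X → Set X)
    (h : ∀ l : List X, l.length ≤ n → (∀ x ∈ l, ∀ y ∈ l, dist x y < μ') →
        H (Finsupp.single l 1) ∈ FC (l.length + 1) (W l) μ ∧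
        bd (H (Finsupp.single l 1)) + H (bdl l) =
          Finsupp.single l 1 - G (push π (Finsupp.single l 1)))
    (z : Ch X) (hz : z ∈ FC n univ μ') :
    H z ∈ FC (n + 1) (univ : Set X) μ ∧ bd (H z) + H (bd z) = z - G (push π z) := by
  unfold FC at hz
  rw [Finsupp.supported_eq_span_single] at hz
  induction hz using Submodule.span_induction with
  | mem x hx =>
    obtain ⟨l, ⟨hl1, -, hl3⟩, rfl⟩ := hx
    obtain ⟨h1, h2⟩ := h l hl1.le hl3
    refine ⟨?_, ?_⟩
    · refine Finsupp.supported_mono ?_ h1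
      rintro l' ⟨h3, -, h5⟩
      exact ⟨by rw [h3, hl1], fun x _ => mem_univ x, h5⟩
    · have : bd (Finsupp.single l 1) = bdl l := by rw [bd_single, one_smul]
      show bd (H (Finsupp.single l 1)) + H (bd (Finsupp.single l 1)) = _
      rw [this]
      exact h2
  | zero => simp
  | add x y _ _ hx hy =>
    refine ⟨?_, ?_⟩
    · rw [map_add]
      exact Submodule.add_mem _ hx.1 hy.1
    · simp only [map_add]
      have h1 := hx.2
      have h2 := hy.2
      calc bd (H x) + bd (H y) + (H (bd x) + H (bd y)) =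
          (bd (H x) + H (bd x)) + (bd (H y) + H (bd y)) := by abel
        _ = (x - G (push π x)) + (y - G (push π y)) := by rw [h1, h2]
        _ = _ := by abel
  | smul a x _ hx =>
    refine ⟨?_, ?_⟩
    · rw [map_smul]
      exact Submodule.smul_mem _ _ hx.1
    · simp only [map_smul]
      rw [← smul_add, hx.2, smul_sub]

theorem finite_rank_push {X : Type*} [MetricSpace X] (n : ℕ) (μ' : ℝ) (π : X → X) (P : Set X)
    (hπ : ∀ x, π x ∈ P) (z : Ch X) (hz : z ∈ FC n univ μ') (l : List X)
    (hl : ¬ (l.length = n ∧ ∀ x ∈ l, x ∈ P)) : push π z l = 0 := by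
  have h1 : push π z ∈ Finsupp.supported ℝ ℝ {l : List X | l.length = n ∧ ∀ x ∈ l, x ∈ P} := by
    unfold FC at hz
    rw [Finsupp.supported_eq_span_single] at hz
    induction hz using Submodule.span_induction with
    | mem x hx =>
      obtain ⟨l, ⟨hl1, -, hl3⟩, rfl⟩ := hx
      have h : push π (Finsupp.single l (1:ℝ)) = Finsupp.single (l.map π) 1 := by
        simp [push, Finsupp.lmapDomain_apply, Finsupp.mapDomain_single]
      show push π (Finsupp.single l (1:ℝ)) ∈ _
      rw [h]
      apply Finsupp.single_mem_supported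
      refine ⟨by rw [List.length_map, hl1], ?_⟩
      intro x hx
      rw [List.mem_map] at hx
      obtain ⟨y, _, rfl⟩ := hx
      exact hπ y
    | zero => simp
    | add x y _ _ hx hy =>
      rw [map_add]
      exact Submodule.add_mem _ hx hy
    | smul a x _ hx =>
      rw [map_smul]
      exact Submodule.smul_mem _ _ hx
  by_contra hne
  apply hl
  rw [Finsupp.mem_supported] at h1
  exact h1 (by simpa using hne)

theorem finite_rank {X : Type*} [MetricSpace X] [CompactSpace X] (hX : LFA X) (n : ℕ) :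
    ∃ D : ℕ, ∀ μ > 0, ∃ μ' > 0, ∀ z : Fin (D + 1) → Ch X, (∀ j, z j ∈ FC n univ μ') →
      (∀ j, bd (z j) = 0) → ∃ a : Fin (D + 1) → ℝ, a ≠ 0 ∧
        ∃ c ∈ FC (n + 1) (univ : Set X) μ, bd c = ∑ j, a j • z j := by
  classical
  obtain ⟨ρ, hρ, happ⟩ := approx hX n 1 one_pos
  -- a finite net
  obtain ⟨P, -, hPfin, hPcov⟩ := finite_cover_balls_of_compact (isCompact_univ (X := X)) hρ
  have hex : ∀ x : X, ∃ y ∈ P, dist x y < ρ := by
    intro x
    have := hPcov (mem_univ x)
    simp only [mem_iUnion, Metric.mem_ball] at this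
    obtain ⟨y, hy, hxy⟩ := this
    exact ⟨y, hy, hxy⟩
  choose π hπP hπd using hex
  -- the finite set of lists
  have hSfin : {l : List X | l.length = n ∧ ∀ x ∈ l, x ∈ P}.Finite := by
    have := hPfin.to_subtype
    refine ((List.finite_length_eq P n).image (List.map Subtype.val)).subset ?_
    rintro l ⟨hl1, hl2⟩
    lift l to List P using hl2
    exact ⟨l, by simpa using hl1, rfl⟩
  have := hSfin.fintype
  let Sf : Type _ := {l : List X // l.length = n ∧ ∀ x ∈ l, x ∈ P}
  have hSF : Fintype Sf := hSfin.fintype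
  refine ⟨Fintype.card Sf, ?_⟩
  intro μ hμ
  obtain ⟨μ', hμ', G, H, -, hH⟩ := happ π hπd μ hμ
  refine ⟨μ', hμ', ?_⟩
  intro z hz hbz
  -- linear dependence
  have hdep : ¬ LinearIndependent ℝ
      (fun j : Fin (Fintype.card Sf + 1) => (fun l : Sf => push π (z j) l.1)) := by
    intro hli
    have h1 := hli.fintype_card_le_finrank
    rw [Fintype.card_fin, Module.finrank_fintype_fun_eq_card] at h1
    omega
  rw [Fintype.not_linearIndependent_iff] at hdep
  obtain ⟨a, ha, j0, hj0⟩ := hdep
  have ha0 : a ≠ 0 := fun h => hj0 (by rw [h]; rfl)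
  refine ⟨a, ha0, H (∑ j, a j • z j), ?_, ?_⟩
  · exact (finite_rank_lin n μ μ' π G H _ hH (∑ j, a j • z j)
      (Submodule.sum_mem _ (fun j _ => Submodule.smul_mem _ _ (hz j)))).1
  · have h1 := (finite_rank_lin n μ μ' π G H _ hH (∑ j, a j • z j)
      (Submodule.sum_mem _ (fun j _ => Submodule.smul_mem _ _ (hz j)))).2
    have h2 : bd (∑ j, a j • z j) = 0 := by
      rw [map_sum]
      apply Finset.sum_eq_zero
      intro j _
      rw [map_smul, hbz, smul_zero]
    have h3 : push π (∑ j, a j • z j) = 0 := by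
      rw [map_sum]
      ext l
      rw [Finsupp.finsetSum_apply]
      simp only [map_smul, Finsupp.smul_apply, Finsupp.coe_zero, Pi.zero_apply, smul_eq_mul]
      by_cases hl : l.length = n ∧ ∀ x ∈ l, x ∈ P
      · have h4 := congrFun ha ⟨l, hl⟩
        rw [Finset.sum_apply] at h4
        simpa using h4
      · apply Finset.sum_eq_zero
        intro j _
        rw [finite_rank_push n μ' π P hπP (z j) (hz j) l hl, mul_zero]
    rw [h2, h3, map_zero, map_zero, add_zero, sub_zero] at h1
    exact h1


end J_finite_rank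

alias finite_rank := J_finite_rank.finite_rank

end Pool.Agent.Helper10.UC
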