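import Mathlib
import Pool.Agent.Helper10.UC.Base
import Pool.Agent.Helper10.UC.J_finite_rank

open Set Filter Topology
open scoped LinearAlgebra.Projectivization

noncomputable section

namespace Pool.Agent.Helper10.UC

namespace J_no_inf


-- TARGET: prove this

theorem no_inf {N : Type*} [MetricSpace N] [CompactSpace N] (hN : LFA N) (z : ℕ → List N → ℝ)
    (hz : ∀ i, ∃ μ0 > 0, ∀ c ∈ FC 4 (univ : Set N) μ0, pair (z i) (bd c) = 0) {e : ℝ} (he : e ≠ 0)
    (hc : ∀ j, ∀ μ > 0, ∃ c ∈ FC 3 (univ : Set N) μ, bd c = 0 ∧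
      ∀ i, pair (z i) c = if i = j then e else 0) : False := by
  obtain ⟨D, hD⟩ := finite_rank hN 3
  choose μ0 hμ0 hz0 using hz
  obtain ⟨i0, hi0⟩ := Finite.exists_min (fun i : Fin (D + 1) => μ0 i)
  obtain ⟨μ', hμ', hfr⟩ := hD (μ0 i0) (hμ0 i0)
  choose c hc3 hbd hp using fun j : Fin (D + 1) => hc j μ' hμ'
  obtain ⟨a, ha, C, hC, hCb⟩ := hfr c hc3 hbd
  apply ha
  funext i
  have hmono : FC 4 (univ : Set N) (μ0 i0) ≤ FC 4 (univ : Set N) (μ0 i) := by
    refine Finsupp.supported_mono ?_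
    rintro l ⟨h1, h2, h3⟩
    exact ⟨h1, h2, fun x hx y hy => lt_of_lt_of_le (h3 x hx y hy) (hi0 i)⟩
  have h0 : pair (z i) (bd C) = 0 := hz0 i C (hmono hC)
  rw [hCb, map_sum] at h0
  have h1 : ∀ j : Fin (D + 1), pair (z i) (a j • c j) = if i = j then a j * e else 0 := by
    intro j
    rw [map_smul, hp j i, smul_eq_mul]
    by_cases hij : i = j
    · rw [if_pos (by rw [hij]), if_pos hij]
    · rw [if_neg (fun h => hij (Fin.ext h)), if_neg hij, mul_zero]
  rw [Finset.sum_congr rfl (fun j _ => h1 j), Finset.sum_ite_eq, if_pos (Finset.mem_univ i)] at h0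
  exact (mul_eq_zero.1 h0).resolve_right he


end J_no_inf

alias no_inf := J_no_inf.no_inf

end Pool.Agent.Helper10.UC
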