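import Mathlib
import Pool.Agent.Helper10.UC.Base

open Set Filter Topology
open scoped LinearAlgebra.Projectivization

noncomputable section

namespace Pool.Agent.Helper10.UC

namespace J_sqrt_seg


-- TARGET: prove this

theorem sqrt_seg_aux (z y : ℂ) (h : 0 ≤ (z * (starRingEnd ℂ) y).re) : 0 ≤ (z / y).re := by
  rw [div_eq_mul_inv, Complex.inv_def, ← mul_assoc, Complex.re_mul_ofReal]
  exact mul_nonneg h (inv_nonneg.2 (Complex.normSq_nonneg y))

theorem sqrt_seg_aux2 (u v z : ℂ) (hz : z ^ 2 = u) :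
    ∃ e : ℂ, e ≠ 0 ∧ 0 ≤ (u / e).re ∧ 0 ≤ (v / e).re := by
  obtain ⟨y, hy, hre⟩ : ∃ y : ℂ, y ^ 2 = v ∧ 0 ≤ (z * (starRingEnd ℂ) y).re := by
    obtain ⟨y, hy⟩ := IsAlgClosed.exists_pow_nat_eq v (n := 2) (by norm_num)
    rcases le_total 0 (z * (starRingEnd ℂ) y).re with h | h
    · exact ⟨y, hy, h⟩
    · refine ⟨-y, by rw [neg_sq, hy], ?_⟩
      rw [map_neg, mul_neg, Complex.neg_re]
      linarith
  by_cases hz0 : z = 0
  · have hu : u = 0 := by rw [← hz, hz0]; simp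
    by_cases hv : v = 0
    · exact ⟨1, one_ne_zero, by simp [hu], by simp [hv]⟩
    · exact ⟨v, hv, by simp [hu], by rw [div_self hv]; simp⟩
  · by_cases hy0 : y = 0
    · have hv : v = 0 := by rw [← hy, hy0]; simp
      have hu : u ≠ 0 := by rw [← hz]; exact pow_ne_zero 2 hz0
      exact ⟨u, hu, by rw [div_self hu]; simp, by simp [hv]⟩
    · refine ⟨z * y, mul_ne_zero hz0 hy0, ?_, ?_⟩
      · have h1 : u / (z * y) = z / y := by
          rw [← hz]; field_simp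
        rw [h1]; exact sqrt_seg_aux z y hre
      · have h1 : v / (z * y) = y / z := by
          rw [← hy]; field_simp
        rw [h1]; apply sqrt_seg_aux
        have h2 : (y * (starRingEnd ℂ) z).re = (z * (starRingEnd ℂ) y).re := by
          simp [Complex.mul_re]; ring
        rw [h2]; exact hre

theorem sqrt_seg (u v z : ℂ) (hz : z ^ 2 = u) : ∃ g : ℝ → ℂ, ContinuousOn g (Icc 0 1) ∧ g 0 = z ∧
    ∀ t ∈ Icc (0 : ℝ) 1, g t ^ 2 = (1 - t) * u + t * v := by
  obtain ⟨e, he, h1, h2⟩ := sqrt_seg_aux2 u v z hz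
  obtain ⟨d, hd⟩ := IsAlgClosed.exists_pow_nat_eq e (n := 2) (by norm_num)
  obtain ⟨c, hc⟩ : ∃ c : ℝ → ℂ, c = fun t : ℝ => ((1 - t) * u + t * v) / e := ⟨_, rfl⟩
  have hcc : Continuous c := by rw [hc]; fun_prop
  have hcre : ∀ t ∈ Icc (0 : ℝ) 1, 0 ≤ (c t).re := by
    intro t ht
    have h3 : c t = ((1 - t : ℝ) : ℂ) * (u / e) + (t : ℂ) * (v / e) := by
      rw [hc]; push_cast; ring
    rw [h3, Complex.add_re, Complex.re_ofReal_mul, Complex.re_ofReal_mul]
    have h4 : 0 ≤ 1 - t := by linarith [ht.2]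
    exact add_nonneg (mul_nonneg h4 h1) (mul_nonneg ht.1 h2)
  obtain ⟨G, hG⟩ : ∃ G : ℝ → ℂ, G = fun t => d * (c t) ^ (((2 : ℕ) : ℂ)⁻¹) := ⟨_, rfl⟩
  have hGc : ContinuousOn G (Icc 0 1) := by
    rw [hG]
    intro t ht
    refine ContinuousAt.continuousWithinAt ?_
    refine continuousAt_const.mul ?_
    have h5 : ContinuousAt (fun x : ℂ => x ^ (((2 : ℕ) : ℂ)⁻¹)) (c t) :=
      Complex.continuousAt_cpow_const_of_re_pos (Or.inl (hcre t ht)) (by norm_num)
    exact h5.comp hcc.continuousAt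
  have hG2 : ∀ t, G t ^ 2 = (1 - t) * u + t * v := by
    intro t
    rw [hG]
    simp only
    rw [mul_pow, hd, Complex.cpow_nat_inv_pow _ (by norm_num), hc]
    simp only
    field_simp
  have hG0 : z ^ 2 = G 0 ^ 2 := by
    rw [hG2 0, hz]; simp
  rcases sq_eq_sq_iff_eq_or_eq_neg.1 hG0 with h6 | h6
  · exact ⟨G, hGc, h6.symm, fun t _ => hG2 t⟩
  · refine ⟨fun t => - G t, hGc.neg, h6.symm, fun t _ => ?_⟩
    simp only
    rw [neg_sq, hG2 t]


end J_sqrt_seg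

alias sqrt_seg := J_sqrt_seg.sqrt_seg

end Pool.Agent.Helper10.UC
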