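import Mathlib
import Pool.Agent.Helper10.UC.Base
import Pool.Agent.Helper10.UC.J_sqrt_seg

open Set Filter Topology
open scoped LinearAlgebra.Projectivization

noncomputable section

namespace Pool.Agent.Helper10.UC

namespace J_joinA


-- TARGET: prove this

theorem joinA {a b : Fin 4 → ℂ} {w : ℂ} (h : (a, b, w) ∈ CM) (s' t' : ℂ)
    (hseg : ∀ t ∈ Icc (0 : ℝ) 1, (1 - t) * a 0 ^ 2 + t * s' = 0 →
      (1 - t) * a 1 ^ 2 + t * t' = 0 → False) :
    ∃ a' w', a' 0 ^ 2 = s' ∧ a' 1 ^ 2 = t' ∧ JoinedIn CM (a, b, w) (a', b, w') := by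
  obtain ⟨ha, hb, hEa, hEb, hw⟩ := h
  simp only at ha hb hEa hEb hw
  obtain ⟨g0, c0, z0, e0⟩ := sqrt_seg (a 0 ^ 2) s' (a 0) rfl
  obtain ⟨g1, c1, z1, e1⟩ := sqrt_seg (a 1 ^ 2) t' (a 1) rfl
  obtain ⟨g2, c2, z2, e2⟩ := sqrt_seg (a 2 ^ 2) (2 * s' + t') (a 2) rfl
  obtain ⟨g3, c3, z3, e3⟩ := sqrt_seg (a 3 ^ 2) (3 * s' + t') (a 3) rfl
  obtain ⟨gw, cw, zw, ew⟩ := sqrt_seg (w ^ 2)
    (t' * b 1 ^ 2 - 3 * s' * b 1 ^ 2 - 3 * t' * b 0 ^ 2 - 7 * s' * b 0 ^ 2) w rfl
  refine ⟨![g0 1, g1 1, g2 1, g3 1], gw 1, ?_, ?_, ?_⟩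
  · have := e0 1 (by norm_num)
    simpa using this
  · have := e1 1 (by norm_num)
    simpa using this
  · refine JoinedIn.ofLine (f := fun t : ℝ => (![g0 t, g1 t, g2 t, g3 t], b, gw t)) ?_ ?_ rfl ?_
    · refine ContinuousOn.prodMk ?_ (continuousOn_const.prodMk cw)
      refine continuousOn_pi.2 ?_
      intro i
      fin_cases i
      · simpa using c0
      · simpa using c1
      · simpa using c2
      · simpa using c3
    · have : (![g0 0, g1 0, g2 0, g3 0] : Fin 4 → ℂ) = a := by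
        funext i
        fin_cases i
        · simpa using z0
        · simpa using z1
        · simpa using z2
        · simpa using z3
      simp only [this, zw]
    · rintro _ ⟨t, ht, rfl⟩
      have h0 := e0 t ht
      have h1 := e1 t ht
      have h2 := e2 t ht
      have h3 := e3 t ht
      have hww := ew t ht
      refine ⟨?_, hb, ⟨?_, ?_⟩, hEb, ?_⟩
      · intro hz
        have k0 : g0 t = 0 := by simpa using congrFun hz 0
        have k1 : g1 t = 0 := by simpa using congrFun hz 1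
        rw [k0] at h0
        rw [k1] at h1
        exact hseg t ht (by rw [← h0]; ring) (by rw [← h1]; ring)
      · show g2 t ^ 2 = 2 * g0 t ^ 2 + g1 t ^ 2
        rw [h2, h0, h1, hEa.1]; ring
      · show g3 t ^ 2 = 3 * g0 t ^ 2 + g1 t ^ 2
        rw [h3, h0, h1, hEa.2]; ring
      · show gw t ^ 2 = GG ![g0 t, g1 t, g2 t, g3 t] b
        have : GG ![g0 t, g1 t, g2 t, g3 t] b =
            g1 t ^ 2 * b 1 ^ 2 - 3 * g0 t ^ 2 * b 1 ^ 2 - 3 * g1 t ^ 2 * b 0 ^ 2 -
              7 * g0 t ^ 2 * b 0 ^ 2 := by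
          simp only [GG]
          simp
          ring
        rw [this, hww, h0, h1, hw, GG]
        ring


end J_joinA

alias joinA := J_joinA.joinA

end Pool.Agent.Helper10.UC
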