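import Mathlib
import Pool.Agent.Helper10.UC.Base
import Pool.Agent.Helper10.UC.J_joinA

open Set Filter Topology
open scoped LinearAlgebra.Projectivization

noncomputable section

namespace Pool.Agent.Helper10.UC

namespace J_joinB


-- TARGET: prove this

theorem joinB_GG (a b : Fin 4 → ℂ) : GG b a = GG a b := by
  unfold GG; ring

theorem joinB_CM {a b : Fin 4 → ℂ} {w : ℂ} (h : (a, b, w) ∈ CM) : (b, a, w) ∈ CM := by
  obtain ⟨h1, h2, h3, h4, h5⟩ := h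
  refine ⟨h2, h1, h4, h3, ?_⟩
  change w ^ 2 = GG b a
  rw [joinB_GG]
  exact h5

theorem joinB {a b : Fin 4 → ℂ} {w : ℂ} (h : (a, b, w) ∈ CM) (s' t' : ℂ)
    (hseg : ∀ t ∈ Icc (0 : ℝ) 1, (1 - t) * b 0 ^ 2 + t * s' = 0 →
      (1 - t) * b 1 ^ 2 + t * t' = 0 → False) :
    ∃ b' w', b' 0 ^ 2 = s' ∧ b' 1 ^ 2 = t' ∧ JoinedIn CM (a, b, w) (a, b', w') := by
  obtain ⟨b', w', h1, h2, γ, hγ⟩ := joinA (joinB_CM h) s' t' hseg
  let f : (Fin 4 → ℂ) × (Fin 4 → ℂ) × ℂ → (Fin 4 → ℂ) × (Fin 4 → ℂ) × ℂ :=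
    fun q => (q.2.1, q.1, q.2.2)
  have hf : Continuous f := by fun_prop
  refine ⟨b', w', h1, h2, γ.map hf, fun t => ?_⟩
  exact joinB_CM (hγ t)


end J_joinB

alias joinB := J_joinB.joinB

end Pool.Agent.Helper10.UC
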