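import Mathlib
import Pool.Agent.Helper10.UC.Base
import Pool.Agent.Helper10.UC.J_joinA
import Pool.Agent.Helper10.UC.J_joinB

open Set Filter Topology
open scoped LinearAlgebra.Projectivization

noncomputable section

namespace Pool.Agent.Helper10.UC

namespace J_conePC


abbrev cpQ := (Fin 4 → ℂ) × (Fin 4 → ℂ) × ℂ

def cp0 : Fin 4 → ℂ := ![0, 1, 1, 1]

def cpX : cpQ := (cp0, cp0, 1)

theorem cp_EC0 : EC cp0 := by
  constructor <;> simp [cp0]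

theorem cp0_ne : cp0 ≠ 0 := by
  intro h
  have := congrFun h 1
  simp [cp0] at this

theorem cpX_mem : cpX ∈ CM := by
  refine ⟨cp0_ne, cp0_ne, cp_EC0, cp_EC0, ?_⟩
  simp [cpX, cp0, GG]

theorem cp_mem {g q : cpQ} (hg : g * g = 1) (hq : q ∈ CM) : g * q ∈ CM := by
  obtain ⟨ε, η, θ⟩ := g
  obtain ⟨a, b, w⟩ := q
  have h1 : ε * ε = 1 := congrArg Prod.fst hg
  have h2 : η * η = 1 := congrArg (fun x : cpQ => x.2.1) hg
  have h3 : θ * θ = 1 := congrArg (fun x : cpQ => x.2.2) hg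
  have e1 : ∀ i, ε i ^ 2 = 1 := fun i => by
    have := congrFun h1 i
    rw [sq]; exact this
  have e2 : ∀ i, η i ^ 2 = 1 := fun i => by
    have := congrFun h2 i
    rw [sq]; exact this
  obtain ⟨ha, hb, hEa, hEb, hw⟩ := hq
  simp only at ha hb hEa hEb hw
  refine ⟨?_, ?_, ?_, ?_, ?_⟩
  · intro h
    apply ha
    have h' : ε * a = 0 := h
    calc a = (ε * ε) * a := by rw [h1, one_mul]
      _ = ε * (ε * a) := by ring
      _ = 0 := by rw [h', mul_zero]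
  · intro h
    apply hb
    have h' : η * b = 0 := h
    calc b = (η * η) * b := by rw [h2, one_mul]
      _ = η * (η * b) := by ring
      _ = 0 := by rw [h', mul_zero]
  · show EC (ε * a)
    constructor
    · simp only [Pi.mul_apply, mul_pow, e1, one_mul]
      exact hEa.1
    · simp only [Pi.mul_apply, mul_pow, e1, one_mul]
      exact hEa.2
  · show EC (η * b)
    constructor
    · simp only [Pi.mul_apply, mul_pow, e2, one_mul]
      exact hEb.1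
    · simp only [Pi.mul_apply, mul_pow, e2, one_mul]
      exact hEb.2
  · show (θ * w) ^ 2 = GG (ε * a) (η * b)
    unfold GG at hw ⊢
    simp only [Pi.mul_apply, mul_pow, e1, e2, one_mul] at hw ⊢
    rw [show θ ^ 2 = 1 by rw [sq]; exact h3, one_mul]
    exact hw

theorem cp_joined {g x y : cpQ} (hg : g * g = 1) (h : JoinedIn CM x y) :
    JoinedIn CM (g * x) (g * y) := by
  obtain ⟨γ, hγ⟩ := h
  have hc : Continuous (fun q : cpQ => g * q) := by fun_prop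
  exact ⟨γ.map hc, fun t => cp_mem hg (hγ t)⟩

/-- step 1 in the first variable -/
theorem cp_stepA {a b : Fin 4 → ℂ} {w : ℂ} (h : (a, b, w) ∈ CM) :
    ∃ a' w', a' 0 ^ 2 = 0 ∧ a' 1 ^ 2 = 1 ∧ JoinedIn CM (a, b, w) (a', b, w') := by
  by_cases h0 : a 0 = 0
  · have h1 : a 1 ≠ 0 := by
      intro h1
      apply h.1
      obtain ⟨hE1, hE2⟩ := h.2.2.1
      simp only at hE1 hE2
      rw [h0, h1] at hE1 hE2
      have h2 : a 2 = 0 := by simpa using hE1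
      have h3 : a 3 = 0 := by simpa using hE2
      show a = 0
      funext i
      fin_cases i
      · exact h0
      · exact h1
      · exact h2
      · exact h3
    obtain ⟨a', w', k0, k1, hj⟩ := joinA h 1 (a 1 ^ 2) (by
      intro t ht e1 e2
      rw [h0] at e1
      have ht0 : (t : ℂ) = 0 := by simpa using e1
      rw [ht0] at e2
      simp at e2
      exact h1 e2)
    have h0' : a' 0 ≠ 0 := by
      intro h
      rw [h] at k0
      simp at k0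
    obtain ⟨a'', w'', l0, l1, hj'⟩ := joinA hj.target_mem 0 1 (by
      intro t ht e1 e2
      have e3 : (1 - (t : ℂ)) = 0 := by
        have : (1 - (t : ℂ)) * a' 0 ^ 2 = 0 := by simpa using e1
        rcases mul_eq_zero.mp this with h | h
        · exact h
        · exact absurd (pow_eq_zero_iff (two_ne_zero)|>.mp h) h0'
      rw [e3] at e2
      have ht1 : (t : ℂ) = 0 := by simpa using e2
      rw [ht1] at e3
      simp at e3)
    exact ⟨a'', w'', l0, l1, hj.trans hj'⟩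
  · obtain ⟨a'', w'', l0, l1, hj'⟩ := joinA h 0 1 (by
      intro t ht e1 e2
      have e3 : (1 - (t : ℂ)) = 0 := by
        have : (1 - (t : ℂ)) * a 0 ^ 2 = 0 := by simpa using e1
        rcases mul_eq_zero.mp this with h | h
        · exact h
        · exact absurd (pow_eq_zero_iff (two_ne_zero)|>.mp h) h0
      rw [e3] at e2
      have ht1 : (t : ℂ) = 0 := by simpa using e2
      rw [ht1] at e3
      simp at e3)
    exact ⟨a'', w'', l0, l1, hj'⟩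

/-- step 1 in the second variable -/
theorem cp_stepB {a b : Fin 4 → ℂ} {w : ℂ} (h : (a, b, w) ∈ CM) :
    ∃ b' w', b' 0 ^ 2 = 0 ∧ b' 1 ^ 2 = 1 ∧ JoinedIn CM (a, b, w) (a, b', w') := by
  by_cases h0 : b 0 = 0
  · have h1 : b 1 ≠ 0 := by
      intro h1
      apply h.2.1
      obtain ⟨hE1, hE2⟩ := h.2.2.2.1
      simp only at hE1 hE2
      rw [h0, h1] at hE1 hE2
      have h2 : b 2 = 0 := by simpa using hE1
      have h3 : b 3 = 0 := by simpa using hE2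
      show b = 0
      funext i
      fin_cases i
      · exact h0
      · exact h1
      · exact h2
      · exact h3
    obtain ⟨b', w', k0, k1, hj⟩ := joinB h 1 (b 1 ^ 2) (by
      intro t ht e1 e2
      rw [h0] at e1
      have ht0 : (t : ℂ) = 0 := by simpa using e1
      rw [ht0] at e2
      simp at e2
      exact h1 e2)
    have h0' : b' 0 ≠ 0 := by
      intro h
      rw [h] at k0
      simp at k0
    obtain ⟨b'', w'', l0, l1, hj'⟩ := joinB hj.target_mem 0 1 (by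
      intro t ht e1 e2
      have e3 : (1 - (t : ℂ)) = 0 := by
        have : (1 - (t : ℂ)) * b' 0 ^ 2 = 0 := by simpa using e1
        rcases mul_eq_zero.mp this with h | h
        · exact h
        · exact absurd (pow_eq_zero_iff (two_ne_zero)|>.mp h) h0'
      rw [e3] at e2
      have ht1 : (t : ℂ) = 0 := by simpa using e2
      rw [ht1] at e3
      simp at e3)
    exact ⟨b'', w'', l0, l1, hj.trans hj'⟩
  · obtain ⟨b'', w'', l0, l1, hj'⟩ := joinB h 0 1 (by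
      intro t ht e1 e2
      have e3 : (1 - (t : ℂ)) = 0 := by
        have : (1 - (t : ℂ)) * b 0 ^ 2 = 0 := by simpa using e1
        rcases mul_eq_zero.mp this with h | h
        · exact h
        · exact absurd (pow_eq_zero_iff (two_ne_zero)|>.mp h) h0
      rw [e3] at e2
      have ht1 : (t : ℂ) = 0 := by simpa using e2
      rw [ht1] at e3
      simp at e3)
    exact ⟨b'', w'', l0, l1, hj'⟩

def cpA (i : Fin 4) (ε : ℂ) : cpQ := (Function.update 1 i ε, 1, 1)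
def cpB (i : Fin 4) (ε : ℂ) : cpQ := (1, Function.update 1 i ε, 1)
def cpW (ε : ℂ) : cpQ := (1, 1, ε)

def cpG (a b : Fin 4 → ℂ) (w : ℂ) : cpQ :=
  cpA 1 (a 1) * cpA 2 (a 2) * cpA 3 (a 3) * (cpB 1 (b 1) * cpB 2 (b 2) * cpB 3 (b 3)) * cpW w

theorem cpG_mul (a b : Fin 4 → ℂ) (w : ℂ) (ha : a 0 = 0) (hb : b 0 = 0) :
    cpG a b w * cpX = (a, b, w) := by
  refine Prod.ext ?_ (Prod.ext ?_ ?_)
  · funext i
    fin_cases i <;> simp [cpG, cpA, cpB, cpW, cpX, cp0, ha]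
  · funext i
    fin_cases i <;> simp [cpG, cpA, cpB, cpW, cpX, cp0, hb]
  · simp [cpG, cpA, cpB, cpW, cpX]

theorem cp_upd_sq (i : Fin 4) {ε : ℂ} (h : ε ^ 2 = 1) :
    (Function.update (1 : Fin 4 → ℂ) i ε) * (Function.update (1 : Fin 4 → ℂ) i ε) = 1 := by
  funext j
  by_cases hj : j = i
  · subst hj
    simp [← sq, h]
  · simp [Function.update_of_ne hj]

theorem cpA_sq (i : Fin 4) {ε : ℂ} (h : ε ^ 2 = 1) : cpA i ε * cpA i ε = 1 := by
  refine Prod.ext ?_ (Prod.ext ?_ ?_)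
  · exact cp_upd_sq i h
  · exact one_mul _
  · exact one_mul _

theorem cpB_sq (i : Fin 4) {ε : ℂ} (h : ε ^ 2 = 1) : cpB i ε * cpB i ε = 1 := by
  refine Prod.ext ?_ (Prod.ext ?_ ?_)
  · exact one_mul _
  · exact cp_upd_sq i h
  · exact one_mul _

theorem cpW_sq {ε : ℂ} (h : ε ^ 2 = 1) : cpW ε * cpW ε = 1 := by
  refine Prod.ext ?_ (Prod.ext ?_ ?_)
  · exact one_mul _
  · exact one_mul _
  · show ε * ε = 1
    rw [← sq, h]

theorem cp_mul_sq {g h : cpQ} (hg : g * g = 1) (hh : h * h = 1) : (g * h) * (g * h) = 1 := by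
  calc (g * h) * (g * h) = (g * g) * (h * h) := by ring
    _ = 1 := by rw [hg, hh, one_mul]

theorem cpG_sq (a b : Fin 4 → ℂ) (w : ℂ) (a1 : a 1 ^ 2 = 1) (a2 : a 2 ^ 2 = 1) (a3 : a 3 ^ 2 = 1)
    (b1 : b 1 ^ 2 = 1) (b2 : b 2 ^ 2 = 1) (b3 : b 3 ^ 2 = 1) (hw : w ^ 2 = 1) :
    cpG a b w * cpG a b w = 1 :=
  cp_mul_sq (cp_mul_sq (cp_mul_sq (cp_mul_sq (cpA_sq 1 a1) (cpA_sq 2 a2)) (cpA_sq 3 a3))
    (cp_mul_sq (cp_mul_sq (cpB_sq 1 b1) (cpB_sq 2 b2)) (cpB_sq 3 b3))) (cpW_sq hw)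

/-- step 1 -/
theorem cp_step1 {x : cpQ} (hx : x ∈ CM) : ∃ (a b : Fin 4 → ℂ) (w : ℂ), a 0 = 0 ∧ b 0 = 0 ∧
    a 1 ^ 2 = 1 ∧ a 2 ^ 2 = 1 ∧ a 3 ^ 2 = 1 ∧ b 1 ^ 2 = 1 ∧ b 2 ^ 2 = 1 ∧ b 3 ^ 2 = 1 ∧
    w ^ 2 = 1 ∧ JoinedIn CM x (a, b, w) := by
  obtain ⟨a, b, w⟩ := x
  obtain ⟨a', w', h0, h1, hj⟩ := cp_stepA hx
  obtain ⟨b', w'', k0, k1, hj'⟩ := cp_stepB hj.target_mem
  have hm := hj'.target_mem
  obtain ⟨_, _, ⟨hE1, hE2⟩, ⟨hF1, hF2⟩, hw⟩ := hm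
  simp only at hE1 hE2 hF1 hF2 hw
  rw [h0, h1] at hE1 hE2
  rw [k0, k1] at hF1 hF2
  refine ⟨a', b', w'', pow_eq_zero_iff (two_ne_zero)|>.mp h0,
    pow_eq_zero_iff (two_ne_zero)|>.mp k0, h1, ?_, ?_, k1, ?_, ?_, ?_, hj.trans hj'⟩
  · rw [hE1]; ring
  · rw [hE2]; ring
  · rw [hF1]; ring
  · rw [hF2]; ring
  · rw [hw]
    unfold GG
    simp only [mul_pow, h0, h1, k0, k1]
    ring

theorem cp_step1' {x : cpQ} (hx : x ∈ CM) : ∃ g : cpQ, g * g = 1 ∧ JoinedIn CM x (g * cpX) := by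
  obtain ⟨a, b, w, a0, b0, a1, a2, a3, b1, b2, b3, hw, hj⟩ := cp_step1 hx
  refine ⟨cpG a b w, cpG_sq a b w a1 a2 a3 b1 b2 b3 hw, ?_⟩
  rw [cpG_mul a b w a0 b0]
  exact hj

/-- step 2: an involution with a fixed point -/
theorem cp_step2 {ι y : cpQ} (hι : ι * ι = 1) (hy : y ∈ CM) (hfix : ι * y = y) :
    JoinedIn CM cpX (ι * cpX) := by
  obtain ⟨g, hg, hj⟩ := cp_step1' hy
  have h1 := cp_joined hι hj
  rw [hfix] at h1
  have h2 : JoinedIn CM (g * cpX) (ι * (g * cpX)) := hj.symm.trans h1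
  have h3 := cp_joined hg h2
  have e1 : g * (g * cpX) = cpX := by rw [← mul_assoc, hg, one_mul]
  have e2 : g * (ι * (g * cpX)) = ι * cpX := by
    calc g * (ι * (g * cpX)) = (g * g) * (ι * cpX) := by ring
      _ = ι * cpX := by rw [hg, one_mul]
  rw [e1, e2] at h3
  exact h3

/-- step 3: closed under products -/
theorem cp_step3 {g h : cpQ} (hg : g * g = 1) (hj : JoinedIn CM cpX (g * cpX))
    (hj' : JoinedIn CM cpX (h * cpX)) : JoinedIn CM cpX (g * h * cpX) := by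
  have h1 := cp_joined hg hj'
  rw [← mul_assoc] at h1
  exact hj.trans h1

theorem cp_sqrt (c : ℂ) : ∃ r : ℂ, r ^ 2 = c := by
  obtain ⟨r, hr⟩ := IsAlgClosed.exists_pow_nat_eq c (n := 2) (by norm_num)
  exact ⟨r, hr⟩

/-- points of the curve -/
theorem cp_pt (t : ℂ) : ∃ a : Fin 4 → ℂ, a ≠ 0 ∧ EC a ∧ a 0 = 1 ∧ a 1 ^ 2 = t ∧ a 2 ^ 2 = 2 + t ∧
    a 3 ^ 2 = 3 + t := by
  obtain ⟨r1, h1⟩ := cp_sqrt t
  obtain ⟨r2, h2⟩ := cp_sqrt (2 + t)
  obtain ⟨r3, h3⟩ := cp_sqrt (3 + t)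
  refine ⟨![1, r1, r2, r3], ?_, ?_, rfl, h1, h2, h3⟩
  · intro h
    have := congrFun h 0
    simp at this
  · constructor
    · show r2 ^ 2 = 2 * 1 ^ 2 + r1 ^ 2
      rw [h1, h2]; ring
    · show r3 ^ 2 = 3 * 1 ^ 2 + r1 ^ 2
      rw [h1, h3]; ring

theorem cp_update_fix (a : Fin 4 → ℂ) (i : Fin 4) (ε : ℂ) (h : a i = 0) :
    Function.update (1 : Fin 4 → ℂ) i ε * a = a := by
  funext j
  by_cases hj : j = i
  · subst hj
    simp [h]
  · simp [Function.update_of_ne hj]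

theorem cp_A (i : Fin 4) (hi : i ≠ 0) {ε : ℂ} (h : ε ^ 2 = 1) : JoinedIn CM cpX (cpA i ε * cpX) := by
  obtain ⟨a, ha, hE, hai⟩ : ∃ a : Fin 4 → ℂ, a ≠ 0 ∧ EC a ∧ a i = 0 := by
    fin_cases i
    · exact absurd rfl hi
    · obtain ⟨a, ha, hE, h0, h1, h2, h3⟩ := cp_pt 0
      exact ⟨a, ha, hE, pow_eq_zero_iff (two_ne_zero)|>.mp h1⟩
    · obtain ⟨a, ha, hE, h0, h1, h2, h3⟩ := cp_pt (-2)
      refine ⟨a, ha, hE, pow_eq_zero_iff (two_ne_zero)|>.mp ?_⟩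
      show a 2 ^ 2 = 0
      rw [h2]; ring
    · obtain ⟨a, ha, hE, h0, h1, h2, h3⟩ := cp_pt (-3)
      refine ⟨a, ha, hE, pow_eq_zero_iff (two_ne_zero)|>.mp ?_⟩
      show a 3 ^ 2 = 0
      rw [h3]; ring
  obtain ⟨w, hw⟩ := cp_sqrt (GG a cp0)
  refine cp_step2 (y := (a, cp0, w)) (cpA_sq i h) ⟨ha, cp0_ne, hE, cp_EC0, hw⟩ ?_
  refine Prod.ext ?_ (Prod.ext ?_ ?_)
  · exact cp_update_fix a i ε hai
  · exact one_mul _
  · exact one_mul _

theorem cp_B (i : Fin 4) (hi : i ≠ 0) {ε : ℂ} (h : ε ^ 2 = 1) : JoinedIn CM cpX (cpB i ε * cpX) := by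
  obtain ⟨a, ha, hE, hai⟩ : ∃ a : Fin 4 → ℂ, a ≠ 0 ∧ EC a ∧ a i = 0 := by
    fin_cases i
    · exact absurd rfl hi
    · obtain ⟨a, ha, hE, h0, h1, h2, h3⟩ := cp_pt 0
      exact ⟨a, ha, hE, pow_eq_zero_iff (two_ne_zero)|>.mp h1⟩
    · obtain ⟨a, ha, hE, h0, h1, h2, h3⟩ := cp_pt (-2)
      refine ⟨a, ha, hE, pow_eq_zero_iff (two_ne_zero)|>.mp ?_⟩
      show a 2 ^ 2 = 0
      rw [h2]; ring
    · obtain ⟨a, ha, hE, h0, h1, h2, h3⟩ := cp_pt (-3)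
      refine ⟨a, ha, hE, pow_eq_zero_iff (two_ne_zero)|>.mp ?_⟩
      show a 3 ^ 2 = 0
      rw [h3]; ring
  obtain ⟨w, hw⟩ := cp_sqrt (GG cp0 a)
  refine cp_step2 (y := (cp0, a, w)) (cpB_sq i h) ⟨cp0_ne, ha, cp_EC0, hE, hw⟩ ?_
  refine Prod.ext ?_ (Prod.ext ?_ ?_)
  · exact one_mul _
  · exact cp_update_fix a i ε hai
  · exact one_mul _

theorem cp_Wj {ε : ℂ} (h : ε ^ 2 = 1) : JoinedIn CM cpX (cpW ε * cpX) := by
  obtain ⟨a, ha, hE, h0, h1, h2, h3⟩ := cp_pt 3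
  refine cp_step2 (y := (a, cp0, 0)) (cpW_sq h) ⟨ha, cp0_ne, hE, cp_EC0, ?_⟩ ?_
  · simp only
    unfold GG
    rw [h0]
    have e0 : cp0 0 = 0 := rfl
    have e1 : cp0 1 = 1 := rfl
    rw [e0, e1]
    linear_combination -h1
  · refine Prod.ext ?_ (Prod.ext ?_ ?_)
    · exact one_mul _
    · exact one_mul _
    · exact mul_zero _

-- TARGET: prove this

theorem conePC : IsPathConnected CM := by
  refine ⟨cpX, cpX_mem, ?_⟩
  intro y hy
  obtain ⟨a, b, w, a0, b0, a1, a2, a3, b1, b2, b3, hw, hj⟩ := cp_step1 hy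
  have i1 : (1 : Fin 4) ≠ 0 := by decide
  have i2 : (2 : Fin 4) ≠ 0 := by decide
  have i3 : (3 : Fin 4) ≠ 0 := by decide
  have h1 : JoinedIn CM cpX (cpG a b w * cpX) := by
    unfold cpG
    refine cp_step3 (cp_mul_sq (cp_mul_sq (cp_mul_sq (cpA_sq 1 a1) (cpA_sq 2 a2)) (cpA_sq 3 a3))
      (cp_mul_sq (cp_mul_sq (cpB_sq 1 b1) (cpB_sq 2 b2)) (cpB_sq 3 b3))) ?_ (cp_Wj hw)
    refine cp_step3 (cp_mul_sq (cp_mul_sq (cpA_sq 1 a1) (cpA_sq 2 a2)) (cpA_sq 3 a3)) ?_ ?_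
    · refine cp_step3 (cp_mul_sq (cpA_sq 1 a1) (cpA_sq 2 a2)) ?_ (cp_A 3 i3 a3)
      exact cp_step3 (cpA_sq 1 a1) (cp_A 1 i1 a1) (cp_A 2 i2 a2)
    · refine cp_step3 (cp_mul_sq (cpB_sq 1 b1) (cpB_sq 2 b2)) ?_ (cp_B 3 i3 b3)
      exact cp_step3 (cpB_sq 1 b1) (cp_B 1 i1 b1) (cp_B 2 i2 b2)
  rw [cpG_mul a b w a0 b0] at h1
  exact h1.trans hj.symm


end J_conePC

alias conePC := J_conePC.conePC

end Pool.Agent.Helper10.UC
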