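import Mathlib
import Pool.Agent.Helper10.UC.Base
import Pool.Agent.Helper10.UC.J_mem_MM_iff
import Pool.Agent.Helper10.UC.J_conePC

open Set Filter Topology
open scoped LinearAlgebra.Projectivization

noncomputable section

namespace Pool.Agent.Helper10.UC

namespace J_pathM


-- TARGET: prove this

theorem pathM_ne (q : (Fin 4 → ℂ) × (Fin 4 → ℂ) × ℂ) (hq : q ∈ CM) :
    seg q.1 q.2.1 q.2.2 ≠ 0 := by
  obtain ⟨h1, h2, _⟩ := hq
  obtain ⟨i, hi⟩ := Function.ne_iff.1 h1
  obtain ⟨j, hj⟩ := Function.ne_iff.1 h2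
  intro h
  have h3 := congrFun h (some (i, j))
  have h4 : q.1 i * q.2.1 j = 0 := h3
  rcases mul_eq_zero.1 h4 with h5 | h5
  · exact hi h5
  · exact hj h5

theorem pathM : IsPathConnected MM := by
  have hpc : PathConnectedSpace CM := isPathConnected_iff_pathConnectedSpace.1 conePC
  have hf : Continuous (fun q : CM => (⟨seg q.1.1 q.1.2.1 q.1.2.2, pathM_ne q.1 q.2⟩ :
      {v : Ix → ℂ // v ≠ 0})) := by
    apply Continuous.subtype_mk
    apply continuous_pi
    intro x
    rcases x with _ | ⟨i, j⟩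
    · change Continuous (fun q : CM => q.1.2.2)
      fun_prop
    · change Continuous (fun q : CM => q.1.1 i * q.1.2.1 j)
      fun_prop
  have hg : Continuous (fun v : {v : Ix → ℂ // v ≠ 0} => Projectivization.mk ℂ v.1 v.2) :=
    continuous_coinduced_rng
  have hr := isPathConnected_range (hg.comp hf)
  have he : range ((fun v : {v : Ix → ℂ // v ≠ 0} => Projectivization.mk ℂ v.1 v.2) ∘
      (fun q : CM => (⟨seg q.1.1 q.1.2.1 q.1.2.2, pathM_ne q.1 q.2⟩ :
      {v : Ix → ℂ // v ≠ 0}))) = MM := by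
    ext x
    constructor
    · rintro ⟨q, rfl⟩
      obtain ⟨⟨a, b, w⟩, h1, h2, h3, h4, h5⟩ := q
      exact (mem_MM_iff _).2 ⟨a, b, w, h1, h2, h3, h4, h5, rfl⟩
    · intro hx
      rw [← x.mk_rep] at hx
      obtain ⟨a, b, w, h1, h2, h3, h4, h5, h6⟩ := (mem_MM_iff _).1 hx
      refine ⟨⟨(a, b, w), h1, h2, h3, h4, h5⟩, ?_⟩
      rw [Function.comp_apply]
      conv_rhs => rw [← x.mk_rep]
      congr 1
      exact h6.symm
  rw [he] at hr
  exact hr


end J_pathM

alias pathM := J_pathM.pathM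

end Pool.Agent.Helper10.UC
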