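import Mathlib
import Pool.Agent.Helper10.UC.Base
import Pool.Agent.Helper10.UC.J_mem_MM_iff

open Set Filter Topology
open scoped LinearAlgebra.Projectivization

noncomputable section

namespace Pool.Agent.Helper10.UC

namespace J_affCone_MM


-- TARGET: prove this

theorem affCone_MM (v : Ix → ℂ) : v ∈ affCone MM ↔
    ∃ (a b : Fin 4 → ℂ) (w : ℂ), a ≠ 0 ∧ b ≠ 0 ∧ EC a ∧ EC b ∧ w ^ 2 = GG a b ∧ v = seg a b w := by
  constructor
  · rintro ⟨hv, h⟩
    exact (mem_MM_iff hv).1 h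
  · rintro ⟨a, b, w, ha, hb, h1, h2, h3, h4⟩
    have hv : v ≠ 0 := by
      obtain ⟨i, hi⟩ := Function.ne_iff.1 ha
      obtain ⟨j, hj⟩ := Function.ne_iff.1 hb
      intro h0
      have h5 := congrFun h0 (some (i, j))
      rw [h4] at h5
      have h6 : a i * b j = 0 := h5
      rcases mul_eq_zero.1 h6 with h | h
      · exact hi h
      · exact hj h
    exact ⟨hv, (mem_MM_iff hv).2 ⟨a, b, w, ha, hb, h1, h2, h3, h4⟩⟩


end J_affCone_MM

alias affCone_MM := J_affCone_MM.affCone_MM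

end Pool.Agent.Helper10.UC
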