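import Mathlib
import Pool.Agent.Helper10.UC.Base

open Set Filter Topology
open scoped LinearAlgebra.Projectivization

noncomputable section

namespace Pool.Agent.Helper10.UC

namespace J_EC_surj


-- TARGET: prove this

theorem EC_surj {a : Fin 4 → ℂ} (ha : a ≠ 0) (hE : EC a) (r s : ℂ) : ∃ x : Fin 4 → ℂ,
    a 2 * x 2 - 2 * a 0 * x 0 - a 1 * x 1 = r ∧ a 3 * x 3 - 3 * a 0 * x 0 - a 1 * x 1 = s := by
  obtain ⟨h1, h2⟩ := hE
  have hz : a 0 = 0 → a 1 = 0 → False := by
    intro h0 h0'
    apply ha
    have h3 : a 2 = 0 := by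
      have : a 2 ^ 2 = 0 := by rw [h1, h0, h0']; ring
      exact pow_eq_zero_iff (two_ne_zero) |>.1 this
    have h4 : a 3 = 0 := by
      have : a 3 ^ 2 = 0 := by rw [h2, h0, h0']; ring
      exact pow_eq_zero_iff (two_ne_zero) |>.1 this
    funext i
    fin_cases i
    · exact h0
    · exact h0'
    · exact h3
    · exact h4
  by_cases h3 : a 2 = 0
  · have h0 : a 0 ≠ 0 := by
      intro h0
      apply hz h0
      rw [h3, h0] at h1
      have : a 1 ^ 2 = 0 := by linear_combination -h1
      exact pow_eq_zero_iff (two_ne_zero) |>.1 this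
    have h4 : a 3 ≠ 0 := by
      intro h4
      rw [h3] at h1
      rw [h4] at h2
      have : a 0 ^ 2 = 0 := by linear_combination h1 - h2
      exact h0 (pow_eq_zero_iff (two_ne_zero) |>.1 this)
    refine ⟨![-r / (2 * a 0), 0, 0, (s + 3 * a 0 * (-r / (2 * a 0))) / a 3], ?_, ?_⟩
    · simp only [Matrix.cons_val]
      rw [h3]
      field_simp
      ring
    · simp only [Matrix.cons_val]
      field_simp
      ring
  · by_cases h4 : a 3 = 0
    · have h0 : a 0 ≠ 0 := by
        intro h0
        apply hz h0
        rw [h4, h0] at h2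
        have : a 1 ^ 2 = 0 := by linear_combination -h2
        exact pow_eq_zero_iff (two_ne_zero) |>.1 this
      refine ⟨![-s / (3 * a 0), 0, (r + 2 * a 0 * (-s / (3 * a 0))) / a 2, 0], ?_, ?_⟩
      · simp only [Matrix.cons_val]
        field_simp
        ring
      · simp only [Matrix.cons_val]
        rw [h4]
        field_simp
        ring
    · refine ⟨![0, 0, r / a 2, s / a 3], ?_, ?_⟩
      · simp only [Matrix.cons_val]
        field_simp
        ring
      · simp only [Matrix.cons_val]
        field_simp
        ring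


end J_EC_surj

alias EC_surj := J_EC_surj.EC_surj

end Pool.Agent.Helper10.UC
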