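import Mathlib
import Pool.Agent.Helper10.UC.Base
import Pool.Agent.Helper10.UC.J_EC_surj

open Set Filter Topology
open scoped LinearAlgebra.Projectivization

noncomputable section

namespace Pool.Agent.Helper10.UC

namespace J_GG_reg


-- TARGET: prove this

theorem EC_not_both833 {a : Fin 4 → ℂ} (ha : a ≠ 0) (hE : EC a) (h0 : a 0 = 0) (h1 : a 1 = 0) :
    False := by
  obtain ⟨h2, h3⟩ := hE
  rw [h0, h1] at h2 h3
  have h2' : a 2 = 0 := by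
    apply pow_eq_zero_iff (two_ne_zero) |>.1
    rw [h2]; norm_num
  have h3' : a 3 = 0 := by
    apply pow_eq_zero_iff (two_ne_zero) |>.1
    rw [h3]; norm_num
  apply ha
  funext i
  fin_cases i
  · exact h0
  · exact h1
  · exact h2'
  · exact h3'

theorem EC_types833 {a : Fin 4 → ℂ} (ha : a ≠ 0) (hE : EC a)
    (hz : a 0 = 0 ∨ a 1 = 0 ∨ a 2 = 0 ∨ a 3 = 0) : ∃ u : ℂ, u ≠ 0 ∧
      ((a 0 ^ 2 = 0 ∧ a 1 ^ 2 = u) ∨ (a 0 ^ 2 = u ∧ a 1 ^ 2 = 0) ∨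
        (a 0 ^ 2 = u ∧ a 1 ^ 2 = -2 * u) ∨ (a 0 ^ 2 = u ∧ a 1 ^ 2 = -3 * u)) := by
  have hnb := EC_not_both833 ha hE
  obtain ⟨h2, h3⟩ := hE
  rcases hz with h | h | h | h
  · refine ⟨a 1 ^ 2, ?_, Or.inl ⟨by rw [h]; norm_num, rfl⟩⟩
    exact pow_ne_zero 2 (fun h1 => hnb h h1)
  · refine ⟨a 0 ^ 2, ?_, Or.inr (Or.inl ⟨rfl, by rw [h]; norm_num⟩)⟩
    exact pow_ne_zero 2 (fun h0 => hnb h0 h)
  · rw [h] at h2
    refine ⟨a 0 ^ 2, ?_, Or.inr (Or.inr (Or.inl ⟨rfl, by linear_combination -h2⟩))⟩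
    intro h0
    rw [h0] at h2
    have h1 : a 1 ^ 2 = 0 := by linear_combination -h2
    exact hnb (pow_eq_zero_iff two_ne_zero |>.1 h0) (pow_eq_zero_iff two_ne_zero |>.1 h1)
  · rw [h] at h3
    refine ⟨a 0 ^ 2, ?_, Or.inr (Or.inr (Or.inr ⟨rfl, by linear_combination -h3⟩))⟩
    intro h0
    rw [h0] at h3
    have h1 : a 1 ^ 2 = 0 := by linear_combination -h3
    exact hnb (pow_eq_zero_iff two_ne_zero |>.1 h0) (pow_eq_zero_iff two_ne_zero |>.1 h1)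

theorem GG_types833 {a b : Fin 4 → ℂ} (ha : a ≠ 0) (hb : b ≠ 0) (hEa : EC a) (hEb : EC b)
    (h : GG a b = 0) (hza : a 0 = 0 ∨ a 1 = 0 ∨ a 2 = 0 ∨ a 3 = 0)
    (hzb : b 0 = 0 ∨ b 1 = 0 ∨ b 2 = 0 ∨ b 3 = 0) : False := by
  obtain ⟨u, hu, hau⟩ := EC_types833 ha hEa hza
  obtain ⟨v, hv, hbv⟩ := EC_types833 hb hEb hzb
  have huv : u * v ≠ 0 := mul_ne_zero hu hv
  apply huv
  have h' : a 1 ^ 2 * b 1 ^ 2 - 3 * (a 0 ^ 2 * b 1 ^ 2) - 3 * (a 1 ^ 2 * b 0 ^ 2) -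
      7 * (a 0 ^ 2 * b 0 ^ 2) = 0 := by
    unfold GG at h
    linear_combination h
  rcases hau with ⟨h1, h2⟩ | ⟨h1, h2⟩ | ⟨h1, h2⟩ | ⟨h1, h2⟩ <;>
    rcases hbv with ⟨h3, h4⟩ | ⟨h3, h4⟩ | ⟨h3, h4⟩ | ⟨h3, h4⟩ <;>
    rw [h1, h2, h3, h4] at h'
  · linear_combination h'
  · linear_combination (-1 / 3) * h'
  · linear_combination (-1 / 5) * h'
  · linear_combination (-1 / 6) * h'
  · linear_combination (-1 / 3) * h'
  · linear_combination (-1 / 7) * h'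
  · linear_combination (-1) * h'
  · linear_combination (1 / 2) * h'
  · linear_combination (-1 / 5) * h'
  · linear_combination (-1) * h'
  · linear_combination (1 / 9) * h'
  · linear_combination (1 / 14) * h'
  · linear_combination (-1 / 6) * h'
  · linear_combination (1 / 2) * h'
  · linear_combination (1 / 14) * h'
  · linear_combination (1 / 20) * h'

theorem GG_free833 {a b : Fin 4 → ℂ} (hb : b ≠ 0) (hEb : EC b)
    (h0 : a 0 ≠ 0) (h1 : a 1 ≠ 0) (h2 : a 2 ≠ 0) (h3 : a 3 ≠ 0) : ∃ x : Fin 4 → ℂ,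
    (a 2 * x 2 - 2 * a 0 * x 0 - a 1 * x 1 = 0 ∧ a 3 * x 3 - 3 * a 0 * x 0 - a 1 * x 1 = 0) ∧
    x 1 * a 1 * (b 1 ^ 2 - 3 * b 0 ^ 2) - x 0 * a 0 * (3 * b 1 ^ 2 + 7 * b 0 ^ 2) ≠ 0 := by
  by_cases hc : b 1 ^ 2 - 3 * b 0 ^ 2 = 0
  · refine ⟨![1, 0, 2 * a 0 / a 2, 3 * a 0 / a 3], ⟨?_, ?_⟩, ?_⟩
    · simp; field_simp; ring
    · simp; field_simp; ring
    · simp only [Matrix.cons_val_zero, Matrix.cons_val_one]
      intro h
      have hb1 : b 1 ^ 2 = 3 * b 0 ^ 2 := by linear_combination hc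
      have h4 : a 0 * b 0 ^ 2 = 0 := by
        rw [hb1] at h
        linear_combination (-1 / 16) * h
      rcases mul_eq_zero.1 h4 with h5 | h5
      · exact h0 h5
      · have h6 : b 0 = 0 := pow_eq_zero_iff two_ne_zero |>.1 h5
        have h7 : b 1 = 0 := by
          apply pow_eq_zero_iff two_ne_zero |>.1
          rw [hb1, h5]; norm_num
        exact EC_not_both833 hb hEb h6 h7
  · refine ⟨![0, 1, a 1 / a 2, a 1 / a 3], ⟨?_, ?_⟩, ?_⟩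
    · simp; field_simp; ring
    · simp; field_simp; ring
    · simp only [Matrix.cons_val_zero, Matrix.cons_val_one]
      intro h
      have h4 : a 1 * (b 1 ^ 2 - 3 * b 0 ^ 2) = 0 := by linear_combination h
      rcases mul_eq_zero.1 h4 with h5 | h5
      · exact h1 h5
      · exact hc h5

theorem GG_reg {a b : Fin 4 → ℂ} (ha : a ≠ 0) (hb : b ≠ 0) (hEa : EC a) (hEb : EC b)
    (h : GG a b = 0) : ∃ x y : Fin 4 → ℂ,
    (a 2 * x 2 - 2 * a 0 * x 0 - a 1 * x 1 = 0 ∧ a 3 * x 3 - 3 * a 0 * x 0 - a 1 * x 1 = 0) ∧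
    (b 2 * y 2 - 2 * b 0 * y 0 - b 1 * y 1 = 0 ∧ b 3 * y 3 - 3 * b 0 * y 0 - b 1 * y 1 = 0) ∧
    (a 1 * b 1) * (x 1 * b 1 + a 1 * y 1) - 3 * (a 0 * b 1) * (x 0 * b 1 + a 0 * y 1)
      - 3 * (a 1 * b 0) * (x 1 * b 0 + a 1 * y 0) - 7 * (a 0 * b 0) * (x 0 * b 0 + a 0 * y 0) ≠ 0 := by
  by_cases hza : a 0 = 0 ∨ a 1 = 0 ∨ a 2 = 0 ∨ a 3 = 0
  · by_cases hzb : b 0 = 0 ∨ b 1 = 0 ∨ b 2 = 0 ∨ b 3 = 0
    · exact (GG_types833 ha hb hEa hEb h hza hzb).elim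
    · push Not at hzb
      obtain ⟨y, hy, hy'⟩ := GG_free833 ha hEa hzb.1 hzb.2.1 hzb.2.2.1 hzb.2.2.2
      refine ⟨0, y, ⟨by simp, by simp⟩, hy, ?_⟩
      intro h0
      apply hy'
      simp only [Pi.zero_apply] at h0
      linear_combination h0
  · push Not at hza
    obtain ⟨x, hx, hx'⟩ := GG_free833 hb hEb hza.1 hza.2.1 hza.2.2.1 hza.2.2.2
    refine ⟨x, 0, hx, ⟨by simp, by simp⟩, ?_⟩
    intro h0
    apply hx'
    simp only [Pi.zero_apply] at h0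
    linear_combination h0


end J_GG_reg

alias GG_reg := J_GG_reg.GG_reg

end Pool.Agent.Helper10.UC
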