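import Mathlib
import Pool.Agent.Helper10.UC.Base
import Pool.Agent.Helper10.UC.J_EC_surj
import Pool.Agent.Helper10.UC.J_GG_reg

open Set Filter Topology
open scoped LinearAlgebra.Projectivization

noncomputable section

namespace Pool.Agent.Helper10.UC

namespace J_dgM_surj


-- TARGET: prove this

/-- the matrix with prescribed entries outside row `i` and column `j` and zero there -/
theorem dgs_exists_E (i j : Fin 4) (f : Fin 3 × Fin 3 → ℂ) : ∃ E : Fin 4 → Fin 4 → ℂ,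
    (∀ l, E i l = 0) ∧ (∀ k, E k j = 0) ∧
      ∀ p q, E (i.succAbove p) (j.succAbove q) = f (p, q) := by
  refine ⟨Fin.insertNth (α := fun _ => Fin 4 → ℂ) i 0
    (fun p => Fin.insertNth (α := fun _ => ℂ) j 0 (fun q => f (p, q))), ?_, ?_, ?_⟩
  · intro l
    rw [Fin.insertNth_apply_same]
    rfl
  · intro k
    rcases Fin.eq_self_or_eq_succAbove i k with h | ⟨p, h⟩
    · rw [h, Fin.insertNth_apply_same]
      rfl
    · rw [h, Fin.insertNth_apply_succAbove, Fin.insertNth_apply_same]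
  · intro p q
    rw [Fin.insertNth_apply_succAbove, Fin.insertNth_apply_succAbove]

/-- the variation -/
def dgV (a b X Z : Fin 4 → ℂ) (E : Fin 4 → Fin 4 → ℂ) (ω : ℂ) : Ix → ℂ
  | none => ω
  | some (k, l) => X k * b l + a k * Z l + E k l

theorem dgV_eq {i j : Fin 4} {a b X Z : Fin 4 → ℂ} {E : Fin 4 → Fin 4 → ℂ} {w ω : ℂ}
    (hEa : EC a) (hEb : EC b) (hE1 : ∀ l, E i l = 0) (hE2 : ∀ k, E k j = 0) :
    dgM i j (seg a b w) (dgV a b X Z E ω) =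
      (fun q => a i * b j * E (i.succAbove q.1) (j.succAbove q.2),
        (2 * b j ^ 2 * (a 2 * X 2 - 2 * a 0 * X 0 - a 1 * X 1),
          2 * b j ^ 2 * (a 3 * X 3 - 3 * a 0 * X 0 - a 1 * X 1)),
        (2 * a i ^ 2 * (b 2 * Z 2 - 2 * b 0 * Z 0 - b 1 * Z 1),
          2 * a i ^ 2 * (b 3 * Z 3 - 3 * b 0 * Z 0 - b 1 * Z 1)),
        2 * w * ω - 2 * ((a 1 * b 1) * (X 1 * b 1 + a 1 * Z 1 + E 1 1)
          - 3 * (a 0 * b 1) * (X 0 * b 1 + a 0 * Z 1 + E 0 1)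
          - 3 * (a 1 * b 0) * (X 1 * b 0 + a 1 * Z 0 + E 1 0)
          - 7 * (a 0 * b 0) * (X 0 * b 0 + a 0 * Z 0 + E 0 0))) := by
  obtain ⟨ha1, ha2⟩ := hEa
  obtain ⟨hb1, hb2⟩ := hEb
  unfold dgM
  refine Prod.ext ?_ (Prod.ext (Prod.ext ?_ ?_) (Prod.ext (Prod.ext ?_ ?_) ?_))
  · funext q
    simp only [seg, dgV, hE1, hE2]
    ring
  · simp only [seg, dgV, hE1, hE2]
    linear_combination 2 * b j * Z j * ha1
  · simp only [seg, dgV, hE1, hE2]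
    linear_combination 2 * b j * Z j * ha2
  · simp only [seg, dgV, hE1, hE2]
    linear_combination 2 * a i * X i * hb1
  · simp only [seg, dgV, hE1, hE2]
    linear_combination 2 * a i * X i * hb2
  · simp only [seg, dgV]
    ring

theorem dgM_surj {i j : Fin 4} {a b : Fin 4 → ℂ} {w : ℂ} (hi : a i ≠ 0) (hj : b j ≠ 0)
    (hEa : EC a) (hEb : EC b) (hw : w ^ 2 = GG a b)
    (y : (Fin 3 × Fin 3 → ℂ) × (ℂ × ℂ) × (ℂ × ℂ) × ℂ) : ∃ δ, dgM i j (seg a b w) δ = y := by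
  have ha : a ≠ 0 := fun h => hi (by rw [h]; rfl)
  have hb : b ≠ 0 := fun h => hj (by rw [h]; rfl)
  obtain ⟨y1, ⟨y2, y3⟩, ⟨y4, y5⟩, y6⟩ := y
  obtain ⟨E, hE1, hE2, hE3⟩ := dgs_exists_E i j (fun q => y1 q / (a i * b j))
  obtain ⟨x, hx1, hx2⟩ := EC_surj ha hEa (y2 / (2 * b j ^ 2)) (y3 / (2 * b j ^ 2))
  obtain ⟨z, hz1, hz2⟩ := EC_surj hb hEb (y4 / (2 * a i ^ 2)) (y5 / (2 * a i ^ 2))
  have hcomp1 : (fun q : Fin 3 × Fin 3 => a i * b j * E (i.succAbove q.1) (j.succAbove q.2)) =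
      y1 := by
    funext q
    rw [hE3]
    field_simp
  by_cases hw0 : w = 0
  · have hG : GG a b = 0 := by rw [← hw, hw0]; ring
    obtain ⟨x', z', ⟨hx'1, hx'2⟩, ⟨hz'1, hz'2⟩, hN⟩ := GG_reg ha hb hEa hEb hG
    obtain ⟨N, hNdef⟩ : ∃ N : ℂ, N = (a 1 * b 1) * (x' 1 * b 1 + a 1 * z' 1)
      - 3 * (a 0 * b 1) * (x' 0 * b 1 + a 0 * z' 1)
      - 3 * (a 1 * b 0) * (x' 1 * b 0 + a 1 * z' 0)
      - 7 * (a 0 * b 0) * (x' 0 * b 0 + a 0 * z' 0) := ⟨_, rfl⟩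
    rw [← hNdef] at hN
    obtain ⟨M, hM⟩ : ∃ M : ℂ, M = (a 1 * b 1) * (x 1 * b 1 + a 1 * z 1 + E 1 1)
      - 3 * (a 0 * b 1) * (x 0 * b 1 + a 0 * z 1 + E 0 1)
      - 3 * (a 1 * b 0) * (x 1 * b 0 + a 1 * z 0 + E 1 0)
      - 7 * (a 0 * b 0) * (x 0 * b 0 + a 0 * z 0 + E 0 0) := ⟨_, rfl⟩
    obtain ⟨τ, hτ⟩ : ∃ τ : ℂ, -2 * (M + τ * N) = y6 := by
      refine ⟨(-y6 / 2 - M) / N, ?_⟩
      field_simp
      ring
    refine ⟨dgV a b (fun k => x k + τ * x' k) (fun l => z l + τ * z' l) E 0, ?_⟩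
    rw [dgV_eq hEa hEb hE1 hE2, hcomp1]
    refine Prod.ext rfl (Prod.ext (Prod.ext ?_ ?_) (Prod.ext (Prod.ext ?_ ?_) ?_))
    · show 2 * b j ^ 2 * (a 2 * (x 2 + τ * x' 2) - 2 * a 0 * (x 0 + τ * x' 0)
        - a 1 * (x 1 + τ * x' 1)) = y2
      rw [show a 2 * (x 2 + τ * x' 2) - 2 * a 0 * (x 0 + τ * x' 0)
        - a 1 * (x 1 + τ * x' 1) = y2 / (2 * b j ^ 2) by
          linear_combination hx1 + τ * hx'1]
      field_simp
    · show 2 * b j ^ 2 * (a 3 * (x 3 + τ * x' 3) - 3 * a 0 * (x 0 + τ * x' 0)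
        - a 1 * (x 1 + τ * x' 1)) = y3
      rw [show a 3 * (x 3 + τ * x' 3) - 3 * a 0 * (x 0 + τ * x' 0)
        - a 1 * (x 1 + τ * x' 1) = y3 / (2 * b j ^ 2) by
          linear_combination hx2 + τ * hx'2]
      field_simp
    · show 2 * a i ^ 2 * (b 2 * (z 2 + τ * z' 2) - 2 * b 0 * (z 0 + τ * z' 0)
        - b 1 * (z 1 + τ * z' 1)) = y4
      rw [show b 2 * (z 2 + τ * z' 2) - 2 * b 0 * (z 0 + τ * z' 0)
        - b 1 * (z 1 + τ * z' 1) = y4 / (2 * a i ^ 2) by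
          linear_combination hz1 + τ * hz'1]
      field_simp
    · show 2 * a i ^ 2 * (b 3 * (z 3 + τ * z' 3) - 3 * b 0 * (z 0 + τ * z' 0)
        - b 1 * (z 1 + τ * z' 1)) = y5
      rw [show b 3 * (z 3 + τ * z' 3) - 3 * b 0 * (z 0 + τ * z' 0)
        - b 1 * (z 1 + τ * z' 1) = y5 / (2 * a i ^ 2) by
          linear_combination hz2 + τ * hz'2]
      field_simp
    · rw [← hτ, hM, hNdef]
      simp only
      ring
  · obtain ⟨ω, hω⟩ : ∃ ω : ℂ, 2 * w * ω - 2 * ((a 1 * b 1) * (x 1 * b 1 + a 1 * z 1 + E 1 1)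
          - 3 * (a 0 * b 1) * (x 0 * b 1 + a 0 * z 1 + E 0 1)
          - 3 * (a 1 * b 0) * (x 1 * b 0 + a 1 * z 0 + E 1 0)
          - 7 * (a 0 * b 0) * (x 0 * b 0 + a 0 * z 0 + E 0 0)) = y6 := by
      refine ⟨(y6 + 2 * ((a 1 * b 1) * (x 1 * b 1 + a 1 * z 1 + E 1 1)
          - 3 * (a 0 * b 1) * (x 0 * b 1 + a 0 * z 1 + E 0 1)
          - 3 * (a 1 * b 0) * (x 1 * b 0 + a 1 * z 0 + E 1 0)
          - 7 * (a 0 * b 0) * (x 0 * b 0 + a 0 * z 0 + E 0 0))) / (2 * w), ?_⟩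
      rw [mul_div_cancel₀ _ (mul_ne_zero two_ne_zero hw0)]
      ring
    refine ⟨dgV a b x z E ω, ?_⟩
    rw [dgV_eq hEa hEb hE1 hE2, hcomp1, hω, hx1, hx2, hz1, hz2]
    refine Prod.ext rfl (Prod.ext (Prod.ext ?_ ?_) (Prod.ext (Prod.ext ?_ ?_) rfl))
    · show 2 * b j ^ 2 * (y2 / (2 * b j ^ 2)) = y2
      field_simp
    · show 2 * b j ^ 2 * (y3 / (2 * b j ^ 2)) = y3
      field_simp
    · show 2 * a i ^ 2 * (y4 / (2 * a i ^ 2)) = y4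
      field_simp
    · show 2 * a i ^ 2 * (y5 / (2 * a i ^ 2)) = y5
      field_simp


end J_dgM_surj

alias dgM_surj := J_dgM_surj.dgM_surj

end Pool.Agent.Helper10.UC
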