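import Mathlib
import Pool.Agent.Helper10.UC.Base

open Set Filter Topology
open scoped LinearAlgebra.Projectivization

noncomputable section

namespace Pool.Agent.Helper10.UC

namespace J_gM_deriv


-- TARGET: prove this

theorem gM_deriv_congr {f : ℂ → ℂ} {a b : ℂ} (h : HasDerivAt f a 0) (e : a = b) :
    HasDerivAt f b 0 := e ▸ h

theorem gM_deriv_coord (v δ : Ix → ℂ) (x : Ix) :
    HasDerivAt (fun t : ℂ => (v + t • δ) x) (δ x) 0 := by
  have h : HasDerivAt (fun t : ℂ => v x + t * δ x) (1 * δ x) 0 :=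
    ((hasDerivAt_id (0:ℂ)).mul_const (δ x)).const_add (v x)
  rw [one_mul] at h
  exact h

theorem gM_deriv_mul (v δ : Ix → ℂ) (x y : Ix) :
    HasDerivAt (fun t : ℂ => (v + t • δ) x * (v + t • δ) y) (v x * δ y + δ x * v y) 0 := by
  have h := (gM_deriv_coord v δ x).mul (gM_deriv_coord v δ y)
  have e : δ x * (v + (0:ℂ) • δ) y + (v + (0:ℂ) • δ) x * δ y = v x * δ y + δ x * v y := by
    simp only [zero_smul, add_zero]
    ring
  rw [e] at h
  exact h

theorem gM_deriv_sq (v δ : Ix → ℂ) (x : Ix) :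
    HasDerivAt (fun t : ℂ => (v + t • δ) x ^ 2) (2 * v x * δ x) 0 := by
  have h := gM_deriv_mul v δ x x
  have e : v x * δ x + δ x * v x = 2 * v x * δ x := by ring
  rw [e] at h
  refine h.congr_of_eventuallyEq (Filter.Eventually.of_forall fun t => ?_)
  exact pow_two _

theorem gM_deriv_line (i j : Fin 4) (v δ : Ix → ℂ) :
    HasDerivAt (fun t : ℂ => gM i j (v + t • δ)) (dgM i j v δ) 0 := by
  unfold gM dgM
  refine HasDerivAt.prodMk ?_ (HasDerivAt.prodMk (HasDerivAt.prodMk ?_ ?_)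
    (HasDerivAt.prodMk (HasDerivAt.prodMk ?_ ?_) ?_))
  · rw [hasDerivAt_pi]
    intro q
    exact (gM_deriv_mul v δ _ _).sub (gM_deriv_mul v δ _ _)
  · have h := ((gM_deriv_sq v δ (some (2, j))).sub
      ((gM_deriv_sq v δ (some (0, j))).const_mul 2)).sub (gM_deriv_sq v δ (some (1, j)))
    exact gM_deriv_congr h (by ring)
  · have h := ((gM_deriv_sq v δ (some (3, j))).sub
      ((gM_deriv_sq v δ (some (0, j))).const_mul 3)).sub (gM_deriv_sq v δ (some (1, j)))
    exact gM_deriv_congr h (by ring)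
  · have h := ((gM_deriv_sq v δ (some (i, 2))).sub
      ((gM_deriv_sq v δ (some (i, 0))).const_mul 2)).sub (gM_deriv_sq v δ (some (i, 1)))
    exact gM_deriv_congr h (by ring)
  · have h := ((gM_deriv_sq v δ (some (i, 3))).sub
      ((gM_deriv_sq v δ (some (i, 0))).const_mul 3)).sub (gM_deriv_sq v δ (some (i, 1)))
    exact gM_deriv_congr h (by ring)
  · have h := (gM_deriv_sq v δ none).sub ((((gM_deriv_sq v δ (some (1, 1))).sub
      ((gM_deriv_sq v δ (some (0, 1))).const_mul 3)).sub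
      ((gM_deriv_sq v δ (some (1, 0))).const_mul 3)).sub
      ((gM_deriv_sq v δ (some (0, 0))).const_mul 7))
    exact gM_deriv_congr h (by ring)

theorem gM_deriv_an (i j : Fin 4) (v : Ix → ℂ) : AnalyticAt ℂ (gM i j) v := by
  have hc : ∀ x : Ix, AnalyticAt ℂ (fun v : Ix → ℂ => v x) v := fun x =>
    (ContinuousLinearMap.proj (R := ℂ) (φ := fun _ : Ix => ℂ) x).analyticAt v
  unfold gM
  refine AnalyticAt.prod ?_ (AnalyticAt.prod (AnalyticAt.prod ?_ ?_)
    (AnalyticAt.prod (AnalyticAt.prod ?_ ?_) ?_))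
  · rw [analyticAt_pi_iff]
    intro q
    exact ((hc _).mul (hc _)).sub ((hc _).mul (hc _))
  · exact (((hc _).pow 2).sub (analyticAt_const.mul ((hc _).pow 2))).sub ((hc _).pow 2)
  · exact (((hc _).pow 2).sub (analyticAt_const.mul ((hc _).pow 2))).sub ((hc _).pow 2)
  · exact (((hc _).pow 2).sub (analyticAt_const.mul ((hc _).pow 2))).sub ((hc _).pow 2)
  · exact (((hc _).pow 2).sub (analyticAt_const.mul ((hc _).pow 2))).sub ((hc _).pow 2)
  · exact ((hc _).pow 2).sub (((((hc _).pow 2).sub (analyticAt_const.mul ((hc _).pow 2))).sub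
      (analyticAt_const.mul ((hc _).pow 2))).sub (analyticAt_const.mul ((hc _).pow 2)))

theorem gM_deriv (i j : Fin 4) (v : Ix → ℂ) :
    AnalyticAt ℂ (gM i j) v ∧ ∀ δ, fderiv ℂ (gM i j) v δ = dgM i j v δ := by
  refine ⟨gM_deriv_an i j v, fun δ => ?_⟩
  have h1 := (gM_deriv_an i j v).differentiableAt.hasFDerivAt
  have h2 : HasDerivAt (fun t : ℂ => v + t • δ) δ 0 := by
    have h : HasDerivAt (fun t : ℂ => v + t • δ) ((1:ℂ) • δ) 0 :=
      ((hasDerivAt_id (0:ℂ)).smul_const δ).const_add v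
    rw [one_smul] at h
    exact h
  have h1' : HasFDerivAt (gM i j) (fderiv ℂ (gM i j) v) (v + (0:ℂ) • δ) := by
    rw [zero_smul, add_zero]
    exact h1
  have h3 := HasFDerivAt.comp_hasDerivAt (0:ℂ) h1' h2
  exact h3.unique (gM_deriv_line i j v δ)


end J_gM_deriv

alias gM_deriv := J_gM_deriv.gM_deriv

end Pool.Agent.Helper10.UC
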