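import Mathlib
import Pool.Agent.Helper10.UC.Base
import Pool.Agent.Helper10.UC.J_affCone_MM

open Set Filter Topology
open scoped LinearAlgebra.Projectivization

noncomputable section

namespace Pool.Agent.Helper10.UC

namespace J_gM_zero


-- TARGET: prove this

theorem gM_zero {i j : Fin 4} {v : Ix → ℂ} (h : v (some (i, j)) ≠ 0) :
    v ∈ affCone MM ↔ gM i j v = 0 := by
  rw [affCone_MM]
  constructor
  · rintro ⟨a, b, w, -, -, ⟨ea2, ea3⟩, ⟨eb2, eb3⟩, hw, rfl⟩
    unfold gM
    simp only [seg]
    refine Prod.ext (funext fun q => ?_) (Prod.ext (Prod.ext ?_ ?_) (Prod.ext (Prod.ext ?_ ?_) ?_))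
    · show a i * b j * (a (i.succAbove q.1) * b (j.succAbove q.2)) -
        a i * b (j.succAbove q.2) * (a (i.succAbove q.1) * b j) = 0
      ring
    · show (a 2 * b j) ^ 2 - 2 * (a 0 * b j) ^ 2 - (a 1 * b j) ^ 2 = 0
      linear_combination (b j) ^ 2 * ea2
    · show (a 3 * b j) ^ 2 - 3 * (a 0 * b j) ^ 2 - (a 1 * b j) ^ 2 = 0
      linear_combination (b j) ^ 2 * ea3
    · show (a i * b 2) ^ 2 - 2 * (a i * b 0) ^ 2 - (a i * b 1) ^ 2 = 0
      linear_combination (a i) ^ 2 * eb2
    · show (a i * b 3) ^ 2 - 3 * (a i * b 0) ^ 2 - (a i * b 1) ^ 2 = 0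
      linear_combination (a i) ^ 2 * eb3
    · show w ^ 2 - ((a 1 * b 1) ^ 2 - 3 * (a 0 * b 1) ^ 2 - 3 * (a 1 * b 0) ^ 2
        - 7 * (a 0 * b 0) ^ 2) = 0
      unfold GG at hw
      linear_combination hw
  · intro h'
    have c1 : ∀ q : Fin 3 × Fin 3, v (some (i, j)) * v (some (i.succAbove q.1, j.succAbove q.2)) -
      v (some (i, j.succAbove q.2)) * v (some (i.succAbove q.1, j)) = 0 :=
      fun q => congrFun (congrArg Prod.fst h') q
    have c2 : v (some (2, j)) ^ 2 - 2 * v (some (0, j)) ^ 2 - v (some (1, j)) ^ 2 = 0 :=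
      congrArg (fun z => z.2.1.1) h'
    have c3 : v (some (3, j)) ^ 2 - 3 * v (some (0, j)) ^ 2 - v (some (1, j)) ^ 2 = 0 :=
      congrArg (fun z => z.2.1.2) h'
    have c4 : v (some (i, 2)) ^ 2 - 2 * v (some (i, 0)) ^ 2 - v (some (i, 1)) ^ 2 = 0 :=
      congrArg (fun z => z.2.2.1.1) h'
    have c5 : v (some (i, 3)) ^ 2 - 3 * v (some (i, 0)) ^ 2 - v (some (i, 1)) ^ 2 = 0 :=
      congrArg (fun z => z.2.2.1.2) h'
    have c6 : v none ^ 2 - (v (some (1, 1)) ^ 2 - 3 * v (some (0, 1)) ^ 2 - 3 * v (some (1, 0)) ^ 2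
      - 7 * v (some (0, 0)) ^ 2) = 0 :=
      congrArg (fun z => z.2.2.2) h'
    have key : ∀ k l, v (some (k, j)) * (v (some (i, l)) / v (some (i, j))) = v (some (k, l)) := by
      intro k l
      by_cases hk : k = i
      · subst hk
        field_simp
      · by_cases hl : l = j
        · subst hl
          field_simp
        · obtain ⟨k', hk'⟩ := Fin.exists_succAbove_eq hk
          obtain ⟨l', hl'⟩ := Fin.exists_succAbove_eq hl
          have := c1 (k', l')
          simp only [hk', hl'] at this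
          rw [← mul_div_assoc, div_eq_iff h]
          linear_combination -this
    refine ⟨fun k => v (some (k, j)), fun l => v (some (i, l)) / v (some (i, j)), v none,
      ?_, ?_, ⟨?_, ?_⟩, ⟨?_, ?_⟩, ?_, ?_⟩
    · intro h0
      exact h (congrFun h0 i)
    · intro h0
      have := congrFun h0 j
      simp only [Pi.zero_apply] at this
      rw [div_self h] at this
      exact one_ne_zero this
    · show v (some (2, j)) ^ 2 = 2 * v (some (0, j)) ^ 2 + v (some (1, j)) ^ 2
      linear_combination c2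
    · show v (some (3, j)) ^ 2 = 3 * v (some (0, j)) ^ 2 + v (some (1, j)) ^ 2
      linear_combination c3
    · show (v (some (i, 2)) / v (some (i, j))) ^ 2 = 2 * (v (some (i, 0)) / v (some (i, j))) ^ 2 +
        (v (some (i, 1)) / v (some (i, j))) ^ 2
      field_simp
      linear_combination c4
    · show (v (some (i, 3)) / v (some (i, j))) ^ 2 = 3 * (v (some (i, 0)) / v (some (i, j))) ^ 2 +
        (v (some (i, 1)) / v (some (i, j))) ^ 2
      field_simp
      linear_combination c5
    · unfold GG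
      simp only [key]
      linear_combination c6
    · funext x
      rcases x with _ | ⟨k, l⟩
      · rfl
      · exact (key k l).symm


end J_gM_zero

alias gM_zero := J_gM_zero.gM_zero

end Pool.Agent.Helper10.UC
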