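import Mathlib
import Pool.Agent.Helper10.UC.Base
import Pool.Agent.Helper10.UC.J_affCone_MM
import Pool.Agent.Helper10.UC.J_gM_deriv
import Pool.Agent.Helper10.UC.J_gM_zero
import Pool.Agent.Helper10.UC.J_dgM_surj

open Set Filter Topology
open scoped LinearAlgebra.Projectivization

noncomputable section

namespace Pool.Agent.Helper10.UC

namespace J_smoothM


-- TARGET: prove this

theorem smoothM : IsComplexSubmanifold MM 2 := by
  intro v hv
  obtain ⟨a, b, w, ha, hb, hEa, hEb, hw, rfl⟩ := (affCone_MM v).1 hv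
  obtain ⟨i, hi⟩ := Function.ne_iff.1 ha
  obtain ⟨j, hj⟩ := Function.ne_iff.1 hb
  refine ⟨(Fin 3 × Fin 3 → ℂ) × (ℂ × ℂ) × (ℂ × ℂ) × ℂ, inferInstance, inferInstance,
    inferInstance, gM i j, ?_, (gM_deriv i j _).1, ?_, ?_⟩
  · simp [Module.finrank_prod, Module.finrank_fintype_fun_eq_card]
  · intro y
    obtain ⟨δ, hδ⟩ := dgM_surj hi hj hEa hEb hw y
    exact ⟨δ, by rw [(gM_deriv i j _).2, hδ]⟩
  · have hc : Continuous fun z : Ix → ℂ => z (some (i, j)) := continuous_apply _
    have : ∀ᶠ z in 𝓝 (seg a b w), z (some (i, j)) ≠ 0 :=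
      hc.continuousAt.eventually_ne (mul_ne_zero hi hj)
    filter_upwards [this] with z hz using gM_zero hz


end J_smoothM

alias smoothM := J_smoothM.smoothM

end Pool.Agent.Helper10.UC
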