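import Mathlib
import Pool.Agent.Helper10.UC.Base

open Set Filter Topology
open scoped LinearAlgebra.Projectivization

noncomputable section

namespace Pool.Agent.Helper10.UC

namespace J_TT_mul


-- TARGET: prove this

/-- the product of the four projections, up to normalisation -/
def QQ (a b c d : V3) : ℂ :=
  ⟨1 + dot a b + dot a c + dot a d + dot b c + dot b d + dot c d + dot a b * dot c d -
      dot a c * dot b d + dot a d * dot b c,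
    dot a (crs b c) + dot a (crs b d) + dot a (crs c d) + dot b (crs c d)⟩

theorem TT_id1 {a b c d : V3} (h0 : dot a a = 1) (h2 : dot c c = 1) :
    TT a b c * TT a c d = ((1 + dot a c : ℝ) : ℂ) * QQ a b c d := by
  obtain ⟨a1, a2, a3⟩ := a
  obtain ⟨b1, b2, b3⟩ := b
  obtain ⟨c1, c2, c3⟩ := c
  obtain ⟨d1, d2, d3⟩ := d
  simp only [dot] at h0 h2
  apply Complex.ext
  · simp only [TT, QQ, dot, crs, Complex.mul_re, Complex.ofReal_re, Complex.ofReal_im]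
    linear_combination (-b1*c1^2*d1 - b1*c1*c2*d2 - b1*c1*c3*d3 + b1*d1 + b2*c1^2*d2 - b2*c1*c2*d1 - b2*c2*c3*d3 + b2*c3^2*d2 + b3*c1^2*d3 - b3*c1*c3*d1 + b3*c2^2*d3 - b3*c2*c3*d2) * h0 +
      (-a1*a2*b1*d2 - a1*a2*b2*d1 - a1*a3*b1*d3 - a1*a3*b3*d1 + a2^2*b1*d1 - a2^2*b2*d2 - a2*a3*b2*d3 - a2*a3*b3*d2 + a3^2*b1*d1 - a3^2*b3*d3 + b2*d2 + b3*d3) * h2
  · simp only [TT, QQ, dot, crs, Complex.mul_im, Complex.ofReal_re, Complex.ofReal_im]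
    linear_combination (b1*c2*d3 - b1*c3*d2 - b2*c1*d3 + b2*c3*d1 + b3*c1*d2 - b3*c2*d1) * h0 +
      (a1*b2*d3 - a1*b3*d2 - a2*b1*d3 + a2*b3*d1 + a3*b1*d2 - a3*b2*d1) * h2

theorem TT_id2 {a b c d : V3} (h1 : dot b b = 1) (h3 : dot d d = 1) :
    TT a b d * TT b c d = ((1 + dot b d : ℝ) : ℂ) * QQ a b c d := by
  obtain ⟨a1, a2, a3⟩ := a
  obtain ⟨b1, b2, b3⟩ := b
  obtain ⟨c1, c2, c3⟩ := c
  obtain ⟨d1, d2, d3⟩ := d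
  simp only [dot] at h1 h3
  apply Complex.ext
  · simp only [TT, QQ, dot, crs, Complex.mul_re, Complex.ofReal_re, Complex.ofReal_im]
    linear_combination (-a1*c1*d1^2 + a1*c1 - a1*c2*d1*d2 - a1*c3*d1*d3 - a2*c1*d1*d2 + a2*c2*d1^2 + a2*c2*d3^2 - a2*c3*d2*d3 - a3*c1*d1*d3 - a3*c2*d2*d3 + a3*c3*d1^2 + a3*c3*d2^2) * h1 +
      (-a1*b1*b2*c2 - a1*b1*b3*c3 + a1*b2^2*c1 + a1*b3^2*c1 - a2*b1*b2*c1 - a2*b2^2*c2 - a2*b2*b3*c3 + a2*c2 - a3*b1*b3*c1 - a3*b2*b3*c2 - a3*b3^2*c3 + a3*c3) * h3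
  · simp only [TT, QQ, dot, crs, Complex.mul_im, Complex.ofReal_re, Complex.ofReal_im]
    linear_combination (a1*c2*d3 - a1*c3*d2 - a2*c1*d3 + a2*c3*d1 + a3*c1*d2 - a3*c2*d1) * h1 +
      (a1*b2*c3 - a1*b3*c2 - a2*b1*c3 + a2*b3*c1 + a3*b1*c2 - a3*b2*c1) * h3

theorem TT_mul {p₀ p₁ p₂ p₃ : V3} (h₀ : dot p₀ p₀ = 1) (h₁ : dot p₁ p₁ = 1)
    (h₂ : dot p₂ p₂ = 1) (h₃ : dot p₃ p₃ = 1) :
    TT p₀ p₁ p₂ * TT p₀ p₂ p₃ * ((1 + dot p₁ p₃ : ℝ) : ℂ) =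
      TT p₀ p₁ p₃ * TT p₁ p₂ p₃ * ((1 + dot p₀ p₂ : ℝ) : ℂ) := by
  rw [TT_id1 h₀ h₂, TT_id2 h₁ h₃]
  ring


end J_TT_mul

alias TT_mul := J_TT_mul.TT_mul

end Pool.Agent.Helper10.UC
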