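import Mathlib
import Pool.Agent.Helper10.UC.Base
import Pool.Agent.Helper10.UC.J_TT_mul

open Set Filter Topology
open scoped LinearAlgebra.Projectivization

noncomputable section

namespace Pool.Agent.Helper10.UC

namespace J_sa_add


-- TARGET: prove this

theorem sa_add {p₀ p₁ p₂ p₃ : V3} (h₀ : dot p₀ p₀ = 1) (h₁ : dot p₁ p₁ = 1)
    (h₂ : dot p₂ p₂ = 1) (h₃ : dot p₃ p₃ = 1) (g1 : Gd p₀ p₁ p₂) (g2 : Gd p₀ p₂ p₃)
    (g3 : Gd p₀ p₁ p₃) (g4 : Gd p₁ p₂ p₃) (h13 : 0 < 1 + dot p₁ p₃) (h02 : 0 < 1 + dot p₀ p₂) :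
    sa p₀ p₁ p₂ + sa p₀ p₂ p₃ = sa p₀ p₁ p₃ + sa p₁ p₂ p₃ := by
  have key : ∀ z : ℂ, |z.im| < z.re → z ≠ 0 ∧ -(Real.pi / 2) < Complex.arg z ∧
      Complex.arg z < Real.pi / 2 := by
    intro z hz
    have hre : 0 < z.re := lt_of_le_of_lt (abs_nonneg _) hz
    have hz0 : z ≠ 0 := by
      intro h
      rw [h] at hre
      simp at hre
    have h1 : |Complex.arg z| < Real.pi / 2 :=
      Complex.abs_arg_lt_pi_div_two_iff.2 (Or.inl hre)
    exact ⟨hz0, (abs_lt.1 h1).1, (abs_lt.1 h1).2⟩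
  have main : ∀ z w : ℂ, |z.im| < z.re → |w.im| < w.re → ∀ r : ℝ, 0 < r →
      Complex.arg (z * w * (r : ℂ)) = Complex.arg z + Complex.arg w := by
    intro z w hz hw r hr
    obtain ⟨hz0, hz1, hz2⟩ := key z hz
    obtain ⟨hw0, hw1, hw2⟩ := key w hw
    rw [Complex.arg_mul_real hr]
    apply Complex.arg_mul hz0 hw0
    constructor <;> linarith
  have e := TT_mul h₀ h₁ h₂ h₃
  have e1 := main _ _ g1 g2 _ h13
  have e2 := main _ _ g3 g4 _ h02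
  unfold sa
  rw [← e1, ← e2, e]


end J_sa_add

alias sa_add := J_sa_add.sa_add

end Pool.Agent.Helper10.UC
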