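import Mathlib
import Pool.Agent.Helper10.UC.Base
import Pool.Agent.Helper10.UC.J_sa_add

open Set Filter Topology
open scoped LinearAlgebra.Projectivization

noncomputable section

namespace Pool.Agent.Helper10.UC

namespace J_prism_sa


-- TARGET: prove this

theorem prism_comp {p q : V3} {d : ℝ} (h : dist p q ≤ d) :
    |p.1 - q.1| ≤ d ∧ |p.2.1 - q.2.1| ≤ d ∧ |p.2.2 - q.2.2| ≤ d := by
  rw [Prod.dist_eq, Prod.dist_eq, Real.dist_eq, Real.dist_eq, Real.dist_eq] at h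
  have h1 := (max_le_iff.1 h).1
  have h2 := (max_le_iff.1 h).2
  exact ⟨h1, (max_le_iff.1 h2).1, (max_le_iff.1 h2).2⟩

theorem prism_unit {p : V3} (h : dot p p = 1) : |p.1| ≤ 1 ∧ |p.2.1| ≤ 1 ∧ |p.2.2| ≤ 1 := by
  unfold dot at h
  refine ⟨?_, ?_, ?_⟩
  · rw [abs_le_one_iff_mul_self_le_one]
    nlinarith [mul_self_nonneg p.1, mul_self_nonneg p.2.1, mul_self_nonneg p.2.2]
  · rw [abs_le_one_iff_mul_self_le_one]
    nlinarith [mul_self_nonneg p.1, mul_self_nonneg p.2.1, mul_self_nonneg p.2.2]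
  · rw [abs_le_one_iff_mul_self_le_one]
    nlinarith [mul_self_nonneg p.1, mul_self_nonneg p.2.1, mul_self_nonneg p.2.2]

theorem prism_mul {x y d m : ℝ} (hx : |x| ≤ d) (hy : |y| ≤ m) : |x * y| ≤ d * m := by
  rw [abs_mul]
  exact mul_le_mul hx hy (abs_nonneg _) ((abs_nonneg _).trans hx)

/-- coordinates version of the bound of the scalar product -/
theorem prism_sum {x1 x2 x3 y1 y2 y3 d m : ℝ} (h1 : |x1| ≤ d) (h2 : |x2| ≤ d) (h3 : |x3| ≤ d)
    (k1 : |y1| ≤ m) (k2 : |y2| ≤ m) (k3 : |y3| ≤ m) :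
    |x1 * y1 + x2 * y2 + x3 * y3| ≤ 3 * d * m := by
  have e1 := abs_le.1 (prism_mul h1 k1)
  have e2 := abs_le.1 (prism_mul h2 k2)
  have e3 := abs_le.1 (prism_mul h3 k3)
  rw [abs_le]
  constructor <;> linarith [e1.1, e1.2, e2.1, e2.2, e3.1, e3.2]

theorem prism_dot {p p' q : V3} {d : ℝ} (hq : dot q q = 1) (h : dist p p' ≤ d) :
    dot p' q - 3 * d ≤ dot p q := by
  obtain ⟨h1, h2, h3⟩ := prism_comp h
  obtain ⟨k1, k2, k3⟩ := prism_unit hq
  have e := abs_le.1 (prism_sum h1 h2 h3 k1 k2 k3)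
  unfold dot
  nlinarith [e.1]

theorem prism_dot_comm (p q : V3) : dot p q = dot q p := by
  unfold dot; ring

theorem prism_det {p q r : V3} {d : ℝ} (hq : dot q q = 1) (hr : dot r r = 1)
    (h : dist p q ≤ d) : |dot p (crs q r)| ≤ 6 * d := by
  obtain ⟨h1, h2, h3⟩ := prism_comp h
  obtain ⟨q1, q2, q3⟩ := prism_unit hq
  obtain ⟨r1, r2, r3⟩ := prism_unit hr
  have c1 : |q.2.1 * r.2.2 - q.2.2 * r.2.1| ≤ 2 := by
    have a1 := abs_le.1 (prism_mul q2 r3)
    have a2 := abs_le.1 (prism_mul q3 r2)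
    rw [abs_le]; constructor <;> linarith [a1.1, a1.2, a2.1, a2.2]
  have c2 : |q.2.2 * r.1 - q.1 * r.2.2| ≤ 2 := by
    have a1 := abs_le.1 (prism_mul q3 r1)
    have a2 := abs_le.1 (prism_mul q1 r3)
    rw [abs_le]; constructor <;> linarith [a1.1, a1.2, a2.1, a2.2]
  have c3 : |q.1 * r.2.1 - q.2.1 * r.1| ≤ 2 := by
    have a1 := abs_le.1 (prism_mul q1 r2)
    have a2 := abs_le.1 (prism_mul q2 r1)
    rw [abs_le]; constructor <;> linarith [a1.1, a1.2, a2.1, a2.2]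
  have e := prism_sum h1 h2 h3 c1 c2 c3
  have e2 : dot p (crs q r) = (p.1 - q.1) * (q.2.1 * r.2.2 - q.2.2 * r.2.1) +
      (p.2.1 - q.2.1) * (q.2.2 * r.1 - q.1 * r.2.2) +
      (p.2.2 - q.2.2) * (q.1 * r.2.1 - q.2.1 * r.1) := by
    unfold dot crs
    ring
  rw [e2]
  linarith

theorem prism_cyc (p q r : V3) : dot p (crs q r) = dot q (crs r p) := by
  unfold dot crs
  ring

theorem prism_gd {p q r : V3} {d x y z : ℝ} (hd : |dot p (crs q r)| ≤ 6 * d) (hx : x ≤ dot p q)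
    (hy : y ≤ dot q r) (hz : z ≤ dot r p) (h : 6 * d < 1 + x + y + z) : Gd p q r := by
  have h1 : (TT p q r).im = dot p (crs q r) := rfl
  have h2 : (TT p q r).re = 1 + dot p q + dot q r + dot r p := rfl
  unfold Gd
  rw [h1, h2]
  linarith

theorem prism_sa {κ : ℝ} (hκ : -1 < κ) : ∃ δ > 0, ∀ a b : Fin 3 → V3,
    (∀ i, dot (a i) (a i) = 1) → (∀ i, dot (b i) (b i) = 1) →
    (∀ i j, dist (a i) (a j) < δ) → (∀ i j, dist (b i) (b j) < δ) →
    (∀ i, κ ≤ dot (a i) (b i)) →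
    sa (a 0) (a 1) (a 2) - sa (b 0) (b 1) (b 2) =
      be (a 1) (a 2) (b 1) (b 2) - be (a 0) (a 2) (b 0) (b 2) + be (a 0) (a 1) (b 0) (b 1) := by
  have hk : 0 < 1 + κ := by linarith
  refine ⟨min ((1 + κ) / 15) (1 / 15), lt_min (by positivity) (by norm_num), ?_⟩
  intro a b ha hb hda hdb hab
  set δ : ℝ := min ((1 + κ) / 15) (1 / 15) with hδ
  have hδ1 : δ ≤ (1 + κ) / 15 := min_le_left _ _
  have hδ2 : δ ≤ 1 / 15 := min_le_right _ _
  have hδ0 : 0 < δ := lt_min (by positivity) (by norm_num)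
  have aa : ∀ i j, 1 - 3 * δ ≤ dot (a i) (a j) := fun i j => by
    have := prism_dot (ha j) (hda i j).le
    rwa [ha j] at this
  have bb : ∀ i j, 1 - 3 * δ ≤ dot (b i) (b j) := fun i j => by
    have := prism_dot (hb j) (hdb i j).le
    rwa [hb j] at this
  have ab : ∀ i j, κ - 3 * δ ≤ dot (a i) (b j) := fun i j => by
    have := prism_dot (hb j) (hda i j).le
    have h2 := hab j
    linarith
  have ba : ∀ i j, κ - 3 * δ ≤ dot (b i) (a j) := fun i j => by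
    rw [prism_dot_comm]; exact ab j i
  have gaaa : ∀ i j k, Gd (a i) (a j) (a k) := fun i j k =>
    prism_gd (prism_det (ha j) (ha k) (hda i j).le) (aa i j) (aa j k) (aa k i) (by linarith)
  have gbbb : ∀ i j k, Gd (b i) (b j) (b k) := fun i j k =>
    prism_gd (prism_det (hb j) (hb k) (hdb i j).le) (bb i j) (bb j k) (bb k i) (by linarith)
  have gaab : ∀ i j k, Gd (a i) (a j) (b k) := fun i j k =>
    prism_gd (prism_det (ha j) (hb k) (hda i j).le) (aa i j) (ab j k) (ba k i) (by linarith)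
  have gabb : ∀ i j k, Gd (a i) (b j) (b k) := fun i j k =>
    prism_gd (by rw [prism_cyc]; exact prism_det (hb k) (ha i) (hdb j k).le) (ab i j) (bb j k)
      (ba k i) (by linarith)
  have t1 := sa_add (ha 0) (ha 1) (ha 2) (hb 2) (gaaa 0 1 2) (gaab 0 2 2) (gaab 0 1 2)
    (gaab 1 2 2) (by linarith [ab 1 2]) (by linarith [aa 0 2])
  have t2 := sa_add (ha 0) (ha 1) (hb 1) (hb 2) (gaab 0 1 1) (gabb 0 1 2) (gaab 0 1 2)
    (gabb 1 1 2) (by linarith [ab 1 2]) (by linarith [ab 0 1])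
  have t3 := sa_add (ha 0) (hb 0) (hb 1) (hb 2) (gabb 0 0 1) (gabb 0 1 2) (gabb 0 0 2)
    (gbbb 0 1 2) (by linarith [bb 0 2]) (by linarith [ab 0 1])
  unfold be
  linarith


end J_prism_sa

alias prism_sa := J_prism_sa.prism_sa

end Pool.Agent.Helper10.UC
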