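import Mathlib
import Pool.Agent.Helper10.UC.Base
import Pool.Agent.Helper10.UC.J_sa_add

open Set Filter Topology
open scoped LinearAlgebra.Projectivization

noncomputable section

namespace Pool.Agent.Helper10.UC

namespace J_sa_cocycle


-- TARGET: prove this

theorem sac_close {p q : V3} (h : dist p q < 1 / 100) :
    |p.1 - q.1| < 1 / 100 ∧ |p.2.1 - q.2.1| < 1 / 100 ∧ |p.2.2 - q.2.2| < 1 / 100 := by
  rw [Prod.dist_eq, Prod.dist_eq, max_lt_iff, max_lt_iff, Real.dist_eq, Real.dist_eq,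
    Real.dist_eq] at h
  exact h

theorem sac_sq {x : ℝ} (h : |x| < 1 / 100) : x ^ 2 ≤ 1 / 10000 := by
  have h1 := abs_lt.1 h
  nlinarith [h1.1, h1.2]

theorem sac_dot {p q : V3} (hp : dot p p = 1) (hq : dot q q = 1) (h : dist p q < 1 / 100) :
    1 / 2 ≤ dot p q := by
  obtain ⟨h1, h2, h3⟩ := sac_close h
  have e1 := sac_sq h1
  have e2 := sac_sq h2
  have e3 := sac_sq h3
  have e : dot p q = 1 - ((p.1 - q.1) ^ 2 + (p.2.1 - q.2.1) ^ 2 + (p.2.2 - q.2.2) ^ 2) / 2 := by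
    simp only [dot] at hp hq ⊢
    linear_combination (1 / 2) * hp + (1 / 2) * hq
  rw [e]
  linarith

theorem sac_coord {q : V3} (hq : dot q q = 1) : |q.1| ≤ 1 ∧ |q.2.1| ≤ 1 ∧ |q.2.2| ≤ 1 := by
  simp only [dot] at hq
  refine ⟨?_, ?_, ?_⟩ <;> rw [abs_le] <;> constructor <;>
    nlinarith [sq_nonneg q.1, sq_nonneg q.2.1, sq_nonneg q.2.2]

theorem sac_two {a b c d : ℝ} (ha : |a| ≤ 1) (hb : |b| ≤ 1) (hc : |c| ≤ 1) (hd : |d| ≤ 1) :
    |a * b - c * d| ≤ 2 := by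
  have h1 : |a * b| ≤ 1 := by
    rw [abs_mul]
    exact mul_le_one₀ ha (abs_nonneg _) hb
  have h2 : |c * d| ≤ 1 := by
    rw [abs_mul]
    exact mul_le_one₀ hc (abs_nonneg _) hd
  have h3 := abs_sub (a * b) (c * d)
  linarith

theorem sac_mul {x y : ℝ} (hx : |x| < 1 / 100) (hy : |y| ≤ 2) : |x * y| ≤ 1 / 50 := by
  rw [abs_mul]
  calc |x| * |y| ≤ (1 / 100) * 2 := mul_le_mul hx.le hy (abs_nonneg _) (by norm_num)
    _ = 1 / 50 := by norm_num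

theorem sac_im {p q r : V3} (hq : dot q q = 1) (hr : dot r r = 1) (h : dist p q < 1 / 100) :
    |dot p (crs q r)| ≤ 3 / 50 := by
  obtain ⟨h1, h2, h3⟩ := sac_close h
  obtain ⟨q1, q2, q3⟩ := sac_coord hq
  obtain ⟨r1, r2, r3⟩ := sac_coord hr
  have e : dot p (crs q r) = (p.1 - q.1) * (q.2.1 * r.2.2 - q.2.2 * r.2.1) +
      (p.2.1 - q.2.1) * (q.2.2 * r.1 - q.1 * r.2.2) +
      (p.2.2 - q.2.2) * (q.1 * r.2.1 - q.2.1 * r.1) := by
    simp only [dot, crs]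
    ring
  rw [e]
  have a1 := sac_mul h1 (sac_two q2 r3 q3 r2)
  have a2 := sac_mul h2 (sac_two q3 r1 q1 r3)
  have a3 := sac_mul h3 (sac_two q1 r2 q2 r1)
  have b1 := abs_add_le ((p.1 - q.1) * (q.2.1 * r.2.2 - q.2.2 * r.2.1) +
      (p.2.1 - q.2.1) * (q.2.2 * r.1 - q.1 * r.2.2))
      ((p.2.2 - q.2.2) * (q.1 * r.2.1 - q.2.1 * r.1))
  have b2 := abs_add_le ((p.1 - q.1) * (q.2.1 * r.2.2 - q.2.2 * r.2.1))
      ((p.2.1 - q.2.1) * (q.2.2 * r.1 - q.1 * r.2.2))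
  linarith

theorem sac_gd {p q r : V3} (hp : dot p p = 1) (hq : dot q q = 1) (hr : dot r r = 1)
    (h1 : dist p q < 1 / 100) (h2 : dist q r < 1 / 100) (h3 : dist r p < 1 / 100) : Gd p q r := by
  unfold Gd TT
  have a1 := sac_dot hp hq h1
  have a2 := sac_dot hq hr h2
  have a3 := sac_dot hr hp h3
  have a4 := sac_im hq hr h1
  show |dot p (crs q r)| < 1 + dot p q + dot q r + dot r p
  linarith

theorem sa_cocycle : ∃ δ > 0, ∀ p : Fin 4 → V3, (∀ i, dot (p i) (p i) = 1) →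
    (∀ i j, dist (p i) (p j) < δ) →
    sa (p 0) (p 1) (p 2) + sa (p 0) (p 2) (p 3) = sa (p 0) (p 1) (p 3) + sa (p 1) (p 2) (p 3) := by
  refine ⟨1 / 100, by norm_num, ?_⟩
  intro p hp hd
  have hg : ∀ i j k, Gd (p i) (p j) (p k) := fun i j k =>
    sac_gd (hp i) (hp j) (hp k) (hd i j) (hd j k) (hd k i)
  apply sa_add (hp 0) (hp 1) (hp 2) (hp 3) (hg _ _ _) (hg _ _ _) (hg _ _ _) (hg _ _ _)
  · have := sac_dot (hp 1) (hp 3) (hd 1 3)
    linarith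
  · have := sac_dot (hp 0) (hp 2) (hd 0 2)
    linarith


end J_sa_cocycle

alias sa_cocycle := J_sa_cocycle.sa_cocycle

end Pool.Agent.Helper10.UC
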