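import Mathlib
import Pool.Agent.Helper10.UC.Base
import Pool.Agent.Helper10.UC.J_contract

open Set Filter Topology
open scoped LinearAlgebra.Projectivization

noncomputable section

namespace Pool.Agent.Helper10.UC

namespace J_hemi_fill


-- TARGET: prove this

/-- contraction of a point towards the pole `(0,0,σ)`, before normalising -/
def hvec (σ : ℝ) (q : ℝ × S2) : V3 :=
  ((1 - q.1) * q.2.1.1, (1 - q.1) * q.2.1.2.1, (1 - q.1) * q.2.1.2.2 + q.1 * σ)

theorem hvec_cont (σ : ℝ) : Continuous (hvec σ) := by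
  unfold hvec; fun_prop

theorem hvec_dot (σ : ℝ) (hσ : σ ^ 2 = 1) (q : ℝ × S2) :
    dot (hvec σ q) (hvec σ q) = (1 - q.1) ^ 2 + 2 * q.1 * (1 - q.1) * (σ * q.2.1.2.2) + q.1 ^ 2 := by
  have h := q.2.2
  unfold dot at h
  simp only [hvec, dot]
  linear_combination (1 - q.1) ^ 2 * h + q.1 ^ 2 * hσ

theorem hvec_pos (σ : ℝ) (hσ : σ ^ 2 = 1) (t : ℝ) (ht : t ∈ Icc (0 : ℝ) 1) (x : S2)
    (hx : 0 ≤ σ * x.1.2.2) : 0 < dot (hvec σ (t, x)) (hvec σ (t, x)) := by
  rw [hvec_dot σ hσ]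
  have h1 : 0 ≤ 1 - t := by linarith [ht.2]
  have h2 : 0 ≤ t := ht.1
  have h3 : 0 ≤ t * (1 - t) * (σ * x.1.2.2) := mul_nonneg (mul_nonneg h2 h1) hx
  simp only
  nlinarith [sq_nonneg (1 - 2 * t)]

theorem dot_smul' (a : ℝ) (v : V3) : dot (a • v) (a • v) = a ^ 2 * dot v v := by
  simp only [dot, Prod.smul_fst, Prod.smul_snd, smul_eq_mul]; ring

/-- the homotopy -/
def hmap (σ : ℝ) (q : ℝ × S2) : S2 :=
  if hv : 0 < dot (hvec σ q) (hvec σ q) then
    ⟨(1 / √(dot (hvec σ q) (hvec σ q))) • hvec σ q, by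
      rw [dot_smul', div_pow, Real.sq_sqrt hv.le]
      field_simp⟩
  else q.2

theorem hmap_val (σ : ℝ) (q : ℝ × S2) (hv : 0 < dot (hvec σ q) (hvec σ q)) :
    (hmap σ q).1 = (1 / √(dot (hvec σ q) (hvec σ q))) • hvec σ q := by
  unfold hmap
  rw [dif_pos hv]

instance instCompactS2 : CompactSpace S2 := by
  refine (isCompact_iff_compactSpace (s := {p : V3 | dot p p = 1})).1 ?_
  apply Metric.isCompact_of_isClosed_isBounded
  · have : Continuous (fun p : V3 => dot p p) := continuous_dot.comp (continuous_id.prodMk continuous_id)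
    exact isClosed_eq this continuous_const
  · apply (Metric.isBounded_closedBall (x := (0 : V3)) (r := 1)).subset
    intro p hp
    have hp' : p.1 * p.1 + p.2.1 * p.2.1 + p.2.2 * p.2.2 = 1 := hp
    rw [mem_closedBall_zero_iff, Prod.norm_def, Prod.norm_def]
    simp only [Real.norm_eq_abs]
    refine max_le ?_ (max_le ?_ ?_)
    · exact abs_le_one_iff_mul_self_le_one.2 (by nlinarith [mul_self_nonneg p.2.1, mul_self_nonneg p.2.2])
    · exact abs_le_one_iff_mul_self_le_one.2 (by nlinarith [mul_self_nonneg p.1, mul_self_nonneg p.2.2])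
    · exact abs_le_one_iff_mul_self_le_one.2 (by nlinarith [mul_self_nonneg p.1, mul_self_nonneg p.2.1])

theorem hemi_fill (σ : ℝ) (hσ : σ = 1 ∨ σ = -1) {μ : ℝ} (hμ : 0 < μ) :
    ∃ μ' > 0, ∀ z ∈ FC 2 {p : S2 | 0 ≤ σ * p.1.2.2} μ', bd z = 0 →
      ∃ c ∈ FC 3 {p : S2 | 0 ≤ σ * p.1.2.2} μ, bd c = z := by
  have hs : σ ^ 2 = 1 := by rcases hσ with h | h <;> rw [h] <;> norm_num
  have hclosed : IsClosed {p : S2 | 0 ≤ σ * p.1.2.2} := by
    apply isClosed_le continuous_const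
    fun_prop
  let P : S2 := ⟨(0, 0, σ), by simp only [dot]; nlinarith [hs]⟩
  have hP1 : P.1 = (0, 0, σ) := rfl
  refine contract (A := {p : S2 | 0 ≤ σ * p.1.2.2}) (B := {p : S2 | 0 ≤ σ * p.1.2.2})
    hclosed.isCompact (hmap σ) ?_ ?_ P ?_ ?_ ?_ 2 hμ
  · refine (Topology.IsInducing.subtypeVal (t := {p : V3 | dot p p = 1})).continuousOn_iff.2 ?_
    have hcg : ContinuousOn (fun q : ℝ × S2 => (1 / √(dot (hvec σ q) (hvec σ q))) • hvec σ q)
        (Icc (0 : ℝ) 1 ×ˢ {p : S2 | 0 ≤ σ * p.1.2.2}) := by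
      have hden : ContinuousOn (fun q : ℝ × S2 => 1 / √(dot (hvec σ q) (hvec σ q)))
          (Icc (0 : ℝ) 1 ×ˢ {p : S2 | 0 ≤ σ * p.1.2.2}) := by
        apply ContinuousOn.div continuousOn_const
        · apply Continuous.continuousOn
          apply Real.continuous_sqrt.comp
          exact continuous_dot.comp ((hvec_cont σ).prodMk (hvec_cont σ))
        · rintro ⟨t, x⟩ ⟨ht, hx⟩
          exact (Real.sqrt_pos.2 (hvec_pos σ hs t ht x hx)).ne'
      exact hden.smul (hvec_cont σ).continuousOn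
    refine hcg.congr ?_
    rintro ⟨t, x⟩ ⟨ht, hx⟩
    exact hmap_val σ (t, x) (hvec_pos σ hs t ht x hx)
  · intro x hx
    apply Subtype.ext
    rw [hmap_val σ (0, x) (hvec_pos σ hs 0 ⟨le_rfl, zero_le_one⟩ x hx), hvec_dot σ hs]
    simp [hvec]
  · show 0 ≤ σ * P.1.2.2
    rw [hP1]
    nlinarith [hs]
  · intro x hx
    apply Subtype.ext
    rw [hmap_val σ (1, x) (hvec_pos σ hs 1 ⟨zero_le_one, le_rfl⟩ x hx), hvec_dot σ hs, hP1]
    simp [hvec]
  · intro t ht x hx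
    have hpos := hvec_pos σ hs t ht x hx
    show 0 ≤ σ * (hmap σ (t, x)).1.2.2
    rw [hmap_val σ (t, x) hpos]
    have hx' : 0 ≤ σ * x.1.2.2 := hx
    simp only [Prod.smul_snd, smul_eq_mul]
    have h1 : 0 ≤ σ * (hvec σ (t, x)).2.2 := by
      simp only [hvec]
      have h1 : 0 ≤ 1 - t := by linarith [ht.2]
      have h2 : 0 ≤ t := ht.1
      have := mul_nonneg h1 hx'
      nlinarith [hs]
    have h2 : 0 ≤ 1 / √(dot (hvec σ (t, x)) (hvec σ (t, x))) := by positivity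
    calc (0:ℝ) ≤ (1 / √(dot (hvec σ (t, x)) (hvec σ (t, x)))) * (σ * (hvec σ (t, x)).2.2) := mul_nonneg h2 h1
      _ = _ := by ring


end J_hemi_fill

alias hemi_fill := J_hemi_fill.hemi_fill

end Pool.Agent.Helper10.UC
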