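import Mathlib
import Pool.Agent.Helper10.UC.Base

open Set Filter Topology
open scoped LinearAlgebra.Projectivization

noncomputable section

namespace Pool.Agent.Helper10.UC

namespace J_hemi_poly


-- TARGET: prove this

theorem hemi_poly (σ : ℝ) (hσ : σ = 1 ∨ σ = -1) {m : ℕ} (hm : 3 ≤ m) (k : ℕ) :
    sa (Real.cos (2 * Real.pi * k / m), Real.sin (2 * Real.pi * k / m), 0)
      (Real.cos (2 * Real.pi * (k + 1 : ℕ) / m), Real.sin (2 * Real.pi * (k + 1 : ℕ) / m), 0)
      (0, 0, σ) = σ * (Real.pi / m) := by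
  have hm0 : (0 : ℝ) < m := by
    have : 0 < m := by omega
    exact_mod_cast this
  have hm3 : (3 : ℝ) ≤ m := by exact_mod_cast hm
  set φ : ℝ := Real.pi / m with hφ
  have hπ := Real.pi_pos
  have hφ0 : 0 < φ := by positivity
  have hφ1 : φ < Real.pi / 2 := by
    rw [hφ, div_lt_div_iff₀ hm0 (by norm_num)]
    nlinarith
  have hcos : 0 < Real.cos φ := Real.cos_pos_of_mem_Ioo ⟨by linarith, hφ1⟩
  set α : ℝ := 2 * Real.pi * k / m with hα
  have hβ : 2 * Real.pi * ((k + 1 : ℕ) : ℝ) / m = α + 2 * φ := by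
    rw [hα, hφ]
    push_cast
    ring
  rw [hβ]
  have hcs : Real.cos (σ * φ) = Real.cos φ := by
    rcases hσ with rfl | rfl
    · rw [one_mul]
    · rw [neg_one_mul, Real.cos_neg]
  have hsn : Real.sin (σ * φ) = σ * Real.sin φ := by
    rcases hσ with rfl | rfl
    · rw [one_mul, one_mul]
    · rw [neg_one_mul, Real.sin_neg, neg_one_mul]
  have e1 : Real.cos α * Real.cos (α + 2 * φ) + Real.sin α * Real.sin (α + 2 * φ)
      = Real.cos (2 * φ) := by
    rw [← Real.cos_sub, show α - (α + 2 * φ) = -(2 * φ) by ring, Real.cos_neg]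
  have e2 : Real.cos α * Real.sin (α + 2 * φ) - Real.sin α * Real.cos (α + 2 * φ)
      = Real.sin (2 * φ) := by
    have := Real.sin_sub (α + 2 * φ) α
    rw [show α + 2 * φ - α = 2 * φ by ring] at this
    linarith
  have hTT : TT (Real.cos α, Real.sin α, 0) (Real.cos (α + 2 * φ), Real.sin (α + 2 * φ), 0)
      (0, 0, σ) = ((2 * Real.cos φ : ℝ) : ℂ) *
        (Complex.cos ((σ * φ : ℝ) : ℂ) + Complex.sin ((σ * φ : ℝ) : ℂ) * Complex.I) := by
    rw [← Complex.ofReal_cos, ← Complex.ofReal_sin, hcs, hsn]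
    apply Complex.ext
    · simp only [TT, dot, Complex.mul_re, Complex.add_re, Complex.ofReal_re, Complex.ofReal_im,
        Complex.I_re, Complex.I_im, Complex.add_im, Complex.mul_im]
      rw [Real.cos_two_mul] at e1
      linarith
    · simp only [TT, dot, crs, Complex.mul_re, Complex.add_re, Complex.ofReal_re,
        Complex.ofReal_im, Complex.I_re, Complex.I_im, Complex.add_im, Complex.mul_im]
      rw [Real.sin_two_mul] at e2
      linear_combination σ * e2
  unfold sa
  rw [hTT]
  apply Complex.arg_mul_cos_add_sin_mul_I (by positivity)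
  rcases hσ with rfl | rfl
  · constructor <;> linarith
  · constructor <;> linarith


end J_hemi_poly

alias hemi_poly := J_hemi_poly.hemi_poly

end Pool.Agent.Helper10.UC
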