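import Mathlib
import Pool.Agent.Helper10.UC.Base
import Pool.Agent.Helper10.UC.J_sa_add

open Set Filter Topology
open scoped LinearAlgebra.Projectivization

noncomputable section

namespace Pool.Agent.Helper10.UC

namespace J_hemi_prim


-- TARGET: prove this

theorem hemi_dist {p q : V3} (h : dist p q < 1 / 100) :
    |p.1 - q.1| < 1 / 100 ∧ |p.2.1 - q.2.1| < 1 / 100 ∧ |p.2.2 - q.2.2| < 1 / 100 := by
  rw [Prod.dist_eq, Prod.dist_eq, max_lt_iff, max_lt_iff, Real.dist_eq, Real.dist_eq,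
    Real.dist_eq] at h
  exact h

theorem hemi_dot {p q : V3} (hp : dot p p = 1) (hq : dot q q = 1) (h : dist p q < 1 / 100) :
    9 / 10 < dot p q := by
  obtain ⟨h1, h2, h3⟩ := hemi_dist h
  have e : dot p q = 1 - ((p.1 - q.1) ^ 2 + (p.2.1 - q.2.1) ^ 2 + (p.2.2 - q.2.2) ^ 2) / 2 := by
    unfold dot at *
    linear_combination (1 / 2 : ℝ) * hp + (1 / 2 : ℝ) * hq
  have s1 : (p.1 - q.1) ^ 2 ≤ 1 / 10000 := by
    have := sq_le_sq' (abs_lt.1 h1).1.le (abs_lt.1 h1).2.le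
    norm_num at this ⊢; linarith
  have s2 : (p.2.1 - q.2.1) ^ 2 ≤ 1 / 10000 := by
    have := sq_le_sq' (abs_lt.1 h2).1.le (abs_lt.1 h2).2.le
    norm_num at this ⊢; linarith
  have s3 : (p.2.2 - q.2.2) ^ 2 ≤ 1 / 10000 := by
    have := sq_le_sq' (abs_lt.1 h3).1.le (abs_lt.1 h3).2.le
    norm_num at this ⊢; linarith
  rw [e]
  linarith

theorem hemi_comp {p : V3} (hp : dot p p = 1) : |p.1| ≤ 1 ∧ |p.2.1| ≤ 1 ∧ |p.2.2| ≤ 1 := by
  unfold dot at hp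
  refine ⟨?_, ?_, ?_⟩ <;> rw [← sq_le_one_iff_abs_le_one] <;>
    nlinarith [sq_nonneg p.1, sq_nonneg p.2.1, sq_nonneg p.2.2]

theorem hemi_mul {a b : ℝ} (ha : |a| ≤ 1) (hb : |b| < 1 / 100) : |a * b| ≤ 1 / 100 := by
  rw [abs_mul]
  nlinarith [abs_nonneg a, abs_nonneg b]

theorem hemi_mul2 {a b c : ℝ} (ha : |a| ≤ 1) (hb : |b| < 1 / 100) (hc : |c| < 1 / 100) :
    |a * (b * c)| ≤ 1 / 100 := by
  apply (hemi_mul ha _)
  rw [abs_mul]
  nlinarith [abs_nonneg c, abs_nonneg b]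

theorem hemi_Gd3 {p q r : V3} (hp : dot p p = 1) (hq : dot q q = 1) (hr : dot r r = 1)
    (hpq : dist p q < 1 / 100) (hqr : dist q r < 1 / 100) (hpr : dist p r < 1 / 100) :
    Gd p q r := by
  unfold Gd TT
  have d1 := hemi_dot hp hq hpq
  have d2 := hemi_dot hq hr hqr
  have d3 := hemi_dot hr hp (by rw [dist_comm]; exact hpr)
  obtain ⟨a1, a2, a3⟩ := hemi_comp hp
  obtain ⟨b1, b2, b3⟩ := hemi_dist hpq
  obtain ⟨c1, c2, c3⟩ := hemi_dist hpr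
  have e : dot p (crs q r) =
      p.1 * ((p.2.1 - q.2.1) * (p.2.2 - r.2.2)) - p.1 * ((p.2.2 - q.2.2) * (p.2.1 - r.2.1)) +
      (p.2.1 * ((p.2.2 - q.2.2) * (p.1 - r.1)) - p.2.1 * ((p.1 - q.1) * (p.2.2 - r.2.2))) +
      (p.2.2 * ((p.1 - q.1) * (p.2.1 - r.2.1)) - p.2.2 * ((p.2.1 - q.2.1) * (p.1 - r.1))) := by
    unfold dot crs
    ring
  show |dot p (crs q r)| < 1 + dot p q + dot q r + dot r p
  rw [e]
  have m1 := abs_le.1 (hemi_mul2 a1 b2 c3)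
  have m2 := abs_le.1 (hemi_mul2 a1 b3 c2)
  have m3 := abs_le.1 (hemi_mul2 a2 b3 c1)
  have m4 := abs_le.1 (hemi_mul2 a2 b1 c3)
  have m5 := abs_le.1 (hemi_mul2 a3 b1 c2)
  have m6 := abs_le.1 (hemi_mul2 a3 b2 c1)
  rw [abs_lt]
  constructor <;> linarith [m1.1, m1.2, m2.1, m2.2, m3.1, m3.2, m4.1, m4.2, m5.1, m5.2, m6.1, m6.2]

theorem hemi_GdP (σ : ℝ) (hσ : σ = 1 ∨ σ = -1) {p q : V3} (hp : dot p p = 1) (hq : dot q q = 1)
    (hpq : dist p q < 1 / 100) (h1 : 0 ≤ σ * p.2.2) (h2 : 0 ≤ σ * q.2.2) :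
    Gd p q (0, 0, σ) := by
  unfold Gd TT
  have d1 := hemi_dot hp hq hpq
  obtain ⟨a1, a2, a3⟩ := hemi_comp hp
  obtain ⟨b1, b2, b3⟩ := hemi_dist hpq
  have e : dot p (crs q (0, 0, σ)) = σ * (p.2.1 * (p.1 - q.1) - p.1 * (p.2.1 - q.2.1)) := by
    unfold dot crs
    ring
  have e2 : dot q (0, 0, σ) = σ * q.2.2 := by unfold dot; ring
  have e3 : dot ((0, 0, σ) : V3) p = σ * p.2.2 := by unfold dot; ring
  show |dot p (crs q (0, 0, σ))| < 1 + dot p q + dot q (0, 0, σ) + dot ((0, 0, σ) : V3) p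
  rw [e, e2, e3]
  have m1 := abs_le.1 (hemi_mul a2 b1)
  have m2 := abs_le.1 (hemi_mul a1 b2)
  rcases hσ with rfl | rfl
  · rw [abs_lt]
    constructor <;> linarith [m1.1, m1.2, m2.1, m2.2]
  · rw [abs_lt]
    constructor <;> linarith [m1.1, m1.2, m2.1, m2.2]

theorem hemi_prim (σ : ℝ) (hσ : σ = 1 ∨ σ = -1) : ∃ δ > 0, ∀ p q r : V3,
    dot p p = 1 → dot q q = 1 → dot r r = 1 → dist p q < δ → dist q r < δ → dist p r < δ →
    0 ≤ σ * p.2.2 → 0 ≤ σ * q.2.2 → 0 ≤ σ * r.2.2 →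
    sa p q r = sa p q (0, 0, σ) + sa q r (0, 0, σ) - sa p r (0, 0, σ) := by
  refine ⟨1 / 100, by norm_num, ?_⟩
  intro p q r hp hq hr hpq hqr hpr h1 h2 h3
  have hP : dot ((0, 0, σ) : V3) (0, 0, σ) = 1 := by
    unfold dot
    rcases hσ with rfl | rfl <;> norm_num
  have key := sa_add hp hq hr hP (hemi_Gd3 hp hq hr hpq hqr hpr)
    (hemi_GdP σ hσ hp hr hpr h1 h3) (hemi_GdP σ hσ hp hq hpq h1 h2)
    (hemi_GdP σ hσ hq hr hqr h2 h3)
    (by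
      have : dot q (0, 0, σ) = σ * q.2.2 := by unfold dot; ring
      rw [this]; linarith)
    (by have := hemi_dot hp hr hpr; linarith)
  linarith


end J_hemi_prim

alias hemi_prim := J_hemi_prim.hemi_prim

end Pool.Agent.Helper10.UC
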