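import Mathlib
import Pool.Agent.Helper10.UC.Base
import Pool.Agent.Helper10.UC.J_hemi_fill
import Pool.Agent.Helper10.UC.J_hemi_prim
import Pool.Agent.Helper10.UC.J_hemi_poly

open Set Filter Topology
open scoped LinearAlgebra.Projectivization

noncomputable section

namespace Pool.Agent.Helper10.UC

namespace J_sphere_cycle


-- TARGET: prove this

theorem sc_bdl1 {X : Type*} (x : X) : bdl [x] = Finsupp.single [] 1 := by
  simp [bdl]

theorem sc_cone_single {X : Type*} (x : X) (l : List X) (a : ℝ) :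
    cone x (Finsupp.single l a) = Finsupp.single (x :: l) a := by
  simp [cone, Finsupp.lmapDomain_apply, Finsupp.mapDomain_single]

theorem sc_bdl2 {X : Type*} (x y : X) :
    bdl [x, y] = Finsupp.single [y] 1 - Finsupp.single [x] 1 := by
  rw [bdl, sc_bdl1, sc_cone_single]

theorem sc_bdl3 {X : Type*} (x y z : X) :
    bdl [x, y, z] = Finsupp.single [y, z] 1 - (Finsupp.single [x, z] 1 - Finsupp.single [x, y] 1) := by
  rw [bdl, sc_bdl2, map_sub, sc_cone_single, sc_cone_single]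

theorem sc_pair_single {X : Type*} (z : List X → ℝ) (l : List X) : pair z (Finsupp.single l 1) = z l := by
  simp [pair]

/-- the primitive -/
def sc_h (σ : ℝ) : List S2 → ℝ
  | [p, q] => sa p.1 q.1 (0, 0, σ)
  | _ => 0

theorem sc_pair (σ δ : ℝ) (hδ : ∀ p q r : V3,
    dot p p = 1 → dot q q = 1 → dot r r = 1 → dist p q < δ → dist q r < δ → dist p r < δ →
    0 ≤ σ * p.2.2 → 0 ≤ σ * q.2.2 → 0 ≤ σ * r.2.2 →
    sa p q r = sa p q (0, 0, σ) + sa q r (0, 0, σ) - sa p r (0, 0, σ))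
    (c : Ch S2) (hc : c ∈ FC 3 {p : S2 | 0 ≤ σ * p.1.2.2} δ) :
    pair (coch (fun p q r : S2 => sa p.1 q.1 r.1)) c = pair (sc_h σ) (bd c) := by
  have h1 : pair (sc_h σ) (bd c) = c.sum (fun l a => a • pair (sc_h σ) (bdl l)) := by
    unfold bd
    rw [Finsupp.linearCombination_apply, map_finsuppSum]
    simp only [map_smul]
  rw [h1]
  unfold pair
  rw [Finsupp.linearCombination_apply]
  refine Finsupp.sum_congr fun l hl => ?_
  congr 1
  have hl' := (Finsupp.mem_supported ℝ c).1 hc hl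
  obtain ⟨hlen, hU, hd⟩ := hl'
  obtain ⟨p, q, r, rfl⟩ := List.length_eq_three.1 hlen
  have hh := hδ p.1 q.1 r.1 p.2 q.2 r.2 (hd p (by simp) q (by simp)) (hd q (by simp) r (by simp))
    (hd p (by simp) r (by simp)) (hU p (by simp)) (hU q (by simp)) (hU r (by simp))
  show sa p.1 q.1 r.1 = pair (sc_h σ) (bdl [p, q, r])
  rw [sc_bdl3, map_sub, map_sub, sc_pair_single, sc_pair_single, sc_pair_single]
  show _ = sa q.1 r.1 (0, 0, σ) - (sa p.1 r.1 (0, 0, σ) - sa p.1 q.1 (0, 0, σ))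
  rw [hh]; ring

/-- the vertices of the polygon on the equator -/
def sc_x (m k : ℕ) : S2 :=
  ⟨(Real.cos (2 * Real.pi * k / m), Real.sin (2 * Real.pi * k / m), 0), by
    simp only [dot]
    nlinarith [Real.sin_sq_add_cos_sq (2 * Real.pi * k / m)]⟩

theorem sc_dist (m k : ℕ) (hm : 0 < m) : dist (sc_x m k) (sc_x m (k + 1)) ≤ 2 * Real.pi / m := by
  have hm' : (0 : ℝ) < m := by exact_mod_cast hm
  have hpi := Real.pi_pos
  have h0 : 2 * Real.pi * (k : ℝ) / m - 2 * Real.pi * ((k + 1 : ℕ) : ℝ) / m = - (2 * Real.pi / m) := by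
    push_cast
    field_simp
    ring
  have h1 : |2 * Real.pi * (k : ℝ) / m - 2 * Real.pi * ((k + 1 : ℕ) : ℝ) / m| = 2 * Real.pi / m := by
    rw [h0, abs_neg, abs_of_pos (by positivity)]
  rw [Subtype.dist_eq, Prod.dist_eq, Prod.dist_eq]
  refine max_le ?_ (max_le ?_ ?_)
  · rw [Real.dist_eq]
    exact (Real.abs_cos_sub_cos_le _ _).trans h1.le
  · rw [Real.dist_eq]
    exact (Real.abs_sin_sub_sin_le _ _).trans h1.le
  · simp only [sc_x, dist_self]
    positivity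

def sc_e (m : ℕ) : Ch S2 := ∑ k ∈ Finset.range m, Finsupp.single [sc_x m k, sc_x m (k + 1)] 1

theorem sc_bde (m : ℕ) (hm : 0 < m) : bd (sc_e m) = 0 := by
  have hm' : (m : ℝ) ≠ 0 := by positivity
  unfold sc_e
  rw [map_sum]
  have h1 : ∀ k ∈ Finset.range m, bd (Finsupp.single [sc_x m k, sc_x m (k + 1)] (1 : ℝ)) =
      Finsupp.single [sc_x m (k + 1)] 1 - Finsupp.single [sc_x m k] 1 := by
    intro k _
    rw [bd_single, one_smul, sc_bdl2]
  rw [Finset.sum_congr rfl h1, Finset.sum_range_sub (fun k => Finsupp.single [sc_x m k] (1 : ℝ))]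
  have h2 : sc_x m m = sc_x m 0 := by
    apply Subtype.ext
    simp only [sc_x]
    rw [mul_div_assoc, div_self hm']
    simp
  rw [h2, sub_self]

theorem sc_mem (m : ℕ) (hm : 0 < m) (σ μ' : ℝ) (hμ : 2 * Real.pi / m < μ') :
    sc_e m ∈ FC 2 {p : S2 | 0 ≤ σ * p.1.2.2} μ' := by
  unfold sc_e
  refine Submodule.sum_mem _ fun k _ => ?_
  refine Finsupp.single_mem_supported ℝ _ ?_
  have hpos : 0 < μ' := lt_of_le_of_lt (by positivity) hμ
  have hd := lt_of_le_of_lt (sc_dist m k hm) hμ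
  refine ⟨rfl, ?_, ?_⟩
  · intro x hx
    simp only [List.mem_cons, List.not_mem_nil, or_false] at hx
    rcases hx with rfl | rfl <;> simp [sc_x]
  · intro x hx y hy
    simp only [List.mem_cons, List.not_mem_nil, or_false] at hx hy
    rcases hx with rfl | rfl <;> rcases hy with rfl | rfl
    · rw [dist_self]; exact hpos
    · exact hd
    · rw [dist_comm]; exact hd
    · rw [dist_self]; exact hpos

theorem sc_val (m : ℕ) (hm : 3 ≤ m) (σ : ℝ) (hσ : σ = 1 ∨ σ = -1) :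
    pair (sc_h σ) (sc_e m) = σ * Real.pi := by
  have hm' : (m : ℝ) ≠ 0 := by positivity
  unfold sc_e
  rw [map_sum]
  have h1 : ∀ k ∈ Finset.range m, pair (sc_h σ) (Finsupp.single [sc_x m k, sc_x m (k + 1)] (1 : ℝ)) =
      σ * (Real.pi / m) := by
    intro k _
    rw [sc_pair_single]
    exact hemi_poly σ hσ hm k
  rw [Finset.sum_congr rfl h1, Finset.sum_const, Finset.card_range, nsmul_eq_mul]
  field_simp

theorem sc_mono {n : ℕ} {U U' : Set S2} {μ μ' : ℝ} (hU : U ⊆ U') (hμ : μ ≤ μ') {c : Ch S2}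
    (hc : c ∈ FC n U μ) : c ∈ FC n U' μ' := by
  refine Finsupp.supported_mono ?_ hc
  rintro l ⟨h1, h2, h3⟩
  exact ⟨h1, fun x hx => hU (h2 x hx), fun x hx y hy => (h3 x hx y hy).trans_le hμ⟩

theorem sphere_cycle {μ : ℝ} (hμ : 0 < μ) : ∃ c ∈ FC 3 (univ : Set S2) μ, bd c = 0 ∧
    pair (coch (fun p q r : S2 => sa p.1 q.1 r.1)) c = 2 * Real.pi := by
  obtain ⟨δ1, hδ1, h1⟩ := hemi_prim 1 (Or.inl rfl)
  obtain ⟨δ2, hδ2, h2⟩ := hemi_prim (-1) (Or.inr rfl)
  obtain ⟨ν, hν, hνμ, hν1, hν2⟩ : ∃ ν > 0, ν ≤ μ ∧ ν ≤ δ1 ∧ ν ≤ δ2 :=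
    ⟨min μ (min δ1 δ2), lt_min hμ (lt_min hδ1 hδ2), min_le_left _ _,
      (min_le_right _ _).trans (min_le_left _ _), (min_le_right _ _).trans (min_le_right _ _)⟩
  obtain ⟨μ1, hμ1, hf1⟩ := hemi_fill 1 (Or.inl rfl) hν
  obtain ⟨μ2, hμ2, hf2⟩ := hemi_fill (-1) (Or.inr rfl) hν
  obtain ⟨m, hm3, hm1, hm2⟩ : ∃ m : ℕ, 3 ≤ m ∧ 2 * Real.pi / m < μ1 ∧ 2 * Real.pi / m < μ2 := by
    obtain ⟨m, hm⟩ := exists_nat_gt (max 3 (max (2 * Real.pi / μ1) (2 * Real.pi / μ2)))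
    have e0 : (3 : ℝ) < m := lt_of_le_of_lt (le_max_left _ _) hm
    have e1 : 2 * Real.pi / μ1 < m :=
      lt_of_le_of_lt ((le_max_left _ _).trans (le_max_right _ _)) hm
    have e2 : 2 * Real.pi / μ2 < m :=
      lt_of_le_of_lt ((le_max_right _ _).trans (le_max_right _ _)) hm
    have e3 : (0 : ℝ) < m := by linarith
    refine ⟨m, by exact_mod_cast e0.le, ?_, ?_⟩
    · rw [div_lt_iff₀ e3]
      rw [div_lt_iff₀ hμ1] at e1
      linarith
    · rw [div_lt_iff₀ e3]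
      rw [div_lt_iff₀ hμ2] at e2
      linarith
  have hm0 : 0 < m := by omega
  obtain ⟨c1, hc1, hb1⟩ := hf1 (sc_e m) (sc_mem m hm0 1 μ1 hm1) (sc_bde m hm0)
  obtain ⟨c2, hc2, hb2⟩ := hf2 (sc_e m) (sc_mem m hm0 (-1) μ2 hm2) (sc_bde m hm0)
  refine ⟨c1 - c2, ?_, ?_, ?_⟩
  · exact Submodule.sub_mem _ (sc_mono (subset_univ _) hνμ hc1) (sc_mono (subset_univ _) hνμ hc2)
  · rw [map_sub, hb1, hb2, sub_self]
  · rw [map_sub, sc_pair 1 δ1 h1 c1 (sc_mono subset_rfl hν1 hc1),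
      sc_pair (-1) δ2 h2 c2 (sc_mono subset_rfl hν2 hc2), hb1, hb2,
      sc_val m hm3 1 (Or.inl rfl), sc_val m hm3 (-1) (Or.inr rfl)]
    ring


end J_sphere_cycle

alias sphere_cycle := J_sphere_cycle.sphere_cycle

end Pool.Agent.Helper10.UC
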