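import Mathlib
import Pool.Agent.Helper10.UC.Base

open Set Filter Topology
open scoped LinearAlgebra.Projectivization

noncomputable section

namespace Pool.Agent.Helper10.UC

namespace J_unif


-- TARGET: prove this

theorem unif_compactS2 : CompactSpace S2 := by
  have h : IsCompact {p : V3 | dot p p = 1} := by
    apply Metric.isCompact_of_isClosed_isBounded
    · have hc : Continuous (fun p : V3 => dot p p) :=
        continuous_dot.comp (continuous_id.prodMk continuous_id)
      exact isClosed_eq hc continuous_const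
    · apply (Metric.isBounded_closedBall (x := (0 : V3)) (r := 1)).subset
      rintro ⟨a, b, d⟩ hp
      simp only [mem_setOf_eq, dot] at hp
      rw [mem_closedBall_zero_iff, Prod.norm_def, Prod.norm_def]
      simp only [Real.norm_eq_abs]
      refine max_le ?_ (max_le ?_ ?_) <;> rw [abs_le] <;> constructor <;>
        nlinarith [mul_self_nonneg a, mul_self_nonneg b, mul_self_nonneg d]
  exact isCompact_iff_compactSpace.mp h

theorem unif_compact {c c₂ : ℝ} (hc : c₂ < c) :
    IsCompact {q : DD c | dot q.1.1.1 q.1.2.1 ≤ c₂} := by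
  haveI := unif_compactS2
  rw [Subtype.isCompact_iff]
  have h1 : ((Subtype.val : DD c → S2 × S2) '' {q : DD c | dot q.1.1.1 q.1.2.1 ≤ c₂}) =
      {q : S2 × S2 | dot q.1.1 q.2.1 ≤ c₂} := by
    ext q
    constructor
    · rintro ⟨q', h, rfl⟩
      exact h
    · intro h
      exact ⟨⟨q, lt_of_le_of_lt h hc⟩, h, rfl⟩
  rw [h1]
  apply IsClosed.isCompact
  have hcont : Continuous (fun q : S2 × S2 => dot q.1.1 q.2.1) :=
    continuous_dot.comp ((continuous_subtype_val.comp continuous_fst).prodMk
      (continuous_subtype_val.comp continuous_snd))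
  exact isClosed_le hcont continuous_const

theorem unif {N : Type*} [MetricSpace N] {c c₂ : ℝ} (hc : c₂ < c) {F : DD c → N}
    (hF : IsOpenEmbedding F) {δ : ℝ} (hδ : 0 < δ) :
    ∃ μ > 0, ∀ q : DD c, dot q.1.1.1 q.1.2.1 ≤ c₂ → ∀ y : N, dist (F q) y < μ →
      ∃ q' : DD c, F q' = y ∧ dist q.1 q'.1 < δ := by
  have hK := (unif_compact hc).image hF.continuous
  obtain ⟨μ, hμ, h⟩ := lebesgue_number_lemma_of_metric (c := fun i : DD c =>
    F '' {q' : DD c | dist i.1 q'.1 < δ / 2}) hK
    (fun i => hF.isOpenMap _ (by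
      have : Continuous (fun q' : DD c => dist i.1 q'.1) :=
        continuous_const.dist continuous_subtype_val
      exact isOpen_lt this continuous_const))
    (by
      rintro x ⟨q, hq, rfl⟩
      exact mem_iUnion.mpr ⟨q, q, by simpa using hδ, rfl⟩)
  refine ⟨μ, hμ, fun q hq y hy => ?_⟩
  obtain ⟨i, hi⟩ := h (F q) ⟨q, hq, rfl⟩
  obtain ⟨q', hq', rfl⟩ := hi (show y ∈ Metric.ball (F q) μ by
    rw [Metric.mem_ball, dist_comm]; exact hy)
  obtain ⟨q'', hq'', h2⟩ := hi (Metric.mem_ball_self hμ)
  have h3 := hF.injective h2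
  subst h3
  refine ⟨q', rfl, ?_⟩
  simp only [mem_setOf_eq] at hq' hq''
  calc dist q''.1 q'.1 ≤ dist q''.1 i.1 + dist i.1 q'.1 := dist_triangle _ _ _
    _ < δ := by rw [dist_comm q''.1 i.1]; linarith


end J_unif

alias unif := J_unif.unif

end Pool.Agent.Helper10.UC
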