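import Mathlib
import Pool.Agent.Helper10.UC.Base
import Pool.Agent.Helper10.UC.J_prism_sa
import Pool.Agent.Helper10.UC.J_sa_cocycle
import Pool.Agent.Helper10.UC.J_sphere_cycle
import Pool.Agent.Helper10.UC.J_unif

open Set Filter Topology
open scoped LinearAlgebra.Projectivization

noncomputable section

namespace Pool.Agent.Helper10.UC

namespace J_thom


-- TARGET: prove this

theorem tm_compactS2 : CompactSpace S2 := by
  have h : IsCompact {p : V3 | dot p p = 1} := by
    refine Metric.isCompact_of_isClosed_isBounded ?_ ?_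
    · exact isClosed_eq (continuous_dot.comp (continuous_id.prodMk continuous_id))
        continuous_const
    · refine (Metric.isBounded_closedBall (x := (0 : V3)) (r := 1)).subset ?_
      rintro ⟨x, y, w⟩ hp
      have hp' : x * x + y * y + w * w = 1 := hp
      have hx := mul_self_nonneg x
      have hy := mul_self_nonneg y
      have hw := mul_self_nonneg w
      rw [mem_closedBall_zero_iff, Prod.norm_def, Prod.norm_def]
      simp only [Real.norm_eq_abs, max_le_iff]
      refine ⟨?_, ?_, ?_⟩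
      · exact abs_le.2 ⟨by nlinarith, by nlinarith⟩
      · exact abs_le.2 ⟨by nlinarith, by nlinarith⟩
      · exact abs_le.2 ⟨by nlinarith, by nlinarith⟩
  exact isCompact_iff_compactSpace.1 h

theorem tm_pair_single {X : Type*} (z : List X → ℝ) (l : List X) (a : ℝ) :
    pair z (Finsupp.single l a) = a * z l := by
  simp [pair, Finsupp.linearCombination_single]

theorem tm_pair_cone {X : Type*} (z : List X → ℝ) (x : X) (c : Ch X) :
    pair z (cone x c) = pair (fun l => z (x :: l)) c := by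
  induction c using Finsupp.induction_linear with
  | zero => simp
  | add f g hf hg => simp only [map_add, hf, hg]
  | single l a =>
    have h : cone x (Finsupp.single l a) = Finsupp.single (x :: l) a := by
      simp [cone, Finsupp.lmapDomain_apply, Finsupp.mapDomain_single]
    rw [h, tm_pair_single, tm_pair_single]

theorem tm_pair_push {X Y : Type*} (z : List Y → ℝ) (u : X → Y) (c : Ch X) :
    pair z (push u c) = pair (fun l => z (l.map u)) c := by
  induction c using Finsupp.induction_linear with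
  | zero => simp
  | add f g hf hg => simp only [map_add, hf, hg]
  | single l a =>
    have h : push u (Finsupp.single l a) = Finsupp.single (l.map u) a := by
      simp [push, Finsupp.lmapDomain_apply, Finsupp.mapDomain_single]
    rw [h, tm_pair_single, tm_pair_single]

theorem tm_pair_bd {X : Type*} (z : List X → ℝ) (c : Ch X) :
    pair z (bd c) = pair (fun l => pair z (bdl l)) c := by
  induction c using Finsupp.induction_linear with
  | zero => simp
  | add f g hf hg => simp only [map_add, hf, hg]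
  | single l a => rw [bd_single, map_smul, tm_pair_single, smul_eq_mul]

theorem tm_pair_congr {X : Type*} {z z' : List X → ℝ} {S : Set (List X)} {c : Ch X}
    (hc : c ∈ Finsupp.supported ℝ ℝ S) (h : ∀ l ∈ S, z l = z' l) : pair z c = pair z' c := by
  unfold pair
  rw [Finsupp.linearCombination_apply, Finsupp.linearCombination_apply]
  refine Finsupp.sum_congr (fun l hl => ?_)
  rw [h l ((Finsupp.mem_supported ℝ c).1 hc hl)]

theorem tm_pair_zero {X : Type*} (c : Ch X) : pair (fun _ => (0 : ℝ)) c = 0 := by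
  induction c using Finsupp.induction_linear with
  | zero => simp
  | add f g hf hg => simp only [map_add, hf, hg, add_zero]
  | single l a => rw [tm_pair_single, mul_zero]

theorem tm_pair_two {X : Type*} (z : List X → ℝ) (c : Ch X) :
    pair (fun l => 2 * z l) c = 2 * pair z c := by
  induction c using Finsupp.induction_linear with
  | zero => simp
  | add f g hf hg => simp only [map_add, hf, hg]; ring
  | single l a => rw [tm_pair_single, tm_pair_single]; ring

theorem tm_bdl_cons {X : Type*} (z : List X → ℝ) (x : X) (l : List X) :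
    pair z (bdl (x :: l)) = z l - pair (fun l => z (x :: l)) (bdl l) := by
  rw [bdl, map_sub, tm_pair_single, one_mul, tm_pair_cone]

theorem tm_bdl4 {X : Type*} (z : List X → ℝ) (x0 x1 x2 x3 : X) :
    pair z (bdl [x0, x1, x2, x3]) = z [x1, x2, x3] - z [x0, x2, x3] + z [x0, x1, x3]
      - z [x0, x1, x2] := by
  rw [tm_bdl_cons, tm_bdl_cons, tm_bdl_cons, tm_bdl_cons, bdl, map_zero]
  ring

def tm_d (q : S2 × S2) : ℝ := dot q.1.1 q.2.1

def tm_bt (c₁ : ℝ) (q q' : S2 × S2) : ℝ :=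
  if c₁ < tm_d q ∧ c₁ < tm_d q' then be q.1.1 q'.1.1 q.2.1 q'.2.1 else 0

def tm_zz (c₁ : ℝ) (q0 q1 q2 : S2 × S2) : ℝ :=
  sa q0.1.1 q1.1.1 q2.1.1 - sa q0.2.1 q1.2.1 q2.2.1 -
    (tm_bt c₁ q1 q2 - tm_bt c₁ q0 q2 + tm_bt c₁ q0 q1)

open Classical in
def tm_z3 {N : Type*} (c₁ : ℝ) (U : Set N) (g : N → S2 × S2) (x0 x1 x2 : N) : ℝ :=
  if x0 ∈ U ∧ x1 ∈ U ∧ x2 ∈ U then tm_zz c₁ (g x0) (g x1) (g x2) else 0

theorem tm_d_cont : Continuous tm_d := by
  have h : Continuous (fun q : S2 × S2 => ((q.1.1 : V3), (q.2.1 : V3))) := by fun_prop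
  exact continuous_dot.comp h

theorem tm_zz_near {c₁ δ : ℝ}
    (hprism : ∀ a b : Fin 3 → V3,
    (∀ i, dot (a i) (a i) = 1) → (∀ i, dot (b i) (b i) = 1) →
    (∀ i j, dist (a i) (a j) < δ) → (∀ i j, dist (b i) (b j) < δ) →
    (∀ i, c₁ ≤ dot (a i) (b i)) →
    sa (a 0) (a 1) (a 2) - sa (b 0) (b 1) (b 2) =
      be (a 1) (a 2) (b 1) (b 2) - be (a 0) (a 2) (b 0) (b 2) + be (a 0) (a 1) (b 0) (b 1))
    (q : Fin 3 → S2 × S2) (hq : ∀ i j, dist (q i) (q j) < δ) (hd : ∀ i, c₁ < tm_d (q i)) :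
    tm_zz c₁ (q 0) (q 1) (q 2) = 0 := by
  have h1 := hprism (fun i => (q i).1.1) (fun i => (q i).2.1) (fun i => (q i).1.2)
    (fun i => (q i).2.2)
    (fun i j => lt_of_le_of_lt (le_max_left (dist (q i).1 (q j).1) (dist (q i).2 (q j).2)) (hq i j))
    (fun i j => lt_of_le_of_lt (le_max_right (dist (q i).1 (q j).1) (dist (q i).2 (q j).2)) (hq i j))
    (fun i => (hd i).le)
  unfold tm_zz tm_bt
  rw [if_pos ⟨hd 1, hd 2⟩, if_pos ⟨hd 0, hd 2⟩, if_pos ⟨hd 0, hd 1⟩]
  beta_reduce at h1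
  linarith

theorem tm_zz_cocycle {c₁ δ : ℝ}
    (hcoc : ∀ p : Fin 4 → V3, (∀ i, dot (p i) (p i) = 1) →
    (∀ i j, dist (p i) (p j) < δ) →
    sa (p 0) (p 1) (p 2) + sa (p 0) (p 2) (p 3) = sa (p 0) (p 1) (p 3) + sa (p 1) (p 2) (p 3))
    (q : Fin 4 → S2 × S2) (hq : ∀ i j, dist (q i) (q j) < δ) :
    tm_zz c₁ (q 1) (q 2) (q 3) - tm_zz c₁ (q 0) (q 2) (q 3) + tm_zz c₁ (q 0) (q 1) (q 3)
      - tm_zz c₁ (q 0) (q 1) (q 2) = 0 := by
  have h1 := hcoc (fun i => (q i).1.1) (fun i => (q i).1.2)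
    (fun i j => lt_of_le_of_lt (le_max_left (dist (q i).1 (q j).1) (dist (q i).2 (q j).2)) (hq i j))
  have h2 := hcoc (fun i => (q i).2.1) (fun i => (q i).2.2)
    (fun i j => lt_of_le_of_lt (le_max_right (dist (q i).1 (q j).1) (dist (q i).2 (q j).2)) (hq i j))
  beta_reduce at h1 h2
  unfold tm_zz
  linarith

def tm_neg (p : S2) : S2 := ⟨-p.1, by
  have h := p.2
  unfold dot at h ⊢
  simp only [Prod.fst_neg, Prod.snd_neg, neg_mul_neg]
  exact h⟩

theorem tm_dot_neg (p : S2) : dot p.1 (tm_neg p).1 = -1 := by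
  have h := p.2
  unfold tm_neg dot
  unfold dot at h
  simp only [Prod.fst_neg, Prod.snd_neg]
  linarith

theorem tm_sa_neg (p q r : V3) (h : 0 < (TT p q r).re) : sa (-p) (-q) (-r) = - sa p q r := by
  unfold sa
  have h1 : TT (-p) (-q) (-r) = (starRingEnd ℂ) (TT p q r) := by
    apply Complex.ext
    · simp only [TT, Complex.conj_re]
      unfold dot
      simp only [Prod.fst_neg, Prod.snd_neg]
      ring
    · simp only [TT, Complex.conj_im]
      unfold dot crs
      simp only [Prod.fst_neg, Prod.snd_neg]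
      ring
  rw [h1, Complex.arg_conj, if_neg]
  intro h2
  have h3 : |Complex.arg (TT p q r)| < Real.pi / 2 := Complex.abs_arg_lt_pi_div_two_iff.2 (Or.inl h)
  rw [h2, abs_of_pos Real.pi_pos] at h3
  linarith [Real.pi_pos]

theorem thom {N : Type*} [MetricSpace N] {c : ℝ} (hc : -1 < c) (F : DD c → N)
    (hF : IsOpenEmbedding F) : ∃ z : List N → ℝ,
      (∃ μ0 > 0, ∀ w ∈ FC 4 (univ : Set N) μ0, pair z (bd w) = 0) ∧
      (∀ l : List N, (∃ x ∈ l, x ∉ range F) → z l = 0) ∧
      ∀ μ > 0, ∃ w ∈ FC 3 (range F) μ, bd w = 0 ∧ pair z w = 4 * Real.pi := by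
  classical
  have hcpt := tm_compactS2
  obtain ⟨c₂, hc₂⟩ : ∃ c₂, c₂ = (c - 1) / 2 := ⟨_, rfl⟩
  obtain ⟨c₁, hc₁⟩ : ∃ c₁, c₁ = (c₂ - 1) / 2 := ⟨_, rfl⟩
  have h1 : -1 < c₁ := by linarith
  have h2 : c₁ < c₂ := by linarith
  have h3 : c₂ < c := by linarith
  have huc : UniformContinuous tm_d := CompactSpace.uniformContinuous_of_continuous tm_d_cont
  rw [Metric.uniformContinuous_iff] at huc
  obtain ⟨δ1, hδ1, hprism⟩ := prism_sa h1
  obtain ⟨δ2, hδ2, hcoc⟩ := sa_cocycle
  obtain ⟨δ3, hδ3, hlip⟩ := huc (c₂ - c₁) (by linarith)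
  obtain ⟨δ, hδ⟩ : ∃ δ, δ = min δ1 (min δ2 δ3) := ⟨_, rfl⟩
  have hδ0 : 0 < δ := by
    rw [hδ]
    exact lt_min hδ1 (lt_min hδ2 hδ3)
  have hδa : δ ≤ δ1 := by rw [hδ]; exact min_le_left _ _
  have hδb : δ ≤ δ2 := by rw [hδ]; exact (min_le_right _ _).trans (min_le_left _ _)
  have hδc : δ ≤ δ3 := by rw [hδ]; exact (min_le_right _ _).trans (min_le_right _ _)
  obtain ⟨μ0, hμ0, hunif⟩ := unif h3 hF hδ0
  -- left inverse
  have p0 : S2 := ⟨(1, 0, 0), by unfold dot; norm_num⟩
  obtain ⟨g, hg⟩ : ∃ g : N → S2 × S2, ∀ q : DD c, g (F q) = q.1 := by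
    refine ⟨fun y => if h : ∃ q : DD c, F q = y then h.choose.1 else (p0, p0), fun q => ?_⟩
    beta_reduce
    have hex : ∃ q' : DD c, F q' = F q := ⟨q, rfl⟩
    rw [dif_pos hex, hF.injective hex.choose_spec]
  obtain ⟨U, hU⟩ : ∃ U : Set N, U = F '' {q | tm_d q.1 < c₂} := ⟨_, rfl⟩
  have hUr : U ⊆ range F := by
    rw [hU]
    exact image_subset_range _ _
  -- closeness
  have hclose : ∀ q q' : DD c, tm_d q.1 ≤ c₂ → dist (F q) (F q') < μ0 → dist q.1 q'.1 < δ := by
    intro q q' hq hqq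
    obtain ⟨q'', hq'', hd⟩ := hunif q hq (F q') hqq
    rw [hF.injective hq''] at hd
    exact hd
  have hnear : ∀ y0 y1 y2 : N, (∀ y ∈ [y0, y1, y2], ∀ y' ∈ [y0, y1, y2], dist y y' < μ0) →
      (∀ y ∈ [y0, y1, y2], y ∉ F '' {q | tm_d q.1 ≤ c₁}) → tm_z3 c₁ U g y0 y1 y2 = 0 := by
    intro y0 y1 y2 hy hy1
    unfold tm_z3
    split_ifs with h
    · obtain ⟨hy0, hy1', hy2⟩ := h
      rw [hU] at hy0 hy1' hy2
      obtain ⟨q0, hq0, rfl⟩ := hy0
      obtain ⟨q1, hq1, rfl⟩ := hy1'
      obtain ⟨q2, hq2, rfl⟩ := hy2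
      rw [hg, hg, hg]
      have hq : ∀ i : Fin 3, ∃ q : DD c, (![q0, q1, q2] i) = q ∧ tm_d q.1 < c₂ ∧ c₁ < tm_d q.1 ∧
          F q ∈ [F q0, F q1, F q2] := by
        intro i
        fin_cases i
        · exact ⟨q0, rfl, hq0, not_le.1 (fun h => hy1 (F q0) (by simp) ⟨q0, h, rfl⟩), by simp⟩
        · exact ⟨q1, rfl, hq1, not_le.1 (fun h => hy1 (F q1) (by simp) ⟨q1, h, rfl⟩), by simp⟩
        · exact ⟨q2, rfl, hq2, not_le.1 (fun h => hy1 (F q2) (by simp) ⟨q2, h, rfl⟩), by simp⟩
      have := tm_zz_near (c₁ := c₁) (δ := δ1) hprism (fun i => (![q0, q1, q2] i).1) (by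
        intro i j
        obtain ⟨qi, hqi, hi1, hi2, hi3⟩ := hq i
        obtain ⟨qj, hqj, hj1, hj2, hj3⟩ := hq j
        beta_reduce
        rw [hqi, hqj]
        exact (hclose qi qj hi1.le (hy _ hi3 _ hj3)).trans_le hδa) (by
        intro i
        obtain ⟨qi, hqi, hi1, hi2, hi3⟩ := hq i
        beta_reduce
        rw [hqi]
        exact hi2)
      exact this
    · rfl
  refine ⟨coch (tm_z3 c₁ U g), ⟨μ0, hμ0, ?_⟩, ?_, ?_⟩
  · intro w hw
    rw [tm_pair_bd]
    rw [← tm_pair_zero w]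
    refine tm_pair_congr hw (fun l hl => ?_)
    obtain ⟨hlen, -, hdist⟩ := hl
    obtain ⟨x0, x1, x2, x3, rfl⟩ : ∃ x0 x1 x2 x3, l = [x0, x1, x2, x3] := by
      match l, hlen with
      | [x0, x1, x2, x3], _ => exact ⟨x0, x1, x2, x3, rfl⟩
    rw [tm_bdl4]
    show tm_z3 c₁ U g x1 x2 x3 - tm_z3 c₁ U g x0 x2 x3 + tm_z3 c₁ U g x0 x1 x3
      - tm_z3 c₁ U g x0 x1 x2 = 0
    by_cases hA : ∃ x ∈ [x0, x1, x2, x3], x ∈ F '' {q | tm_d q.1 ≤ c₁}
    · obtain ⟨x, hx, q, hq, rfl⟩ := hA
      have hq' : tm_d q.1 ≤ c₁ := hq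
      have hall : ∀ y ∈ [x0, x1, x2, x3], ∃ q' : DD c, F q' = y ∧ tm_d q'.1 < c₂ := by
        intro y hy
        obtain ⟨q', hq'y, hqd⟩ := hunif q (hq'.trans h2.le) y (hdist _ hx _ hy)
        refine ⟨q', hq'y, ?_⟩
        have h5 := hlip (hqd.trans_le hδc)
        rw [Real.dist_eq, abs_lt] at h5
        linarith [h5.1]
      obtain ⟨q0, rfl, hq0⟩ := hall x0 (by simp)
      obtain ⟨q1, rfl, hq1⟩ := hall x1 (by simp)
      obtain ⟨q2, rfl, hq2⟩ := hall x2 (by simp)
      obtain ⟨q3, rfl, hq3⟩ := hall x3 (by simp)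
      have m0 : F q0 ∈ U := by rw [hU]; exact ⟨q0, hq0, rfl⟩
      have m1 : F q1 ∈ U := by rw [hU]; exact ⟨q1, hq1, rfl⟩
      have m2 : F q2 ∈ U := by rw [hU]; exact ⟨q2, hq2, rfl⟩
      have m3 : F q3 ∈ U := by rw [hU]; exact ⟨q3, hq3, rfl⟩
      unfold tm_z3
      rw [if_pos ⟨m1, m2, m3⟩, if_pos ⟨m0, m2, m3⟩, if_pos ⟨m0, m1, m3⟩, if_pos ⟨m0, m1, m2⟩,
        hg, hg, hg, hg]
      have hqq : ∀ i : Fin 4, ∃ q : DD c, (![q0, q1, q2, q3] i) = q ∧ tm_d q.1 < c₂ ∧
          F q ∈ [F q0, F q1, F q2, F q3] := by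
        intro i
        fin_cases i
        · exact ⟨q0, rfl, hq0, by simp⟩
        · exact ⟨q1, rfl, hq1, by simp⟩
        · exact ⟨q2, rfl, hq2, by simp⟩
        · exact ⟨q3, rfl, hq3, by simp⟩
      have := tm_zz_cocycle (c₁ := c₁) (δ := δ2) hcoc (fun i => (![q0, q1, q2, q3] i).1) (by
        intro i j
        obtain ⟨qi, hqi, hi1, hi3⟩ := hqq i
        obtain ⟨qj, hqj, hj1, hj3⟩ := hqq j
        beta_reduce
        rw [hqi, hqj]
        exact (hclose qi qj hi1.le (hdist _ hi3 _ hj3)).trans_le hδb)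
      exact this
    · push Not at hA
      have e : ∀ y0 y1 y2, y0 ∈ [x0, x1, x2, x3] → y1 ∈ [x0, x1, x2, x3] →
          y2 ∈ [x0, x1, x2, x3] → tm_z3 c₁ U g y0 y1 y2 = 0 := by
        intro y0 y1 y2 m0 m1 m2
        have hsub : ∀ y ∈ [y0, y1, y2], y ∈ [x0, x1, x2, x3] := by
          intro y hy
          simp only [List.mem_cons, List.not_mem_nil, or_false] at hy
          rcases hy with rfl | rfl | rfl
          · exact m0
          · exact m1
          · exact m2
        exact hnear y0 y1 y2 (fun y hy y' hy' => hdist _ (hsub y hy) _ (hsub y' hy'))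
          (fun y hy => hA y (hsub y hy))
      rw [e x1 x2 x3 (by simp) (by simp) (by simp), e x0 x2 x3 (by simp) (by simp) (by simp),
        e x0 x1 x3 (by simp) (by simp) (by simp), e x0 x1 x2 (by simp) (by simp) (by simp)]
      norm_num
  · rintro l ⟨x, hx, hxF⟩
    unfold coch
    split
    · rename_i x0 x1 x2
      unfold tm_z3
      rw [if_neg]
      rintro ⟨m0, m1, m2⟩
      simp only [List.mem_cons, List.not_mem_nil, or_false] at hx
      rcases hx with rfl | rfl | rfl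
      · exact hxF (hUr m0)
      · exact hxF (hUr m1)
      · exact hxF (hUr m2)
    · rfl
  · intro μ hμ
    have hneg : ∀ p : S2, dot p.1 (tm_neg p).1 < c := fun p => by
      rw [tm_dot_neg]
      exact hc
    obtain ⟨u, hu⟩ : ∃ u : S2 → N, u = fun p => F ⟨(p, tm_neg p), hneg p⟩ := ⟨_, rfl⟩
    have hucont : Continuous u := by
      rw [hu]
      refine hF.continuous.comp ?_
      refine Continuous.subtype_mk ?_ _
      refine continuous_id.prodMk ?_
      unfold tm_neg
      exact Continuous.subtype_mk (by fun_prop) _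
    have huu : UniformContinuous u := CompactSpace.uniformContinuous_of_continuous hucont
    rw [Metric.uniformContinuous_iff] at huu
    obtain ⟨μ1, hμ1, hμ1'⟩ := huu μ hμ
    obtain ⟨μ2, hμ2, hμ2'⟩ := huc 1 one_pos
    obtain ⟨w, hw, hbw, hpw⟩ := sphere_cycle (lt_min hμ1 hμ2)
    refine ⟨push u w, ?_, ?_, ?_⟩
    · have h5 : push u w ∈ Finsupp.supported ℝ ℝ
          (List.map u '' (Sml 3 (univ : Set S2) (min μ1 μ2))) := by
        rw [← Finsupp.lmapDomain_supported]
        exact Submodule.mem_map_of_mem hw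
      refine Finsupp.supported_mono ?_ h5
      rintro _ ⟨l, ⟨hl1, -, hl3⟩, rfl⟩
      refine ⟨by rw [List.length_map]; exact hl1, ?_, ?_⟩
      · intro x hx
        obtain ⟨p, -, rfl⟩ := List.mem_map.1 hx
        rw [hu]
        exact ⟨_, rfl⟩
      · intro x hx y hy
        obtain ⟨p, hp, rfl⟩ := List.mem_map.1 hx
        obtain ⟨q, hq, rfl⟩ := List.mem_map.1 hy
        exact hμ1' ((hl3 p hp q hq).trans_le (min_le_left _ _))
    · rw [← push_bd, hbw, map_zero]
    · rw [tm_pair_push]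
      have h6 : pair (fun l => coch (tm_z3 c₁ U g) (List.map u l)) w =
          pair (fun l => 2 * coch (fun p q r : S2 => sa p.1 q.1 r.1) l) w := by
        refine tm_pair_congr hw (fun l hl => ?_)
        obtain ⟨hlen, -, hdist⟩ := hl
        obtain ⟨p, q, r, rfl⟩ : ∃ p q r, l = [p, q, r] := by
          match l, hlen with
          | [p, q, r], _ => exact ⟨p, q, r, rfl⟩
        show tm_z3 c₁ U g (u p) (u q) (u r) = 2 * sa p.1 q.1 r.1
        have hmU : ∀ p, u p ∈ U := by
          intro p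
          rw [hU, hu]
          refine ⟨⟨(p, tm_neg p), hneg p⟩, ?_, rfl⟩
          show dot p.1 (tm_neg p).1 < c₂
          rw [tm_dot_neg]
          linarith
        have hgu : ∀ p, g (u p) = (p, tm_neg p) := by
          intro p
          rw [hu]
          exact hg _
        unfold tm_z3
        rw [if_pos ⟨hmU p, hmU q, hmU r⟩, hgu, hgu, hgu]
        unfold tm_zz
        have hbt : ∀ p q : S2, tm_bt c₁ (p, tm_neg p) (q, tm_neg q) = 0 := by
          intro p q
          unfold tm_bt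
          rw [if_neg]
          rintro ⟨h7, -⟩
          have h8 : tm_d (p, tm_neg p) = -1 := tm_dot_neg p
          rw [h8] at h7
          linarith
        rw [hbt, hbt, hbt]
        have hdot : ∀ p q : S2, dist p q < min μ1 μ2 → 0 < dot p.1 q.1 := by
          intro p q hpq
          have h7 : dist (p, q) (p, p) < μ2 := by
            rw [Prod.dist_eq]
            simp only [dist_self]
            refine max_lt hμ2 ?_
            rw [dist_comm]
            exact hpq.trans_le (min_le_right _ _)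
          have h8 := hμ2' h7
          have h9 : tm_d (p, p) = 1 := p.2
          rw [h9, Real.dist_eq, abs_lt] at h8
          have h10 : tm_d (p, q) = dot p.1 q.1 := rfl
          rw [h10] at h8
          linarith [h8.1]
        have hre : 0 < (TT p.1 q.1 r.1).re := by
          show 0 < 1 + dot p.1 q.1 + dot q.1 r.1 + dot r.1 p.1
          have e1 := hdot p q (hdist p (by simp) q (by simp))
          have e2 := hdot q r (hdist q (by simp) r (by simp))
          have e3 := hdot r p (hdist r (by simp) p (by simp))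
          linarith
        have h11 := tm_sa_neg p.1 q.1 r.1 hre
        show sa p.1 q.1 r.1 - sa (-p.1) (-q.1) (-r.1) - (0 - 0 + 0) = 2 * sa p.1 q.1 r.1
        rw [h11]
        ring
      rw [h6, tm_pair_two, hpw]
      ring


end J_thom

alias thom := J_thom.thom

end Pool.Agent.Helper10.UC
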