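import Mathlib
import Pool.Agent.Helper10.UC.Base
import Pool.Agent.Helper10.UC.J_lfa
import Pool.Agent.Helper10.UC.J_no_inf
import Pool.Agent.Helper10.UC.J_thom
import Pool.Agent.Helper10.UC.J_lifts
import Pool.Agent.Helper10.UC.J_lift_emb
import Pool.Agent.Helper10.UC.J_contr_piece
import Pool.Agent.Helper10.UC.J_infinite_fibre
import Pool.Agent.Helper10.UC.J_infinite_pi1
import Pool.Agent.Helper10.UC.J_loop_data
import Pool.Agent.Helper10.UC.J_pathM
import Pool.Agent.Helper10.UC.J_homeoQ
import Pool.Agent.Helper10.UC.J_embQ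
import Pool.Agent.Helper10.UC.J_noRat
import Pool.Agent.Helper10.UC.J_smoothM
import Pool.Agent.Helper10.UC.J_eqsM_homog

open Set Filter Topology
open scoped LinearAlgebra.Projectivization

noncomputable section

namespace Pool.Agent.Helper10.UC

universe u v

theorem local_piece : ∃ K : DD (-1 / 3) → MM, IsOpenEmbedding K := by
  obtain ⟨h⟩ := homeoQ
  obtain ⟨K, hK⟩ := embQ
  exact ⟨K ∘ h, hK.comp h.isOpenEmbedding⟩

def north : S2 := ⟨(0, 0, 1), by simp [dot]⟩
def south : S2 := ⟨(0, 0, -1), by simp [dot]⟩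
def east : S2 := ⟨(1, 0, 0), by simp [dot]⟩
def west : S2 := ⟨(-1, 0, 0), by simp [dot]⟩

def q00 {c : ℝ} (hc : -1 < c) : DD c := ⟨(east, west), by simp [dot, east, west]; linarith⟩

theorem pre_DD {c : ℝ} (hc : -1 < c) (hc1 : c ≤ 1) : PreconnectedSpace (DD c) := by
  have h1 : IsPreconnected {q : DD c | q.1.1.1 ≠ -north.1} := by
    haveI := contr_piece hc hc1 north
    have : IsPreconnected (range (fun x : {q : DD c // q.1.1.1 ≠ -north.1} => x.1)) :=
      isPreconnected_range continuous_subtype_val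
    rwa [Subtype.range_coe_subtype] at this
  have h2 : IsPreconnected {q : DD c | q.1.1.1 ≠ -south.1} := by
    haveI := contr_piece hc hc1 south
    have : IsPreconnected (range (fun x : {q : DD c // q.1.1.1 ≠ -south.1} => x.1)) :=
      isPreconnected_range continuous_subtype_val
    rwa [Subtype.range_coe_subtype] at this
  have h3 : IsPreconnected ({q : DD c | q.1.1.1 ≠ -north.1} ∪ {q : DD c | q.1.1.1 ≠ -south.1}) := by
    refine IsPreconnected.union (q00 hc) ?_ ?_ h1 h2
    · intro h
      have := congrArg (fun p : V3 => p.1) h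
      simp [q00, east, north] at this
    · intro h
      have := congrArg (fun p : V3 => p.1) h
      simp [q00, east, south] at this
  have h4 : ({q : DD c | q.1.1.1 ≠ -north.1} ∪ {q : DD c | q.1.1.1 ≠ -south.1}) = univ := by
    ext q
    simp only [mem_union, mem_setOf_eq, mem_univ, iff_true]
    by_contra hcon
    push Not at hcon
    have := congrArg (fun p : V3 => p.2.2) (hcon.1.symm.trans hcon.2)
    simp [north, south] at this
    norm_num at this
  rw [h4] at h3
  exact ⟨h3⟩

theorem infinite_piM (x : MM) : Infinite (FundamentalGroup MM x) := by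
  haveI : PathConnectedSpace MM := isPathConnected_iff_pathConnectedSpace.1 pathM
  obtain ⟨Φ, hΦ, h0, γ, hγ, hγM, hper, u, hu, h⟩ := loop_data
  exact infinite_pi1 (X := MM) (fun x => Φ x.1) (hΦ.comp continuous_subtype_val)
    (fun x => h0 x.1 x.2) (fun θ => ⟨γ θ, hγM θ⟩) (hγ.subtype_mk _)
    (fun θ => Subtype.ext (hper θ)) u hu h x

theorem no_embedding {E : Type u} {N : Type v} [TopologicalSpace E] [SimplyConnectedSpace E]
    {p : E → MM} (hp : IsCoveringMap p) {k : ℕ} [TopologicalSpace N] [CompactSpace N] [T2Space N]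
    [ChartedSpace (EuclideanSpace ℝ (Fin k)) N] (f : E → N) : ¬ IsOpenEmbedding f := by
  intro hf
  haveI : SecondCountableTopology N :=
    ChartedSpace.secondCountable_of_sigmaCompact (EuclideanSpace ℝ (Fin k)) N
  letI : MetricSpace N := TopologicalSpace.metrizableSpaceMetric N
  have hL : LFA N := lfa_of_charted (k := k)
  obtain ⟨K, hK⟩ := local_piece
  have hc : (-1 : ℝ) < -1 / 3 := by norm_num
  have hc1 : (-1 / 3 : ℝ) ≤ 1 := by norm_num
  haveI := pre_DD hc hc1
  haveI : PathConnectedSpace MM := isPathConnected_iff_pathConnectedSpace.1 pathM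
  haveI := infinite_fibre hp (K (q00 hc)) (infinite_piM _)
  let y := Infinite.natEmbedding (p ⁻¹' {K (q00 hc)})
  have hl := fun j : ℕ => lifts hp hc hc1 K hK.continuous (q00 hc) (y j).1 (y j).2
  choose F hFc hFp hF0 using hl
  have hFe : ∀ j, IsOpenEmbedding (F j) := fun j => (lift_emb hp hK).1 (F j) (hFc j) (hFp j)
  have hdis : ∀ i j, i ≠ j → Disjoint (range (F i)) (range (F j)) := by
    intro i j hij
    refine (lift_emb hp hK).2 (F i) (F j) (hFc i) (hFc j) (hFp i) (hFp j) ⟨q00 hc, ?_⟩
    rw [hF0, hF0]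
    intro h
    exact hij (y.injective (Subtype.ext h))
  have ht := fun j : ℕ => thom hc (f ∘ F j) (hf.comp (hFe j))
  choose z hz1 hz2 hz3 using ht
  refine no_inf hL z hz1 (e := 4 * Real.pi) (by positivity) ?_
  intro j μ hμ
  obtain ⟨w, hw, hbd, hpair⟩ := hz3 j μ hμ
  have hmono : FC 3 (range (f ∘ F j)) μ ≤ FC 3 (univ : Set N) μ :=
    Finsupp.supported_mono (fun l hl => ⟨hl.1, fun x _ => mem_univ x, hl.2.2⟩)
  refine ⟨w, hmono hw, hbd, ?_⟩
  intro i
  by_cases hij : i = j
  · subst hij
    simp [hpair]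
  · rw [if_neg hij]
    unfold pair
    rw [Finsupp.linearCombination_apply, Finsupp.sum]
    refine Finset.sum_eq_zero (fun l hl => ?_)
    have hl' : l ∈ Sml 3 (range (f ∘ F j)) μ := hw hl
    have : z i l = 0 := by
      apply hz2 i
      obtain ⟨h3, hr, _⟩ := hl'
      match l, h3, hr with
      | a :: l', _, hr =>
        refine ⟨a, by simp, ?_⟩
        have ha := hr a (by simp)
        rintro ⟨s, hs⟩
        obtain ⟨t, htt⟩ := ha
        have h5 : F i s = F j t := hf.injective (hs.trans htt.symm)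
        exact (Set.disjoint_left.1 (hdis i j hij)) ⟨s, rfl⟩ ⟨t, h5.symm⟩
    rw [this]; simp

end Pool.Agent.Helper10.UC
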