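import Mathlib
import Pool.Agent.Helper10.UC.Base
import Pool.Agent.Helper10.UC.J_isOpenMap_mk
import Pool.Agent.Helper10.UC.J_contAt_rep
import Pool.Agent.Helper10.UC.J_mem_MM_iff

open Set Filter Topology
open scoped LinearAlgebra.Projectivization

noncomputable section

namespace Pool.Agent.Helper10.UC

namespace J_embQ



/-! ### auxiliary material for `embQ` -/

/-- the principal square root -/
noncomputable def sq13018 (z : ℂ) : ℂ := z ^ (2⁻¹ : ℂ)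

theorem sq_sq13018 (z : ℂ) : sq13018 z ^ 2 = z := Complex.cpow_ofNat_inv_pow z 2

theorem sq_re_pos13018 {z : ℂ} (h : 0 < z.re) : 0 < (sq13018 z).re := by
  unfold sq13018
  rw [Complex.cpow_inv_two_re]
  apply Real.sqrt_pos.2
  have := norm_nonneg z
  linarith

theorem sq_unique13018 {u z : ℂ} (h : u ^ 2 = z) (hu : 0 < u.re) : sq13018 z = u := by
  rw [← h]; exact Complex.sq_cpow_two_inv hu

theorem sq_contAt13018 {z : ℂ} (h : 0 < z.re) : ContinuousAt sq13018 z :=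
  continuousAt_cpow_const (Or.inl h)

theorem ne_zero_of_re13018 {z : ℂ} (h : 0 < z.re) : z ≠ 0 := by
  rintro rfl; simp at h

theorem inv_re_pos13018 {z : ℂ} (h : 0 < z.re) : 0 < (z⁻¹).re := by
  rw [Complex.inv_re]
  exact div_pos h (Complex.normSq_pos.2 (ne_zero_of_re13018 h))

/-- a branch of the cone over the elliptic curve -/
noncomputable def ee13018 (x : ℂ) : Fin 4 → ℂ :=
  ![x, sq13018 (1 - x ^ 2), sq13018 (1 + x ^ 2), sq13018 (1 + 2 * x ^ 2)]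

theorem ee0_13018 (x : ℂ) : ee13018 x 0 = x := rfl
theorem ee1_13018 (x : ℂ) : ee13018 x 1 = sq13018 (1 - x ^ 2) := rfl
theorem ee2_13018 (x : ℂ) : ee13018 x 2 = sq13018 (1 + x ^ 2) := rfl
theorem ee3_13018 (x : ℂ) : ee13018 x 3 = sq13018 (1 + 2 * x ^ 2) := rfl

theorem EC_ee13018 (x : ℂ) : EC (ee13018 x) := by
  constructor
  · rw [ee0_13018, ee1_13018, ee2_13018, sq_sq13018, sq_sq13018]; ring
  · rw [ee0_13018, ee1_13018, ee3_13018, sq_sq13018, sq_sq13018]; ring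

theorem ee_ne13018 (x : ℂ) : ee13018 x ≠ 0 := by
  intro h
  have h0 : ee13018 x 0 = 0 := congrFun h 0
  have h1 : ee13018 x 1 = 0 := congrFun h 1
  rw [ee0_13018] at h0
  rw [ee1_13018] at h1
  have h2 := sq_sq13018 (1 - x ^ 2)
  rw [h1, h0] at h2
  norm_num at h2

theorem seg_ne13018 {a b : Fin 4 → ℂ} (w : ℂ) (ha : a ≠ 0) (hb : b ≠ 0) : seg a b w ≠ 0 := by
  obtain ⟨i, hi⟩ := Function.ne_iff.1 ha
  obtain ⟨j, hj⟩ := Function.ne_iff.1 hb
  intro h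
  exact mul_ne_zero hi hj (congrFun h (some (i, j)))

theorem GG_ee13018 (x y : ℂ) : GG (ee13018 x) (ee13018 y) = 1 - (2 * x) ^ 2 - (2 * y) ^ 2 := by
  unfold GG
  simp only [mul_pow, ee0_13018, ee1_13018, sq_sq13018]
  ring

theorem GG_smul13018 (l m : ℂ) (a b : Fin 4 → ℂ) :
    GG (fun i => l * a i) (fun i => m * b i) = (l * m) ^ 2 * GG a b := by
  unfold GG
  ring

/-- the open piece of the quadric -/
abbrev QQ13018 := {Z : ℂ × ℂ × ℂ // Z.1 ^ 2 + Z.2.1 ^ 2 + Z.2.2 ^ 2 = 1 ∧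
    ‖Z.1‖ ^ 2 + ‖Z.2.1‖ ^ 2 + ‖Z.2.2‖ ^ 2 < 2}

/-- the homogeneous coordinates of the embedding -/
noncomputable def kk13018 (Z : ℂ × ℂ × ℂ) : Ix → ℂ :=
  seg (ee13018 (Z.1 / 2)) (ee13018 (Z.2.1 / 2)) Z.2.2

theorem kk_ne13018 (Z : ℂ × ℂ × ℂ) : kk13018 Z ≠ 0 :=
  seg_ne13018 _ (ee_ne13018 _) (ee_ne13018 _)

theorem kk_mem13018 {Z : ℂ × ℂ × ℂ} (hZ : Z.1 ^ 2 + Z.2.1 ^ 2 + Z.2.2 ^ 2 = 1) :
    Projectivization.mk ℂ (kk13018 Z) (kk_ne13018 Z) ∈ MM := by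
  refine (mem_MM_iff _).2 ⟨_, _, _, ee_ne13018 _, ee_ne13018 _, EC_ee13018 _, EC_ee13018 _, ?_, rfl⟩
  rw [GG_ee13018]
  have h1 : 2 * (Z.1 / 2) = Z.1 := by ring
  have h2 : 2 * (Z.2.1 / 2) = Z.2.1 := by ring
  rw [h1, h2, ← hZ]
  ring

/-- the embedding -/
noncomputable def KK13018 (Z : QQ13018) : MM :=
  ⟨Projectivization.mk ℂ (kk13018 Z.1) (kk_ne13018 Z.1), kk_mem13018 Z.2.1⟩

theorem re_bound13018 {x : ℂ} (h : ‖2 * x‖ ^ 2 < 2) : 0 < (1 - x ^ 2).re ∧ 0 < (1 + x ^ 2).re ∧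
    0 < (1 + 2 * x ^ 2).re := by
  have h1 : ‖x ^ 2‖ < 1 / 2 := by
    rw [norm_pow]
    rw [norm_mul, mul_pow] at h
    norm_num at h
    linarith
  have h2 := Complex.abs_re_le_norm (x ^ 2)
  have h3 := abs_le.1 h2
  have h4 : (2 * x ^ 2).re = 2 * (x ^ 2).re := by
    rw [Complex.mul_re]; norm_num
  refine ⟨?_, ?_, ?_⟩
  · rw [Complex.sub_re, Complex.one_re]; linarith [h3.2]
  · rw [Complex.add_re, Complex.one_re]; linarith [h3.1]
  · rw [Complex.add_re, Complex.one_re, h4]; linarith [h3.1]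

theorem bd1_13018 (Z : QQ13018) : ‖2 * (Z.1.1 / 2)‖ ^ 2 < 2 := by
  have h1 : 2 * (Z.1.1 / 2) = Z.1.1 := by ring
  rw [h1]
  have := Z.2.2
  nlinarith [sq_nonneg ‖Z.1.2.1‖, sq_nonneg ‖Z.1.2.2‖]

theorem bd2_13018 (Z : QQ13018) : ‖2 * (Z.1.2.1 / 2)‖ ^ 2 < 2 := by
  have h1 : 2 * (Z.1.2.1 / 2) = Z.1.2.1 := by ring
  rw [h1]
  have := Z.2.2
  nlinarith [sq_nonneg ‖Z.1.1‖, sq_nonneg ‖Z.1.2.2‖]

theorem ee_contAt13018 {x : ℂ} (h : ‖2 * x‖ ^ 2 < 2) (i : Fin 4) :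
    ContinuousAt (fun x => ee13018 x i) x := by
  obtain ⟨h1, h2, h3⟩ := re_bound13018 h
  fin_cases i
  · exact continuousAt_id
  · exact ContinuousAt.comp (f := fun x : ℂ => 1 - x ^ 2) (g := sq13018) (sq_contAt13018 h1)
      (by fun_prop)
  · exact ContinuousAt.comp (f := fun x : ℂ => 1 + x ^ 2) (g := sq13018) (sq_contAt13018 h2)
      (by fun_prop)
  · exact ContinuousAt.comp (f := fun x : ℂ => 1 + 2 * x ^ 2) (g := sq13018) (sq_contAt13018 h3)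
      (by fun_prop)

theorem kk_cont13018 : Continuous (fun Z : QQ13018 => kk13018 Z.1) := by
  refine continuous_pi fun q => ?_
  rcases q with _ | ⟨i, j⟩
  · show Continuous (fun Z : QQ13018 => Z.1.2.2)
    fun_prop
  · show Continuous (fun Z : QQ13018 => ee13018 (Z.1.1 / 2) i * ee13018 (Z.1.2.1 / 2) j)
    refine Continuous.mul ?_ ?_
    · refine continuous_iff_continuousAt.2 fun Z => ?_
      exact ContinuousAt.comp (f := fun Z : QQ13018 => Z.1.1 / 2) (g := fun x => ee13018 x i)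
        (ee_contAt13018 (bd1_13018 Z) i) (by fun_prop)
    · refine continuous_iff_continuousAt.2 fun Z => ?_
      exact ContinuousAt.comp (f := fun Z : QQ13018 => Z.1.2.1 / 2) (g := fun x => ee13018 x j)
        (ee_contAt13018 (bd2_13018 Z) j) (by fun_prop)

theorem KK_cont13018 : Continuous KK13018 := by
  refine Continuous.subtype_mk ?_ _
  have h1 : Continuous (fun v : {v : Ix → ℂ // v ≠ 0} => Projectivization.mk ℂ v.1 v.2) :=
    continuous_coinduced_rng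
  exact h1.comp (Continuous.subtype_mk kk_cont13018 (fun Z => kk_ne13018 Z.1))

/-- normalised coordinates -/
noncomputable def nm13018 (v : Ix → ℂ) : Ix → ℂ := fun q => v q / v (some (1, 1))

theorem nm_smul13018 (c : ℂ) (hc : c ≠ 0) (v : Ix → ℂ) : nm13018 (c • v) = nm13018 v := by
  funext q
  unfold nm13018
  rw [Pi.smul_apply, Pi.smul_apply, smul_eq_mul, smul_eq_mul, mul_div_mul_left _ _ hc]

theorem nm_contAt13018 {v : Ix → ℂ} (h : v (some (1, 1)) ≠ 0) : ContinuousAt nm13018 v := by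
  refine continuousAt_pi.2 fun q => ?_
  unfold nm13018
  exact ContinuousAt.div (continuous_apply q).continuousAt
    (continuous_apply (some ((1 : Fin 4), (1 : Fin 4)))).continuousAt h

theorem nm_rep13018 (v : Ix → ℂ) (hv : v ≠ 0) :
    nm13018 (Projectivization.mk ℂ v hv).rep = nm13018 v := by
  obtain ⟨a, ha⟩ := Projectivization.exists_smul_eq_mk_rep ℂ v hv
  rw [← ha]
  exact nm_smul13018 (a : ℂ) a.ne_zero v

/-- square root attached to the first factor -/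
noncomputable def AA13018 (t : ℂ) : ℂ := sq13018 (1 + t ^ 2)

/-- the left inverse in normalised coordinates -/
noncomputable def LL13018 (u : Ix → ℂ) : ℂ × ℂ × ℂ :=
  (2 * (u (some (0, 1)) / AA13018 (u (some (0, 1)))),
   2 * (u (some (1, 0)) / AA13018 (u (some (1, 0)))),
   u none / (AA13018 (u (some (0, 1))) * AA13018 (u (some (1, 0)))))

/-- conditions on normalised coordinates -/
def PP13018 (u : Ix → ℂ) : Prop :=
  u (some (1, 1)) ≠ 0 ∧ 0 < (1 + u (some (0, 1)) ^ 2).re ∧ 0 < (1 + u (some (1, 0)) ^ 2).re ∧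
  0 < (u (some (2, 1)) / AA13018 (u (some (0, 1)))).re ∧
  0 < (u (some (3, 1)) / AA13018 (u (some (0, 1)))).re ∧
  0 < (u (some (1, 2)) / AA13018 (u (some (1, 0)))).re ∧
  0 < (u (some (1, 3)) / AA13018 (u (some (1, 0)))).re

theorem AA_sq13018 (t : ℂ) : AA13018 t ^ 2 = 1 + t ^ 2 := sq_sq13018 _

theorem AA_ne13018 {t : ℂ} (h : 0 < (1 + t ^ 2).re) : AA13018 t ≠ 0 := by
  exact ne_zero_of_re13018 (sq_re_pos13018 h)

theorem AA_contAt13018 {t : ℂ} (h : 0 < (1 + t ^ 2).re) : ContinuousAt AA13018 t :=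
  ContinuousAt.comp (f := fun t : ℂ => 1 + t ^ 2) (g := sq13018) (sq_contAt13018 h) (by fun_prop)

/-- the chart of the curve -/
theorem chart13018 {a : Fin 4 → ℂ} (ha : EC a) (h1 : a 1 ≠ 0) {t : ℂ} (ht : t = a 0 / a 1)
    (hA : 0 < (1 + t ^ 2).re) (h2 : 0 < ((a 2 / a 1) / AA13018 t).re)
    (h3 : 0 < ((a 3 / a 1) / AA13018 t).re) :
    a = fun i => (a 1 * AA13018 t) * ee13018 (t / AA13018 t) i := by
  have hA2 := AA_sq13018 t
  have hAne := AA_ne13018 hA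
  have hAre : 0 < (AA13018 t).re := sq_re_pos13018 hA
  obtain ⟨k, hk⟩ : ∃ k, k = AA13018 t := ⟨_, rfl⟩
  rw [← hk] at hA2 hAne h2 h3 hAre ⊢
  obtain ⟨e2, e3⟩ := ha
  have ha0 : a 0 = t * a 1 := by rw [ht]; field_simp
  funext i
  fin_cases i
  · show a 0 = a 1 * k * ee13018 (t / k) 0
    rw [ee0_13018, ha0]
    field_simp
  · show a 1 = a 1 * k * ee13018 (t / k) 1
    rw [ee1_13018, sq_unique13018 (u := k⁻¹) _ (inv_re_pos13018 hAre)]
    · field_simp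
    · field_simp
      rw [hA2]; ring
  · show a 2 = a 1 * k * ee13018 (t / k) 2
    rw [ee2_13018, sq_unique13018 (u := (a 2 / a 1) / k) _ h2]
    · field_simp
    · rw [div_pow, div_pow, e2, ha0]
      field_simp
      rw [hA2]; ring
  · show a 3 = a 1 * k * ee13018 (t / k) 3
    rw [ee3_13018, sq_unique13018 (u := (a 3 / a 1) / k) _ h3]
    · field_simp
    · rw [div_pow, div_pow, e3, ha0]
      field_simp
      rw [hA2]; ring

/-- the chart evaluated at the standard branch -/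
theorem AA_ee13018 {x : ℂ} (h : ‖2 * x‖ ^ 2 < 2) :
    AA13018 (ee13018 x 0 / ee13018 x 1) = (ee13018 x 1)⁻¹ ∧
    0 < (1 + (ee13018 x 0 / ee13018 x 1) ^ 2).re ∧ 0 < (ee13018 x 1).re ∧
    0 < (ee13018 x 2).re ∧ 0 < (ee13018 x 3).re := by
  obtain ⟨h1, h2, h3⟩ := re_bound13018 h
  have hr : 0 < (ee13018 x 1).re := sq_re_pos13018 h1
  have hne := ne_zero_of_re13018 hr
  have hsq : ee13018 x 1 ^ 2 = 1 - x ^ 2 := sq_sq13018 _
  have hone : 1 + (ee13018 x 0 / ee13018 x 1) ^ 2 = (1 - x ^ 2)⁻¹ := by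
    have hne2 : 1 - x ^ 2 ≠ 0 := by rw [← hsq]; exact pow_ne_zero _ hne
    rw [div_pow, hsq, ee0_13018]
    field_simp
    ring
  refine ⟨?_, ?_, hr, sq_re_pos13018 h2, sq_re_pos13018 h3⟩
  · unfold AA13018
    rw [hone]
    apply sq_unique13018
    · rw [inv_pow, hsq]
    · exact inv_re_pos13018 hr
  · rw [hone]
    exact inv_re_pos13018 h1

theorem nm_kk13018 (Z : QQ13018) : PP13018 (nm13018 (kk13018 Z.1)) ∧
    LL13018 (nm13018 (kk13018 Z.1)) = Z.1 ∧ kk13018 Z.1 (some (1, 1)) ≠ 0 := by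
  obtain ⟨a1, a2, a3, a4, a5⟩ := AA_ee13018 (bd1_13018 Z)
  obtain ⟨b1, b2, b3, b4, b5⟩ := AA_ee13018 (bd2_13018 Z)
  have hx : ee13018 (Z.1.1 / 2) 0 = Z.1.1 / 2 := ee0_13018 _
  have hy : ee13018 (Z.1.2.1 / 2) 0 = Z.1.2.1 / 2 := ee0_13018 _
  have hkk : kk13018 Z.1 = seg (ee13018 (Z.1.1 / 2)) (ee13018 (Z.1.2.1 / 2)) Z.1.2.2 := rfl
  rw [hkk]
  obtain ⟨a, ha⟩ : ∃ a, a = ee13018 (Z.1.1 / 2) := ⟨_, rfl⟩
  obtain ⟨b, hb⟩ : ∃ b, b = ee13018 (Z.1.2.1 / 2) := ⟨_, rfl⟩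
  rw [← ha] at a1 a2 a3 a4 a5 hx ⊢
  rw [← hb] at b1 b2 b3 b4 b5 hy ⊢
  have na := ne_zero_of_re13018 a3
  have nb := ne_zero_of_re13018 b3
  have u11 : nm13018 (seg a b Z.1.2.2) (some (1, 1)) = 1 := by
    show a 1 * b 1 / (a 1 * b 1) = 1
    exact div_self (mul_ne_zero na nb)
  have ui1 : ∀ i, nm13018 (seg a b Z.1.2.2) (some (i, 1)) = a i / a 1 := by
    intro i
    show a i * b 1 / (a 1 * b 1) = a i / a 1
    exact mul_div_mul_right _ _ nb
  have u1j : ∀ j, nm13018 (seg a b Z.1.2.2) (some (1, j)) = b j / b 1 := by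
    intro j
    show a 1 * b j / (a 1 * b 1) = b j / b 1
    exact mul_div_mul_left _ _ na
  have un : nm13018 (seg a b Z.1.2.2) none = Z.1.2.2 / (a 1 * b 1) := rfl
  refine ⟨?_, ?_, ?_⟩
  · unfold PP13018
    rw [u11, ui1, ui1, ui1, u1j, u1j, u1j, a1, b1]
    refine ⟨one_ne_zero, a2, b2, ?_, ?_, ?_, ?_⟩
    · rw [div_inv_eq_mul, div_mul_cancel₀ _ na]; exact a4
    · rw [div_inv_eq_mul, div_mul_cancel₀ _ na]; exact a5
    · rw [div_inv_eq_mul, div_mul_cancel₀ _ nb]; exact b4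
    · rw [div_inv_eq_mul, div_mul_cancel₀ _ nb]; exact b5
  · unfold LL13018
    rw [ui1, u1j, un, a1, b1, hx, hy]
    refine Prod.ext ?_ (Prod.ext ?_ ?_)
    · show 2 * (Z.1.1 / 2 / a 1 / (a 1)⁻¹) = Z.1.1
      field_simp
    · show 2 * (Z.1.2.1 / 2 / b 1 / (b 1)⁻¹) = Z.1.2.1
      field_simp
    · show Z.1.2.2 / (a 1 * b 1) / ((a 1)⁻¹ * (b 1)⁻¹) = Z.1.2.2
      field_simp
  · exact mul_ne_zero na nb

theorem KK_rep13018 (Z : QQ13018) : nm13018 (KK13018 Z).1.rep = nm13018 (kk13018 Z.1) :=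
  nm_rep13018 _ _

theorem KK_inj13018 : Function.Injective KK13018 := by
  intro Z Z' h
  apply Subtype.ext
  rw [← (nm_kk13018 Z).2.1, ← (nm_kk13018 Z').2.1, ← KK_rep13018, ← KK_rep13018, h]

/-- surjectivity of `K` onto a set described by open conditions -/
theorem KK_surj13018 (m : MM) (hP : PP13018 (nm13018 m.1.rep))
    (hL : ‖(LL13018 (nm13018 m.1.rep)).1‖ ^ 2 + ‖(LL13018 (nm13018 m.1.rep)).2.1‖ ^ 2 +
      ‖(LL13018 (nm13018 m.1.rep)).2.2‖ ^ 2 < 2) :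
    ∃ Z : QQ13018, Z.1 = LL13018 (nm13018 m.1.rep) ∧ KK13018 Z = m := by
  have hm := m.2
  have hmk : Projectivization.mk ℂ m.1.rep m.1.rep_nonzero = m.1 := Projectivization.mk_rep _
  rw [← hmk] at hm
  obtain ⟨a, b, w, ha, hb, hEa, hEb, hw, hv⟩ := (mem_MM_iff _).1 hm
  obtain ⟨p1, p2, p3, p4, p5, p6, p7⟩ := hP
  have h11 : a 1 * b 1 ≠ 0 := by
    intro h0
    apply p1
    show m.1.rep (some (1, 1)) / m.1.rep (some (1, 1)) = 0
    have : m.1.rep (some (1, 1)) = 0 := by rw [hv]; exact h0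
    rw [this, div_zero]
  have na : a 1 ≠ 0 := left_ne_zero_of_mul h11
  have nb : b 1 ≠ 0 := right_ne_zero_of_mul h11
  have ui1 : ∀ i, nm13018 m.1.rep (some (i, 1)) = a i / a 1 := by
    intro i
    rw [hv]
    show a i * b 1 / (a 1 * b 1) = a i / a 1
    exact mul_div_mul_right _ _ nb
  have u1j : ∀ j, nm13018 m.1.rep (some (1, j)) = b j / b 1 := by
    intro j
    rw [hv]
    show a 1 * b j / (a 1 * b 1) = b j / b 1
    exact mul_div_mul_left _ _ na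
  have un : nm13018 m.1.rep none = w / (a 1 * b 1) := by rw [hv]; rfl
  rw [ui1] at p2
  rw [u1j] at p3
  rw [ui1, ui1] at p4 p5
  rw [u1j, u1j] at p6 p7
  have ca := chart13018 hEa na rfl p2 p4 p5
  have cb := chart13018 hEb nb rfl p3 p6 p7
  obtain ⟨A, hA⟩ : ∃ A, A = AA13018 (a 0 / a 1) := ⟨_, rfl⟩
  obtain ⟨B, hB⟩ : ∃ B, B = AA13018 (b 0 / b 1) := ⟨_, rfl⟩
  have nA : A ≠ 0 := by rw [hA]; exact AA_ne13018 p2
  have nB : B ≠ 0 := by rw [hB]; exact AA_ne13018 p3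
  rw [← hA] at ca
  rw [← hB] at cb
  have hLL : LL13018 (nm13018 m.1.rep) = (2 * (a 0 / a 1 / A), 2 * (b 0 / b 1 / B),
      w / (a 1 * b 1) / (A * B)) := by
    unfold LL13018
    rw [ui1, u1j, un, ← hA, ← hB]
  obtain ⟨x, hx⟩ : ∃ x, x = a 0 / a 1 / A := ⟨_, rfl⟩
  obtain ⟨y, hy⟩ : ∃ y, y = b 0 / b 1 / B := ⟨_, rfl⟩
  obtain ⟨l, hl⟩ : ∃ l, l = a 1 * A := ⟨_, rfl⟩
  obtain ⟨r, hr⟩ : ∃ r, r = b 1 * B := ⟨_, rfl⟩
  have nl : l ≠ 0 := by rw [hl]; exact mul_ne_zero na nA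
  have nr : r ≠ 0 := by rw [hr]; exact mul_ne_zero nb nB
  have hlr : w / (a 1 * b 1) / (A * B) = w / (l * r) := by
    rw [hl, hr, div_div]; congr 1; ring
  rw [hlr, ← hx, ← hy] at hLL
  rw [← hx, ← hl] at ca
  rw [← hy, ← hr] at cb
  have hw2 : w ^ 2 = (l * r) ^ 2 * (1 - (2 * x) ^ 2 - (2 * y) ^ 2) := by
    rw [hw, ca, cb, GG_smul13018, GG_ee13018]
  have hZ : (2 * x) ^ 2 + (2 * y) ^ 2 + (w / (l * r)) ^ 2 = 1 := by
    rw [div_pow, hw2, mul_div_cancel_left₀ _ (pow_ne_zero 2 (mul_ne_zero nl nr))]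
    ring
  rw [hLL] at hL ⊢
  refine ⟨⟨(2 * x, 2 * y, w / (l * r)), hZ, hL⟩, rfl, ?_⟩
  apply Subtype.ext
  rw [← hmk]
  show Projectivization.mk ℂ (kk13018 (2 * x, 2 * y, w / (l * r))) _ = _
  rw [Projectivization.mk_eq_mk_iff']
  refine ⟨(l * r)⁻¹, ?_⟩
  rw [hv]
  funext q
  rw [Pi.smul_apply, smul_eq_mul]
  rcases q with _ | ⟨i, j⟩
  · show (l * r)⁻¹ * w = w / (l * r)
    rw [div_eq_inv_mul]
  · show (l * r)⁻¹ * (a i * b j) = ee13018 (2 * x / 2) i * ee13018 (2 * y / 2) j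
    rw [show 2 * x / 2 = x by ring, show 2 * y / 2 = y by ring]
    have ai : a i = l * ee13018 x i := congrFun ca i
    have bj : b j = r * ee13018 y j := congrFun cb j
    rw [ai, bj]
    field_simp

theorem LL_contAt13018 {u : Ix → ℂ} (h : PP13018 u) : ContinuousAt LL13018 u := by
  obtain ⟨p1, p2, p3, p4, p5, p6, p7⟩ := h
  have c1 : ContinuousAt (fun u : Ix → ℂ => AA13018 (u (some (0, 1)))) u :=
    ContinuousAt.comp (f := fun u : Ix → ℂ => u (some (0, 1))) (g := AA13018)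
      (AA_contAt13018 p2) (continuous_apply (some ((0 : Fin 4), (1 : Fin 4)))).continuousAt
  have c2 : ContinuousAt (fun u : Ix → ℂ => AA13018 (u (some (1, 0)))) u :=
    ContinuousAt.comp (f := fun u : Ix → ℂ => u (some (1, 0))) (g := AA13018)
      (AA_contAt13018 p3) (continuous_apply (some ((1 : Fin 4), (0 : Fin 4)))).continuousAt
  have n1 := AA_ne13018 p2
  have n2 := AA_ne13018 p3
  have d (q : Ix) : ContinuousAt (fun u : Ix → ℂ => u q) u := (continuous_apply q).continuousAt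
  exact ((continuousAt_const.mul ((d _).div c1 n1)).prodMk
    ((continuousAt_const.mul ((d _).div c2 n2)).prodMk
      ((d _).div (c1.mul c2) (mul_ne_zero n1 n2))))

theorem PP_ev13018 {u : Ix → ℂ} (h : PP13018 u) : ∀ᶠ v in 𝓝 u, PP13018 v := by
  obtain ⟨p1, p2, p3, p4, p5, p6, p7⟩ := h
  have c1 : ContinuousAt (fun u : Ix → ℂ => AA13018 (u (some (0, 1)))) u :=
    ContinuousAt.comp (f := fun u : Ix → ℂ => u (some (0, 1))) (g := AA13018)
      (AA_contAt13018 p2) (continuous_apply (some ((0 : Fin 4), (1 : Fin 4)))).continuousAt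
  have c2 : ContinuousAt (fun u : Ix → ℂ => AA13018 (u (some (1, 0)))) u :=
    ContinuousAt.comp (f := fun u : Ix → ℂ => u (some (1, 0))) (g := AA13018)
      (AA_contAt13018 p3) (continuous_apply (some ((1 : Fin 4), (0 : Fin 4)))).continuousAt
  have n1 := AA_ne13018 p2
  have n2 := AA_ne13018 p3
  have d (q : Ix) : ContinuousAt (fun u : Ix → ℂ => u q) u := (continuous_apply q).continuousAt
  have key : ∀ f : (Ix → ℂ) → ℂ, ContinuousAt f u → 0 < (f u).re → ∀ᶠ v in 𝓝 u, 0 < (f v).re := by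
    intro f hf hpos
    have hc : ContinuousAt (fun v => (f v).re) u :=
      ContinuousAt.comp (f := f) (g := Complex.re) Complex.continuous_re.continuousAt hf
    exact hc.eventually (lt_mem_nhds hpos)
  have e1 : ∀ᶠ v in 𝓝 u, v (some (1, 1)) ≠ 0 := (d (some (1, 1))).eventually_ne p1
  have e2 := key (fun v => 1 + v (some (0, 1)) ^ 2) (continuousAt_const.add ((d _).pow 2)) p2
  have e3 := key (fun v => 1 + v (some (1, 0)) ^ 2) (continuousAt_const.add ((d _).pow 2)) p3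
  have e4 := key (fun v => v (some (2, 1)) / AA13018 (v (some (0, 1)))) ((d _).div c1 n1) p4
  have e5 := key (fun v => v (some (3, 1)) / AA13018 (v (some (0, 1)))) ((d _).div c1 n1) p5
  have e6 := key (fun v => v (some (1, 2)) / AA13018 (v (some (1, 0)))) ((d _).div c2 n2) p6
  have e7 := key (fun v => v (some (1, 3)) / AA13018 (v (some (1, 0)))) ((d _).div c2 n2) p7
  filter_upwards [e1, e2, e3, e4, e5, e6, e7] with v h1 h2 h3 h4 h5 h6 h7
  exact ⟨h1, h2, h3, h4, h5, h6, h7⟩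

theorem KK_open13018 : IsOpenMap KK13018 := by
  rw [isOpenMap_iff_nhds_le]
  intro Z s hs
  rw [Filter.mem_map] at hs
  obtain ⟨U, hU, hUs⟩ := (mem_nhds_induced (fun Z : QQ13018 => Z.1) Z _).1 hs
  obtain ⟨hP, hL, h11⟩ := nm_kk13018 Z
  have hc : ContinuousAt (fun x : PP Ix => nm13018 x.rep)
      (Projectivization.mk ℂ (kk13018 Z.1) (kk_ne13018 Z.1)) :=
    contAt_rep nm13018 (fun c hc v _ => nm_smul13018 c hc v) _ _ (nm_contAt13018 h11)
  have hc2 : ContinuousAt (fun m : MM => nm13018 m.1.rep) (KK13018 Z) :=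
    ContinuousAt.comp (f := fun m : MM => m.1) (g := fun x : PP Ix => nm13018 x.rep) hc
      continuous_subtype_val.continuousAt
  have hval : nm13018 (KK13018 Z).1.rep = nm13018 (kk13018 Z.1) := KK_rep13018 Z
  have hLc := LL_contAt13018 hP
  have f1 := PP_ev13018 hP
  have f2 : ∀ᶠ u in 𝓝 (nm13018 (kk13018 Z.1)), LL13018 u ∈ U := by
    apply hLc.eventually
    rw [hL]
    exact hU
  have f3 : ∀ᶠ u in 𝓝 (nm13018 (kk13018 Z.1)),
      ‖(LL13018 u).1‖ ^ 2 + ‖(LL13018 u).2.1‖ ^ 2 + ‖(LL13018 u).2.2‖ ^ 2 < 2 := by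
    have hcN : Continuous (fun z : ℂ × ℂ × ℂ => ‖z.1‖ ^ 2 + ‖z.2.1‖ ^ 2 + ‖z.2.2‖ ^ 2) := by
      fun_prop
    have hc3 : ContinuousAt (fun u => ‖(LL13018 u).1‖ ^ 2 + ‖(LL13018 u).2.1‖ ^ 2 +
        ‖(LL13018 u).2.2‖ ^ 2) (nm13018 (kk13018 Z.1)) :=
      ContinuousAt.comp (f := LL13018)
        (g := fun z : ℂ × ℂ × ℂ => ‖z.1‖ ^ 2 + ‖z.2.1‖ ^ 2 + ‖z.2.2‖ ^ 2) hcN.continuousAt hLc
    refine hc3.eventually (gt_mem_nhds ?_)
    simp only
    rw [hL]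
    exact Z.2.2
  have hc2' : Tendsto (fun m : MM => nm13018 m.1.rep) (𝓝 (KK13018 Z))
      (𝓝 (nm13018 (kk13018 Z.1))) := by
    rw [← hval]; exact hc2
  filter_upwards [hc2'.eventually f1, hc2'.eventually f2, hc2'.eventually f3] with m g1 g2 g3
  obtain ⟨Z', hZ', hK⟩ := KK_surj13018 m g1 g3
  rw [← hK]
  apply hUs
  show Z'.1 ∈ U
  rw [hZ']
  exact g2

-- TARGET: prove this

theorem embQ : ∃ K : {Z : ℂ × ℂ × ℂ // Z.1 ^ 2 + Z.2.1 ^ 2 + Z.2.2 ^ 2 = 1 ∧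
    ‖Z.1‖ ^ 2 + ‖Z.2.1‖ ^ 2 + ‖Z.2.2‖ ^ 2 < 2} → MM, IsOpenEmbedding K :=
  ⟨KK13018, .of_continuous_injective_isOpenMap KK_cont13018 KK_inj13018 KK_open13018⟩


end J_embQ

alias embQ := J_embQ.embQ

end Pool.Agent.Helper10.UC
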